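import Pool.Agent.H980R2.Cont.T01
import Pool.Agent.H980R2.Cross.T03

/-! T08: the row through a word.

`OO_row`: by `lin_rec` (`u = []`) `lin F (x::(q²x)::z) = fac x z * lin (F ∘ ins 0) z`; moving the letter `q²x` to the
right through `z_1`: `lin_exch` with `(x, y) := (q² x, z_1)` (`q·q²x = x`): 
`(x - q² z_1) lin F (u ++ z_1::(q²x)::v) = (q z_1 - q x) lin F (u ++ (q²x)::z_1::v)
   + (z_1 - q² x) lin (F ∘ act u.length) (u ++ (q²x)::z_1::v)`.
Induct on the remaining letters: `lin (fun w => Val x k w zs)`, where `k` = position of the moving letter.

`Val_eq`: general facts, `v` Dyck, moving letter at `k`, remaining letters `zs`, `k + zs.length + 1 = v.length`: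
(dead) if `bal v j` for some `1 ≤ j ≤ k` then `Val x k v zs = 0`: `act k` only changes letters at positions `≥ j`
  (for `false::false` at `k` the flipped letter is matched inside the same block), so the prefix of length `j`
  stays balanced and the final word has at least two returns (T01 `ret_two`).
(inside) if `v` has no balanced prefix of length `1..e`, `bal v (e+1)`, `k < e`: as long as the moving letter has
  not reached `e`, both choices keep the first letter matched with `e` and do not change the letters after `e`;
  the weights `pI + pE = 1`; at the step from `e-1` to `e` (letter `z`): the identity keeps the first letter matched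
  with `e`, `act (e-1)` makes a small arc at `e-1, e`, and then the first letter is matched before (dead), so the
  factor is `pI x z`.
(alive) `v = a ++ s`, `a.length = k+1`, `a` with exactly one return, `s` Dyck: then `Val x k v zs = aw x 0 s zs`:
  if `s = []` it is `oo v = 1`; otherwise `s` starts with `true`: the identity is dead (`bal v (k+1)`), and `act k`
  (letters `false, true` exchanged) gives a word in which the first letter is matched with the last letter of the
  first block of `s`: use (inside), factor `pE x z`, then (alive) again.
For `Val_eq`: `ins 0 w = true::false::w`, `k = 1`. -/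

namespace Pool.Agent.H980R2.Cont

open Pool.Agent.H988R2.Perc Pool.Agent.H980R2.Cross Finset

/-- moving the letter `q²x` to the right end -/
theorem OO_row_aux (x : ℂ) (zs : List ℂ) : ∀ u : List ℂ, Odd (u.length + zs.length) →
    (∀ a ∈ zs, x - q^2 * a ≠ 0) →
    lin oo (u ++ (zs ++ [q^2 * x])) =
      lin (fun w => Val x u.length w zs) (u ++ (q^2 * x) :: zs) := by
  induction zs with
  | nil =>
    intro u _ _
    rfl
  | cons z zs ih =>
    intro u hu hne
    have hu' : Odd ((u ++ [z]).length + zs.length) := by
      rw [List.length_append, List.length_singleton]
      rw [List.length_cons] at hu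
      have e : u.length + 1 + zs.length = u.length + (zs.length + 1) := by ring
      rw [e]
      exact hu
    have h1 := ih (u ++ [z]) hu' (fun a ha => hne a (List.mem_cons_of_mem _ ha))
    have e1 : u ++ (z :: zs ++ [q^2 * x]) = u ++ [z] ++ (zs ++ [q^2 * x]) := by simp
    have e2 : u ++ [z] ++ (q^2 * x) :: zs = u ++ z :: (q^2 * x) :: zs := by simp
    have e3 : (u ++ [z]).length = u.length + 1 := by simp
    rw [e1, h1, e2, e3]
    have hev : Even (u.length + zs.length) := by
      rw [List.length_cons, ← add_assoc] at hu
      rcases Nat.even_or_odd (u.length + zs.length) with h | h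
      · exact h
      · exact absurd hu (Nat.not_odd_iff_even.2 h.add_one)
    have h2 := lin_exch (fun w => Val x (u.length + 1) w zs) u zs (q^2 * x) z hev
    have hz : x - q^2 * z ≠ 0 := hne z (List.mem_cons_self)
    have hq3 := q_cube
    have e4 : q * (q^2 * x) - q^2 * z = x - q^2 * z := by linear_combination x * hq3
    have e5 : q * z - q^2 * (q^2 * x) = q * (z - x) := by linear_combination -(q * x) * hq3
    rw [e4, e5] at h2
    have h3 : (fun w => Val x u.length w (z :: zs)) =
        (fun w => pI x z * Val x (u.length + 1) w zs +
          pE x z * Val x (u.length + 1) (act u.length w) zs) := by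
      funext w
      rfl
    rw [h3, lin_add, lin_smul, lin_smul]
    unfold pI pE
    apply mul_left_cancel₀ hz
    rw [h2]
    field_simp

theorem OO_row (z : List ℂ) (x : ℂ) (hz : Even z.length) (hne : ∀ a ∈ z, x - q^2 * a ≠ 0) :
    OO (x :: (z ++ [q^2 * x])) = fac x z * lin (fun w => Val x 1 (ins 0 w) z) z := by
  have h1 := OO_row_aux x z [x] (by
    rw [List.length_singleton, add_comm]
    exact hz.add_one) hne
  have h2 := lin_rec (fun w => Val x 1 w z) [] z x (by simpa using hz)
  unfold OO
  exact h1.trans h2

end Pool.Agent.H980R2.Cont
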