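import Pool.Agent.H980R2.Cont.T08b
import Pool.Agent.H980R2.Cont.T08

/-! T09: the evaluation at `b = q² x`.

`prs (replicate n 1) ++ [1, c] = replicate (2n+1) 1 ++ [c]`; so the list is `x :: (zn n ++ [q² x])`; `OO_row`, `Val_eq`.
For `w` Dyck of length `2n+2`: `aw x 0 w (zn n) = pE x 0 * pI x 1 * (pE x 1 * pI x 1)^(ret w - 1)` (the first block
starts at the letter `0` and ends at a letter `1`; the others start and end at letters `1`; prove for `h ≤ 1` etc. a
general statement for `aw x h s (replicate m 1)`: it is `(pE x 1 * pI x 1)^(number of returns)` for `h = 0`, and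
`pI x 1 * (…)^…` for `h ≥ 1`).
`fac x (zn n) = (-q² x) * ((x - q²)²)^(2n+1)`; `pE x 0 = -q²`, `pI x 1 = q (1-x)/(x-q²)`,
`pE x 1 = (1 - q² x)/(x - q²)`; `(-q²)(-q²) q = q²`.
`lin (fun w => t^(ret w - 1)) (zn n) = SS n t` as `1 ≤ ret w ≤ n+1` (T01). -/

namespace Pool.Agent.H980R2.Cont

open Pool.Agent.H988R2.Perc Pool.Agent.H980R2.Cross Finset

namespace T09aux

/-- number of returns to height zero, starting at height `h` -/
def rt (h : ℕ) (w : Word) : ℕ :=
  ((List.range w.length).filter
    (fun k => decide (h + (w.take (k+1)).count true = (w.take (k+1)).count false))).length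

theorem ret_eq (w : Word) : ret w = rt 0 w := by
  unfold ret rt bal
  congr 2
  funext k
  simp

theorem filter_succ (n : ℕ) (p : ℕ → Bool) :
    ((List.range (n+1)).filter p).length =
      (if p 0 = true then 1 else 0) + ((List.range n).filter (fun k => p (k+1))).length := by
  rw [List.range_succ_eq_map, List.filter_cons, List.filter_map, Function.comp_def]
  split_ifs with h <;> simp [add_comm]

theorem rt_true (h : ℕ) (s : Word) : rt h (true :: s) = rt (h+1) s := by
  unfold rt
  rw [List.length_cons, filter_succ]
  have h0 : (decide (h + (List.take (0+1) (true :: s)).count true =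
      (List.take (0+1) (true :: s)).count false)) = false := by simp
  rw [h0]
  simp only [Bool.false_eq_true, if_false, zero_add]
  congr 2
  funext k
  simp only [List.take_succ_cons, List.count_cons]
  simp
  constructor <;> intro h <;> omega

theorem rt_false (h : ℕ) (s : Word) :
    rt (h+1) (false :: s) = (if h = 0 then 1 else 0) + rt h s := by
  unfold rt
  rw [List.length_cons, filter_succ]
  have h0 : (decide (h + 1 + (List.take (0+1) (false :: s)).count true =
      (List.take (0+1) (false :: s)).count false)) = decide (h = 0) := by simp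
  rw [h0]
  congr 1
  · simp
  · congr 2
    funext k
    simp only [List.take_succ_cons, List.count_cons]
    simp
    constructor <;> intro h <;> omega

theorem aw_one (x : ℂ) : ∀ (s : Word) (h : ℕ),
    (∀ k, (s.take k).count false ≤ h + (s.take k).count true) →
    s.count false = h + s.count true →
    (h = 0 → aw x 0 s (List.replicate s.length 1) = (pE x 1 * pI x 1)^(rt 0 s)) ∧
    ∀ h', h = h' + 1 → ∃ r, rt h s = r + 1 ∧
      aw x (h'+1) s (List.replicate s.length 1) = pI x 1 * (pE x 1 * pI x 1)^r := by
  intro s
  induction s with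
  | nil =>
    intro h _ hc
    refine ⟨fun _ => ?_, fun h' hh => ?_⟩
    · simp [aw, rt]
    · simp at hc
      omega
  | cons b s ih =>
    intro h hk hc
    cases b with
    | true =>
      have hk' : ∀ k, (s.take k).count false ≤ (h+1) + (s.take k).count true := by
        intro k
        have := hk (k+1)
        simp only [List.take_succ_cons, List.count_cons] at this
        simp at this
        omega
      have hc' : s.count false = (h+1) + s.count true := by
        simp only [List.count_cons] at hc
        simp at hc
        omega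
      obtain ⟨-, ih2⟩ := ih (h+1) hk' hc'
      obtain ⟨r, hr, ha⟩ := ih2 h rfl
      refine ⟨fun h0 => ?_, fun h' hh => ?_⟩
      · subst h0
        rw [List.length_cons, List.replicate_succ]
        have e : aw x 0 (true :: s) (1 :: List.replicate s.length 1) =
            pE x 1 * aw x 1 s (List.replicate s.length 1) := by rw [aw]
        rw [e, ha, rt_true, hr, pow_succ]
        ring
      · subst hh
        refine ⟨r, by rw [rt_true, hr], ?_⟩
        rw [List.length_cons, List.replicate_succ]
        have e : aw x (h'+1) (true :: s) (1 :: List.replicate s.length 1) =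
            aw x (h'+2) s (List.replicate s.length 1) := by
          cases h' <;> rw [aw]
        rw [e]
        exact ha
    | false =>
      have h1 := hk 1
      simp only [List.take_succ_cons, List.take_zero, List.count_cons, List.count_nil] at h1
      simp at h1
      obtain ⟨g, rfl⟩ : ∃ g, h = g + 1 := ⟨h - 1, by omega⟩
      have hk' : ∀ k, (s.take k).count false ≤ g + (s.take k).count true := by
        intro k
        have := hk (k+1)
        simp only [List.take_succ_cons, List.count_cons] at this
        simp at this
        omega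
      have hc' : s.count false = g + s.count true := by
        simp only [List.count_cons] at hc
        simp at hc
        omega
      obtain ⟨ih1, ih2⟩ := ih g hk' hc'
      refine ⟨fun h0 => absurd h0 (by omega), fun h' hh => ?_⟩
      obtain rfl : g = h' := by omega
      rw [rt_false, List.length_cons, List.replicate_succ]
      cases g with
      | zero =>
        refine ⟨rt 0 s, by simp [add_comm], ?_⟩
        have e : aw x (0+1) (false :: s) (1 :: List.replicate s.length 1) =
            pI x 1 * aw x 0 s (List.replicate s.length 1) := by rw [zero_add, aw]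
        rw [e, ih1 rfl]
      | succ g =>
        obtain ⟨r, hr, ha⟩ := ih2 g rfl
        refine ⟨r, by simp [hr], ?_⟩
        have e : aw x (g+1+1) (false :: s) (1 :: List.replicate s.length 1) =
            aw x (g+1) s (List.replicate s.length 1) := by rw [aw]
        rw [e]
        exact ha

theorem aw_zn (n : ℕ) (x : ℂ) {w : Word} (hw : Dyck w) (hl : w.length = 2*n+2) :
    ∃ r, ret w = r + 1 ∧ aw x 0 w (zn n) = pE x 0 * (pI x 1 * (pE x 1 * pI x 1)^r) := by
  have hk := dyck_prefix hw
  have hc := dyck_count hw
  cases w with
  | nil => simp at hl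
  | cons b s =>
    cases b with
    | false =>
      have h1 := hk 1
      simp only [List.take_succ_cons, List.take_zero, List.count_cons, List.count_nil] at h1
      simp at h1
    | true =>
      have hk' : ∀ k, (s.take k).count false ≤ 1 + (s.take k).count true := by
        intro k
        have := hk (k+1)
        simp only [List.take_succ_cons, List.count_cons] at this
        simp at this
        omega
      have hc' : s.count false = 1 + s.count true := by
        simp only [List.count_cons] at hc
        simp at hc
        omega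
      obtain ⟨r, hr, ha⟩ := (aw_one x s 1 hk' hc').2 0 rfl
      refine ⟨r, by rw [ret_eq, rt_true, hr], ?_⟩
      have hsl : s.length = 2*n+1 := by simpa using hl
      have e : aw x 0 (true :: s) (zn n) = pE x 0 * aw x 1 s (List.replicate (2*n+1) 1) := by
        rw [zn, aw]
      rw [e, ← hsl, ha]

theorem prs_one (n : ℕ) : prs (List.replicate n 1) = List.replicate (2*n) 1 := by
  induction n with
  | zero => rfl
  | succ n ih =>
    have : prs (List.replicate (n+1) 1) = 1 :: 1⁻¹ :: prs (List.replicate n 1) := rfl
    rw [this, ih, inv_one]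
    rfl

end T09aux

open T09aux in
theorem OO_eval (n : ℕ) (x : ℂ) (hx : x ≠ 0) (hx2 : x ≠ q^2) :
    OO (x :: 0 :: (prs (List.replicate n 1) ++ [1, q^2 * x])) =
      q^2 * x * (1 - x) * (x - q^2)^(4*n+1) *
        SS n (q * (1 - q^2 * x) * (1 - x) / (x - q^2)^2) := by
  have hlist : x :: 0 :: (prs (List.replicate n 1) ++ [1, q^2 * x]) = x :: (zn n ++ [q^2 * x]) := by
    rw [prs_one, zn, List.replicate_succ']
    simp
  have hzl : (zn n).length = 2*n+2 := by simp [zn]
  have hne : ∀ a ∈ zn n, x - q^2 * a ≠ 0 := by
    intro a ha
    rw [zn, List.mem_cons] at ha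
    rcases ha with rfl | ha
    · simpa using hx
    · rw [List.eq_of_mem_replicate ha, mul_one]
      exact sub_ne_zero.2 hx2
  set t : ℂ := q * (1 - q^2 * x) * (1 - x) / (x - q^2)^2 with ht
  have hx3 : x - q^2 ≠ 0 := sub_ne_zero.2 hx2
  have htt : pE x 1 * pI x 1 = t := by
    rw [ht]
    unfold pE pI
    rw [mul_one, div_mul_div_comm]
    congr 1 <;> ring
  rw [hlist, OO_row (zn n) x (by rw [hzl]; exact ⟨n+1, by ring⟩) hne]
  have hlin : lin (fun w => Val x 1 (ins 0 w) (zn n)) (zn n) = pE x 0 * pI x 1 * SS n t := by
    unfold SS Q lin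
    rw [hzl]
    have h1 : ∀ w ∈ LP (2*n+2), Val x 1 (ins 0 w) (zn n) * Fw w (zn n) =
        pE x 0 * pI x 1 * ∑ j ∈ range (n+1), (if ret w = j+1 then (1:ℂ) else 0) * Fw w (zn n) * t^j := by
      intro w hw
      obtain ⟨hwl, hwd⟩ := mem_LP.1 hw
      obtain ⟨r, hr, ha⟩ := aw_zn n x hwd hwl
      have hle := ret_le hwd
      rw [Val_eq w hwd (zn n) x (by rw [hzl, hwl]) hne, ha, htt,
        Finset.sum_eq_single_of_mem r (by rw [mem_range]; omega)]
      · rw [if_pos hr]
        ring
      · intro j _ hj
        rw [if_neg (by omega)]
        ring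
    rw [Finset.sum_congr rfl h1, ← Finset.mul_sum, Finset.sum_comm]
    congr 1
    apply Finset.sum_congr rfl
    intro j _
    rw [Finset.sum_mul]
  have hfac : fac x (zn n) = (-q^2 * x) * ((x - q^2)^2)^(2*n+1) := by
    unfold fac zn
    rw [List.map_cons, List.prod_cons, List.map_replicate, List.prod_replicate]
    simp only [mul_zero, sub_zero, zero_sub, mul_one]
    rw [← pow_two]
    ring
  rw [hlin, hfac]
  have hE : pE x 0 = -q^2 := by
    unfold pE
    rw [mul_zero, sub_zero, zero_sub, neg_div, mul_div_assoc, div_self hx, mul_one]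
  have hI : pI x 1 = q * (1 - x) / (x - q^2) := by
    unfold pI
    rw [mul_one]
  rw [hE, hI]
  have hq := q_cube
  have h4 : ((x - q^2)^2)^(2*n+1) = (x - q^2)^(4*n+1) * (x - q^2) := by
    rw [← pow_mul, ← pow_succ]
    congr 1
    ring
  rw [h4]
  have h5 : q^2 * q^2 * q = q^2 := by
    have : q^2 * q^2 * q = q^3 * q^2 := by ring
    rw [this, hq, one_mul]
  have h6 : (x - q^2) * (q * (1 - x) / (x - q^2)) = q * (1 - x) := mul_div_cancel₀ _ hx3
  calc -q^2 * x * ((x - q^2)^(4*n+1) * (x - q^2)) *
        (-q^2 * (q * (1 - x) / (x - q^2)) * SS n t)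
      = q^2 * q^2 * x * (x - q^2)^(4*n+1) * SS n t *
          ((x - q^2) * (q * (1 - x) / (x - q^2))) := by ring
    _ = (q^2 * q^2 * q) * x * (1 - x) * (x - q^2)^(4*n+1) * SS n t := by rw [h6]; ring
    _ = q^2 * x * (1 - x) * (x - q^2)^(4*n+1) * SS n t := by rw [h5]

end Pool.Agent.H980R2.Cont
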