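import Mathlib
import Pool.Agent.H988R2.Perc.Defs
import Pool.Agent.H980R2.Cross.Defs

/-!
Definitions for the exact law of the number of contacts of the flat end of a half-infinite strip
of `ℤ²` (rotated by 45 degrees) with its right side, critical bond percolation.
-/

namespace Pool.Agent.H980R2.Cont

open Pool.Agent.H988R2.Perc Pool.Agent.H980R2.Cross Finset

/-! ## words -/

/-- the prefix of length `k` has as many opening as closing letters -/
def bal (w : Word) (k : ℕ) : Prop := (w.take k).count true = (w.take k).count false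

instance (w : Word) (k : ℕ) : Decidable (bal w k) := by unfold bal; infer_instance

/-- number of balanced nonempty prefixes (number of outermost arcs of a Dyck word) -/
def ret (w : Word) : ℕ := ((List.range w.length).filter (fun k => bal w (k+1))).length

/-- indicator: the first letter is matched with the last letter -/
noncomputable def oo (w : Word) : ℂ := if ret w = 1 then 1 else 0

/-- indicator: exactly two outermost arcs, the first one ends at the letter `j-1` -/
noncomputable def dd (j : ℕ) (w : Word) : ℂ := if ret w = 2 ∧ bal w j then 1 else 0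

noncomputable def OO (l : List ℂ) : ℂ := lin oo l

noncomputable def DD (j : ℕ) (l : List ℂ) : ℂ := lin (dd j) l

/-- the list `t₁, 1/t₁, t₂, 1/t₂, …` -/
noncomputable def prs (us : List ℂ) : List ℂ := us.flatMap (fun t => [t, t⁻¹])

/-- the odd function of `x` of the functional relation -/
noncomputable def HH (x : ℂ) (us : List ℂ) (y b : ℂ) : ℂ :=
  (x - x⁻¹) * (us.map (fun t => (x + x⁻¹ - (t + t⁻¹))^2)).prod * (x + x⁻¹ - (y + y⁻¹)) *
    (x + x⁻¹ - (b + b⁻¹)) * (x⁻¹)^(us.length+1) * OO (x :: 0 :: (prs us ++ [y, b]))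

/-- sum over the cube roots -/
noncomputable def D3 (x : ℂ) (us : List ℂ) (y b : ℂ) : ℂ :=
  HH x us y b + HH (q*x) us y b + HH (q^2*x) us y b

noncomputable def WW (x : ℂ) (us : List ℂ) : ℂ :=
  (x^3 - x⁻¹^3) * (us.map (fun t => x^3 + x⁻¹^3 - (t^3 + t⁻¹^3))).prod

/-! ## the row through a word -/

/-- weight of `act` when the letter `q²x` moves to the right through the letter `z` -/
noncomputable def pE (x z : ℂ) : ℂ := (z - q^2*x) / (x - q^2*z)

/-- weight of the identity -/
noncomputable def pI (x z : ℂ) : ℂ := q * (z - x) / (x - q^2*z)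

/-- the moving letter sits at position `k` of `v` and moves to the right through the letters `zs`;
mean value of `oo` of the final word. -/
noncomputable def Val (x : ℂ) : ℕ → Word → List ℂ → ℂ
  | _, v, [] => oo v
  | k, v, z :: zs => pI x z * Val x (k+1) v zs + pE x z * Val x (k+1) (act k v) zs

/-- product over the outermost arcs of `s` of `pE` (first letter) times `pI` (last letter);
`h` is the current height -/
noncomputable def aw (x : ℂ) : ℕ → Word → List ℂ → ℂ
  | 0, true :: s, z :: zs => pE x z * aw x 1 s zs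
  | 1, false :: s, z :: zs => pI x z * aw x 0 s zs
  | h+1, true :: s, _ :: zs => aw x (h+2) s zs
  | h+2, false :: s, _ :: zs => aw x (h+1) s zs
  | 0, [], _ => 1
  | _, _, _ => 0

/-! ## the law -/

/-- the letters `0, 1, …, 1` (`2n+1` ones) -/
noncomputable def zn (n : ℕ) : List ℂ := 0 :: List.replicate (2*n+1) 1

/-- weight of the words with `j+1` outermost arcs -/
noncomputable def Q (n j : ℕ) : ℂ := lin (fun w => if ret w = j+1 then 1 else 0) (zn n)

/-- generating polynomial -/
noncomputable def SS (n : ℕ) (t : ℂ) : ℂ := ∑ j ∈ range (n+1), Q n j * t^j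

/-- the polynomial `(X+1)^(2n+2) Σ Q_j (X+1)^j (X-2)^(n-j)` -/
noncomputable def GG (n : ℕ) (X : ℂ) : ℂ :=
  (X+1)^(2*n+2) * ∑ j ∈ range (n+1), Q n j * (X+1)^j * (X-2)^(n-j)

/-- the product weights -/
noncomputable def dl (n s : ℕ) : ℝ :=
  (s:ℝ) * (s+1) * ∏ i ∈ Icc 1 (s-1),
    (2 * (2*(n:ℝ) + 2*i + 3) * ((n:ℝ) - i)) / ((2*(n:ℝ) - i - 1) * (2*n + i + 4))

/-- tails -/
noncomputable def tl (n k : ℕ) : ℝ := ∑ s ∈ Icc k n, dl n s

/-- total weight -/
noncomputable def tot (n : ℕ) : ℝ := ∑ k ∈ range (n+1), tl n k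

/-! ## states -/

/-- forget the first two faces -/
def sh (R : St) : St where
  rel a b := a = b ∨ (a % 2 = 1 ∧ b % 2 = 1 ∧ R.rel (a+2) (b+2))
  eqv := by
    obtain ⟨hr, hs, ht⟩ := R.eqv
    refine ⟨fun _ => Or.inl rfl, ?_, ?_⟩
    · rintro a b (h | ⟨h1, h2, h3⟩)
      · exact Or.inl h.symm
      · exact Or.inr ⟨h2, h1, hs h3⟩
    · rintro a b c (h | ⟨h1, h2, h3⟩) (k | ⟨k1, k2, k3⟩)
      · exact Or.inl (h.trans k)
      · subst h; exact Or.inr ⟨k1, k2, k3⟩
      · subst k; exact Or.inr ⟨h1, h2, h3⟩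
      · exact Or.inr ⟨h1, k2, ht h3 k3⟩
  odd := by
    rintro a b (h | ⟨h1, h2, _⟩)
    · exact Or.inl h
    · exact Or.inr ⟨h1, h2⟩

/-- the stationary vector with the defect on the left -/
noncomputable def vL (L : ℕ) : St →₀ ℂ := Finsupp.mapDomain sh (PsiX (0 :: List.replicate L 1))

open Classical in
/-- number of odd faces `a < L` joined to the face `L` -/
noncomputable def cnt (L : ℕ) (R : St) : ℕ :=
  ((range L).filter (fun a => a % 2 = 1 ∧ R.rel a L)).card

open Classical in
/-- mass of the states with `cnt = k` -/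
noncomputable def Jk (L k : ℕ) (f : St →₀ ℂ) : ℂ := f.sum fun R a => if cnt L R = k then a else 0

/-! ## percolation -/

/-- the half-infinite strip `0 ≤ u - v ≤ L`, `u + v ≤ 1` -/
def InStrip (L : ℕ) (x : ℤ × ℤ) : Prop := 0 ≤ x.1 - x.2 ∧ x.1 - x.2 ≤ L ∧ x.1 + x.2 ≤ 1

/-- open path inside the half-infinite strip -/
def Joined (L : ℕ) (ω : Conf) : ℤ × ℤ → ℤ × ℤ → Prop :=
  Relation.ReflTransGen (fun a b => OpenAdj ω a b ∧ InStrip L a ∧ InStrip L b)

/-- the vertices of the flat end, not on the right side, joined to the right side `u - v = L` -/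
def touch (L : ℕ) (ω : Conf) : Set (ℤ × ℤ) :=
  {x | x.1 + x.2 = 1 ∧ 0 ≤ x.1 - x.2 ∧ x.1 - x.2 < (L : ℤ) ∧
    ∃ y : ℤ × ℤ, y.1 - y.2 = (L : ℤ) ∧ Joined L ω x y}

end Pool.Agent.H980R2.Cont
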