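import Pool.Agent.H980R2.Cont.T20

/-! T21: a Riemann sum lemma with dominated convergence. -/

namespace Pool.Agent.H980R2.Cont

open Finset Filter Topology MeasureTheory Set

theorem t21_int (a : ℕ → ℝ) (hfin : (Function.support a).Finite) (m : ℕ) :
    ∫ z in Ioi (m : ℝ), a ⌊z⌋₊ = ∑ᶠ k ∈ {k : ℕ | m ≤ k}, a k := by
  classical
  rw [← integral_Ici_eq_integral_Ioi, finsum_mem_eq_sum_filter _ _ hfin]
  have h1 : ∀ z ∈ Ici (m : ℝ), a ⌊z⌋₊ =
      ∑ k ∈ hfin.toFinset, (Ico (k : ℝ) (k + 1)).indicator (fun _ => a k) z := by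
    intro z hz
    have hz0 : (0 : ℝ) ≤ z := le_trans (Nat.cast_nonneg m) hz
    have hmem : ∀ k : ℕ, z ∈ Ico (k : ℝ) (k + 1) ↔ k = ⌊z⌋₊ := by
      intro k
      rw [Set.mem_Ico, eq_comm, Nat.floor_eq_iff hz0]
    by_cases hj : a ⌊z⌋₊ = 0
    · rw [hj]
      symm
      apply Finset.sum_eq_zero
      intro k _
      rw [Set.indicator_apply]
      split_ifs with h
      · rw [(hmem k).1 h, hj]
      · rfl
    · rw [Finset.sum_eq_single ⌊z⌋₊]
      · rw [Set.indicator_of_mem ((hmem _).2 rfl)]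
      · intro k _ hk
        rw [Set.indicator_of_notMem]
        intro h
        exact hk ((hmem k).1 h)
      · intro h
        exact absurd (hfin.mem_toFinset.2 hj) h
  rw [setIntegral_congr_fun measurableSet_Ici h1, integral_finsetSum]
  · rw [Finset.sum_filter]
    apply Finset.sum_congr rfl
    intro k _
    rw [setIntegral_indicator measurableSet_Ico, setIntegral_const]
    split_ifs with h
    · have h' : m ≤ k := h
      have e : Ici (m : ℝ) ∩ Ico (k : ℝ) (k + 1) = Ico (k : ℝ) (k + 1) := by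
        apply Set.inter_eq_self_of_subset_right
        intro z hz
        exact le_trans (by exact_mod_cast h') hz.1
      rw [e]
      simp
    · have h' : ¬ m ≤ k := h
      have e : Ici (m : ℝ) ∩ Ico (k : ℝ) (k + 1) = ∅ := by
        rw [Set.eq_empty_iff_forall_notMem]
        rintro z ⟨hz1, hz2⟩
        have h2 : (k : ℝ) + 1 ≤ m := by exact_mod_cast Nat.lt_of_not_le h'
        exact absurd (lt_of_lt_of_le hz2.2 h2) (not_lt.2 hz1)
      rw [e]
      simp
  · intro k _
    apply Integrable.integrableOn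
    rw [integrable_indicator_iff measurableSet_Ico]
    have h1 : volume (Ico (k : ℝ) (k + 1)) ≠ ⊤ := by simp
    have h2 : ‖a k‖ₑ ≠ ⊤ := by simp
    exact integrableOn_const h1 h2

theorem riemann (a : ℕ → ℕ → ℝ) (r A : ℕ → ℝ) (g h : ℝ → ℝ) (hr : Tendsto r atTop atTop)
    (hA : ∀ᶠ n in atTop, 0 < A n) (ha : ∀ n k, 0 ≤ a n k) (hfin : ∀ n, (Function.support (a n)).Finite)
    (hg : ∀ y, 0 < y → Tendsto (fun n => a n ⌊y * r n⌋₊ / A n) atTop (𝓝 (g y)))
    (hh : IntegrableOn h (Ioi 0))
    (hdom : ∀ᶠ n in atTop, ∀ y, 0 < y → a n ⌊y * r n⌋₊ / A n ≤ h y) (x : ℝ) (hx : 0 ≤ x) :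
    Tendsto (fun n => (∑ᶠ k ∈ {k : ℕ | ⌊x * r n⌋₊ ≤ k}, a n k) / (r n * A n)) atTop
      (𝓝 (∫ y in Ioi x, g y)) := by
  have hr0 : ∀ᶠ n in atTop, 0 < r n := hr.eventually_gt_atTop 0
  have e1 : ∫ y in Ioi x, g y = ∫ y in Ioi (0 : ℝ), (Ioi x).indicator g y := by
    rw [setIntegral_indicator measurableSet_Ioi, Ioi_inter_Ioi, sup_eq_right.2 hx]
  rw [e1]
  have hlim : Tendsto (fun n => ∫ y in Ioi (0 : ℝ), (Ioi ((⌊x * r n⌋₊ : ℝ) / r n)).indicator
      (fun y => a n ⌊y * r n⌋₊ / A n) y) atTop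
      (𝓝 (∫ y in Ioi (0 : ℝ), (Ioi x).indicator g y)) := by
    apply tendsto_integral_filter_of_dominated_convergence h
    · refine Eventually.of_forall fun n => ?_
      apply Measurable.aestronglyMeasurable
      apply Measurable.indicator _ measurableSet_Ioi
      apply Measurable.div_const
      exact (measurable_from_nat (f := a n)).comp
        (Nat.measurable_floor.comp (measurable_id.mul_const (r n)))
    · filter_upwards [hdom, hA] with n hn hAn
      rw [ae_restrict_iff' measurableSet_Ioi]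
      refine Eventually.of_forall fun y hy => ?_
      have h0 : 0 ≤ a n ⌊y * r n⌋₊ / A n := div_nonneg (ha _ _) hAn.le
      rw [Set.indicator_apply]
      split_ifs
      · rw [Real.norm_of_nonneg h0]
        exact hn y hy
      · rw [norm_zero]
        exact h0.trans (hn y hy)
    · exact hh
    · rw [ae_restrict_iff' measurableSet_Ioi]
      have hne : ∀ᵐ y : ℝ, y ≠ x := by
        simp [ae_iff, measure_singleton]
      filter_upwards [hne] with y hyx hy
      rcases lt_or_gt_of_ne hyx with hlt | hgt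
      · have e2 : (Ioi x).indicator g y = 0 :=
          Set.indicator_of_notMem (by simpa using hlt.le) _
        rw [e2]
        apply tendsto_const_nhds.congr'
        have h2 : ∀ᶠ n in atTop, 1 / (x - y) < r n := hr.eventually_gt_atTop _
        filter_upwards [h2, hr0] with n hn hrn
        symm
        apply Set.indicator_of_notMem
        rw [Set.mem_Ioi, not_lt, le_div_iff₀ hrn]
        have h3 : x * r n < ⌊x * r n⌋₊ + 1 := Nat.lt_floor_add_one _
        have h4 : 1 < (x - y) * r n := by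
          rw [div_lt_iff₀ (sub_pos.2 hlt)] at hn
          linarith [mul_comm (r n) (x - y)]
        nlinarith
      · have e2 : (Ioi x).indicator g y = g y := Set.indicator_of_mem hgt _
        rw [e2]
        apply (hg y hy).congr'
        filter_upwards [hr0] with n hrn
        symm
        apply Set.indicator_of_mem
        rw [Set.mem_Ioi, div_lt_iff₀ hrn]
        calc (⌊x * r n⌋₊ : ℝ) ≤ x * r n := Nat.floor_le (mul_nonneg hx hrn.le)
          _ < y * r n := mul_lt_mul_of_pos_right hgt hrn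
  apply hlim.congr'
  filter_upwards [hr0, hA] with n hrn hAn
  have hm0 : (0 : ℝ) ≤ (⌊x * r n⌋₊ : ℝ) / r n := div_nonneg (Nat.cast_nonneg _) hrn.le
  rw [setIntegral_indicator measurableSet_Ioi, Ioi_inter_Ioi, sup_eq_right.2 hm0,
    integral_div, integral_comp_mul_right_Ioi (fun z => a n ⌊z⌋₊) _ hrn,
    div_mul_cancel₀ _ hrn.ne', t21_int (a n) (hfin n), smul_eq_mul]
  change _ = (∑ᶠ k ∈ {k : ℕ | ⌊x * r n⌋₊ ≤ k}, a n k) / (r n * A n)
  generalize (∑ᶠ k ∈ {k : ℕ | ⌊x * r n⌋₊ ≤ k}, a n k) = S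
  field_simp

end Pool.Agent.H980R2.Cont
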