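import Pool.Agent.H980R2.Cont.T02
import Pool.Agent.H980R2.Cross.T03
import Pool.Agent.H980R2.Cross.T05

/-! T03: exchange, recursion, inversion for `OO` and `DD`.

All from `lin_exch, lin_rec, lin_inv1, lin_invN, lin_congr, lin_add, lin_zero, lin_pd` (`H980R2.Cross.T03`) and
T01, T02.  In `OO_exch_even` the exchange relation gives `(qx - q²y) (OO(uyxv) - OO(uxyv)) = 0` as
`(qy - q²x) + (y - x) = qx - q²y` (`q² + q + 1 = 0`); so the equality holds for `x ≠ q y`; extend to all `x` by
polynomiality (`IsPoly`, `IsPoly.eq_of_ne` in `H980R2.Cross.T05`, or `PD.univ`, `eq_of_generic` in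
`H988R2.Perc.T07`).  In `OO_zero_swap`: `OO_exch_zero` with `y = 0` gives `q x OO(0xv) = -q² x OO(x0v)` for
`x ≠ 0`; extend to `x = 0` in the same way.  `OO_inv2`: `OO_zero_swap` twice and `OO_inv1`. -/

namespace Pool.Agent.H980R2.Cont

open Pool.Agent.H988R2.Perc Pool.Agent.H980R2.Cross Finset

theorem T03_len_pos {v : List ℂ} (hv : v ≠ []) : 1 ≤ v.length := by
  cases v with
  | nil => exact absurd rfl hv
  | cons a v => simp

theorem OO_inv1 (x : ℂ) (l : List ℂ) (hx : x ≠ 0) (h : Odd l.length) :
    OO (x :: l) = x^(l.length - 1) * OO (x⁻¹ :: l) := lin_inv1 oo x l hx h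

theorem OO_invN (x : ℂ) (l : List ℂ) (hx : x ≠ 0) (h : Odd l.length) :
    OO (l ++ [x]) = x^(l.length - 1) * OO (l ++ [x⁻¹]) := lin_invN oo x l hx h

theorem OO_pd (N : ℕ) (hN : Even N) : PD N (N-2) OO := lin_pd oo N hN

theorem OO_exch_zero (x y : ℂ) (v : List ℂ) (h : Even v.length) (hv : v ≠ []) :
    (q * x - q^2 * y) * OO (y :: x :: v) = (q * y - q^2 * x) * OO (x :: y :: v) := by
  have hl := T03_len_pos hv
  have h2 : 2 ≤ v.length := by obtain ⟨k, hk⟩ := h; omega
  have h1 := lin_exch oo [] v x y (by simpa using h)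
  have h3 : lin (fun w => oo (act ([] : List ℂ).length w)) ([] ++ x :: y :: v) = 0 := by
    rw [lin_congr (G := fun _ => 0), lin_zero]
    intro w hw hwl
    simp only [List.nil_append, List.length_cons] at hwl
    exact oo_act_zero hw (by omega)
  rw [h3, mul_zero, add_zero] at h1
  exact h1

/-- polynomiality in one entry -/
theorem T03_poly (u v : List ℂ) (h : Odd (u.length + v.length)) :
    T05.IsPoly (fun z => OO (u ++ z :: v)) := by
  have h1 : Even (u.length + v.length + 1) := h.add_one
  obtain ⟨P, _, hP⟩ := (OO_pd _ h1).univ u v rfl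
  exact ⟨P, hP⟩

theorem OO_exch_even (u v : List ℂ) (x y : ℂ) (hu : Even u.length) (hu0 : u ≠ [])
    (hv : Even v.length) (hv0 : v ≠ []) : OO (u ++ y :: x :: v) = OO (u ++ x :: y :: v) := by
  have hul := T03_len_pos hu0
  have hvl := T03_len_pos hv0
  have hgen : ∀ x : ℂ, x ∉ ({q * y} : Finset ℂ) →
      OO (u ++ y :: x :: v) = OO (u ++ x :: y :: v) := by
    intro x hx
    have hx' : x ≠ q * y := fun h => hx (Finset.mem_singleton.mpr h)
    have h1 := lin_exch oo u v x y (hu.add hv)
    have h3 : lin (fun w => oo (act u.length w)) (u ++ x :: y :: v) = lin oo (u ++ x :: y :: v) := by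
      refine lin_congr ?_
      intro w hw hwl
      simp only [List.length_append, List.length_cons] at hwl
      rw [oo_act hw hul (by omega)]
      have : dd (u.length + 1) w = 0 := by
        unfold dd
        rw [if_neg]
        rintro ⟨_, hb⟩
        have := bal_even (by omega) hb
        exact (Nat.not_even_iff_odd.mpr hu.add_one) this
      rw [this, add_zero]
    rw [h3] at h1
    apply mul_left_cancel₀ (T05.gen_ne hx')
    unfold OO
    linear_combination h1 + (y - x) * q_spec * lin oo (u ++ x :: y :: v)
  have e1 : (fun z => OO ((u ++ [y]) ++ z :: v)) = fun z => OO (u ++ y :: z :: v) := by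
    funext z; simp
  have p1 : T05.IsPoly (fun z => OO (u ++ y :: z :: v)) := by
    rw [← e1]
    apply T03_poly
    rw [List.length_append, List.length_singleton]
    have := (hu.add hv).add_one
    rw [show u.length + 1 + v.length = u.length + v.length + 1 by ring]
    exact this
  have p2 : T05.IsPoly (fun z => OO (u ++ z :: y :: v)) := by
    apply T03_poly
    rw [List.length_cons]
    have := (hu.add hv).add_one
    rw [show u.length + (v.length + 1) = u.length + v.length + 1 by ring]
    exact this
  exact T05.IsPoly.eq_of_ne p1 p2 {q * y} hgen x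

theorem OO_exch_odd (u v : List ℂ) (x y : ℂ) (hu : Odd u.length) (hv : Odd v.length) :
    (q * x - q^2 * y) * OO (u ++ y :: x :: v) = (q * x - q^2 * y) * OO (u ++ x :: y :: v) +
      (y - x) * DD (u.length + 1) (u ++ x :: y :: v) := by
  have hul : 1 ≤ u.length := hu.pos
  have hvl : 1 ≤ v.length := hv.pos
  have h1 := lin_exch oo u v x y (hu.add_odd hv)
  have h3 : lin (fun w => oo (act u.length w)) (u ++ x :: y :: v)
      = lin oo (u ++ x :: y :: v) + lin (dd (u.length + 1)) (u ++ x :: y :: v) := by
    rw [← lin_add]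
    refine lin_congr ?_
    intro w hw hwl
    simp only [List.length_append, List.length_cons] at hwl
    exact oo_act hw hul (by omega)
  rw [h3] at h1
  unfold OO DD
  linear_combination h1 + (y - x) * q_spec * lin oo (u ++ x :: y :: v)

theorem OO_rec (u v : List ℂ) (x : ℂ) (hu : u ≠ []) (hv : v ≠ [])
    (h : Even (u.length + v.length)) :
    OO (u ++ x :: (q^2 * x) :: v) = fac x (u ++ v) * OO (u ++ v) := by
  have hul := T03_len_pos hu
  have hvl := T03_len_pos hv
  have h1 := lin_rec oo u v x h
  have h3 : lin (fun w => oo (ins u.length w)) (u ++ v) = lin oo (u ++ v) := by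
    refine lin_congr ?_
    intro w hw hwl
    rw [List.length_append] at hwl
    exact oo_ins hw hul (by omega)
  rw [h3] at h1
  exact h1

end Pool.Agent.H980R2.Cont
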