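import Pool.Agent.H980R2.Cont.T03b
import Pool.Agent.H980R2.Cont.T03

/-! T04: symmetry in the pairs.

Notation `[x,y] = q x - q² y`, `s̄ = s⁻¹`, `t̄ = t⁻¹`, `G(a,b,c,d) = OO (u ++ a::b::c::d::v)`,
`δ(a,b,c,d) = DD (u.length+2) (u ++ a::b::c::d::v)` (`u.length + 2` is even and `≥ 4`).
Swapping `a,b` or `c,d` does not change `G` (`OO_exch_even`); `OO_exch_odd` (prefix `u ++ [a]`) gives
`[b,c] G(a,c,b,d) = [b,c] G(a,b,c,d) + (c-b) δ(a,b,c,d)`.  `δ` satisfies
`[x,y] δ(..y,x..) = [y,x] δ(..x,y..)` at all three places (`DD_exch_left/mid/right`).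
Path: `(s,s̄,t,t̄) → (s,t,s̄,t̄) → (t,s,s̄,t̄) → (t,s,t̄,s̄) → (t,t̄,s,s̄)`; so
`G(t,t̄,s,s̄) - G(s,s̄,t,t̄) = (t-s̄)/[s̄,t] δ(s,s̄,t,t̄) + (t̄-s)/[s,t̄] δ(t,s,t̄,s̄)` and
`δ(t,s,t̄,s̄) = ([t,s̄][t,s][t̄,s̄])/([s̄,t][s,t][s̄,t̄]) δ(s,s̄,t,t̄)` (three swaps); the sum is zero because of the
identity `(t-s̄)[s,t][s,t̄][s̄,t̄] + (t̄-s)[t,s][t,s̄][t̄,s̄] = 0` (for `s s̄ = t t̄ = 1`, `q² + q + 1 = 0`).
This needs `[s̄,t],[s,t],[s̄,t̄],[s,t̄] ≠ 0`, which for fixed `t ≠ 0` holds for all but finitely many `s ≠ 0`; both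
sides are continuous functions of `s ≠ 0` (`OO_pd` and `PD.cont`, or `PD.curve`: multiply by a power of `s`),
so the equality extends to all `s ≠ 0`. -/

namespace Pool.Agent.H980R2.Cont

open Pool.Agent.H988R2.Perc Pool.Agent.H980R2.Cross Finset

namespace T04Aux

open Filter Topology

/-- the identity with all brackets nonzero -/
theorem generic (u v : List ℂ) (s t s' t' : ℂ) (hs : s * s' = 1) (ht : t * t' = 1)
    (hu : Even u.length) (hu0 : u ≠ []) (hv : Even v.length) (hv0 : v ≠ [])
    (h1 : q * s' - q^2 * t ≠ 0) (h2 : q * s - q^2 * t ≠ 0) (h3 : q * s' - q^2 * t' ≠ 0)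
    (h4 : q * s - q^2 * t' ≠ 0) :
    OO (u ++ s :: s' :: t :: t' :: v) = OO (u ++ t :: t' :: s :: s' :: v) := by
  have e1 := OO_exch_odd (u ++ [s]) (t' :: v) s' t (by simpa [Nat.odd_add_one] using hu)
    (by simpa [Nat.odd_add_one] using hv)
  have e2 := OO_exch_even u (s' :: t' :: v) s t hu hu0 (by simpa [Nat.even_add_one] using hv) (by simp)
  have e3 := OO_exch_even (u ++ [t, s]) v s' t' (by simpa [Nat.even_add_one] using hu) (by simp) hv hv0
  have e4 := OO_exch_odd (u ++ [t]) (s' :: v) s t' (by simpa [Nat.odd_add_one] using hu)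
    (by simpa [Nat.odd_add_one] using hv)
  have hE : Even (u.length + v.length) := hu.add hv
  have hE1 : Even ((u ++ [s]).length + (t' :: v).length) := by
    rw [Nat.even_iff] at hE ⊢
    simp only [List.length_append, List.length_cons, List.length_nil]
    omega
  have hE2 : Even (u.length + (s' :: t' :: v).length) := by
    rw [Nat.even_iff] at hE ⊢
    simp only [List.length_cons]
    omega
  have hE3 : Even ((u ++ [t, s]).length + v.length) := by
    rw [Nat.even_iff] at hE ⊢
    simp only [List.length_append, List.length_cons, List.length_nil]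
    omega
  have d1 := DD_exch_mid (u.length + 2) (u ++ [s]) (t' :: v) s' t (by simp) hE1
  have d2 := DD_exch_left (u.length + 2) u (s' :: t' :: v) s t rfl hE2 hu0 (by simp)
  have d3 := DD_exch_right (u.length + 2) (u ++ [t, s]) v s' t' (by simp) hE3 (by simp) hv0
  simp only [List.append_assoc, List.cons_append, List.nil_append, List.length_append,
    List.length_cons, List.length_nil, zero_add] at e1 e2 e3 e4 d1 d2 d3
  have hl : u.length + 1 + 1 = u.length + 2 := rfl
  rw [hl] at e1 e4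
  -- names
  set G0 := OO (u ++ s :: s' :: t :: t' :: v) with hG0
  set G5 := OO (u ++ t :: t' :: s :: s' :: v) with hG5
  set D0 := DD (u.length + 2) (u ++ s :: s' :: t :: t' :: v) with hD0
  set D5 := DD (u.length + 2) (u ++ t :: s :: t' :: s' :: v) with hD5
  have A : (q * s - q^2 * t) * (q * s' - q^2 * t') = (q * t' - q^2 * s') * (q * t - q^2 * s) := by
    linear_combination (q^2 * (1 - q^2)) * hs - (q^2 * (1 - q^2)) * ht
  have B : (t - s') * (q * s - q^2 * t') + (t' - s) * (q * t - q^2 * s') = 0 := by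
    linear_combination (q * (1 - q)) * ht - (q * (1 - q)) * hs
  have C : (q * s' - q^2 * t) * D5 = (q * t - q^2 * s') * D0 := by
    have h5 : (q * s - q^2 * t) * (q * s' - q^2 * t') ≠ 0 := mul_ne_zero h2 h3
    apply mul_left_cancel₀ h5
    calc (q * s - q^2 * t) * (q * s' - q^2 * t') * ((q * s' - q^2 * t) * D5)
        = (q * s' - q^2 * t) * ((q * s - q^2 * t) * ((q * s' - q^2 * t') * D5)) := by ring
      _ = (q * s' - q^2 * t) * ((q * s - q^2 * t) * ((q * t' - q^2 * s') *
            DD (u.length + 2) (u ++ t :: s :: s' :: t' :: v))) := by rw [d3]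
      _ = (q * t' - q^2 * s') * ((q * s' - q^2 * t) * ((q * s - q^2 * t) *
            DD (u.length + 2) (u ++ t :: s :: s' :: t' :: v))) := by ring
      _ = (q * t' - q^2 * s') * ((q * s' - q^2 * t) * ((q * t - q^2 * s) *
            DD (u.length + 2) (u ++ s :: t :: s' :: t' :: v))) := by rw [d2]
      _ = (q * t' - q^2 * s') * (q * t - q^2 * s) * ((q * s' - q^2 * t) *
            DD (u.length + 2) (u ++ s :: t :: s' :: t' :: v)) := by ring
      _ = (q * t' - q^2 * s') * (q * t - q^2 * s) * ((q * t - q^2 * s') * D0) := by rw [d1]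
      _ = _ := by rw [← A]
  have h6 : (q * s' - q^2 * t) * (q * s - q^2 * t') ≠ 0 := mul_ne_zero h1 h4
  apply mul_left_cancel₀ h6
  rw [e3] at e4
  rw [e2] at e4
  linear_combination (-(q * s' - q^2 * t)) * e4 - (q * s - q^2 * t') * e1 - (t' - s) * C - D0 * B

theorem contAt {N d : ℕ} {F : List ℂ → ℂ} (hF : PD N d F) (L : List (ℂ → ℂ)) (hL : L.length = N)
    (s₀ : ℂ) (h : ∀ f ∈ L, ContinuousAt f s₀) :
    ContinuousAt (fun s => F (L.map (fun f => f s))) s₀ := by
  obtain ⟨p, -, hp⟩ := hF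
  have h1 : (fun s => F (L.map (fun f => f s))) =
      fun s => MvPolynomial.eval (fun i : Fin N => (L.getD i (fun _ => 0)) s) p := by
    funext s
    rw [hp _ (by rw [List.length_map, hL])]
    congr 2
    funext i
    rw [List.getD_eq_getElem?_getD, List.getD_eq_getElem?_getD, List.getElem?_map]
    cases L[(i : ℕ)]? <;> simp
  rw [h1]
  have h2 : ContinuousAt (fun s => fun i : Fin N => (L.getD i (fun _ => 0)) s) s₀ := by
    refine continuousAt_pi.mpr fun i => ?_
    have hi : (i : ℕ) < L.length := by rw [hL]; exact i.2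
    rw [List.getD_eq_getElem _ _ hi]
    exact h _ (List.getElem_mem hi)
  exact ((MvPolynomial.continuous_eval p).continuousAt).comp h2

end T04Aux

theorem OO_swap_pairs (u v : List ℂ) (s t : ℂ) (hs : s ≠ 0) (ht : t ≠ 0) (hu : Even u.length)
    (hu0 : u ≠ []) (hv : Even v.length) (hv0 : v ≠ []) :
    OO (u ++ s :: s⁻¹ :: t :: t⁻¹ :: v) = OO (u ++ t :: t⁻¹ :: s :: s⁻¹ :: v) := by
  have hN : Even (u.length + (v.length + 4)) := by
    rw [Nat.even_iff] at hu hv ⊢; omega
  have hpd := OO_pd (u.length + (v.length + 4)) hN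
  have c1 : ContinuousAt (fun z : ℂ => OO (u ++ z :: z⁻¹ :: t :: t⁻¹ :: v)) s := by
    have := T04Aux.contAt hpd (u.map (fun c _ => c) ++ (fun z => z) :: (fun z => z⁻¹) ::
      (fun _ => t) :: (fun _ => t⁻¹) :: v.map (fun c _ => c)) (by simp) s (by
        intro f hf
        simp only [List.mem_append, List.mem_cons, List.mem_map] at hf
        rcases hf with ⟨c, -, rfl⟩ | rfl | rfl | rfl | rfl | ⟨c, -, rfl⟩
        · exact continuousAt_const
        · exact continuousAt_id
        · exact continuousAt_inv₀ hs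
        · exact continuousAt_const
        · exact continuousAt_const
        · exact continuousAt_const)
    simpa [List.map_append, Function.comp_def] using this
  have c2 : ContinuousAt (fun z : ℂ => OO (u ++ t :: t⁻¹ :: z :: z⁻¹ :: v)) s := by
    have := T04Aux.contAt hpd (u.map (fun c _ => c) ++ (fun _ => t) :: (fun _ => t⁻¹) ::
      (fun z => z) :: (fun z => z⁻¹) :: v.map (fun c _ => c)) (by simp) s (by
        intro f hf
        simp only [List.mem_append, List.mem_cons, List.mem_map] at hf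
        rcases hf with ⟨c, -, rfl⟩ | rfl | rfl | rfl | rfl | ⟨c, -, rfl⟩
        · exact continuousAt_const
        · exact continuousAt_const
        · exact continuousAt_const
        · exact continuousAt_id
        · exact continuousAt_inv₀ hs
        · exact continuousAt_const)
    simpa [List.map_append, Function.comp_def] using this
  -- the bad set
  set bad : Set ℂ := {0, q * t, (q * t)⁻¹, (q * t⁻¹)⁻¹, q * t⁻¹} with hbad
  have hfin : bad.Finite := by
    rw [hbad]; exact Set.toFinite _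
  have hev : ∀ᶠ z in nhdsWithin s {s}ᶜ, z ∉ bad := by
    have h1 : (bad \ {s})ᶜ ∈ nhds s :=
      (hfin.subset Set.sdiff_subset).isClosed.isOpen_compl.mem_nhds (by simp)
    filter_upwards [mem_nhdsWithin_of_mem_nhds h1, self_mem_nhdsWithin] with z hz hz2 hz3
    exact hz ⟨hz3, hz2⟩
  have heq : ∀ᶠ z in nhdsWithin s {s}ᶜ, OO (u ++ z :: z⁻¹ :: t :: t⁻¹ :: v) =
      OO (u ++ t :: t⁻¹ :: z :: z⁻¹ :: v) := by
    filter_upwards [hev] with z hz
    simp only [hbad, Set.mem_insert_iff, Set.mem_singleton_iff, not_or] at hz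
    obtain ⟨z0, z1, z2, z3, z4⟩ := hz
    have hq := q_ne_zero
    have key : ∀ a b : ℂ, a ≠ q * b → q * a - q^2 * b ≠ 0 := by
      intro a b hab h
      apply hab
      have h' : q * (a - q * b) = 0 := by linear_combination h
      rcases mul_eq_zero.mp h' with h2 | h2
      · exact absurd h2 hq
      · exact sub_eq_zero.mp h2
    refine T04Aux.generic u v z t z⁻¹ t⁻¹ (mul_inv_cancel₀ z0) (mul_inv_cancel₀ ht) hu hu0 hv hv0
      (key _ _ ?_) (key _ _ z1) (key _ _ ?_) (key _ _ z4)
    · intro h; apply z2; rw [← h, inv_inv]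
    · intro h; apply z3; rw [← h, inv_inv]
  exact tendsto_nhds_unique_of_eventuallyEq (c1.tendsto.mono_left nhdsWithin_le_nhds)
    (c2.tendsto.mono_left nhdsWithin_le_nhds) heq

end Pool.Agent.H980R2.Cont
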