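import Pool.Agent.H980R2.Cont.T03b
import Pool.Agent.H980R2.Cont.T04

/-! T05: consequences for `HH`. -/

namespace Pool.Agent.H980R2.Cont

open Pool.Agent.H988R2.Perc Pool.Agent.H980R2.Cross Finset

theorem t05_prs_cons (t : ℂ) (us : List ℂ) : prs (t :: us) = t :: t⁻¹ :: prs us := by
  simp [prs]

theorem t05_prs_length (us : List ℂ) : (prs us).length = 2 * us.length := by
  induction us with
  | nil => simp [prs]
  | cons t us ih => rw [t05_prs_cons, List.length_cons, List.length_cons, ih, List.length_cons]; ring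

theorem t05_perm {us us' : List ℂ} (hp : us.Perm us') (h0 : ∀ t ∈ us, t ≠ 0) (u v : List ℂ)
    (hu : Even u.length) (hu0 : u ≠ []) (hv : Even v.length) (hv0 : v ≠ []) :
    OO (u ++ (prs us ++ v)) = OO (u ++ (prs us' ++ v)) := by
  induction hp generalizing u with
  | nil => rfl
  | cons t _ ih =>
    rw [t05_prs_cons, t05_prs_cons]
    have h1 := ih (fun s hs => h0 s (List.mem_cons_of_mem _ hs)) (u ++ [t, t⁻¹])
      (by rw [List.length_append]; exact hu.add ⟨1, rfl⟩) (by simp [hu0])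
    simpa [List.append_assoc] using h1
  | swap s t l =>
    simp only [t05_prs_cons, List.cons_append]
    refine OO_swap_pairs u (prs l ++ v) t s (h0 t (by simp)) (h0 s (by simp)) hu hu0 ?_ ?_
    · rw [List.length_append, t05_prs_length]
      exact (even_two_mul _).add hv
    · simp [hv0]
  | trans h1 _ ih1 ih2 =>
    exact (ih1 h0 u hu hu0).trans (ih2 (fun t ht => h0 t (h1.mem_iff.2 ht)) u hu hu0)

theorem HH_perm {us us' : List ℂ} (hp : us.Perm us') (h0 : ∀ t ∈ us, t ≠ 0) (x y b : ℂ) :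
    HH x us y b = HH x us' y b := by
  have h1 := t05_perm hp h0 [x, 0] [y, b] ⟨1, rfl⟩ (by simp) ⟨1, rfl⟩ (by simp)
  simp only [List.cons_append, List.nil_append] at h1
  unfold HH
  rw [h1, hp.length_eq, (hp.map _).prod_eq]

theorem HH_inv (x : ℂ) (hx : x ≠ 0) (us : List ℂ) (y b : ℂ) : HH x⁻¹ us y b = - HH x us y b := by
  have hl : (0 :: (prs us ++ [y, b]) : List ℂ).length = 2 * us.length + 3 := by
    rw [List.length_cons, List.length_append, t05_prs_length]
    rfl
  have h1 := OO_inv1 x (0 :: (prs us ++ [y, b])) hx (by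
    rw [hl]; exact ⟨us.length + 1, by ring⟩)
  rw [hl, show 2 * us.length + 3 - 1 = (us.length + 1) + (us.length + 1) by omega, pow_add] at h1
  have h2 : (fun t : ℂ => (x⁻¹ + x - (t + t⁻¹)) ^ 2) = fun t : ℂ => (x + x⁻¹ - (t + t⁻¹)) ^ 2 := by
    funext t
    rw [add_comm x⁻¹ x]
  unfold HH
  rw [h1, inv_inv, h2, inv_pow, add_comm x⁻¹ x]
  have h3 : x ^ (us.length + 1) ≠ 0 := pow_ne_zero _ hx
  field_simp
  ring

theorem D3_rot (x : ℂ) (us : List ℂ) (y b : ℂ) : D3 (q * x) us y b = D3 x us y b := by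
  unfold D3
  have e1 : q * (q * x) = q ^ 2 * x := by ring
  have e2 : q ^ 2 * (q * x) = x := by
    rw [← mul_assoc, ← pow_succ, q_cube, one_mul]
  rw [e1, e2]
  ring

theorem D3_inv (x : ℂ) (hx : x ≠ 0) (us : List ℂ) (y b : ℂ) : D3 x⁻¹ us y b = - D3 x us y b := by
  have hq : q ≠ 0 := q_ne_zero
  unfold D3
  have f1 : q = (q ^ 2)⁻¹ :=
    eq_inv_of_mul_eq_one_left (show q * q ^ 2 = 1 by rw [← pow_succ', q_cube])
  have f2 : q ^ 2 = q⁻¹ :=
    eq_inv_of_mul_eq_one_left (show q ^ 2 * q = 1 by rw [← pow_succ, q_cube])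
  have e1 : q * x⁻¹ = (q ^ 2 * x)⁻¹ := by
    rw [mul_inv, ← f1]
  have e2 : q ^ 2 * x⁻¹ = (q * x)⁻¹ := by
    rw [mul_inv, ← f2]
  rw [e1, e2, HH_inv x hx, HH_inv (q ^ 2 * x) (mul_ne_zero (pow_ne_zero _ hq) hx),
    HH_inv (q * x) (mul_ne_zero hq hx)]
  ring

/-- inversion of the last variable -/
theorem HH_invb (x : ℂ) (us : List ℂ) (y b : ℂ) (hb : b ≠ 0) :
    HH x us y b = b^(2 * us.length + 2) * HH x us y b⁻¹ := by
  have hl : (x :: 0 :: (prs us ++ [y]) : List ℂ).length = 2 * us.length + 3 := by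
    rw [List.length_cons, List.length_cons, List.length_append, t05_prs_length]
    rfl
  have h1 := OO_invN b (x :: 0 :: (prs us ++ [y])) hb (by
    rw [hl]; exact ⟨us.length + 1, by ring⟩)
  rw [hl, show 2 * us.length + 3 - 1 = 2 * us.length + 2 by omega] at h1
  simp only [List.cons_append, List.append_assoc, List.nil_append] at h1
  unfold HH
  rw [h1, inv_inv, add_comm b⁻¹ b]
  ring

end Pool.Agent.H980R2.Cont
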