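import Pool.Agent.H980R2.Cont.T03b
import Pool.Agent.H980R2.Cont.T05

/-! T06: `HH` and `D3` are Laurent polynomials of degree `≤ 3n+3`, and interpolation.

`OO_poly0`: `E(x) = OO (x::0::v)`, `v.length = m` even, `≥ 2`, is a polynomial of degree `≤ m` (`OO_pd`,
`PD.univ`), `E(0) = 0` (`OO_zero_swap` at `x = 0`: `OO(0::0::v) = -q OO(0::0::v)`, `1 + q ≠ 0`), and
`E(x) = x^m E(x⁻¹)` (`OO_inv1`); so the coefficients satisfy `e_k = e_{m-k}`, `e_0 = 0 = e_m`, i.e.
`E(x) = x P(x)` with `deg P ≤ m - 2`.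
`HH_poly`: `x^(3n+3) HH x = (x²-1) ∏ (x² - (t+t⁻¹) x + 1)² (x² - Y x + 1)(x² - B x + 1) P(x)`, `n = us.length`,
`m = 2n+2`, degree `≤ 2 + 4n + 4 + 2n = 6n+6` (`x^{3n+3} = x · x^{2n} · x² · x^n`, `x^{-(n+1)} E = x^{-n} P`).
`D3_ratio` (generic `us`): for fixed `x' ≠ 0` with `WW x' ≠ 0`, the polynomial
`x^(3n+3) (D3 x * WW x' - D3 x' * WW x)` has degree `≤ 6n+6` and vanishes at the `6n+6` distinct points `x` with
`x³ ∈ {1,-1} ∪ {t³, t⁻³ : t ∈ us}` (`D3_zero, D3_rot, D3_inv`; at `x = ±1`: `D3_inv` gives `D3 = -D3`) and at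
`x'`; if `WW x' = 0` then `D3 x' = 0` as well and both sides are 0. -/

namespace Pool.Agent.H980R2.Cont

open Pool.Agent.H988R2.Perc Pool.Agent.H980R2.Cross Finset Polynomial

theorem T06_one_add_q : (1 : ℂ) + q ≠ 0 := by
  intro h
  have h1 := q_spec
  have h2 : q = -1 := by linear_combination h
  rw [h2] at h1
  norm_num at h1

theorem OO_poly0 (v : List ℂ) (hv : Even v.length) (hv0 : v ≠ []) :
    ∃ P : ℂ[X], P.natDegree ≤ v.length - 2 ∧ ∀ x, OO (x :: 0 :: v) = x * P.eval x := by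
  obtain ⟨m, hm⟩ : ∃ m, m = v.length := ⟨_, rfl⟩
  have hm2 : 2 ≤ m := by
    have h1 : 0 < v.length := List.length_pos_iff.2 hv0
    obtain ⟨k, hk⟩ := hv
    omega
  have hev : Even (m + 2) := by
    rw [hm]
    exact hv.add (by decide)
  obtain ⟨E, hE1, hE2⟩ := (OO_pd (m + 2) hev).univ [] (0 :: v) (by simp [hm])
  have hE3 : ∀ x, OO (x :: 0 :: v) = E.eval x := fun x => by
    rw [← hE2 x]
    rfl
  have hdeg : E.natDegree ≤ m := hE1.trans (by omega)
  have h0 : E.eval 0 = 0 := by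
    have h1 := OO_zero_swap 0 v hv hv0
    rw [hE3 0] at h1
    have h2 : (1 + q) * E.eval 0 = 0 := by linear_combination h1
    exact (mul_eq_zero.1 h2).resolve_left T06_one_add_q
  have hinv : ∀ x : ℂ, x ≠ 0 → E.eval x = x ^ m * E.eval x⁻¹ := by
    intro x hx
    have h1 := OO_inv1 x (0 :: v) hx (by
      rw [List.length_cons]
      exact hv.add_one)
    rw [hE3, hE3, List.length_cons, Nat.add_sub_cancel, ← hm] at h1
    exact h1
  have hrefl : reflect m E = E := by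
    have hinf : Set.Infinite {x : ℂ | x ≠ 0} := by
      have : ({x : ℂ | x ≠ 0} : Set ℂ) = ({0} : Set ℂ)ᶜ := by
        ext x
        simp
      rw [this]
      exact (Set.finite_singleton 0).infinite_compl
    refine Polynomial.eq_of_infinite_eval_eq _ _ (hinf.mono fun x hx => ?_)
    have hx' : x⁻¹ ≠ 0 := inv_ne_zero hx
    let _ : Invertible (x⁻¹) := invertibleOfNonzero hx'
    have h1 := eval₂_reflect_mul_pow (RingHom.id ℂ) x⁻¹ m E hdeg
    have h2 : (⅟(x⁻¹) : ℂ) = x := by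
      rw [invOf_eq_inv, inv_inv]
    rw [h2] at h1
    have h3 := hinv x⁻¹ hx'
    rw [inv_inv] at h3
    have h4 : eval x (reflect m E) * (x⁻¹) ^ m = (x⁻¹) ^ m * eval x E := by
      rw [← h3]
      exact h1
    have h5 : (x⁻¹) ^ m ≠ 0 := pow_ne_zero _ hx'
    have h6 : (x⁻¹) ^ m * eval x (reflect m E) = (x⁻¹) ^ m * eval x E := by
      rw [← h4]
      ring
    exact mul_left_cancel₀ h5 h6
  have hc0 : E.coeff 0 = 0 := by
    rw [coeff_zero_eq_eval_zero]
    exact h0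
  have hcm : E.coeff m = 0 := by
    rw [← hrefl, coeff_reflect, revAt_le le_rfl, Nat.sub_self]
    exact hc0
  have hdeg' : E.natDegree ≤ m - 1 := by
    rw [natDegree_le_iff_coeff_eq_zero]
    intro k hk
    rcases eq_or_ne k m with h | h
    · rw [h]
      exact hcm
    · exact coeff_eq_zero_of_natDegree_lt (by omega)
  refine ⟨E.divX, ?_, fun x => ?_⟩
  · rw [natDegree_divX_eq_natDegree_tsub_one]
    omega
  · rw [hE3]
    conv_lhs => rw [← divX_mul_X_add E]
    rw [hc0]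
    simp only [eval_mul, eval_X, map_zero, add_zero]
    ring

theorem T06_prs_length (us : List ℂ) : (prs us).length = 2 * us.length := by
  induction us with
  | nil => rfl
  | cons t us ih =>
    have : prs (t :: us) = t :: t⁻¹ :: prs us := rfl
    rw [this, List.length_cons, List.length_cons, List.length_cons, ih]
    ring

/-- the quadratic factor -/
noncomputable def T06_qf (c : ℂ) : ℂ[X] := Polynomial.X ^ 2 - C c * Polynomial.X + 1

theorem T06_qf_deg (c : ℂ) : (T06_qf c).natDegree ≤ 2 := by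
  unfold T06_qf
  compute_degree

theorem T06_qf_eval (c x : ℂ) (hx : x ≠ 0) : (T06_qf c).eval x = x * (x + x⁻¹ - c) := by
  unfold T06_qf
  simp only [eval_add, eval_sub, eval_pow, eval_X, eval_mul, eval_C, eval_one]
  field_simp
  ring

theorem T06_prod (us : List ℂ) : ∃ R : ℂ[X], R.natDegree ≤ 4 * us.length ∧
    ∀ x, x ≠ 0 → R.eval x = x ^ (2 * us.length) *
      (us.map (fun t => (x + x⁻¹ - (t + t⁻¹))^2)).prod := by
  induction us with
  | nil => exact ⟨1, by simp, fun x _ => by simp⟩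
  | cons t us ih =>
    obtain ⟨R, hR1, hR2⟩ := ih
    refine ⟨(T06_qf (t + t⁻¹)) ^ 2 * R, ?_, fun x hx => ?_⟩
    · refine natDegree_mul_le.trans ?_
      have h1 := natDegree_pow_le_of_le 2 (T06_qf_deg (t + t⁻¹))
      rw [List.length_cons]
      omega
    · rw [eval_mul, eval_pow, T06_qf_eval _ _ hx, hR2 x hx, List.length_cons, List.map_cons,
        List.prod_cons]
      ring

theorem HH_poly (us : List ℂ) (y b : ℂ) :
    ∃ P : ℂ[X], P.natDegree ≤ 6 * us.length + 6 ∧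
      ∀ x, x ≠ 0 → x^(3 * us.length + 3) * HH x us y b = P.eval x := by
  have hlen : (prs us ++ [y, b]).length = 2 * us.length + 2 := by
    rw [List.length_append, T06_prs_length]
    rfl
  obtain ⟨P, hP1, hP2⟩ := OO_poly0 (prs us ++ [y, b]) (by
    rw [hlen]
    exact ⟨us.length + 1, by ring⟩) (by simp)
  rw [hlen] at hP1
  obtain ⟨R, hR1, hR2⟩ := T06_prod us
  refine ⟨(Polynomial.X ^ 2 - 1) * R * T06_qf (y + y⁻¹) * T06_qf (b + b⁻¹) * P, ?_, fun x hx => ?_⟩
  · have h0 : (Polynomial.X ^ 2 - 1 : ℂ[X]).natDegree ≤ 2 := by compute_degree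
    have h1 := natDegree_mul_le (p := (Polynomial.X ^ 2 - 1 : ℂ[X])) (q := R)
    have h2 := natDegree_mul_le (p := (Polynomial.X ^ 2 - 1 : ℂ[X]) * R) (q := T06_qf (y + y⁻¹))
    have h3 := natDegree_mul_le (p := (Polynomial.X ^ 2 - 1 : ℂ[X]) * R * T06_qf (y + y⁻¹))
      (q := T06_qf (b + b⁻¹))
    have h4 := natDegree_mul_le (p := (Polynomial.X ^ 2 - 1 : ℂ[X]) * R * T06_qf (y + y⁻¹) *
      T06_qf (b + b⁻¹)) (q := P)
    have h5 := T06_qf_deg (y + y⁻¹)
    have h6 := T06_qf_deg (b + b⁻¹)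
    omega
  · rw [eval_mul, eval_mul, eval_mul, eval_mul, T06_qf_eval _ _ hx, T06_qf_eval _ _ hx, hR2 x hx]
    simp only [eval_sub, eval_pow, eval_X, eval_one]
    unfold HH
    rw [hP2 x]
    obtain ⟨K, hK⟩ : ∃ K, K = (us.map (fun t => (x + x⁻¹ - (t + t⁻¹))^2)).prod := ⟨_, rfl⟩
    rw [← hK]
    have e1 : x ^ (3 * us.length + 3) * (x⁻¹) ^ (us.length + 1) = x ^ (2 * us.length) * x ^ 2 := by
      rw [inv_pow, mul_inv_eq_iff_eq_mul₀ (pow_ne_zero _ hx), ← pow_add, ← pow_add]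
      congr 1
      ring
    have e2 : (x - x⁻¹) * x = x ^ 2 - 1 := by
      field_simp
    calc x ^ (3 * us.length + 3) * ((x - x⁻¹) * K * (x + x⁻¹ - (y + y⁻¹)) *
          (x + x⁻¹ - (b + b⁻¹)) * x⁻¹ ^ (us.length + 1) * (x * eval x P))
        = (x ^ (3 * us.length + 3) * (x⁻¹) ^ (us.length + 1)) * ((x - x⁻¹) * x) * K *
          (x + x⁻¹ - (y + y⁻¹)) * (x + x⁻¹ - (b + b⁻¹)) * eval x P := by ring
      _ = _ := by
        rw [e1, e2]
        ring

end Pool.Agent.H980R2.Cont
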