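import Pool.Agent.H980R2.Cont.T05

/-! T05b: consequences for `HH`.

`HH_sym` (first for `us = t :: rest`, then by `HH_perm`): write `w = prs rest ++ [y,b]`, `m = w.length = 2 us.length`.
`OO ((q t)::0::t::t⁻¹::w) = -q² OO (0::(q t)::t::t⁻¹::w)` (`OO_zero_swap`, `-q⁻¹ = -q²`)
`= -q² fac (q t) (0::t⁻¹::w) OO (0::t⁻¹::w)` (`OO_rec`, `u = [0]`, as `q² (q t) = t`).
For `z ≠ 0`: `(q t - q² z)(q t z - q²) = t z (X' - (z + z⁻¹))`, `X' = q² t + q t⁻¹`; and `fac` of `0` is `-t`.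
With `X = q t + (q t)⁻¹`, `U = t + t⁻¹`, so
`HH (q t) = const * (q t - (q t)⁻¹) (X - U)² (X' - U) t^(us.length) OO (0::t⁻¹::w) *
   ∏_{rest} ((X - U_a)(X' - U_a))² * (X-Y)(X'-Y)(X-B)(X'-B)`; under `t ↦ t⁻¹` the numbers `X, X'` are exchanged,
`t^n OO (0::t⁻¹::w) = t^(-n) OO (0::t::w)` (`OO_inv2`, `w.length = 2n`), and
`(q t - q² t⁻¹)(U - X) = (q - q²)(t² + 1 + t⁻²)` is symmetric; `OO` of the list with `t, t⁻¹` exchanged is the same
(`OO_exch_even`).  `D3_zero`: `HH t = 0` (factor), `HH (q² t) = -HH (q² t)⁻¹ = -HH (q t⁻¹) = -HH (q t)`. -/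

namespace Pool.Agent.H980R2.Cont

open Pool.Agent.H988R2.Perc Pool.Agent.H980R2.Cross Finset

theorem t05b_fac1 {t z : ℂ} (ht : t ≠ 0) (hz : z ≠ 0) :
    (q * t - q^2 * z) * (q * t * z - q^2) = t * z * (q * t⁻¹ + q^2 * t - (z + z⁻¹)) := by
  have h := q_cube
  field_simp
  linear_combination (-t - t * z^2 + q * z) * h

theorem t05b_fac_append (x : ℂ) (l l' : List ℂ) : fac x (l ++ l') = fac x l * fac x l' := by
  unfold fac
  rw [List.map_append, List.prod_append]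

theorem t05b_fac_cons (x z : ℂ) (l : List ℂ) :
    fac x (z :: l) = (x - q^2 * z) * (x * z - q^2) * fac x l := by
  unfold fac
  rw [List.map_cons, List.prod_cons]

theorem t05b_prs_cons (t : ℂ) (l : List ℂ) : prs (t :: l) = t :: t⁻¹ :: prs l := rfl

theorem t05b_prs_length (l : List ℂ) : (prs l).length = 2 * l.length := by
  induction l with
  | nil => rfl
  | cons t l ih => rw [t05b_prs_cons, List.length_cons, List.length_cons, ih, List.length_cons]; ring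

theorem t05b_fac_prs {t : ℂ} (ht : t ≠ 0) (l : List ℂ) (h0 : ∀ s ∈ l, s ≠ 0) :
    fac (q * t) (prs l) = t^(2 * l.length) *
      (l.map (fun a => (q * t⁻¹ + q^2 * t - (a + a⁻¹))^2)).prod := by
  induction l with
  | nil => simp [prs, fac]
  | cons a l ih =>
    have ha : a ≠ 0 := h0 a (List.mem_cons_self ..)
    rw [t05b_prs_cons, t05b_fac_cons, t05b_fac_cons, t05b_fac1 ht ha, t05b_fac1 ht (inv_ne_zero ha),
      ih fun s hs => h0 s (List.mem_cons_of_mem _ hs), List.map_cons, List.prod_cons,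
      List.length_cons, inv_inv]
    have e : t * a * (q * t⁻¹ + q^2 * t - (a + a⁻¹)) *
        (t * a⁻¹ * (q * t⁻¹ + q^2 * t - (a⁻¹ + a)) *
          (t^(2 * l.length) * (l.map (fun a => (q * t⁻¹ + q^2 * t - (a + a⁻¹))^2)).prod)) =
        (a * a⁻¹) * (t^(2 * l.length) * t^2) * ((q * t⁻¹ + q^2 * t - (a + a⁻¹))^2 *
          (l.map (fun a => (q * t⁻¹ + q^2 * t - (a + a⁻¹))^2)).prod) := by ring
    rw [e, mul_inv_cancel₀ ha, one_mul, ← pow_add]
    ring_nf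

/-- the value at `q t` -/
theorem t05b_form (t : ℂ) (l : List ℂ) (ht : t ≠ 0) (h0 : ∀ s ∈ l, s ≠ 0) (y b : ℂ)
    (hy : y ≠ 0) (hb : b ≠ 0) :
    HH (q * t) (t :: l) y b =
      ((q - q^2) * (t^2 + 1 + t⁻¹^2))^2 * (q^2 * (q - q^2) * (q⁻¹)^(l.length + 2) * y * b) *
      ((l.map (fun a => (q * t + q^2 * t⁻¹ - (a + a⁻¹))^2)).prod *
        (l.map (fun a => (q * t⁻¹ + q^2 * t - (a + a⁻¹))^2)).prod) *
      ((q * t + q^2 * t⁻¹ - (y + y⁻¹)) * (q * t⁻¹ + q^2 * t - (y + y⁻¹)) *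
        ((q * t + q^2 * t⁻¹ - (b + b⁻¹)) * (q * t⁻¹ + q^2 * t - (b + b⁻¹)))) *
      (t^(l.length + 1) * OO (0 :: t⁻¹ :: (prs l ++ [y, b]))) := by
  have hq := q_cube
  have hq0 := q_ne_zero
  have hqi : q⁻¹ = q^2 := inv_eq_of_mul_eq_one_right (by linear_combination hq)
  have hqt : (q * t)⁻¹ = q^2 * t⁻¹ := by rw [mul_inv, hqi]
  -- the value of `OO`
  have h1 : OO (q * t :: 0 :: (prs (t :: l) ++ [y, b])) = q^2 * t * (q - q^2) *
      (q * t - q^2 * t⁻¹) * (t^(2 * l.length) *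
      (l.map (fun a => (q * t⁻¹ + q^2 * t - (a + a⁻¹))^2)).prod *
        (t * y * (q * t⁻¹ + q^2 * t - (y + y⁻¹)) * (t * b * (q * t⁻¹ + q^2 * t - (b + b⁻¹))))) *
      OO (0 :: t⁻¹ :: (prs l ++ [y, b])) := by
    have ev : Even (prs (t :: l) ++ [y, b]).length := by
      rw [List.length_append, t05b_prs_length]
      exact ⟨(t :: l).length + 1, by simp; ring⟩
    have s1 := OO_zero_swap (q * t) (prs (t :: l) ++ [y, b]) ev (by simp)
    have s2 := OO_rec [0] (t⁻¹ :: (prs l ++ [y, b])) (q * t) (by simp) (by simp)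
      ⟨l.length + 2, by simp [t05b_prs_length]; ring⟩
    have e2 : q^2 * (q * t) = t := by linear_combination t * hq
    rw [e2] at s2
    have e3 : [0] ++ q * t :: t :: t⁻¹ :: (prs l ++ [y, b]) =
        0 :: q * t :: (prs (t :: l) ++ [y, b]) := by
      rw [t05b_prs_cons]
      rfl
    rw [e3, s1] at s2
    have e4 : [0] ++ t⁻¹ :: (prs l ++ [y, b]) = 0 :: t⁻¹ :: (prs l ++ [y, b]) := rfl
    rw [e4, t05b_fac_cons, t05b_fac_cons, t05b_fac_append, t05b_fac_cons, t05b_fac_cons,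
      t05b_fac_prs ht l h0, t05b_fac1 ht hy, t05b_fac1 ht hb] at s2
    have e5 : fac (q * t) [] = 1 := by simp [fac]
    rw [e5, mul_one] at s2
    have e6 : q * t * t⁻¹ = q := by field_simp
    rw [e6] at s2
    have e7 : OO (q * t :: 0 :: (prs (t :: l) ++ [y, b])) =
        -q^2 * (-q * OO (q * t :: 0 :: (prs (t :: l) ++ [y, b]))) := by
      linear_combination (-OO (q * t :: 0 :: (prs (t :: l) ++ [y, b]))) * hq
    rw [e7, s2]
    linear_combination (q^2 * t * (q - q^2) *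
      (q * t - q^2 * t⁻¹) * (t^(2 * l.length) *
      (l.map (fun a => (q * t⁻¹ + q^2 * t - (a + a⁻¹))^2)).prod *
        (t * y * (q * t⁻¹ + q^2 * t - (y + y⁻¹)) * (t * b * (q * t⁻¹ + q^2 * t - (b + b⁻¹))))) *
      OO (0 :: t⁻¹ :: (prs l ++ [y, b]))) * hq
  have h2 : (q * t - q^2 * t⁻¹) * (q * t + q^2 * t⁻¹ - (t + t⁻¹)) =
      -((q - q^2) * (t^2 + 1 + t⁻¹^2)) := by
    field_simp
    linear_combination (-1) * hq
  have h3 : (q * t)⁻¹^((t :: l).length + 1) * (t * t^(2 * l.length) * t * t) =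
      q⁻¹^(l.length + 2) * t^(l.length + 1) := by
    rw [mul_inv, mul_pow, List.length_cons]
    have : t⁻¹^(l.length + 1 + 1) * (t * t^(2 * l.length) * t * t) = t^(l.length + 1) := by
      rw [inv_pow]
      field_simp
      ring
    rw [mul_assoc, this]
  unfold HH
  rw [h1, List.map_cons, List.prod_cons]
  have h4 : (q * t - (q * t)⁻¹) = q * t - q^2 * t⁻¹ := by rw [hqt]
  have h5 : q * t + (q * t)⁻¹ = q * t + q^2 * t⁻¹ := by rw [hqt]
  rw [h4, h5]
  generalize (l.map (fun a => (q * t⁻¹ + q^2 * t - (a + a⁻¹))^2)).prod = P2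
  generalize (l.map (fun a => (q * t + q^2 * t⁻¹ - (a + a⁻¹))^2)).prod = P1
  generalize OO (0 :: t⁻¹ :: (prs l ++ [y, b])) = O
  generalize (q * t + q^2 * t⁻¹ - (y + y⁻¹)) = Y1
  generalize (q * t⁻¹ + q^2 * t - (y + y⁻¹)) = Y2
  generalize (q * t + q^2 * t⁻¹ - (b + b⁻¹)) = B1
  generalize (q * t⁻¹ + q^2 * t - (b + b⁻¹)) = B2
  calc _ = ((q * t - q^2 * t⁻¹) * (q * t + q^2 * t⁻¹ - (t + t⁻¹)))^2 *
        ((q * t)⁻¹^((t :: l).length + 1) * (t * t^(2 * l.length) * t * t)) *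
        (P1 * P2 * Y1 * Y2 * B1 * B2 * (q^2 * (q - q^2)) * y * b * O) := by ring
    _ = _ := by
        rw [h2, h3]
        ring

theorem HH_sym (t : ℂ) (us : List ℂ) (ht : t ∈ us) (h0 : ∀ s ∈ us, s ≠ 0) (y b : ℂ)
    (hy : y ≠ 0) (hb : b ≠ 0) : HH (q * t) us y b = HH (q * t⁻¹) us y b := by
  classical
  have ht0 : t ≠ 0 := h0 t ht
  have hp : us.Perm (t :: us.erase t) := List.perm_cons_erase ht
  have h0' : ∀ s ∈ us.erase t, s ≠ 0 := fun s hs => h0 s (List.mem_of_mem_erase hs)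
  rw [HH_perm hp h0, HH_perm hp h0]
  generalize us.erase t = l at h0'
  -- exchange `t` and `t⁻¹` in the second list
  have e1 : HH (q * t⁻¹) (t :: l) y b = HH (q * t⁻¹) (t⁻¹ :: l) y b := by
    unfold HH
    rw [t05b_prs_cons, t05b_prs_cons, inv_inv]
    have hx := OO_exch_even [q * t⁻¹, 0] (prs l ++ [y, b]) t t⁻¹ ⟨1, rfl⟩ (by simp)
      ⟨l.length + 1, by simp [t05b_prs_length]; ring⟩ (by simp)
    have hx' : OO (q * t⁻¹ :: 0 :: (t⁻¹ :: t :: prs l ++ [y, b])) =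
        OO (q * t⁻¹ :: 0 :: (t :: t⁻¹ :: prs l ++ [y, b])) := hx
    rw [hx', List.map_cons, List.map_cons, inv_inv, add_comm t⁻¹ t, List.length_cons,
      List.length_cons]
  rw [e1, t05b_form t l ht0 h0' y b hy hb, t05b_form t⁻¹ l (inv_ne_zero ht0) h0' y b hy hb,
    inv_inv]
  have ev : Even (prs l ++ [y, b]).length := ⟨l.length + 1, by simp [t05b_prs_length]; ring⟩
  have h1 := OO_inv2 t (prs l ++ [y, b]) ht0 ev (by simp)
  have hlen : (prs l ++ [y, b]).length = (l.length + 1) + (l.length + 1) := by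
    simp [t05b_prs_length]; ring
  rw [hlen] at h1
  have h2 : t⁻¹^(l.length + 1) * OO (0 :: t :: (prs l ++ [y, b])) =
      t^(l.length + 1) * OO (0 :: t⁻¹ :: (prs l ++ [y, b])) := by
    rw [h1, pow_add t (l.length + 1) (l.length + 1), ← mul_assoc, ← mul_assoc, ← mul_pow,
      inv_mul_cancel₀ ht0, one_pow, one_mul]
  rw [h2]
  ring

theorem D3_zero (t : ℂ) (us : List ℂ) (ht : t ∈ us) (h0 : ∀ s ∈ us, s ≠ 0) (y b : ℂ)
    (hy : y ≠ 0) (hb : b ≠ 0) : D3 t us y b = 0 := by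
  have ht0 : t ≠ 0 := h0 t ht
  have hq := q_cube
  have h1 : HH t us y b = 0 := by
    unfold HH
    have : (us.map (fun s => (t + t⁻¹ - (s + s⁻¹))^2)).prod = 0 := by
      apply List.prod_eq_zero
      rw [List.mem_map]
      exact ⟨t, ht, by ring⟩
    rw [this]
    ring
  have h2 : HH (q^2 * t) us y b = - HH (q * t) us y b := by
    have hne : q^2 * t ≠ 0 := mul_ne_zero (pow_ne_zero 2 q_ne_zero) ht0
    have e : (q^2 * t)⁻¹ = q * t⁻¹ := by
      rw [mul_inv]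
      congr 1
      have hq0 := q_ne_zero
      field_simp
      exact hq.symm
    have h3 := HH_inv (q^2 * t) hne us y b
    rw [e, ← HH_sym t us ht h0 y b hy hb] at h3
    rw [h3, neg_neg]
  unfold D3
  rw [h1, h2]
  ring

end Pool.Agent.H980R2.Cont
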