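import Pool.Agent.H980R2.Cont.T06
import Pool.Agent.H980R2.Cont.T05b

/-! T06b: `HH` and `D3` are Laurent polynomials of degree `≤ 3n+3`, and interpolation. -/

namespace Pool.Agent.H980R2.Cont

open Pool.Agent.H988R2.Perc Pool.Agent.H980R2.Cross Finset Polynomial

def Gen (us : List ℂ) : Prop :=
  (∀ t ∈ us, t ≠ 0) ∧ (∀ t ∈ us, t^6 ≠ 1) ∧ us.Pairwise (fun s t => s^3 ≠ t^3 ∧ s^3 * t^3 ≠ 1)

namespace T06b

/-- the numbers `1, -1, t, t⁻¹, …` -/
noncomputable def base (us : List ℂ) : List ℂ := 1 :: -1 :: us.flatMap (fun t => [t, t⁻¹])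

theorem mem_base (us : List ℂ) (s : ℂ) (h : s ∈ base us) :
    s = 1 ∨ s = -1 ∨ ∃ t ∈ us, s = t ∨ s = t⁻¹ := by
  unfold base at h
  simp only [List.mem_cons, List.mem_flatMap, List.not_mem_nil, or_false] at h
  exact h

theorem base_ne_zero (us : List ℂ) (hg : Gen us) (s : ℂ) (h : s ∈ base us) : s ≠ 0 := by
  rcases mem_base us s h with rfl | rfl | ⟨t, ht, rfl | rfl⟩
  · exact one_ne_zero
  · norm_num
  · exact hg.1 _ ht
  · exact inv_ne_zero (hg.1 _ ht)

theorem base_length (us : List ℂ) : (base us).length = 2 * us.length + 2 := by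
  unfold base
  rw [List.length_cons, List.length_cons]
  have : (us.flatMap (fun t => [t, t⁻¹])).length = 2 * us.length := T06_prs_length us
  rw [this]

theorem pairs_nodup : ∀ us : List ℂ, Gen us → ((us.flatMap (fun t => [t, t⁻¹])).map (fun s => s^3)).Nodup
  | [], _ => by simp
  | t :: us, hg => by
    have hg' : Gen us := ⟨fun s hs => hg.1 s (List.mem_cons_of_mem _ hs),
      fun s hs => hg.2.1 s (List.mem_cons_of_mem _ hs), (List.pairwise_cons.1 hg.2.2).2⟩
    have ih := pairs_nodup us hg'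
    have ht0 : t ≠ 0 := hg.1 t List.mem_cons_self
    have ht6 : t^6 ≠ 1 := hg.2.1 t List.mem_cons_self
    have hp := (List.pairwise_cons.1 hg.2.2).1
    have e : ((t :: us).flatMap (fun t => [t, t⁻¹])).map (fun s => s^3) =
        t^3 :: (t⁻¹)^3 :: (us.flatMap (fun t => [t, t⁻¹])).map (fun s => s^3) := by
      simp
    rw [e, List.nodup_cons, List.nodup_cons]
    have hmem : ∀ z : ℂ, z ∈ (us.flatMap (fun t => [t, t⁻¹])).map (fun s => s^3) →
        ∃ s ∈ us, z = s^3 ∨ z = (s⁻¹)^3 := by
      intro z hz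
      simp only [List.mem_map, List.mem_flatMap, List.mem_cons, List.not_mem_nil, or_false] at hz
      obtain ⟨w, ⟨s, hs, hw⟩, rfl⟩ := hz
      exact ⟨s, hs, by rcases hw with rfl | rfl <;> simp⟩
    have ht3 : t^3 ≠ 0 := pow_ne_zero _ ht0
    refine ⟨?_, ?_, ih⟩
    · rw [List.mem_cons, not_or]
      constructor
      · intro h
        apply ht6
        rw [inv_pow] at h
        calc t^6 = t^3 * t^3 := by ring
          _ = t^3 * (t^3)⁻¹ := by rw [← h]
          _ = 1 := mul_inv_cancel₀ ht3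
      · intro h
        obtain ⟨s, hs, h1 | h1⟩ := hmem _ h
        · exact (hp s hs).1 h1
        · apply (hp s hs).2
          have hs0 : s^3 ≠ 0 := pow_ne_zero _ (hg'.1 s hs)
          rw [h1, inv_pow, inv_mul_cancel₀ hs0]
    · intro h
      obtain ⟨s, hs, h1 | h1⟩ := hmem _ h
      · apply (hp s hs).2
        rw [← h1, inv_pow, mul_inv_cancel₀ ht3]
      · apply (hp s hs).1
        rw [inv_pow, inv_pow] at h1
        exact inv_injective h1

theorem base_nodup (us : List ℂ) (hg : Gen us) : ((base us).map (fun s => s^3)).Nodup := by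
  have e : (base us).map (fun s => s^3) =
      1 :: (-1) :: (us.flatMap (fun t => [t, t⁻¹])).map (fun s => s^3) := by
    unfold base
    simp only [List.map_cons]
    norm_num
  rw [e, List.nodup_cons, List.nodup_cons]
  have hmem : ∀ z : ℂ, z ∈ (us.flatMap (fun t => [t, t⁻¹])).map (fun s => s^3) → z^2 ≠ 1 := by
    intro z hz
    simp only [List.mem_map, List.mem_flatMap, List.mem_cons, List.not_mem_nil, or_false] at hz
    obtain ⟨w, ⟨s, hs, hw⟩, rfl⟩ := hz
    have h6 := hg.2.1 s hs
    rcases hw with rfl | rfl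
    · intro h
      apply h6
      rw [← h]
      ring
    · intro h
      apply h6
      rw [inv_pow, inv_pow, inv_eq_one] at h
      rw [← h]
      ring
  refine ⟨?_, ?_, pairs_nodup us hg⟩
  · rw [List.mem_cons, not_or]
    refine ⟨by norm_num, fun h => hmem _ h (by norm_num)⟩
  · exact fun h => hmem _ h (by norm_num)

/-- the set of zeros -/
noncomputable def zs (us : List ℂ) : Finset ℂ :=
  ((base us).toFinset ×ˢ ({1, q, q^2} : Finset ℂ)).image (fun p => p.2 * p.1)

theorem q_ne_q2 : q ≠ q^2 := by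
  intro h
  apply q_ne_one
  have h1 : q * (q - 1) = 0 := by linear_combination -h
  rcases mul_eq_zero.1 h1 with h2 | h2
  · exact absurd h2 q_ne_zero
  · linear_combination h2

theorem c_cube (c : ℂ) (hc : c ∈ ({1, q, q^2} : Finset ℂ)) : c^3 = 1 := by
  simp only [mem_insert, mem_singleton] at hc
  rcases hc with rfl | rfl | rfl
  · norm_num
  · exact q_cube
  · rw [← pow_mul, mul_comm, pow_mul, q_cube, one_pow]

theorem card_zs (us : List ℂ) (hg : Gen us) : (zs us).card = 6 * us.length + 6 := by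
  have hnd := base_nodup us hg
  unfold zs
  rw [card_image_of_injOn]
  · rw [card_product, List.toFinset_card_of_nodup (List.Nodup.of_map _ hnd), base_length]
    have h3 : ({1, q, q^2} : Finset ℂ).card = 3 := by
      rw [card_eq_three]
      exact ⟨1, q, q^2, q_ne_one.symm, q_sq_ne_one.symm, q_ne_q2, rfl⟩
    rw [h3]
    ring
  · rintro ⟨s, c⟩ h ⟨s', c'⟩ h' he
    simp only [coe_product, Set.mem_prod, mem_coe, List.mem_toFinset] at h h'
    simp only at he
    have hc := c_cube c h.2
    have hc' := c_cube c' h'.2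
    have h3 : s^3 = s'^3 := by
      have := congrArg (fun z => z^3) he
      simp only [mul_pow, hc, hc', one_mul] at this
      exact this
    have hs : s = s' := List.inj_on_of_nodup_map hnd h.1 h'.1 h3
    subst hs
    have h0 := base_ne_zero us hg s h.1
    have : c = c' := mul_right_cancel₀ h0 he
    rw [this]

theorem D3_base (us : List ℂ) (hg : Gen us) (y b : ℂ) (hy : y ≠ 0) (hb : b ≠ 0) (s : ℂ)
    (hs : s ∈ base us) : D3 s us y b = 0 := by
  rcases mem_base us s hs with rfl | rfl | ⟨t, ht, rfl | rfl⟩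
  · have h := D3_inv 1 one_ne_zero us y b
    rw [inv_one] at h
    linear_combination (1/2 : ℂ) * h
  · have h := D3_inv (-1) (by norm_num) us y b
    rw [show ((-1 : ℂ))⁻¹ = -1 by norm_num] at h
    linear_combination (1/2 : ℂ) * h
  · exact D3_zero _ us ht hg.1 y b hy hb
  · rw [D3_inv t (hg.1 t ht) us y b, D3_zero _ us ht hg.1 y b hy hb, neg_zero]

theorem WW_base (us : List ℂ) (s : ℂ) (hs : s ∈ base us) : WW s us = 0 := by
  unfold WW
  rcases mem_base us s hs with rfl | rfl | ⟨t, ht, rfl | rfl⟩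
  · norm_num
  · norm_num
  · rw [List.prod_eq_zero, mul_zero]
    rw [List.mem_map]
    exact ⟨s, ht, by ring⟩
  · rw [List.prod_eq_zero, mul_zero]
    rw [List.mem_map]
    exact ⟨t, ht, by rw [inv_inv]; ring⟩

theorem D3_rot' (c : ℂ) (hc : c ∈ ({1, q, q^2} : Finset ℂ)) (x : ℂ) (us : List ℂ) (y b : ℂ) :
    D3 (c * x) us y b = D3 x us y b := by
  simp only [mem_insert, mem_singleton] at hc
  rcases hc with rfl | rfl | rfl
  · rw [one_mul]
  · exact D3_rot x us y b
  · rw [show q^2 * x = q * (q * x) by ring, D3_rot, D3_rot]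

theorem WW_rot' (c : ℂ) (hc : c ∈ ({1, q, q^2} : Finset ℂ)) (x : ℂ) (us : List ℂ) :
    WW (c * x) us = WW x us := by
  have h := c_cube c hc
  unfold WW
  have e1 : (c * x)^3 = x^3 := by rw [mul_pow, h, one_mul]
  have e2 : ((c * x)⁻¹)^3 = (x⁻¹)^3 := by rw [inv_pow, e1, inv_pow]
  rw [e1, e2]

/-- `WW` is a Laurent polynomial -/
theorem WW_poly (us : List ℂ) :
    ∃ P : ℂ[X], P.natDegree ≤ 6 * us.length + 6 ∧
      ∀ x, x ≠ 0 → x^(3 * us.length + 3) * WW x us = P.eval x := by
  have hprod : ∃ R : ℂ[X], R.natDegree ≤ 6 * us.length ∧ ∀ x, x ≠ 0 → R.eval x =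
      x^(3 * us.length) * (us.map (fun t => (x^3 + x⁻¹^3 - (t^3 + t⁻¹^3)))).prod := by
    induction us with
    | nil => exact ⟨1, by simp, fun x _ => by simp⟩
    | cons t us ih =>
      obtain ⟨R, hR1, hR2⟩ := ih
      refine ⟨(Polynomial.X ^ 6 - C (t^3 + t⁻¹^3) * Polynomial.X ^ 3 + 1) * R, ?_, fun x hx => ?_⟩
      · refine natDegree_mul_le.trans ?_
        have h1 : (Polynomial.X ^ 6 - C (t^3 + t⁻¹^3) * Polynomial.X ^ 3 + 1 : ℂ[X]).natDegree ≤ 6 := by
          compute_degree
        rw [List.length_cons]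
        omega
      · rw [eval_mul, hR2 x hx, List.length_cons, List.map_cons, List.prod_cons]
        simp only [eval_add, eval_sub, eval_pow, eval_X, eval_mul, eval_C, eval_one]
        have e : x ^ 6 - (t^3 + t⁻¹^3) * x ^ 3 + 1 = x^3 * (x^3 + x⁻¹^3 - (t^3 + t⁻¹^3)) := by
          rw [inv_pow x 3]
          field_simp
          ring
        rw [e]
        ring
  obtain ⟨R, hR1, hR2⟩ := hprod
  refine ⟨(Polynomial.X ^ 6 - 1) * R, ?_, fun x hx => ?_⟩
  · refine natDegree_mul_le.trans ?_
    have h1 : (Polynomial.X ^ 6 - 1 : ℂ[X]).natDegree ≤ 6 := by compute_degree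
    omega
  · rw [eval_mul, hR2 x hx]
    simp only [eval_sub, eval_pow, eval_X, eval_one]
    unfold WW
    have e : x ^ 6 - 1 = x^3 * (x^3 - x⁻¹^3) := by
      rw [inv_pow x 3]
      field_simp
    rw [e]
    ring

/-- `D3` is a Laurent polynomial -/
theorem D3_poly (us : List ℂ) (y b : ℂ) :
    ∃ P : ℂ[X], P.natDegree ≤ 6 * us.length + 6 ∧
      ∀ x, x ≠ 0 → x^(3 * us.length + 3) * D3 x us y b = P.eval x := by
  obtain ⟨P, hP1, hP2⟩ := HH_poly us y b
  have hcomp : ∀ c : ℂ, (P.comp (C c * Polynomial.X)).natDegree ≤ 6 * us.length + 6 := by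
    intro c
    refine natDegree_comp_le.trans ?_
    have h1 : (C c * Polynomial.X : ℂ[X]).natDegree ≤ 1 := by compute_degree
    calc P.natDegree * (C c * Polynomial.X : ℂ[X]).natDegree ≤ P.natDegree * 1 :=
          Nat.mul_le_mul_left _ h1
      _ ≤ _ := by omega
  refine ⟨P + P.comp (C q * Polynomial.X) + P.comp (C (q^2) * Polynomial.X), ?_, fun x hx => ?_⟩
  · refine (natDegree_add_le _ _).trans (max_le ((natDegree_add_le _ _).trans (max_le hP1 ?_)) ?_)
    · exact hcomp q
    · exact hcomp (q^2)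
  · simp only [eval_add, eval_comp, eval_mul, eval_C, eval_X]
    rw [← hP2 x hx, ← hP2 (q * x) (mul_ne_zero q_ne_zero hx),
      ← hP2 (q^2 * x) (mul_ne_zero (pow_ne_zero _ q_ne_zero) hx)]
    unfold D3
    have h3 : q^(3 * us.length + 3) = 1 := by
      rw [show 3 * us.length + 3 = 3 * (us.length + 1) by ring, pow_mul, q_cube, one_pow]
    have h6 : (q^2)^(3 * us.length + 3) = 1 := by
      rw [← pow_mul, mul_comm, pow_mul, h3, one_pow]
    rw [mul_pow, mul_pow, h3, h6]
    ring

end T06b

open T06b in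
theorem D3_ratio (us : List ℂ) (hg : Gen us) (y b : ℂ) (hy : y ≠ 0) (hb : b ≠ 0) (x x' : ℂ)
    (hx : x ≠ 0) (hx' : x' ≠ 0) :
    D3 x us y b * WW x' us = D3 x' us y b * WW x us := by
  obtain ⟨P, hP1, hP2⟩ := D3_poly us y b
  obtain ⟨R, hR1, hR2⟩ := WW_poly us
  have hzero : C (WW x' us) * P - C (D3 x' us y b) * R = 0 := by
    set T : ℂ[X] := C (WW x' us) * P - C (D3 x' us y b) * R with hT
    have hdeg : T.natDegree ≤ 6 * us.length + 6 := by
      refine (natDegree_sub_le _ _).trans (max_le ?_ ?_)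
      · exact (natDegree_C_mul_le _ _).trans hP1
      · exact (natDegree_C_mul_le _ _).trans hR1
    have hev : ∀ z, z ≠ 0 → T.eval z = z^(3 * us.length + 3) *
        (WW x' us * D3 z us y b - D3 x' us y b * WW z us) := by
      intro z hz
      rw [hT, eval_sub, eval_mul, eval_mul, eval_C, eval_C, ← hP2 z hz, ← hR2 z hz]
      ring
    have hzs : ∀ z ∈ zs us, z ≠ 0 ∧ D3 z us y b = 0 ∧ WW z us = 0 := by
      intro z hz
      unfold zs at hz
      rw [mem_image] at hz
      obtain ⟨⟨s, c⟩, h, rfl⟩ := hz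
      rw [mem_product, List.mem_toFinset] at h
      refine ⟨?_, ?_, ?_⟩
      · refine mul_ne_zero ?_ (base_ne_zero us hg s h.1)
        intro h0
        have := c_cube c h.2
        simp only at h0
        rw [h0] at this
        norm_num at this
      · rw [D3_rot' c h.2]
        exact D3_base us hg y b hy hb s h.1
      · rw [WW_rot' c h.2]
        exact WW_base us s h.1
    by_cases hmem : x' ∈ zs us
    · have h := hzs x' hmem
      rw [hT, h.2.1, h.2.2]
      simp
    · refine eq_zero_of_natDegree_lt_card_of_eval_eq_zero' T (insert x' (zs us)) ?_ ?_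
      · intro z hz
        rw [mem_insert] at hz
        rcases hz with rfl | hz
        · rw [hev _ hx']
          ring
        · have h := hzs z hz
          rw [hev z h.1, h.2.1, h.2.2]
          ring
      · rw [card_insert_of_notMem hmem, card_zs us hg]
        omega
  have h1 : (C (WW x' us) * P - C (D3 x' us y b) * R).eval x = 0 := by rw [hzero, eval_zero]
  rw [eval_sub, eval_mul, eval_mul, eval_C, eval_C, ← hP2 x hx, ← hR2 x hx] at h1
  have h2 : x^(3 * us.length + 3) ≠ 0 := pow_ne_zero _ hx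
  have h3 : x^(3 * us.length + 3) * (D3 x us y b * WW x' us - D3 x' us y b * WW x us) = 0 := by
    linear_combination h1
  exact sub_eq_zero.1 ((mul_eq_zero.1 h3).resolve_left h2)

end Pool.Agent.H980R2.Cont
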