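import Pool.Agent.H980R2.Cont.T06
import Pool.Agent.H980R2.Cont.T06b

/-! T07: specialisation of all pairs to `1`, and order of vanishing.

Take `us(s) = [1 + s, 1 + 2 s, …, 1 + n s]`, `s → 0`, `s ≠ 0`: for `s` small and
non-zero `Gen (us s)` holds, and both sides of `D3_ratio` are continuous in
`s` at `0` (`OO_pd`, `PD.cont`), whence `D3_ratio_one`. (helper152) -/

namespace Pool.Agent.H980R2.Cont

open Pool.Agent.H988R2.Perc Pool.Agent.H980R2.Cross Finset Polynomial Filter Topology Asymptotics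

namespace T07

/-- a list depending continuously on a parameter -/
def CL (L : ℂ → List ℂ) (N : ℕ) (t : ℂ) : Prop :=
  (∀ s, (L s).length = N) ∧ ∀ i : ℕ, ContinuousAt (fun s => (L s).getD i 0) t

theorem CL.nil (t : ℂ) : CL (fun _ => []) 0 t :=
  ⟨fun _ => rfl, fun i => by simpa using continuousAt_const⟩

theorem CL.cons {L : ℂ → List ℂ} {N : ℕ} {t : ℂ} (h : CL L N t) {f : ℂ → ℂ}
    (hf : ContinuousAt f t) : CL (fun s => f s :: L s) (N+1) t := by
  refine ⟨fun s => by rw [List.length_cons, h.1 s], fun i => ?_⟩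
  rcases i with _ | i
  · simpa using hf
  · simpa using h.2 i

theorem CL.comp {L : ℂ → List ℂ} {N : ℕ} {t : ℂ} (h : CL L N t) {F : List ℂ → ℂ} {d : ℕ}
    (hF : PD N d F) : ContinuousAt (fun s => F (L s)) t := by
  have h1 := PD.cont hF (fun i s => (L s).getD (i : ℕ) 0) t (fun i => h.2 i)
  have h2 : ∀ s, (List.ofFn fun i : Fin N => (L s).getD (i : ℕ) 0) = L s := by
    intro s
    apply List.ext_getElem
    · rw [List.length_ofFn, h.1 s]
    · intro i hi1 hi2
      rw [List.getElem_ofFn, List.getD_eq_getElem _ _ hi2]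
  have h3 : (fun s => F (L s)) = fun s => F (List.ofFn fun i : Fin N => (L s).getD (i : ℕ) 0) := by
    funext s
    rw [h2]
  rw [h3]
  exact h1

/-- the letters -/
noncomputable def us (l : List ℂ) (s : ℂ) : List ℂ := l.map (fun a => 1 + a * s)

theorem cont_t (a : ℂ) : ContinuousAt (fun s : ℂ => 1 + a * s) 0 := by fun_prop

theorem cont_ti (a : ℂ) : ContinuousAt (fun s : ℂ => (1 + a * s)⁻¹) 0 :=
  (cont_t a).inv₀ (by simp)

theorem CL_prs (l : List ℂ) (y b : ℂ) :
    CL (fun s => prs (us l s) ++ [y, b]) (2 * l.length + 2) 0 := by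
  induction l with
  | nil => exact ((CL.nil 0).cons continuousAt_const).cons continuousAt_const
  | cons a l ih =>
    have := (ih.cons (cont_ti a)).cons (cont_t a)
    have e : 2 * (a :: l).length + 2 = 2 * l.length + 2 + 1 + 1 := by
      rw [List.length_cons]
      ring
    rw [e]
    exact this

theorem cont_HH (l : List ℂ) (x y b : ℂ) : ContinuousAt (fun s => HH x (us l s) y b) 0 := by
  have hlen : ∀ s, (us l s).length = l.length := fun s => by simp [us]
  have h1 : ContinuousAt (fun s => ((us l s).map (fun t => (x + x⁻¹ - (t + t⁻¹))^2)).prod) 0 := by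
    have h := tendsto_list_prod (f := fun (a s : ℂ) =>
      (x + x⁻¹ - ((1 + a * s) + (1 + a * s)⁻¹))^2) (x := 𝓝 (0 : ℂ))
      (a := fun a => (x + x⁻¹ - ((1 + a * 0) + (1 + a * 0)⁻¹))^2) l (fun a _ => by
        exact (((continuousAt_const (y := x + x⁻¹)).sub ((cont_t a).add (cont_ti a))).pow 2).tendsto)
    have e : ∀ s, ((us l s).map (fun t => (x + x⁻¹ - (t + t⁻¹))^2)).prod =
        (l.map (fun a => (x + x⁻¹ - ((1 + a * s) + (1 + a * s)⁻¹))^2)).prod := by
      intro s
      unfold us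
      rw [List.map_map]
      rfl
    unfold ContinuousAt
    simp only [e]
    exact h
  have h2 : ContinuousAt (fun s => OO (x :: 0 :: (prs (us l s) ++ [y, b]))) 0 := by
    have h := ((CL_prs l y b).cons (f := fun _ => (0:ℂ)) continuousAt_const).cons
      (f := fun _ => x) continuousAt_const
    exact h.comp (OO_pd _ ⟨l.length + 2, by ring⟩)
  unfold HH
  simp only [hlen]
  exact ((((continuousAt_const.mul h1).mul continuousAt_const).mul continuousAt_const).mul
    continuousAt_const).mul h2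

theorem cont_D3 (l : List ℂ) (x y b : ℂ) : ContinuousAt (fun s => D3 x (us l s) y b) 0 := by
  unfold D3
  exact ((cont_HH l x y b).add (cont_HH l _ y b)).add (cont_HH l _ y b)

theorem cont_WW (l : List ℂ) (x : ℂ) : ContinuousAt (fun s => WW x (us l s)) 0 := by
  have h := tendsto_list_prod (f := fun (a s : ℂ) =>
    (x^3 + x⁻¹^3 - ((1 + a * s)^3 + (1 + a * s)⁻¹^3))) (x := 𝓝 (0 : ℂ))
    (a := fun a => (x^3 + x⁻¹^3 - ((1 + a * 0)^3 + (1 + a * 0)⁻¹^3))) l (fun a _ => by
      exact ((continuousAt_const (y := x^3 + x⁻¹^3)).sub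
        (((cont_t a).pow 3).add ((cont_ti a).pow 3))).tendsto)
  have e : ∀ s, ((us l s).map (fun t => x^3 + x⁻¹^3 - (t^3 + t⁻¹^3))).prod =
      (l.map (fun a => (x^3 + x⁻¹^3 - ((1 + a * s)^3 + (1 + a * s)⁻¹^3)))).prod := by
    intro s
    unfold us
    rw [List.map_map]
    rfl
  unfold WW
  refine continuousAt_const.mul ?_
  unfold ContinuousAt
  simp only [e]
  exact h

theorem ev_ne_of {f : ℂ → ℂ} (hf : ContinuousAt f 0) (h : f 0 ≠ 0) :
    ∀ᶠ s in 𝓝[≠] (0:ℂ), f s ≠ 0 :=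
  (hf.eventually_ne h).filter_mono nhdsWithin_le_nhds

theorem ev_pair (a b : ℂ) (h1 : a ≠ b) (h2 : a + b ≠ 0) :
    ∀ᶠ s in 𝓝[≠] (0:ℂ), (1 + a * s)^3 ≠ (1 + b * s)^3 ∧ (1 + a * s)^3 * (1 + b * s)^3 ≠ 1 := by
  have c1 := ev_ne_of (f := fun s => (1 + a * s)^2 + (1 + a * s) * (1 + b * s) + (1 + b * s)^2)
    (by fun_prop) (by norm_num)
  have c2 := ev_ne_of (f := fun s => ((1 + a * s) * (1 + b * s))^2 +
    ((1 + a * s) * (1 + b * s)) + 1) (by fun_prop) (by norm_num)
  have c3 := ev_ne_of (f := fun s => a + b + a * b * s) (by fun_prop) (by simpa using h2)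
  have c4 : ∀ᶠ s in 𝓝[≠] (0:ℂ), s ≠ 0 := self_mem_nhdsWithin
  filter_upwards [c1, c2, c3, c4] with s d1 d2 d3 d4
  refine ⟨fun h => ?_, fun h => ?_⟩
  · have : (a - b) * s * ((1 + a * s)^2 + (1 + a * s) * (1 + b * s) + (1 + b * s)^2) = 0 := by
      linear_combination h
    rcases mul_eq_zero.1 this with h' | h'
    · rcases mul_eq_zero.1 h' with h'' | h''
      · exact h1 (sub_eq_zero.1 h'')
      · exact d4 h''
    · exact d1 h'
  · have : s * (a + b + a * b * s) * (((1 + a * s) * (1 + b * s))^2 +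
        ((1 + a * s) * (1 + b * s)) + 1) = 0 := by
      linear_combination h
    rcases mul_eq_zero.1 this with h' | h'
    · rcases mul_eq_zero.1 h' with h'' | h''
      · exact d4 h''
      · exact d3 h''
    · exact d2 h'

theorem ev_one (a : ℂ) (h : a ≠ 0) :
    ∀ᶠ s in 𝓝[≠] (0:ℂ), (1 + a * s) ≠ 0 ∧ (1 + a * s)^6 ≠ 1 := by
  have c1 := ev_ne_of (f := fun s => 1 + a * s) (by fun_prop) (by norm_num)
  have c2 := ev_ne_of (f := fun s => (1 + a * s)^5 + (1 + a * s)^4 + (1 + a * s)^3 +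
    (1 + a * s)^2 + (1 + a * s) + 1) (by fun_prop) (by norm_num)
  have c4 : ∀ᶠ s in 𝓝[≠] (0:ℂ), s ≠ 0 := self_mem_nhdsWithin
  filter_upwards [c1, c2, c4] with s d1 d2 d4
  refine ⟨d1, fun h' => ?_⟩
  have : a * s * ((1 + a * s)^5 + (1 + a * s)^4 + (1 + a * s)^3 +
    (1 + a * s)^2 + (1 + a * s) + 1) = 0 := by
    linear_combination h'
  rcases mul_eq_zero.1 this with h' | h'
  · exact (mul_ne_zero h d4) h'
  · exact d2 h'

theorem gen_ev (l : List ℂ) (h0 : ∀ a ∈ l, a ≠ 0)
    (hp : l.Pairwise (fun a b => a ≠ b ∧ a + b ≠ 0)) :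
    ∀ᶠ s in 𝓝[≠] (0:ℂ), Gen (us l s) := by
  induction l with
  | nil => exact Eventually.of_forall (fun s => ⟨by simp [us], by simp [us], by simp [us]⟩)
  | cons a l ih =>
    rw [List.pairwise_cons] at hp
    have i1 := ih (fun b hb => h0 b (List.mem_cons_of_mem _ hb)) hp.2
    have i2 := ev_one a (h0 a List.mem_cons_self)
    have i3 : ∀ᶠ s in 𝓝[≠] (0:ℂ), ∀ b ∈ {b | b ∈ l},
        (1 + a * s)^3 ≠ (1 + b * s)^3 ∧ (1 + a * s)^3 * (1 + b * s)^3 ≠ 1 :=
      (eventually_all_finite (List.finite_toSet l)).2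
        (fun b hb => ev_pair a b (hp.1 b hb).1 (hp.1 b hb).2)
    filter_upwards [i1, i2, i3] with s j1 j2 j3
    have e : us (a :: l) s = (1 + a * s) :: us l s := rfl
    rw [e]
    refine ⟨fun t ht => ?_, fun t ht => ?_, ?_⟩
    · rcases List.mem_cons.1 ht with h | h
      · rw [h]; exact j2.1
      · exact j1.1 t h
    · rcases List.mem_cons.1 ht with h | h
      · rw [h]; exact j2.2
      · exact j1.2.1 t h
    · rw [List.pairwise_cons]
      refine ⟨fun t ht => ?_, j1.2.2⟩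
      unfold us at ht
      obtain ⟨b, hb, rfl⟩ := List.mem_map.1 ht
      exact j3 b hb

theorem us_zero (l : List ℂ) : us l 0 = List.replicate l.length 1 := by
  rw [List.eq_replicate_iff]
  refine ⟨by simp [us], fun b hb => ?_⟩
  unfold us at hb
  obtain ⟨a, _, rfl⟩ := List.mem_map.1 hb
  simp

end T07

open T07 in
theorem D3_ratio_one (n : ℕ) (b : ℂ) (hb : b ≠ 0) (x x' : ℂ) (hx : x ≠ 0) (hx' : x' ≠ 0) :
    D3 x (List.replicate n 1) 1 b * WW x' (List.replicate n 1) =
      D3 x' (List.replicate n 1) 1 b * WW x (List.replicate n 1) := by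
  obtain ⟨l, hl⟩ : ∃ l : List ℂ, l = (List.range n).map (fun i : ℕ => (i : ℂ) + 1) := ⟨_, rfl⟩
  have hlen : l.length = n := by rw [hl]; simp
  have h0 : ∀ a ∈ l, a ≠ 0 := by
    intro a ha
    rw [hl] at ha
    obtain ⟨i, _, rfl⟩ := List.mem_map.1 ha
    exact Nat.cast_add_one_ne_zero i
  have hp : l.Pairwise (fun a b => a ≠ b ∧ a + b ≠ 0) := by
    rw [hl, List.pairwise_map]
    refine List.Pairwise.imp ?_ (List.pairwise_lt_range (n := n))
    intro i j hij
    refine ⟨fun h => ?_, fun h => ?_⟩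
    · have h1 : (i : ℂ) = j := by linear_combination h
      have h2 : i = j := by exact_mod_cast h1
      omega
    · have h1 : ((i + 1 + (j + 1) : ℕ) : ℂ) = 0 := by
        push_cast
        exact h
      have h2 : i + 1 + (j + 1) = 0 := by exact_mod_cast h1
      omega
  have hE := gen_ev l h0 hp
  have hL : Tendsto (fun s => D3 x (us l s) 1 b * WW x' (us l s)) (𝓝[≠] (0:ℂ))
      (𝓝 (D3 x (us l 0) 1 b * WW x' (us l 0))) :=
    ((cont_D3 l x 1 b).mul (cont_WW l x')).tendsto.mono_left nhdsWithin_le_nhds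
  have hR : Tendsto (fun s => D3 x' (us l s) 1 b * WW x (us l s)) (𝓝[≠] (0:ℂ))
      (𝓝 (D3 x' (us l 0) 1 b * WW x (us l 0))) :=
    ((cont_D3 l x' 1 b).mul (cont_WW l x)).tendsto.mono_left nhdsWithin_le_nhds
  have hR' : Tendsto (fun s => D3 x (us l s) 1 b * WW x' (us l s)) (𝓝[≠] (0:ℂ))
      (𝓝 (D3 x' (us l 0) 1 b * WW x (us l 0))) := by
    refine hR.congr' ?_
    filter_upwards [hE] with s hs
    exact (D3_ratio (us l s) hs 1 b one_ne_zero hb x x' hx hx').symm
  have := tendsto_nhds_unique hL hR'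
  rw [us_zero, hlen] at this
  exact this

end Pool.Agent.H980R2.Cont
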