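import Pool.Agent.H980R2.Cont.Defs
import Pool.Agent.H980R2.Cross.T02
import Pool.Agent.H988R2.Perc.T02

/-! T01: returns of words, insertion.

Heights: `(w.take k).count true - (w.take k).count false ≥ 0` for Dyck words (`T02.dyck_prefix`, `dyck_count`
in `H988R2.Perc.T02`).  `ins i w = u ++ true :: false :: v` with `u = w.take i`, `v = w.drop i`: the balanced
prefixes of `ins i w` of length `≤ i` are those of `w`; length `i+1` is not balanced (height `≥ 1`); length `i+2`
is balanced iff `bal w i`; length `k+2`, `k > i`, iff `bal w k`. -/

namespace Pool.Agent.H980R2.Cont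

open Pool.Agent.H988R2.Perc Pool.Agent.H980R2.Cross Finset

/-- height -/
def T01ht (w : Word) : ℤ := (w.count true : ℤ) - (w.count false : ℤ)

@[simp] theorem T01ht_nil : T01ht [] = 0 := by simp [T01ht]

theorem T01ht_append (u v : Word) : T01ht (u ++ v) = T01ht u + T01ht v := by
  simp only [T01ht, List.count_append]
  push_cast
  ring

@[simp] theorem T01ht_true (v : Word) : T01ht (true :: v) = 1 + T01ht v := by
  simp only [T01ht, List.count_cons]
  simp
  ring

@[simp] theorem T01ht_false (v : Word) : T01ht (false :: v) = -1 + T01ht v := by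
  simp only [T01ht, List.count_cons]
  simp
  ring

theorem T01ht_reverse (u : Word) : T01ht u.reverse = T01ht u := by
  simp [T01ht, List.count_reverse]

theorem T01bal_iff (w : Word) (k : ℕ) : bal w k ↔ T01ht (w.take k) = 0 := by
  unfold bal T01ht
  omega

/-- number of returns to `0` of the path starting at height `h` -/
def T01rr : ℤ → Word → ℕ
  | _, [] => 0
  | h, true :: w => (if h + 1 = 0 then 1 else 0) + T01rr (h + 1) w
  | h, false :: w => (if h - 1 = 0 then 1 else 0) + T01rr (h - 1) w

theorem T01rr_append (u v : Word) : ∀ h, T01rr h (u ++ v) = T01rr h u + T01rr (h + T01ht u) v := by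
  induction u with
  | nil => intro h; simp [T01rr]
  | cons a u ih =>
    intro h
    cases a with
    | true =>
      rw [List.cons_append, T01rr, T01rr, ih, T01ht_true, ← add_assoc, ← add_assoc]
    | false =>
      rw [List.cons_append, T01rr, T01rr, ih, T01ht_false, add_assoc]
      have : h - 1 + T01ht u = h + (-1 + T01ht u) := by ring
      rw [this]

theorem T01rr_spec (w : Word) : ∀ h : ℤ,
    ((List.range w.length).filter (fun k => decide (h + T01ht (w.take (k+1)) = 0))).length
      = T01rr h w := by
  induction w with
  | nil => intro h; simp [T01rr]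
  | cons a w ih =>
    intro h
    rw [List.length_cons, List.range_succ_eq_map, List.filter_cons, List.filter_map]
    cases a with
    | true =>
      rw [T01rr, ← ih (h+1)]
      have e1 : (fun k => decide (h + T01ht ((true :: w).take (k+1)) = 0)) ∘ Nat.succ
          = (fun k => decide (h + 1 + T01ht (w.take (k+1)) = 0)) := by
        funext k
        simp only [Function.comp, Nat.succ_eq_add_one, List.take_succ_cons, T01ht_true]
        congr 1
        rw [add_assoc]
      rw [e1]
      have e2 : h + T01ht ((true :: w).take (0+1)) = h + 1 := by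
        simp
      rw [e2]
      by_cases hh : h + 1 = 0
      · simp [hh]; ring
      · simp [hh]
    | false =>
      rw [T01rr, ← ih (h-1)]
      have e1 : (fun k => decide (h + T01ht ((false :: w).take (k+1)) = 0)) ∘ Nat.succ
          = (fun k => decide (h - 1 + T01ht (w.take (k+1)) = 0)) := by
        funext k
        simp only [Function.comp, Nat.succ_eq_add_one, List.take_succ_cons, T01ht_false]
        congr 1
        rw [← add_assoc, sub_eq_add_neg]
      rw [e1]
      have e2 : h + T01ht ((false :: w).take (0+1)) = h - 1 := by
        simp [sub_eq_add_neg]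
      rw [e2]
      by_cases hh : h - 1 = 0
      · simp [hh]; ring
      · simp [hh]

theorem T01ret_eq (w : Word) : ret w = T01rr 0 w := by
  rw [← T01rr_spec w 0]
  unfold ret
  congr 1
  refine List.filter_congr ?_
  intro k _
  have := T01bal_iff w (k+1)
  rw [zero_add]
  exact decide_eq_decide.mpr this

theorem T01rr_zero_of_pos (w : Word) : ∀ h : ℤ, (∀ k, 0 < h + T01ht (w.take k)) →
    T01rr h w = 0 := by
  induction w with
  | nil => intro h _; rfl
  | cons a w ih =>
    intro h hp
    cases a with
    | true =>
      have h1 := hp 1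
      simp at h1
      rw [T01rr, if_neg (by omega), ih]
      intro k
      have := hp (k+1)
      rw [List.take_succ_cons, T01ht_true] at this
      omega
    | false =>
      have h1 := hp 1
      simp at h1
      rw [T01rr, if_neg (by omega), ih]
      intro k
      have := hp (k+1)
      rw [List.take_succ_cons, T01ht_false] at this
      omega

/-- if the path ends at `0` and is nonempty, there is a return -/
theorem T01rr_pos (w : Word) (hne : w ≠ []) : ∀ h : ℤ, h + T01ht w = 0 → 1 ≤ T01rr h w := by
  intro h hh
  obtain ⟨u, a, rfl⟩ : ∃ u a, w = u ++ [a] := ⟨w.dropLast, w.getLast hne,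
    (List.dropLast_append_getLast hne).symm⟩
  rw [T01rr_append]
  rw [T01ht_append] at hh
  cases a with
  | true =>
    simp only [T01rr]
    simp at hh
    rw [if_pos (by omega)]
    omega
  | false =>
    simp only [T01rr]
    simp at hh
    rw [if_pos (by omega)]
    omega

theorem T01ht_dyck {w : Word} (hw : Dyck w) : T01ht w = 0 := by
  have := dyck_count hw
  unfold T01ht
  omega

theorem T01ht_nonneg {w : Word} (hw : Dyck w) (k : ℕ) : 0 ≤ T01ht (w.take k) := by
  have := dyck_prefix hw k
  unfold T01ht
  omega

theorem ret_ins {i : ℕ} {w : Word} (hw : Dyck w) (hi : i ≤ w.length) :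
    ret (ins i w) = ret w + (if bal w i then 1 else 0) := by
  have h0 := T01ht_nonneg hw i
  have h1 : T01rr 0 w = T01rr 0 (w.take i) + T01rr (0 + T01ht (w.take i)) (w.drop i) := by
    rw [← T01rr_append, List.take_append_drop]
  rw [T01ret_eq, T01ret_eq, h1]
  unfold ins
  rw [T01rr_append]
  simp only [T01rr]
  rw [if_neg (by omega)]
  have h2 : 0 + T01ht (w.take i) + 1 - 1 = 0 + T01ht (w.take i) := by ring
  rw [h2]
  by_cases hb : bal w i
  · have := (T01bal_iff w i).mp hb
    rw [if_pos hb, if_pos (by omega)]
    omega
  · have hb2 : ¬ T01ht (w.take i) = 0 := fun h => hb ((T01bal_iff w i).mpr h)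
    rw [if_neg hb, if_neg (by omega)]
    omega

/-- a nonempty Dyck word has at least one return -/
theorem ret_pos {w : Word} (hw : Dyck w) (h : w ≠ []) : 1 ≤ ret w := by
  rw [T01ret_eq]
  exact T01rr_pos w h 0 (by rw [T01ht_dyck hw]; rfl)

/-- a balanced proper nonempty prefix gives at least two returns -/
theorem ret_two {w : Word} (hw : Dyck w) {k : ℕ} (h1 : 1 ≤ k) (h2 : k < w.length) (hb : bal w k) :
    2 ≤ ret w := by
  have hb' := (T01bal_iff w k).mp hb
  have e : T01rr 0 w = T01rr 0 (w.take k) + T01rr (0 + T01ht (w.take k)) (w.drop k) := by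
    rw [← T01rr_append, List.take_append_drop]
  have e2 : T01ht w = T01ht (w.take k) + T01ht (w.drop k) := by
    rw [← T01ht_append, List.take_append_drop]
  have e3 := T01ht_dyck hw
  rw [T01ret_eq, e]
  have p1 : 1 ≤ T01rr 0 (w.take k) := by
    refine T01rr_pos _ ?_ 0 (by omega)
    intro h
    have := congrArg List.length h
    rw [List.length_take, List.length_nil] at this
    omega
  have p2 : 1 ≤ T01rr (0 + T01ht (w.take k)) (w.drop k) := by
    refine T01rr_pos _ ?_ _ (by omega)
    intro h
    have := congrArg List.length h
    rw [List.length_drop, List.length_nil] at this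
    omega
  omega

theorem ret_le {w : Word} (hw : Dyck w) : 2 * ret w ≤ w.length := by
  induction hw with
  | nil => simp [ret]
  | ins i w hi hw ih =>
    rw [ret_ins hw hi, length_ins]
    split_ifs <;> omega

theorem oo_ins {i : ℕ} {w : Word} (hw : Dyck w) (h1 : 1 ≤ i) (h2 : i + 1 ≤ w.length) :
    oo (ins i w) = oo w := by
  unfold oo
  rw [ret_ins hw (by omega)]
  by_cases hb : bal w i
  · have := ret_two hw h1 (by omega) hb
    rw [if_pos hb, if_neg (by omega), if_neg (by omega)]
  · rw [if_neg hb, add_zero]

theorem oo_ins_zero {w : Word} (hw : Dyck w) (h : w ≠ []) : oo (ins 0 w) = 0 := by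
  unfold oo
  rw [ret_ins hw (by omega)]
  have := ret_pos hw h
  have hb : bal w 0 := by simp [bal]
  rw [if_pos hb, if_neg (by omega)]

theorem oo_ins_end {w : Word} (hw : Dyck w) (h : w ≠ []) : oo (ins w.length w) = 0 := by
  unfold oo
  rw [ret_ins hw (by omega)]
  have := ret_pos hw h
  have hb : bal w w.length := by
    rw [T01bal_iff, List.take_length, T01ht_dyck hw]
  rw [if_pos hb, if_neg (by omega)]

/-- balanced prefixes of Dyck words have even length -/
theorem bal_even {w : Word} {k : ℕ} (hk : k ≤ w.length) (h : bal w k) : Even k := by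
  unfold bal at h
  have h1 : ∀ l : Word, l.count true + l.count false = l.length := by
    intro l
    induction l with
    | nil => rfl
    | cons a l ih => cases a <;> simp <;> omega
  have h2 := h1 (w.take k)
  rw [List.length_take, min_eq_left hk] at h2
  exact ⟨(w.take k).count false, by omega⟩

end Pool.Agent.H980R2.Cont
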