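import Pool.Agent.H980R2.Cont.T02

/-! T02b: the Temperley-Lieb generators on `oo` and `dd`.

`act i w = ins i (cap i w)`; use `oo_ins` etc. (T01) and the four cases of `cap`:
* `false::true` at `i` (`w = u ++ false::true::v`): `cap i w = u ++ v`; the only prefix lost is the one of length
  `i+1`, of height `ht u - 1`; so `oo (cap i w) = oo w` if it is not balanced, and if `bal w (i+1)` then
  `ret w = ret (u++v) + 1`, whence `oo (cap i w) = dd (i+1) w`, `oo w = 0`.
* `true::false`: `cap i w = u ++ v` with `w = ins i (u++v)`: `oo_ins`, and `dd (i+1) w = 0` (height of the prefix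
  of length `i+1` is `≥ 1`).
* `true::true`: `cap i w = u ++ flipR 0 v`, where `v = v1 ++ false :: v2`, `v1` Dyck, and the `false` becomes
  `true`; the heights of the prefixes of `cap i w`: as in `w` for the prefixes inside `u` and after the flipped
  letter; inside `v1` they are lowered by 2, so they can be zero only if `u` is balanced; `u ≠ []`, so in this
  case both words have at least two returns and both sides are 0 (`dd (i+1) w = 0` since the prefix of
  length `i+1` has height `≥ 1`).  If `u` is not balanced the returns correspond.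
* `false::false`: mirror image.
(A proof by induction on `Dyck w` with the commutation rules `act_ins_left/right` of `H988R2.Perc.T01` may be
easier: `w = ins j w'`, `act i (ins j w') = ins j (act i' w')` or `act i w = ins i w'`.) -/

namespace Pool.Agent.H980R2.Cont

open Pool.Agent.H988R2.Perc Pool.Agent.H980R2.Cross Finset

theorem dd_odd {j : ℕ} {w : Word} (hj : Odd j) (hl : j ≤ w.length) : dd j w = 0 := by
  unfold dd
  rw [if_neg]
  rintro ⟨_, hb⟩
  exact (Nat.not_even_iff_odd.mpr hj) (bal_even hl hb)

/-- the heights of `ins i w` -/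
theorem T02b_bal_self {i : ℕ} {w : Word} (hi : i ≤ w.length) : bal (ins i w) i ↔ bal w i := by
  unfold bal ins
  have h1 : (w.take i).length = i := by simp [hi]
  have h2 : (w.take i ++ true :: false :: w.drop i).take i = w.take i := by
    rw [List.take_append_of_le_length (by omega), List.take_take, min_self]
  rw [h2]

theorem T02b_bal_succ {i : ℕ} {w : Word} (hw : Dyck w) (hi : i ≤ w.length) :
    ¬ bal (ins i w) (i+1) := by
  rw [T01bal_iff]
  unfold ins
  have h1 : (w.take i).length = i := by simp [hi]
  have h2 : (w.take i ++ true :: false :: w.drop i).take (i+1) = w.take i ++ [true] := by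
    have : i + 1 = (w.take i).length + 1 := by omega
    rw [this, List.take_length_add_append]
    rfl
  rw [h2, T01ht_append]
  have := T01ht_nonneg hw i
  simp
  omega

theorem T02b_bal_succ2 {i : ℕ} {w : Word} (hi : i ≤ w.length) :
    bal (ins i w) (i+2) ↔ bal w i := by
  rw [T01bal_iff, T01bal_iff]
  unfold ins
  have h1 : (w.take i).length = i := by simp [hi]
  have h2 : (w.take i ++ true :: false :: w.drop i).take (i+2) = w.take i ++ [true, false] := by
    have : i + 2 = (w.take i).length + 2 := by omega
    rw [this, List.take_length_add_append]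
    rfl
  rw [h2, T01ht_append]
  simp

theorem dd_act_left {j : ℕ} {w : Word} (hw : Dyck w) (hj : 3 ≤ j) (h : j + 1 ≤ w.length) :
    dd j (act (j-2) w) = 0 := by
  have hlc := length_cap (i := j-2) (w := w) (by omega)
  have hdc := dyck_cap hw (by omega : j - 2 + 2 ≤ w.length)
  unfold dd
  rw [if_neg]
  rintro ⟨hr, hb⟩
  unfold act at hr hb
  have hb' : bal (cap (j-2) w) (j-2) := by
    have := (T02b_bal_succ2 (i := j-2) (w := cap (j-2) w) (by omega)).mp
    rw [show j - 2 + 2 = j by omega] at this
    exact this hb
  rw [ret_ins hdc (by omega), if_pos hb'] at hr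
  have := ret_two hdc (by omega : 1 ≤ j - 2) (by omega) hb'
  omega

theorem dd_act_mid {j : ℕ} {w : Word} (hw : Dyck w) (hj : 1 ≤ j) (h : j + 1 ≤ w.length) :
    dd j (act (j-1) w) = 0 := by
  have hlc := length_cap (i := j-1) (w := w) (by omega)
  have hdc := dyck_cap hw (by omega : j - 1 + 2 ≤ w.length)
  unfold dd
  rw [if_neg]
  rintro ⟨_, hb⟩
  unfold act at hb
  have := T02b_bal_succ (i := j-1) hdc (by omega)
  rw [show j - 1 + 1 = j by omega] at this
  exact this hb

theorem dd_act_right {j : ℕ} {w : Word} (hw : Dyck w) (hj : 1 ≤ j) (h : j + 3 ≤ w.length) :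
    dd j (act j w) = 0 := by
  have hlc := length_cap (i := j) (w := w) (by omega)
  have hdc := dyck_cap hw (by omega : j + 2 ≤ w.length)
  unfold dd
  rw [if_neg]
  rintro ⟨hr, hb⟩
  unfold act at hr hb
  have hb' : bal (cap j w) j := (T02b_bal_self (by omega)).mp hb
  rw [ret_ins hdc (by omega), if_pos hb'] at hr
  have := ret_two hdc (by omega : 1 ≤ j) (by omega) hb'
  omega

end Pool.Agent.H980R2.Cont
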