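import Pool.Agent.H980R2.Cont.T03
import Pool.Agent.H980R2.Cont.T02b

/-! T03b: exchange, recursion, inversion for `OO` and `DD`.

All from `lin_exch, lin_rec, lin_inv1, lin_invN, lin_congr, lin_add, lin_zero, lin_pd` (`H980R2.Cross.T03`) and
T01, T02.  In `OO_exch_even` the exchange relation gives `(qx - q²y) (OO(uyxv) - OO(uxyv)) = 0` as
`(qy - q²x) + (y - x) = qx - q²y` (`q² + q + 1 = 0`); so the equality holds for `x ≠ q y`; extend to all `x` by
polynomiality (`IsPoly`, `IsPoly.eq_of_ne` in `H980R2.Cross.T05`, or `PD.univ`, `eq_of_generic` in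
`H988R2.Perc.T07`).  In `OO_zero_swap`: `OO_exch_zero` with `y = 0` gives `q x OO(0xv) = -q² x OO(x0v)` for
`x ≠ 0`; extend to `x = 0` in the same way.  `OO_inv2`: `OO_zero_swap` twice and `OO_inv1`. -/

namespace Pool.Agent.H980R2.Cont

open Pool.Agent.H988R2.Perc Pool.Agent.H980R2.Cross Finset

theorem OO_zero_swap (x : ℂ) (v : List ℂ) (h : Even v.length) (hv : v ≠ []) :
    OO (0 :: x :: v) = -q * OO (x :: 0 :: v) := by
  have hNe : Even (v.length + 2) := Even.add h (by decide)
  obtain ⟨P1, _, hP1⟩ := (OO_pd (v.length + 2) hNe).univ [0] v (by simp; omega)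
  obtain ⟨P2, _, hP2⟩ := (OO_pd (v.length + 2) hNe).univ [] (0 :: v) (by simp)
  have k1 : ∀ z, OO (0 :: z :: v) = P1.eval z := by
    intro z
    rw [← hP1 z]
    simp
  have k2 : ∀ z, OO (z :: 0 :: v) = P2.eval z := by
    intro z
    rw [← hP2 z]
    simp
  have hzero : P1 + Polynomial.C q * P2 = 0 := by
    apply Polynomial.eq_zero_of_infinite_isRoot
    apply Set.Infinite.mono (s := ({0} : Set ℂ)ᶜ)
    · intro z hz
      have hz' : z ≠ 0 := hz
      have h1 := OO_exch_zero z 0 v h hv
      rw [k1, k2] at h1
      show (P1 + Polynomial.C q * P2).eval z = 0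
      simp only [Polynomial.eval_add, Polynomial.eval_mul, Polynomial.eval_C]
      have h2 : (q * z) * (P1.eval z + q * P2.eval z) = 0 := by linear_combination h1
      rcases mul_eq_zero.1 h2 with h3 | h3
      · exact absurd h3 (mul_ne_zero q_ne_zero hz')
      · exact h3
    · exact (Set.finite_singleton _).infinite_compl
  have h5 := congrArg (fun P => Polynomial.eval x P) hzero
  simp only [Polynomial.eval_add, Polynomial.eval_mul, Polynomial.eval_C,
    Polynomial.eval_zero] at h5
  rw [k1, k2]
  linear_combination h5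

theorem OO_inv2 (x : ℂ) (v : List ℂ) (hx : x ≠ 0) (h : Even v.length) (hv : v ≠ []) :
    OO (0 :: x :: v) = x^(v.length) * OO (0 :: x⁻¹ :: v) := by
  have h1 := OO_zero_swap x v h hv
  have h2 := OO_zero_swap x⁻¹ v h hv
  have h3 := OO_inv1 x (0 :: v) hx (by simpa using Even.add_one h)
  rw [List.length_cons, Nat.add_sub_cancel] at h3
  rw [h1, h2, h3]
  ring

theorem DD_exch_left (j : ℕ) (u v : List ℂ) (x y : ℂ) (hj : u.length + 2 = j)
    (h : Even (u.length + v.length)) (hu : u ≠ []) (hv : v ≠ []) :
    (q * x - q^2 * y) * DD j (u ++ y :: x :: v) = (q * y - q^2 * x) * DD j (u ++ x :: y :: v) := by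
  have h1 := lin_exch (dd j) u v x y h
  have hu1 := List.length_pos_iff.2 hu
  have hv1 := List.length_pos_iff.2 hv
  have h2 : lin (fun w => dd j (act u.length w)) (u ++ x :: y :: v) = 0 := by
    refine (lin_congr (G := fun _ => 0) ?_).trans (lin_zero _)
    intro w hw hl
    simp only [List.length_append, List.length_cons] at hl
    have e : u.length = j - 2 := by omega
    rw [e]
    exact dd_act_left hw (by omega) (by omega)
  rw [h2, mul_zero, add_zero] at h1
  exact h1

theorem DD_exch_mid (j : ℕ) (u v : List ℂ) (x y : ℂ) (hj : u.length + 1 = j)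
    (h : Even (u.length + v.length)) :
    (q * x - q^2 * y) * DD j (u ++ y :: x :: v) = (q * y - q^2 * x) * DD j (u ++ x :: y :: v) := by
  have h1 := lin_exch (dd j) u v x y h
  have h2 : lin (fun w => dd j (act u.length w)) (u ++ x :: y :: v) = 0 := by
    refine (lin_congr (G := fun _ => 0) ?_).trans (lin_zero _)
    intro w hw hl
    simp only [List.length_append, List.length_cons] at hl
    have e : u.length = j - 1 := by omega
    rw [e]
    exact dd_act_mid hw (by omega) (by omega)
  rw [h2, mul_zero, add_zero] at h1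
  exact h1

theorem DD_exch_right (j : ℕ) (u v : List ℂ) (x y : ℂ) (hj : u.length = j)
    (h : Even (u.length + v.length)) (hu : u ≠ []) (hv : v ≠ []) :
    (q * x - q^2 * y) * DD j (u ++ y :: x :: v) = (q * y - q^2 * x) * DD j (u ++ x :: y :: v) := by
  have h1 := lin_exch (dd j) u v x y h
  have hu1 := List.length_pos_iff.2 hu
  have hv1 := List.length_pos_iff.2 hv
  have h2 : lin (fun w => dd j (act u.length w)) (u ++ x :: y :: v) = 0 := by
    refine (lin_congr (G := fun _ => 0) ?_).trans (lin_zero _)
    intro w hw hl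
    simp only [List.length_append, List.length_cons] at hl
    rw [hj]
    exact dd_act_right hw (by omega) (by omega)
  rw [h2, mul_zero, add_zero] at h1
  exact h1

end Pool.Agent.H980R2.Cont
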