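import Pool.Agent.H980R2.Cont.Defs
import Pool.Agent.H988R2.Perc.T02

/-! T08b: the row through a word (helper152). -/

namespace Pool.Agent.H980R2.Cont

open Pool.Agent.H988R2.Perc Pool.Agent.H980R2.Cross Finset

namespace T08b

/-- first return decomposition -/
inductive D2 : Word → Prop
  | nil : D2 []
  | step (b s : Word) : D2 b → D2 s → D2 (true :: (b ++ false :: s))

theorem dyck_wrap {b s : Word} (hb : Dyck b) (hs : Dyck s) :
    Dyck (true :: (b ++ false :: s)) := by
  induction hb with
  | nil => exact Dyck.ins 0 s (Nat.zero_le _) hs
  | ins i b hi _ ih =>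
    have h1 : true :: (ins i b ++ false :: s) = ins (i+1) (true :: (b ++ false :: s)) := by
      unfold ins
      rw [List.take_succ_cons, List.drop_succ_cons, List.take_append_of_le_length hi,
        List.drop_append_of_le_length hi]
      simp
    rw [h1]
    refine Dyck.ins _ _ ?_ ih
    simp only [List.length_cons, List.length_append]
    omega

theorem D2.dyck {w : Word} (h : D2 w) : Dyck w := by
  induction h with
  | nil => exact Dyck.nil
  | step b s _ _ ihb ihs => exact dyck_wrap ihb ihs

theorem D2.insert0 {w : Word} (h : D2 w) : ∀ i ≤ w.length, D2 (ins i w) := by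
  induction h with
  | nil =>
    intro i hi
    have : i = 0 := by simpa using hi
    subst this
    exact D2.step [] [] D2.nil D2.nil
  | step b s hb hs ihb ihs =>
    intro i hi
    rcases Nat.eq_zero_or_pos i with h0 | h0
    · subst h0
      exact D2.step [] _ D2.nil (D2.step b s hb hs)
    · obtain ⟨j, rfl⟩ : ∃ j, i = j + 1 := ⟨i - 1, by omega⟩
      by_cases hj : j ≤ b.length
      · have h1 : ins (j+1) (true :: (b ++ false :: s)) =
            true :: (ins j b ++ false :: s) := by
          unfold ins
          rw [List.take_succ_cons, List.drop_succ_cons, List.take_append_of_le_length hj,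
            List.drop_append_of_le_length hj]
          simp
        rw [h1]
        exact D2.step _ _ (ihb j hj) hs
      · obtain ⟨m, rfl⟩ : ∃ m, j = b.length + 1 + m := ⟨j - (b.length + 1), by omega⟩
        have hm : m ≤ s.length := by
          simp only [List.length_cons, List.length_append] at hi
          omega
        have h1 : ins (b.length + 1 + m + 1) (true :: (b ++ false :: s)) =
            true :: (b ++ false :: ins m s) := by
          have e1 : true :: (b ++ false :: s) = (true :: (b ++ [false])) ++ s := by simp
          have e2 : b.length + 1 + m + 1 = (true :: (b ++ [false])).length + m := by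
            simp only [List.length_cons, List.length_append, List.length_nil]
            omega
          unfold ins
          rw [e1, e2, List.take_length_add_append, List.drop_length_add_append]
          simp
        rw [h1]
        exact D2.step _ _ hb (ihs m hm)

theorem D2.of_dyck {w : Word} (h : Dyck w) : D2 w := by
  induction h with
  | nil => exact D2.nil
  | ins i w hi _ ih => exact ih.insert0 i hi

theorem D2.app {a t : Word} (ha : D2 a) (ht : D2 t) : D2 (a ++ t) := by
  induction ha with
  | nil => simpa using ht
  | step b s hb _ _ ihs =>
    have : true :: (b ++ false :: s) ++ t = true :: (b ++ false :: (s ++ t)) := by simp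
    rw [this]
    exact D2.step _ _ hb ihs

/-- last block -/
theorem D2.last {c : Word} (hc : D2 c) (hne : c ≠ []) :
    ∃ b1 b2 : Word, D2 b1 ∧ D2 b2 ∧ c = b1 ++ true :: (b2 ++ [false]) := by
  induction hc with
  | nil => exact absurd rfl hne
  | step b s hb hs _ ihs =>
    by_cases h : s = []
    · subst h
      exact ⟨[], b, D2.nil, hb, rfl⟩
    · obtain ⟨b1, b2, h1, h2, h3⟩ := ihs h
      refine ⟨true :: (b ++ false :: b1), b2, D2.step _ _ hb h1, h2, ?_⟩
      rw [h3]
      simp

/-! ### flips -/

theorem flipR_app (l m : Word) : ∀ d, d + l.count true < l.count false →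
    flipR d (l ++ m) = flipR d l ++ m := by
  induction l with
  | nil => intro d h; simp at h
  | cons a l ih =>
    intro d h
    cases a with
    | true =>
      simp only [List.count_cons] at h
      simp at h
      rw [List.cons_append, flipR, flipR, ih (d+1) (by omega)]
      rfl
    | false =>
      simp only [List.count_cons] at h
      simp at h
      cases d with
      | zero => rfl
      | succ d =>
        rw [List.cons_append, flipR, flipR, ih d (by omega)]
        rfl

theorem flipL_app (l m : Word) : ∀ d, d + l.count false < l.count true →
    flipL d (l ++ m) = flipL d l ++ m := by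
  induction l with
  | nil => intro d h; simp at h
  | cons a l ih =>
    intro d h
    cases a with
    | false =>
      simp only [List.count_cons] at h
      simp at h
      rw [List.cons_append, flipL, flipL, ih (d+1) (by omega)]
      rfl
    | true =>
      simp only [List.count_cons] at h
      simp at h
      cases d with
      | zero => rfl
      | succ d =>
        rw [List.cons_append, flipL, flipL, ih d (by omega)]
        rfl

theorem flipL_pass {b : Word} (hb : D2 b) : ∀ (d : ℕ) (m : Word),
    flipL d (b.reverse ++ m) = b.reverse ++ flipL d m := by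
  induction hb with
  | nil => intro d m; rfl
  | step b s _ _ ihb ihs =>
    intro d m
    have e1 : (true :: (b ++ false :: s)).reverse ++ m =
        s.reverse ++ (false :: (b.reverse ++ (true :: m))) := by simp
    have e2 : ∀ y : Word, (true :: (b ++ false :: s)).reverse ++ y =
        s.reverse ++ (false :: (b.reverse ++ (true :: y))) := by
      intro y
      simp
    rw [e1, ihs, flipL, ihb, flipL, e2]

/-! ### the action inside a block -/

theorem act_inside (p b t : Word) (hb : Dyck b) {i : ℕ} (hi : i + 2 ≤ b.length) :
    act (p.length + i) (p ++ (b ++ t)) = p ++ (act i b ++ t) := by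
  obtain ⟨u, b', rfl, hu⟩ := exists_split (i := i) (w := b) (by omega)
  rcases b' with _ | ⟨y, b'⟩
  · simp at hi; omega
  rcases b' with _ | ⟨y', v⟩
  · simp at hi; omega
  have hins : ∀ c : Word, i ≤ c.length →
      ins (p.length + i) (p ++ (c ++ t)) = p ++ (ins i c ++ t) := by
    intro c hc
    obtain ⟨c1, c2, rfl, hc1⟩ := exists_split (i := i) (w := c) hc
    have e : p ++ (c1 ++ c2 ++ t) = (p ++ c1) ++ (c2 ++ t) := by simp
    rw [e, ins_app (p ++ c1) (c2 ++ t) (by simp; omega), ins_app c1 c2 hc1]
    simp
  have hcnt := dyck_count hb
  have hp1 := dyck_prefix hb u.length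
  have hp2 := dyck_prefix hb (u.length + 2)
  rw [List.take_left] at hp1
  rw [List.take_length_add_append] at hp2
  have hcap : cap (p.length + i) (p ++ (u ++ y :: y' :: v ++ t)) =
      p ++ (cap i (u ++ y :: y' :: v) ++ t) := by
    have e : p ++ (u ++ y :: y' :: v ++ t) = (p ++ u) ++ y :: y' :: (v ++ t) := by simp
    have hl : (p ++ u).length = p.length + i := by simp; omega
    rw [e]
    rcases y with _ | _ <;> rcases y' with _ | _
    · rw [cap_ff _ _ hl, cap_ff _ _ hu]
      have h1 : flipL 0 (p ++ u).reverse = flipL 0 u.reverse ++ p.reverse := by
        rw [List.reverse_append, flipL_app]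
        rw [List.count_reverse, List.count_reverse]
        simp only [List.take_succ_cons, List.take_zero, List.count_append, List.count_cons,
          List.count_nil] at hp2
        simp at hp2
        omega
      rw [h1]
      simp
    · rw [cap_ft _ _ hl, cap_ft _ _ hu]
      simp
    · rw [cap_tf _ _ hl, cap_tf _ _ hu]
      simp
    · rw [cap_tt _ _ hl, cap_tt _ _ hu]
      have h1 : flipR 0 (v ++ t) = flipR 0 v ++ t := by
        rw [flipR_app]
        simp only [List.count_append, List.count_cons] at hcnt
        simp at hcnt
        omega
      rw [h1]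
      simp
  unfold act
  rw [hcap, hins]
  rw [length_cap hi]
  omega

/-! ### returns -/

theorem oo_dead (p r : Word) (hp : p ≠ []) (hr : r ≠ []) (hpb : p.count true = p.count false)
    (hrb : r.count true = r.count false) : oo (p ++ r) = 0 := by
  unfold oo
  rw [if_neg]
  intro h
  unfold ret at h
  obtain ⟨y, hy⟩ := List.length_eq_one_iff.1 h
  have hpl : 0 < p.length := List.length_pos_of_ne_nil hp
  have hrl : 0 < r.length := List.length_pos_of_ne_nil hr
  have h1 : p.length - 1 ∈ (List.range (p ++ r).length).filter
      (fun k => decide (bal (p ++ r) (k+1))) := by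
    rw [List.mem_filter, List.mem_range, List.length_append, decide_eq_true_eq]
    refine ⟨by omega, ?_⟩
    have : p.length - 1 + 1 = p.length := by omega
    rw [this]
    unfold bal
    rw [List.take_left]
    exact hpb
  have h2 : (p ++ r).length - 1 ∈ (List.range (p ++ r).length).filter
      (fun k => decide (bal (p ++ r) (k+1))) := by
    rw [List.mem_filter, List.mem_range, decide_eq_true_eq]
    have h0 : 0 < (p ++ r).length := by rw [List.length_append]; omega
    refine ⟨by omega, ?_⟩
    have : (p ++ r).length - 1 + 1 = (p ++ r).length := by omega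
    rw [this]
    unfold bal
    rw [List.take_length, List.count_append, List.count_append, hpb, hrb]
  rw [hy, List.mem_singleton] at h1 h2
  rw [List.length_append] at h2
  omega

theorem oo_prim {c : Word} (hc : D2 c) : oo (true :: (c ++ [false])) = 1 := by
  unfold oo
  rw [if_pos]
  unfold ret
  have hcd := hc.dyck
  have hcnt := dyck_count hcd
  have hlen : (true :: (c ++ [false])).length = c.length + 1 + 1 := by simp
  rw [hlen, List.range_succ, List.filter_append]
  have h1 : (List.range (c.length + 1)).filter
      (fun k => decide (bal (true :: (c ++ [false])) (k+1))) = [] := by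
    rw [List.filter_eq_nil_iff]
    intro k hk
    rw [List.mem_range] at hk
    rw [decide_eq_true_eq]
    unfold bal
    rw [List.take_succ_cons, List.take_append_of_le_length (by omega)]
    have := dyck_prefix hcd k
    simp only [List.count_cons]
    simp
    omega
  rw [h1]
  have h2 : bal (true :: (c ++ [false])) (c.length + 1 + 1) := by
    unfold bal
    rw [← hlen, List.take_length]
    simp only [List.count_cons, List.count_append, List.count_nil]
    simp
    omega
  rw [List.filter_cons_of_pos (by rw [decide_eq_true_eq]; exact h2)]
  rfl

/-! ### weights -/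

theorem pI_add_pE {x z : ℂ} (h : x - q^2 * z ≠ 0) : pI x z + pE x z = 1 := by
  unfold pI pE
  rw [← add_div, div_eq_one_iff_eq h]
  have := q_spec
  linear_combination (z - x) * this

theorem aw_app (x : ℂ) {b : Word} (hb : D2 b) : ∀ (h : ℕ) (t : Word) (zb zt : List ℂ),
    zb.length = b.length → aw x (h+1) (b ++ t) (zb ++ zt) = aw x (h+1) t zt := by
  induction hb with
  | nil =>
    intro h t zb zt hl
    have : zb = [] := List.length_eq_zero_iff.1 hl
    subst this
    rfl
  | step b s _ _ ihb ihs =>
    intro h t zb zt hl
    rcases zb with _ | ⟨z, zb⟩
    · simp at hl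
    have hl' : b.length + 1 ≤ zb.length := by
      simp only [List.length_cons, List.length_append] at hl
      omega
    obtain ⟨zb1, zb2, rfl, hz1⟩ : ∃ zb1 zb2 : List ℂ, zb = zb1 ++ zb2 ∧ zb1.length = b.length :=
      ⟨zb.take b.length, zb.drop b.length, (List.take_append_drop _ _).symm, by
        rw [List.length_take]; omega⟩
    rcases zb2 with _ | ⟨z', zb2⟩
    · simp at hl'; omega
    have hz2 : zb2.length = s.length := by
      simp only [List.length_cons, List.length_append] at hl
      omega
    have e1 : true :: (b ++ false :: s) ++ t = true :: (b ++ (false :: (s ++ t))) := by simp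
    have e2 : z :: (zb1 ++ z' :: zb2) ++ zt = z :: (zb1 ++ (z' :: (zb2 ++ zt))) := by simp
    rw [e1, e2]
    rw [aw]
    rw [ihb (h+1) _ _ _ hz1]
    rw [aw]
    exact ihs h _ _ _ hz2

/-! ### the three cases -/

theorem dead (x : ℂ) (p : Word) (hp : p ≠ []) (hpb : p.count true = p.count false) :
    ∀ (zs : List ℂ) (i : ℕ) (r : Word), D2 r → r.length = i + zs.length + 1 →
    Val x (p.length + i) (p ++ r) zs = 0 := by
  intro zs
  induction zs with
  | nil =>
    intro i r hr hl
    show oo (p ++ r) = 0
    refine oo_dead p r hp ?_ hpb (dyck_count hr.dyck)
    intro h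
    rw [h] at hl
    simp at hl
  | cons z zs ih =>
    intro i r hr hl
    rw [List.length_cons] at hl
    show pI x z * Val x (p.length + i + 1) (p ++ r) zs +
      pE x z * Val x (p.length + i + 1) (act (p.length + i) (p ++ r)) zs = 0
    have h1 := act_inside p r [] hr.dyck (i := i) (by omega)
    rw [List.append_nil, List.append_nil] at h1
    rw [h1]
    have h2 := ih (i+1) r hr (by omega)
    have h3 := ih (i+1) (act i r) (D2.of_dyck (dyck_act hr.dyck (by omega)))
      (by rw [length_act (by omega)]; omega)
    rw [← add_assoc] at h2 h3
    rw [h2, h3]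
    ring

theorem inside (x : ℂ) (s : Word) (hs : D2 s) (z : ℂ) (zr : List ℂ) (hzr : zr.length = s.length)
    (P : ∀ c : Word, D2 c → Val x (c.length + 1) (true :: (c ++ false :: s)) zr = aw x 0 s zr) :
    ∀ (zi : List ℂ) (k : ℕ) (c : Word), D2 c → 1 ≤ k → c.length = k + zi.length →
    (∀ a ∈ zi, x - q^2 * a ≠ 0) →
    Val x k (true :: (c ++ false :: s)) (zi ++ z :: zr) = pI x z * aw x 0 s zr := by
  intro zi
  induction zi with
  | nil =>
    intro k c hc hk hl _
    rw [List.length_nil, add_zero] at hl
    subst hl
    show pI x z * Val x (c.length + 1) (true :: (c ++ false :: s)) zr +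
      pE x z * Val x (c.length + 1) (act c.length (true :: (c ++ false :: s))) zr = _
    rw [P c hc]
    obtain ⟨b1, b2, h1, h2, rfl⟩ := hc.last (by
      intro h
      rw [h] at hk
      simp at hk)
    have hact : act (b1 ++ true :: (b2 ++ [false])).length
        (true :: (b1 ++ true :: (b2 ++ [false]) ++ false :: s)) =
        (true :: (b1 ++ [false])) ++ (b2 ++ true :: false :: s) := by
      have e1 : true :: (b1 ++ true :: (b2 ++ [false]) ++ false :: s) =
          (true :: (b1 ++ true :: b2)) ++ false :: false :: s := by simp
      have e2 : (b1 ++ true :: (b2 ++ [false])).length = (true :: (b1 ++ true :: b2)).length := by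
        simp only [List.length_cons, List.length_append, List.length_nil]
        omega
      rw [e1, e2]
      unfold act
      rw [cap_ff _ _ rfl]
      have e3 : (true :: (b1 ++ true :: b2)).reverse =
          b2.reverse ++ (true :: (b1.reverse ++ [true])) := by simp
      rw [e3, flipL_pass h2, flipL]
      have e4 : (b2.reverse ++ (false :: (b1.reverse ++ [true]))).reverse ++ s =
          (true :: (b1 ++ false :: b2)) ++ s := by simp
      rw [e4, ins_app _ _ (by simp)]
      simp
    rw [hact]
    have h3 := dead x (true :: (b1 ++ [false])) (by simp) (by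
      have := dyck_count h1.dyck
      simp only [List.count_cons, List.count_append, List.count_nil]
      simp
      omega) zr (b2.length + 1) (b2 ++ true :: false :: s)
      (h2.app (D2.step [] s D2.nil hs)) (by
      simp only [List.length_cons, List.length_append]
      omega)
    have e5 : (true :: (b1 ++ [false])).length + (b2.length + 1) =
        (b1 ++ true :: (b2 ++ [false])).length + 1 := by
      simp only [List.length_cons, List.length_append, List.length_nil]
      omega
    rw [e5] at h3
    rw [h3]
    ring
  | cons z' zi ih =>
    intro k c hc hk hl hne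
    rw [List.length_cons] at hl
    show pI x z' * Val x (k + 1) (true :: (c ++ false :: s)) (zi ++ z :: zr) +
      pE x z' * Val x (k + 1) (act k (true :: (c ++ false :: s))) (zi ++ z :: zr) = _
    have hact : act k (true :: (c ++ false :: s)) = true :: (act (k-1) c ++ false :: s) := by
      have h1 := act_inside [true] c (false :: s) hc.dyck (i := k - 1) (by omega)
      have e1 : [true].length + (k - 1) = k := by
        simp only [List.length_cons, List.length_nil]
        omega
      rw [e1] at h1
      exact h1
    rw [hact]
    have hne' : ∀ a ∈ zi, x - q^2 * a ≠ 0 := fun a ha => hne a (List.mem_cons_of_mem _ ha)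
    rw [ih (k+1) c hc (by omega) (by omega) hne',
      ih (k+1) (act (k-1) c) (D2.of_dyck (dyck_act hc.dyck (by omega))) (by omega)
        (by rw [length_act (by omega)]; omega) hne', ← add_mul,
      pI_add_pE (hne z' (List.mem_cons_self)), one_mul]

theorem alive (x : ℂ) {s : Word} (hs : D2 s) : ∀ (zs : List ℂ), zs.length = s.length →
    (∀ a ∈ zs, x - q^2 * a ≠ 0) → ∀ c : Word, D2 c →
    Val x (c.length + 1) (true :: (c ++ false :: s)) zs = aw x 0 s zs := by
  induction hs with
  | nil =>
    intro zs hl _ c hc
    have : zs = [] := List.length_eq_zero_iff.1 hl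
    subst this
    show oo (true :: (c ++ [false])) = _
    rw [oo_prim hc]
    simp [aw]
  | step b s hb hs _ ihs =>
    intro zs hl hne c hc
    rcases zs with _ | ⟨z, zs⟩
    · simp at hl
    have hl' : b.length + 1 ≤ zs.length := by
      simp only [List.length_cons, List.length_append] at hl
      omega
    obtain ⟨zb, z2, rfl, hzb⟩ : ∃ zb z2 : List ℂ, zs = zb ++ z2 ∧ zb.length = b.length :=
      ⟨zs.take b.length, zs.drop b.length, (List.take_append_drop _ _).symm, by
        rw [List.length_take]; omega⟩
    rcases z2 with _ | ⟨z', zr⟩
    · simp at hl'; omega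
    have hzr : zr.length = s.length := by
      simp only [List.length_cons, List.length_append] at hl
      omega
    show pI x z * Val x (c.length + 1 + 1) (true :: (c ++ false :: (true :: (b ++ false :: s))))
      (zb ++ z' :: zr) + pE x z * Val x (c.length + 1 + 1)
        (act (c.length + 1) (true :: (c ++ false :: (true :: (b ++ false :: s)))))
        (zb ++ z' :: zr) = _
    have h1 := dead x (true :: (c ++ [false])) (by simp) (by
      have := dyck_count hc.dyck
      simp only [List.count_cons, List.count_append, List.count_nil]
      simp
      omega) (zb ++ z' :: zr) 0 (true :: (b ++ false :: s)) (D2.step b s hb hs) (by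
      simp only [List.length_cons, List.length_append]
      omega)
    have e1 : (true :: (c ++ [false])).length + 0 = c.length + 1 + 1 := by
      simp only [List.length_cons, List.length_append, List.length_nil]
    have e2 : (true :: (c ++ [false])) ++ (true :: (b ++ false :: s)) =
        true :: (c ++ false :: (true :: (b ++ false :: s))) := by simp
    rw [e1, e2] at h1
    rw [h1]
    have h2 := act_valley (true :: c) (b ++ false :: s)
    have e3 : (true :: c) ++ false :: true :: (b ++ false :: s) =
        true :: (c ++ false :: (true :: (b ++ false :: s))) := by simp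
    have e4 : (true :: c) ++ true :: false :: (b ++ false :: s) =
        true :: ((c ++ true :: false :: b) ++ false :: s) := by simp
    have e5 : (true :: c).length = c.length + 1 := rfl
    rw [e3, e4, e5] at h2
    rw [h2]
    have h3 := inside x s hs z' zr hzr (fun c' hc' => ihs zr hzr (fun a ha => hne a (by
      simp only [List.mem_cons, List.mem_append]
      exact Or.inr (Or.inr (Or.inr ha)))) c' hc') zb (c.length + 1 + 1)
      (c ++ true :: false :: b) (hc.app (D2.step [] b D2.nil hb)) (by omega) (by
      simp only [List.length_cons, List.length_append]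
      omega) (fun a ha => hne a (by
      simp only [List.mem_cons, List.mem_append]
      exact Or.inr (Or.inl ha)))
    rw [h3]
    show _ = pE x z * aw x 1 (b ++ false :: s) (zb ++ z' :: zr)
    rw [aw_app x hb 0 _ _ _ hzb]
    show _ = pE x z * (pI x z' * aw x 0 s zr)
    ring

end T08b

theorem Val_eq (w : Word) (hw : Dyck w) (z : List ℂ) (x : ℂ) (hz : z.length = w.length)
    (hne : ∀ a ∈ z, x - q^2 * a ≠ 0) : Val x 1 (ins 0 w) z = aw x 0 w z :=
  T08b.alive x (T08b.D2.of_dyck hw) z hz hne [] T08b.D2.nil

end Pool.Agent.H980R2.Cont
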