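import Pool.Agent.H980R2.Cont.Defs
import Pool.Agent.H988R2.Perc.T16
import Pool.Agent.H988R2.Perc.T20
import Pool.Agent.H988R2.Perc.T25
import Pool.Agent.H980R2.Cross.T21

/-! T15: nonvanishing.

`Z` is symmetric (`Z_perm`, see `H988R2.Perc` / `H980R2.Cross` T09-T10, T19 uses it) and
`Z (replicate L 1 ++ [0]) ≠ 0` for odd `L` is proved there (used for `JT_law_tendsto` / `arm_prob`: look for the
formula of `Z` in terms of `chi`, `chi_pos`).  `zn n = 0 :: replicate (2n+1) 1`.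
`dl n s > 0` for `1 ≤ s ≤ n` (all factors positive: `i ≤ s-1 ≤ n-1`), `dl n 0 = 0`. -/

namespace Pool.Agent.H980R2.Cont

open Pool.Agent.H988R2.Perc Pool.Agent.H980R2.Cross Finset

theorem Z_zn_ne (n : ℕ) : Z (zn n) ≠ 0 := by
  unfold zn
  have hp : (0 :: List.replicate (2*n+1) (1:ℂ)).Perm (List.replicate (2*n+1) (1:ℂ) ++ [0]) :=
    (List.perm_append_singleton (0:ℂ) (List.replicate (2*n+1) 1)).symm
  have hl : Even (0 :: List.replicate (2*n+1) (1:ℂ)).length := by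
    rw [List.length_cons, List.length_replicate]
    exact ⟨n+1, by ring⟩
  rw [Z_perm hl hp, Z_ones_zero]
  refine mul_ne_zero (pow_ne_zero _ q_ne_zero) ?_
  exact_mod_cast (Pool.Agent.H988R2.Perc.chi_pos (2*n+1)).ne'

theorem dl_pos (n s : ℕ) (h1 : 1 ≤ s) (hs : s ≤ n) : 0 < dl n s := by
  unfold dl
  have hs0 : (0:ℝ) < s := by exact_mod_cast h1
  refine mul_pos (mul_pos hs0 (by linarith)) (Finset.prod_pos fun i hi => ?_)
  rw [Finset.mem_Icc] at hi
  have hi1 : (1:ℝ) ≤ i := by exact_mod_cast hi.1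
  have hi2 : (i:ℝ) + 1 ≤ n := by
    have : i + 1 ≤ n := by omega
    exact_mod_cast this
  refine div_pos (mul_pos (mul_pos two_pos ?_) ?_) (mul_pos ?_ ?_)
  · linarith
  · linarith
  · linarith
  · linarith

theorem dl_nonneg (n s : ℕ) (hs : s ≤ n) : 0 ≤ dl n s := by
  rcases Nat.eq_zero_or_pos s with h | h
  · subst h
    unfold dl
    simp
  · exact (dl_pos n s h hs).le

theorem tot_pos (n : ℕ) (hn : 1 ≤ n) : 0 < tot n := by
  unfold tot
  have hnn : ∀ k ∈ range (n+1), 0 ≤ tl n k := by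
    intro k _
    unfold tl
    exact Finset.sum_nonneg fun s hs => dl_nonneg n s (Finset.mem_Icc.1 hs).2
  have h0 : 0 < tl n 0 := by
    unfold tl
    refine Finset.sum_pos' (fun s hs => dl_nonneg n s (Finset.mem_Icc.1 hs).2)
      ⟨1, Finset.mem_Icc.2 ⟨Nat.zero_le _, hn⟩, dl_pos n 1 le_rfl hn⟩
  exact Finset.sum_pos' hnn ⟨0, Finset.mem_range.2 (Nat.succ_pos n), h0⟩

end Pool.Agent.H980R2.Cont
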