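import Pool.Agent.H980R2.Cont.T20

/-! T20b: asymptotics of `dl`.

The factor `φ_n(i) = 2(2n+2i+3)(n-i)/((2n-i-1)(2n+i+4)) = 1 - (3i+4)(i-1)/(4n²+6n-i²-5i-4)`, so for `1 ≤ i ≤ n`,
`n ≥ 2`: `0 ≤ φ_n(i) ≤ 1 - (3i+4)(i-1)/(4n²+6n) ≤ exp(-(3i+4)(i-1)/(4n²+6n))` [denominator positive and `≤ 4n²+6n`].
Sum: `Σ_{i<s} (3i+4)(i-1) = Σ (3i²+i-4) ≥ c s³ - C`, so `dl n s ≤ s(s+1) exp(-c s³/n² + C)` (`dl_le`).
For `s = s_n` with `s_n/n^{2/3}` convergent, `log φ_n(i) = -3i²/(4n²) + O(i/n² + i⁴/n⁴)`, so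
`∏_{i<s_n} φ_n(i) → exp(-lim s_n³/(4n²))`.  With `s_n = ⌊y (2n+1)^{2/3}⌋`: limit `exp(-y³)` (`dl_tendsto`). -/

namespace Pool.Agent.H980R2.Cont

open Finset Filter Topology

/-- the closed form of the sum -/
theorem t20b_sum (s : ℕ) (hs : 1 ≤ s) :
    ∑ i ∈ Icc 1 (s-1), (3 * (i:ℝ)^2 + i - 4) = ((s:ℝ) - 1) * ((s:ℝ)^2 - 4) := by
  obtain ⟨k, rfl⟩ : ∃ k, s = k + 1 := ⟨s - 1, by omega⟩
  rw [Nat.add_sub_cancel]
  clear hs
  induction k with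
  | zero => simp
  | succ k ih =>
    rw [Finset.sum_Icc_succ_top (by omega), ih]
    push_cast
    ring

/-- the elementary lower bound `exp (-(1+2M)x) ≤ 1 - x` -/
theorem t20b_low (x M : ℝ) (hx : 0 ≤ x) (hxM : x ≤ M) (hM : M ≤ 1/2) :
    Real.exp (-((1 + 2 * M) * x)) ≤ 1 - x := by
  have h1 : 0 < 1 - x := by linarith
  have h2 : 1 / (1 - x) ≤ Real.exp ((1 + 2 * M) * x) := by
    have h3 : x / (1 - x) ≤ (1 + 2 * M) * x := by
      rw [div_le_iff₀ h1]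
      have : 0 ≤ x * (2 * M - x - 2 * M * x) := by
        apply mul_nonneg hx
        nlinarith
      nlinarith
    calc 1 / (1 - x) = x / (1 - x) + 1 := by field_simp; ring
      _ ≤ (1 + 2 * M) * x + 1 := by linarith
      _ ≤ Real.exp ((1 + 2 * M) * x) := Real.add_one_le_exp _
  rw [Real.exp_neg]
  rw [inv_le_comm₀ (Real.exp_pos _) h1]
  rwa [one_div] at h2

/-- two sided bound of the product -/
theorem t20b_prod (n s : ℕ) (hs : 1 ≤ s) (hsn : s ≤ n) (D M : ℝ)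
    (hD : D = 4 * (n:ℝ)^2 + 6 * n - (s:ℝ)^2 - 5 * s - 4) (hD0 : 0 < D)
    (hM : M = (3 * (s:ℝ)^2 + s) / D) (hM2 : M ≤ 1/2) :
    Real.exp (-((1 + 2 * M) * ((((s:ℝ) - 1) * ((s:ℝ)^2 - 4)) / D))) ≤
      ∏ i ∈ Icc 1 (s-1),
        (2 * (2*(n:ℝ) + 2*i + 3) * ((n:ℝ) - i)) / ((2*(n:ℝ) - i - 1) * (2*n + i + 4)) ∧
    ∏ i ∈ Icc 1 (s-1),
        (2 * (2*(n:ℝ) + 2*i + 3) * ((n:ℝ) - i)) / ((2*(n:ℝ) - i - 1) * (2*n + i + 4)) ≤
      Real.exp (-((((s:ℝ) - 1) * ((s:ℝ)^2 - 4)) / (4 * (n:ℝ)^2 + 6 * n))) := by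
  have hn0 : (0:ℝ) ≤ n := Nat.cast_nonneg _
  have hn1 : (1:ℝ) ≤ n := by exact_mod_cast le_trans hs hsn
  have key : ∀ i ∈ Icc 1 (s-1),
      ∃ x : ℝ, (2 * (2*(n:ℝ) + 2*i + 3) * ((n:ℝ) - i)) / ((2*(n:ℝ) - i - 1) * (2*n + i + 4)) = 1 - x ∧
        (3 * (i:ℝ)^2 + i - 4) / (4 * (n:ℝ)^2 + 6 * n) ≤ x ∧ x ≤ (3 * (i:ℝ)^2 + i - 4) / D ∧ 0 ≤ x ∧
        x ≤ M := by
    intro i hi
    rw [Finset.mem_Icc] at hi
    have hi1 : (1:ℝ) ≤ i := by exact_mod_cast hi.1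
    have his : (i:ℝ) ≤ s := by
      have : i ≤ s := by omega
      exact_mod_cast this
    have hden : (2*(n:ℝ) - i - 1) * (2*n + i + 4) = 4 * (n:ℝ)^2 + 6 * n - (i:ℝ)^2 - 5 * i - 4 := by
      ring
    have hDi : D ≤ 4 * (n:ℝ)^2 + 6 * n - (i:ℝ)^2 - 5 * i - 4 := by
      rw [hD]
      nlinarith
    have hDi0 : 0 < 4 * (n:ℝ)^2 + 6 * n - (i:ℝ)^2 - 5 * i - 4 := lt_of_lt_of_le hD0 hDi
    have hnum : 0 ≤ 3 * (i:ℝ)^2 + i - 4 := by nlinarith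
    have hup : (3 * (i:ℝ)^2 + i - 4) / (4 * (n:ℝ)^2 + 6 * n - (i:ℝ)^2 - 5 * i - 4) ≤
        (3 * (i:ℝ)^2 + i - 4) / D := div_le_div_of_nonneg_left hnum hD0 hDi
    refine ⟨(3 * (i:ℝ)^2 + i - 4) / (4 * (n:ℝ)^2 + 6 * n - (i:ℝ)^2 - 5 * i - 4), ?_, ?_, hup,
      div_nonneg hnum hDi0.le, hup.trans ?_⟩
    · rw [hden, eq_sub_iff_add_eq, ← add_div, div_eq_one_iff_eq hDi0.ne']
      ring
    · apply div_le_div_of_nonneg_left hnum hDi0
      nlinarith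
    · rw [hM]
      apply div_le_div_of_nonneg_right _ hD0.le
      nlinarith
  choose! x hx using key
  constructor
  · rw [← t20b_sum s hs, Finset.sum_div, Finset.mul_sum, ← Finset.sum_neg_distrib, Real.exp_sum]
    apply Finset.prod_le_prod
    · intro i _
      exact (Real.exp_pos _).le
    · intro i hi
      obtain ⟨h1, h2, h3, h4, h5⟩ := hx i hi
      rw [h1]
      refine le_trans ?_ (t20b_low (x i) M h4 h5 hM2)
      apply Real.exp_le_exp.2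
      have h6 : 0 ≤ 1 + 2 * M := by linarith [h4.trans h5]
      have := mul_le_mul_of_nonneg_left h3 h6
      linarith
  · rw [← t20b_sum s hs, Finset.sum_div, ← Finset.sum_neg_distrib, Real.exp_sum]
    apply Finset.prod_le_prod
    · intro i hi
      obtain ⟨h1, h2, h3, h4, h5⟩ := hx i hi
      rw [h1]
      linarith
    · intro i hi
      obtain ⟨h1, h2, h3, h4, h5⟩ := hx i hi
      rw [h1]
      have := Real.add_one_le_exp (-(x i))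
      refine le_trans (by linarith : 1 - x i ≤ Real.exp (-(x i))) ?_
      apply Real.exp_le_exp.2
      linarith

theorem dl_tendsto (y : ℝ) (hy : 0 < y) :
    Tendsto (fun n : ℕ => dl n ⌊y * (2*(n:ℝ)+1)^((2:ℝ)/3)⌋₊ / (2*(n:ℝ)+1)^((4:ℝ)/3)) atTop
      (𝓝 (y^2 * Real.exp (-y^3))) := by
  obtain ⟨a, ha⟩ : ∃ a : ℕ → ℝ, ∀ n, a n = 2*(n:ℝ)+1 := ⟨fun n => 2*(n:ℝ)+1, fun _ => rfl⟩
  obtain ⟨m, hm⟩ : ∃ m : ℕ → ℝ, ∀ n, m n = (a n)^((2:ℝ)/3) := ⟨_, fun _ => rfl⟩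
  obtain ⟨s, hs⟩ : ∃ s : ℕ → ℕ, ∀ n, s n = ⌊y * m n⌋₊ := ⟨_, fun _ => rfl⟩
  have ha1 : ∀ n, 1 ≤ a n := fun n => by rw [ha]; linarith [Nat.cast_nonneg (α := ℝ) n]
  have ha0 : ∀ n, 0 < a n := fun n => lt_of_lt_of_le one_pos (ha1 n)
  have hm1 : ∀ n, 1 ≤ m n := fun n => by
    rw [hm]; exact Real.one_le_rpow (ha1 n) (by norm_num)
  have hm0 : ∀ n, 0 < m n := fun n => lt_of_lt_of_le one_pos (hm1 n)
  have hm3 : ∀ n, m n ^ 3 = a n ^ 2 := fun n => by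
    rw [hm, ← Real.rpow_natCast, ← Real.rpow_mul (ha0 n).le, ← Real.rpow_natCast]
    norm_num
  have hm4 : ∀ n, (a n)^((4:ℝ)/3) = m n ^ 2 := fun n => by
    rw [hm, ← Real.rpow_natCast, ← Real.rpow_mul (ha0 n).le]
    norm_num
  have hat : Tendsto a atTop atTop := by
    have : a = fun n : ℕ => 2*(n:ℝ)+1 := funext ha
    rw [this]
    exact tendsto_atTop_add_const_right _ _ (tendsto_natCast_atTop_atTop.const_mul_atTop two_pos)
  have hmt : Tendsto m atTop atTop := by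
    have : m = fun n : ℕ => (a n)^((2:ℝ)/3) := funext hm
    rw [this]
    exact (tendsto_rpow_atTop (by norm_num)).comp hat
  have hu : Tendsto (fun n => 1 / m n) atTop (𝓝 0) := by
    simp only [one_div]
    exact tendsto_inv_atTop_zero.comp hmt
  have hv : Tendsto (fun n => 1 / a n) atTop (𝓝 0) := by
    simp only [one_div]
    exact tendsto_inv_atTop_zero.comp hat
  have hσ : Tendsto (fun n => (s n : ℝ) / m n) atTop (𝓝 y) := by
    have h1 : Tendsto (fun n => y - 1 / m n) atTop (𝓝 y) := by simpa using hu.const_sub y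
    refine tendsto_of_tendsto_of_tendsto_of_le_of_le h1 tendsto_const_nhds ?_ ?_
    · intro n
      have h2 := Nat.lt_floor_add_one (y * m n)
      rw [← hs n] at h2
      show y - 1 / m n ≤ (s n : ℝ) / m n
      rw [le_div_iff₀ (hm0 n), sub_mul, div_mul_cancel₀ _ (hm0 n).ne']
      linarith
    · intro n
      have h2 := Nat.floor_le (mul_nonneg hy.le (hm0 n).le)
      rw [← hs n] at h2
      show (s n : ℝ) / m n ≤ y
      rw [div_le_iff₀ (hm0 n)]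
      exact h2
  have htriple : Tendsto (fun n => ((s n : ℝ) / m n, 1 / m n, 1 / a n)) atTop (𝓝 (y, 0, 0)) :=
    hσ.prodMk_nhds (hu.prodMk_nhds hv)
  obtain ⟨G, hG⟩ : ∃ G : ℝ × ℝ × ℝ → ℝ, ∀ p, G p =
      1 + p.2.2 - 6 * p.2.2 ^ 2 - p.1 ^ 2 * p.2.1 - 5 * p.1 * p.2.1 ^ 2 := ⟨_, fun _ => rfl⟩
  have hGc : ContinuousAt G (y, 0, 0) := by
    have : G = fun p => 1 + p.2.2 - 6 * p.2.2 ^ 2 - p.1 ^ 2 * p.2.1 - 5 * p.1 * p.2.1 ^ 2 :=
      funext hG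
    rw [this]
    fun_prop
  have hG1 : G (y, 0, 0) = 1 := by rw [hG]; simp
  have hGt : Tendsto (fun n => G ((s n : ℝ) / m n, 1 / m n, 1 / a n)) atTop (𝓝 1) := by
    have := hGc.tendsto.comp htriple
    rw [hG1] at this
    exact this
  -- the three limits
  have hnt : Tendsto (fun n => ((s n : ℝ) / m n - 1 / m n) * (((s n : ℝ) / m n) ^ 2 - 4 * (1 / m n) ^ 2))
      atTop (𝓝 (y ^ 3)) := by
    have := (hσ.sub hu).mul ((hσ.pow 2).sub ((hu.pow 2).const_mul 4))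
    have e : (y - 0) * (y ^ 2 - 4 * 0 ^ 2) = y ^ 3 := by ring
    rw [e] at this
    exact this
  have hMt : Tendsto (fun n => (3 * ((s n : ℝ) / m n) ^ 2 * (1 / m n) + ((s n : ℝ) / m n) * (1 / m n) ^ 2) /
      G ((s n : ℝ) / m n, 1 / m n, 1 / a n)) atTop (𝓝 0) := by
    have := ((((hσ.pow 2).const_mul 3).mul hu).add (hσ.mul (hu.pow 2))).div hGt one_ne_zero
    have e : (3 * y ^ 2 * 0 + y * 0 ^ 2) / 1 = 0 := by ring
    rw [e] at this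
    exact this
  have hTt : Tendsto (fun n => ((s n : ℝ) / m n - 1 / m n) * (((s n : ℝ) / m n) ^ 2 - 4 * (1 / m n) ^ 2) /
      G ((s n : ℝ) / m n, 1 / m n, 1 / a n)) atTop (𝓝 (y ^ 3)) := by
    have := hnt.div hGt one_ne_zero
    rwa [div_one] at this
  have hBt : Tendsto (fun n => ((s n : ℝ) / m n - 1 / m n) * (((s n : ℝ) / m n) ^ 2 - 4 * (1 / m n) ^ 2) /
      (1 + 1 / a n - 2 * (1 / a n) ^ 2)) atTop (𝓝 (y ^ 3)) := by
    have h1 : Tendsto (fun n => 1 + 1 / a n - 2 * (1 / a n) ^ 2) atTop (𝓝 1) := by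
      have := (hv.const_add 1).sub ((hv.pow 2).const_mul 2)
      have e : (1:ℝ) + 0 - 2 * 0 ^ 2 = 1 := by ring
      rw [e] at this
      exact this
    have := hnt.div h1 one_ne_zero
    rwa [div_one] at this
  -- the identities
  have idD : ∀ n : ℕ, 4 * (n:ℝ)^2 + 6 * n - (s n:ℝ)^2 - 5 * s n - 4 =
      a n ^ 2 * G ((s n : ℝ) / m n, 1 / m n, 1 / a n) := by
    intro n
    rw [hG]
    have e1 : a n ^ 2 * (((s n : ℝ) / m n) ^ 2 * (1 / m n)) = (s n : ℝ) ^ 2 := by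
      rw [← hm3]
      have := (hm0 n).ne'
      field_simp
    have e2 : a n ^ 2 * (((s n : ℝ) / m n) * (1 / m n) ^ 2) = (s n : ℝ) := by
      rw [← hm3]
      have := (hm0 n).ne'
      field_simp
    have e3 : a n ^ 2 * (1 / a n) = a n := by
      have := (ha0 n).ne'
      field_simp
    have e4 : a n ^ 2 * (1 / a n) ^ 2 = 1 := by
      have := (ha0 n).ne'
      field_simp
    have e5 : (n : ℝ) = (a n - 1) / 2 := by rw [ha]; ring
    show _ = a n ^ 2 * (1 + 1 / a n - 6 * (1 / a n) ^ 2 - ((s n : ℝ) / m n) ^ 2 * (1 / m n) -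
      5 * ((s n : ℝ) / m n) * (1 / m n) ^ 2)
    rw [e5]
    linear_combination e1 + 5 * e2 - e3 + 6 * e4
  have idB : ∀ n : ℕ, 4 * (n:ℝ)^2 + 6 * n = a n ^ 2 * (1 + 1 / a n - 2 * (1 / a n) ^ 2) := by
    intro n
    have e3 : a n ^ 2 * (1 / a n) = a n := by
      have := (ha0 n).ne'
      field_simp
    have e4 : a n ^ 2 * (1 / a n) ^ 2 = 1 := by
      have := (ha0 n).ne'
      field_simp
    have e5 : (n : ℝ) = (a n - 1) / 2 := by rw [ha]; ring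
    rw [e5]
    linear_combination (-1) * e3 + 2 * e4
  have idN : ∀ n : ℕ, ((s n:ℝ) - 1) * ((s n:ℝ)^2 - 4) =
      a n ^ 2 * (((s n : ℝ) / m n - 1 / m n) * (((s n : ℝ) / m n) ^ 2 - 4 * (1 / m n) ^ 2)) := by
    intro n
    rw [← hm3]
    have := (hm0 n).ne'
    field_simp
  have idM : ∀ n : ℕ, 3 * (s n:ℝ)^2 + s n =
      a n ^ 2 * (3 * ((s n : ℝ) / m n) ^ 2 * (1 / m n) + ((s n : ℝ) / m n) * (1 / m n) ^ 2) := by
    intro n
    rw [← hm3]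
    have := (hm0 n).ne'
    field_simp
  -- eventual conditions
  have ev1 : ∀ᶠ n in atTop, (1:ℝ)/2 < G ((s n : ℝ) / m n, 1 / m n, 1 / a n) :=
    hGt.eventually (lt_mem_nhds (by norm_num))
  have ev2 : ∀ᶠ n in atTop, (3 * ((s n : ℝ) / m n) ^ 2 * (1 / m n) + ((s n : ℝ) / m n) * (1 / m n) ^ 2) /
      G ((s n : ℝ) / m n, 1 / m n, 1 / a n) < 1/2 :=
    hMt.eventually (gt_mem_nhds (by norm_num))
  have ev3 : ∀ᶠ n in atTop, y / 2 < (s n : ℝ) / m n := hσ.eventually (lt_mem_nhds (by linarith))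
  have ev4 : ∀ᶠ n in atTop, 2 / y ≤ m n := hmt.eventually_ge_atTop _
  have ev5 : ∀ᶠ n in atTop, s n ≤ n := by
    -- s ≤ y m, a ^ 2 = m ^ 3, so s ^ 2 / a ^ 2 = σ ^ 2 / m → 0
    have h1 : Tendsto (fun n => ((s n : ℝ) / m n) ^ 2 * (1 / m n)) atTop (𝓝 0) := by
      have := (hσ.pow 2).mul hu
      simpa using this
    have h2 : ∀ᶠ n in atTop, ((s n : ℝ) / m n) ^ 2 * (1 / m n) < 1 / 16 :=
      h1.eventually (gt_mem_nhds (by norm_num))
    filter_upwards [h2, eventually_ge_atTop 1] with n hn hn1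
    have e1 : a n ^ 2 * (((s n : ℝ) / m n) ^ 2 * (1 / m n)) = (s n : ℝ) ^ 2 := by
      rw [← hm3]
      have := (hm0 n).ne'
      field_simp
    have h3 : (s n : ℝ) ^ 2 ≤ (a n / 4) ^ 2 := by
      rw [← e1]
      have := mul_le_mul_of_nonneg_left hn.le (sq_nonneg (a n))
      calc _ ≤ a n ^ 2 * (1 / 16) := this
        _ = (a n / 4) ^ 2 := by ring
    have h4 : (s n : ℝ) ≤ a n / 4 := by
      exact (pow_le_pow_iff_left₀ (Nat.cast_nonneg _) (by linarith [ha0 n]) two_ne_zero).1 h3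
    have h5 : (1:ℝ) ≤ n := by exact_mod_cast hn1
    have h6 : (s n : ℝ) ≤ n := by rw [ha] at h4; linarith
    exact_mod_cast h6
  -- the product
  have hP : Tendsto (fun n : ℕ => ∏ i ∈ Icc 1 (s n-1),
        (2 * (2*(n:ℝ) + 2*i + 3) * ((n:ℝ) - i)) / ((2*(n:ℝ) - i - 1) * (2*n + i + 4))) atTop
      (𝓝 (Real.exp (-y^3))) := by
    have lo : Tendsto (fun n => Real.exp (-((1 + 2 * ((3 * ((s n : ℝ) / m n) ^ 2 * (1 / m n) +
        ((s n : ℝ) / m n) * (1 / m n) ^ 2) / G ((s n : ℝ) / m n, 1 / m n, 1 / a n))) *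
        (((s n : ℝ) / m n - 1 / m n) * (((s n : ℝ) / m n) ^ 2 - 4 * (1 / m n) ^ 2) /
      G ((s n : ℝ) / m n, 1 / m n, 1 / a n))))) atTop (𝓝 (Real.exp (-y^3))) := by
      have h1 := (((hMt.const_mul 2).const_add 1).mul hTt).neg
      have h2 := (Real.continuous_exp.tendsto _).comp h1
      have e : -((1 + 2 * 0) * y ^ 3) = - y ^ 3 := by ring
      rw [e] at h2
      exact h2
    have hi : Tendsto (fun n => Real.exp (-(((s n : ℝ) / m n - 1 / m n) * (((s n : ℝ) / m n) ^ 2 -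
      4 * (1 / m n) ^ 2) / (1 + 1 / a n - 2 * (1 / a n) ^ 2)))) atTop (𝓝 (Real.exp (-y^3))) :=
      (Real.continuous_exp.tendsto _).comp hBt.neg
    have hbd : ∀ᶠ n in atTop, (Real.exp (-((1 + 2 * ((3 * ((s n : ℝ) / m n) ^ 2 * (1 / m n) +
        ((s n : ℝ) / m n) * (1 / m n) ^ 2) / G ((s n : ℝ) / m n, 1 / m n, 1 / a n))) *
        (((s n : ℝ) / m n - 1 / m n) * (((s n : ℝ) / m n) ^ 2 - 4 * (1 / m n) ^ 2) /
      G ((s n : ℝ) / m n, 1 / m n, 1 / a n)))) ≤ ∏ i ∈ Icc 1 (s n-1),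
        (2 * (2*(n:ℝ) + 2*i + 3) * ((n:ℝ) - i)) / ((2*(n:ℝ) - i - 1) * (2*n + i + 4))) ∧
        (∏ i ∈ Icc 1 (s n-1),
        (2 * (2*(n:ℝ) + 2*i + 3) * ((n:ℝ) - i)) / ((2*(n:ℝ) - i - 1) * (2*n + i + 4)) ≤
        Real.exp (-(((s n : ℝ) / m n - 1 / m n) * (((s n : ℝ) / m n) ^ 2 -
      4 * (1 / m n) ^ 2) / (1 + 1 / a n - 2 * (1 / a n) ^ 2)))) := by
      filter_upwards [ev1, ev2, ev3, ev4, ev5] with n h1 h2 h3 h4 h5
      have hs1 : 1 ≤ s n := by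
        have h6 : (y / 2) * m n < s n := by
          rwa [lt_div_iff₀ (hm0 n)] at h3
        have h7 : 1 ≤ (y / 2) * m n := by
          have h8 := mul_le_mul_of_nonneg_left h4 (by positivity : 0 ≤ y / 2)
          calc 1 = (y / 2) * (2 / y) := by field_simp
            _ ≤ _ := h8
        have h9 : (0:ℝ) < s n := by linarith
        exact_mod_cast h9
      have ha2 : a n ^ 2 ≠ 0 := pow_ne_zero 2 (ha0 n).ne'
      have e1 : (3 * ((s n : ℝ) / m n) ^ 2 * (1 / m n) +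
        ((s n : ℝ) / m n) * (1 / m n) ^ 2) / G ((s n : ℝ) / m n, 1 / m n, 1 / a n) =
          (3 * (s n:ℝ)^2 + s n) / (4 * (n:ℝ)^2 + 6 * n - (s n:ℝ)^2 - 5 * s n - 4) := by
        rw [idD, idM, mul_div_mul_left _ _ ha2]
      have e2 : ((s n : ℝ) / m n - 1 / m n) * (((s n : ℝ) / m n) ^ 2 - 4 * (1 / m n) ^ 2) /
          G ((s n : ℝ) / m n, 1 / m n, 1 / a n) = ((s n:ℝ) - 1) * ((s n:ℝ)^2 - 4) /
          (4 * (n:ℝ)^2 + 6 * n - (s n:ℝ)^2 - 5 * s n - 4) := by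
        rw [idD, idN, mul_div_mul_left _ _ ha2]
      have e3 : ((s n : ℝ) / m n - 1 / m n) * (((s n : ℝ) / m n) ^ 2 - 4 * (1 / m n) ^ 2) /
          (1 + 1 / a n - 2 * (1 / a n) ^ 2) = ((s n:ℝ) - 1) * ((s n:ℝ)^2 - 4) /
          (4 * (n:ℝ)^2 + 6 * n) := by
        rw [idB, idN, mul_div_mul_left _ _ ha2]
      have hDpos : 0 < 4 * (n:ℝ)^2 + 6 * n - (s n:ℝ)^2 - 5 * s n - 4 := by
        rw [idD]
        have := ha0 n
        positivity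
      have hM2 : (3 * (s n:ℝ)^2 + s n) / (4 * (n:ℝ)^2 + 6 * n - (s n:ℝ)^2 - 5 * s n - 4) ≤ 1/2 := by
        rw [← e1]
        exact h2.le
      rw [e1, e2, e3]
      exact t20b_prod n (s n) hs1 h5 _ _ rfl hDpos rfl hM2
    exact tendsto_of_tendsto_of_tendsto_of_le_of_le' lo hi (hbd.mono fun _ h => h.1)
      (hbd.mono fun _ h => h.2)
  have hfin : Tendsto (fun n : ℕ => ((s n : ℝ) / m n * ((s n : ℝ) / m n + 1 / m n)) *
      ∏ i ∈ Icc 1 (s n-1),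
        (2 * (2*(n:ℝ) + 2*i + 3) * ((n:ℝ) - i)) / ((2*(n:ℝ) - i - 1) * (2*n + i + 4))) atTop
      (𝓝 (y^2 * Real.exp (-y^3))) := by
    have := (hσ.mul (hσ.add hu)).mul hP
    have e : y * (y + 0) * Real.exp (-y^3) = y ^ 2 * Real.exp (-y^3) := by ring
    rw [e] at this
    exact this
  refine hfin.congr fun n => ?_
  rw [← ha n, hm4 n, ← hm n, ← hs n]
  unfold dl
  have := (hm0 n).ne'
  rw [mul_div_right_comm]
  congr 1
  field_simp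

end Pool.Agent.H980R2.Cont
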