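import Pool.Agent.H980R2.Cont.T21
import Pool.Agent.H980R2.Cont.T20b

/-! T21b: asymptotics of the tails.

`tl_tendsto`: `a_n = dl n` (zero for `s > n`), `r_n = (2n+1)^{2/3}`, `A_n = (2n+1)^{4/3}`, `g(y) = y² e^{-y³}`,
`∫_x^∞ y² e^{-y³} dy = e^{-x³}/3`; domination by `dl_le`. -/

namespace Pool.Agent.H980R2.Cont

open Finset Filter Topology MeasureTheory Set

theorem T21b_deriv (c : ℝ) (hc : 0 < c) (y : ℝ) :
    HasDerivAt (fun y : ℝ => -(Real.exp (-(c * y^3)) / (3*c))) (y^2 * Real.exp (-(c * y^3))) y := by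
  have h1 : HasDerivAt (fun y : ℝ => -(c * y^3)) (-(c * (3 * y^2))) y := by
    have h0 : HasDerivAt (fun y : ℝ => c * y^3) (c * (3 * y^2)) y := by
      have := (hasDerivAt_pow 3 y).const_mul c
      simpa using this
    exact h0.neg
  have h2 : HasDerivAt (fun y : ℝ => -(Real.exp (-(c * y^3)) / (3*c)))
      (-(Real.exp (-(c * y^3)) * (-(c * (3 * y^2))) / (3*c))) y := (h1.exp.div_const (3*c)).neg
  have h3 : -(Real.exp (-(c * y^3)) * (-(c * (3 * y^2))) / (3*c)) = y^2 * Real.exp (-(c * y^3)) := by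
    field_simp
  rwa [h3] at h2

theorem T21b_lim (c : ℝ) (hc : 0 < c) :
    Tendsto (fun y : ℝ => -(Real.exp (-(c * y^3)) / (3*c))) atTop (𝓝 0) := by
  have h1 : Tendsto (fun y : ℝ => c * y^3) atTop atTop :=
    (tendsto_pow_atTop (by norm_num)).const_mul_atTop hc
  have h2 := (Real.tendsto_exp_neg_atTop_nhds_zero.comp h1)
  have h3 := (h2.div_const (3*c)).neg
  simpa using h3

theorem T21b_integrable (c : ℝ) (hc : 0 < c) (x : ℝ) :
    IntegrableOn (fun y : ℝ => y^2 * Real.exp (-(c * y^3))) (Ioi x) :=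
  integrableOn_Ioi_deriv_of_nonneg' (fun y _ => T21b_deriv c hc y)
    (fun y _ => by positivity) (T21b_lim c hc)

theorem T21b_integral (x : ℝ) :
    ∫ y in Ioi x, y^2 * Real.exp (-y^3) = Real.exp (-x^3) / 3 := by
  have h := integral_Ioi_of_hasDerivAt_of_nonneg' (a := x) (fun y _ => T21b_deriv 1 one_pos y)
    (fun y _ => by positivity) (T21b_lim 1 one_pos)
  simpa using h

theorem T21b_dl_nonneg (n k : ℕ) (hk : k ≤ n) : 0 ≤ dl n k := by
  unfold dl
  refine mul_nonneg (by positivity) (Finset.prod_nonneg fun i hi => ?_)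
  rw [Finset.mem_Icc] at hi
  have h1 : (i:ℝ) + 1 ≤ n := by
    have : i + 1 ≤ n := by omega
    exact_mod_cast this
  have h0 : (0:ℝ) ≤ i := Nat.cast_nonneg i
  apply div_nonneg
  · exact mul_nonneg (by positivity) (by linarith)
  · exact mul_nonneg (by linarith) (by positivity)

theorem tl_tendsto (x : ℝ) (hx : 0 ≤ x) :
    Tendsto (fun n : ℕ => tl n ⌊x * (2*(n:ℝ)+1)^((2:ℝ)/3)⌋₊ / (2*(n:ℝ)+1)^2) atTop
      (𝓝 (Real.exp (-x^3) / 3)) := by
  set r : ℕ → ℝ := fun n => (2*(n:ℝ)+1)^((2:ℝ)/3) with hrdef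
  set A : ℕ → ℝ := fun n => (2*(n:ℝ)+1)^((4:ℝ)/3) with hAdef
  set a : ℕ → ℕ → ℝ := fun n k => if k ≤ n then dl n k else 0 with hadef
  have hpos : ∀ n : ℕ, (1:ℝ) ≤ 2*(n:ℝ)+1 := fun n => by
    have : (0:ℝ) ≤ n := Nat.cast_nonneg n
    linarith
  have hrA : ∀ n, r n * A n = (2*(n:ℝ)+1)^2 := fun n => by
    simp only [hrdef, hAdef]
    rw [← Real.rpow_add (by linarith [hpos n]), ← Real.rpow_natCast]
    norm_num
  have hr2 : ∀ n, r n ^ 2 = A n := fun n => by
    simp only [hrdef, hAdef]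
    rw [← Real.rpow_natCast, ← Real.rpow_mul (by linarith [hpos n])]
    norm_num
  have hr3 : ∀ n, r n ^ 3 = (2*(n:ℝ)+1)^2 := fun n => by
    rw [← hrA, ← hr2]; ring
  have hr1 : ∀ n, 1 ≤ r n := fun n => Real.one_le_rpow (hpos n) (by norm_num)
  have hn1 : Tendsto (fun n : ℕ => 2*(n:ℝ)+1) atTop atTop :=
    tendsto_atTop_add_const_right _ _ (tendsto_natCast_atTop_atTop.const_mul_atTop (by norm_num))
  have hr : Tendsto r atTop atTop := (tendsto_rpow_atTop (by norm_num)).comp hn1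
  have hA : ∀ n, 0 < A n := fun n => Real.rpow_pos_of_pos (by linarith [hpos n]) _
  have ha : ∀ n k, 0 ≤ a n k := fun n k => by
    simp only [hadef]
    split_ifs with h
    · exact T21b_dl_nonneg n k h
    · exact le_rfl
  have hfin : ∀ n, (Function.support (a n)).Finite := fun n => by
    refine (Set.finite_Iic n).subset fun k hk => ?_
    by_contra hcon
    have hcon' : ¬ k ≤ n := fun h => hcon h
    exact hk (by simp only [hadef]; rw [if_neg hcon'])
  -- the index is eventually at most `n`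
  have hle : ∀ y : ℝ, 0 < y → ∀ᶠ n : ℕ in atTop, ⌊y * r n⌋₊ ≤ n := by
    intro y hy
    have h1 : Tendsto (fun n : ℕ => r n / (2*(n:ℝ)+1)) atTop (𝓝 0) := by
      have h2 : Tendsto (fun z : ℝ => z ^ (-((1:ℝ)/3))) atTop (𝓝 0) :=
        tendsto_rpow_neg_atTop (by norm_num)
      refine (h2.comp hn1).congr fun n => ?_
      simp only [hrdef, Function.comp]
      have h0 : (0:ℝ) < 2*(n:ℝ)+1 := by linarith [hpos n]
      have : (-((1:ℝ)/3)) = (2:ℝ)/3 - 1 := by norm_num
      rw [this, Real.rpow_sub_one h0.ne']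
    have h2 : ∀ᶠ n : ℕ in atTop, r n / (2*(n:ℝ)+1) < 1/(3*y) :=
      h1.eventually (gt_mem_nhds (by positivity))
    filter_upwards [h2, eventually_ge_atTop 1] with n hn h1n
    have h0 : (0:ℝ) < 2*(n:ℝ)+1 := by linarith [hpos n]
    rw [div_lt_div_iff₀ h0 (by positivity)] at hn
    have h3 : y * r n ≤ n := by
      have : (1:ℝ) ≤ n := by exact_mod_cast h1n
      nlinarith
    exact_mod_cast (Nat.floor_le (by positivity : 0 ≤ y * r n)).trans h3
  obtain ⟨c, C, hc, hC, hdl⟩ := dl_le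
  have hg : ∀ y, 0 < y → Tendsto (fun n => a n ⌊y * r n⌋₊ / A n) atTop
      (𝓝 (y^2 * Real.exp (-y^3))) := by
    intro y hy
    refine (dl_tendsto y hy).congr' ?_
    filter_upwards [hle y hy] with n hn
    simp only [hadef]
    rw [if_pos hn]
  have hh : IntegrableOn (fun y : ℝ => C * Real.exp (4*c) * (y^2 * Real.exp (-((c/2) * y^3)))) (Ioi 0) :=
    (T21b_integrable (c/2) (by positivity) 0).const_mul _
  have hdom : ∀ᶠ n in atTop, ∀ y, 0 < y → a n ⌊y * r n⌋₊ / A n ≤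
      C * Real.exp (4*c) * (y^2 * Real.exp (-((c/2) * y^3))) := by
    filter_upwards [eventually_ge_atTop 1] with n h1n y hy
    have hn0 : (1:ℝ) ≤ n := by exact_mod_cast h1n
    simp only [hadef]
    split_ifs with hs
    swap
    · rw [zero_div]; positivity
    set s := ⌊y * r n⌋₊ with hsdef
    have hrn := hr1 n
    have hyr : 0 ≤ y * r n := by positivity
    have hs1 : (s:ℝ) ≤ y * r n := Nat.floor_le hyr
    have hs2 : y * r n < s + 1 := Nat.lt_floor_add_one _
    have hs0 : (0:ℝ) ≤ s := Nat.cast_nonneg s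
    rw [div_le_iff₀ (hA n)]
    refine (hdl n s h1n hs).trans ?_
    have e1 : (s:ℝ)^2 ≤ y^2 * A n := by
      rw [← hr2, ← mul_pow]
      exact pow_le_pow_left₀ hs0 hs1 2
    have e2 : Real.exp (-(c * (s:ℝ)^3 / (n:ℝ)^2)) ≤ Real.exp (4*c) * Real.exp (-((c/2) * y^3)) := by
      rw [← Real.exp_add]
      apply Real.exp_le_exp.2
      by_cases h2 : 2 ≤ y * r n
      · have h3 : y * r n / 2 ≤ s := by linarith
        have h4 : (y * r n / 2)^3 ≤ (s:ℝ)^3 := pow_le_pow_left₀ (by positivity) h3 3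
        have h5 : (y * r n / 2)^3 = y^3 * (2*(n:ℝ)+1)^2 / 8 := by
          rw [← hr3 n]; ring
        have h6 : y^3 * (4 * (n:ℝ)^2) / 8 ≤ (s:ℝ)^3 := by
          refine le_trans ?_ h4
          rw [h5]
          have : 4 * (n:ℝ)^2 ≤ (2*(n:ℝ)+1)^2 := by nlinarith
          have hy3 : 0 ≤ y^3 := by positivity
          nlinarith [mul_le_mul_of_nonneg_left this hy3]
        have h7 : c / 2 * y^3 ≤ c * (s:ℝ)^3 / (n:ℝ)^2 := by
          rw [le_div_iff₀ (by positivity)]
          nlinarith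
        linarith
      · push Not at h2
        have h3 : y ≤ 2 := by nlinarith
        have h4 : y^3 ≤ 2^3 := pow_le_pow_left₀ hy.le h3 3
        have h5 : 0 ≤ c * (s:ℝ)^3 / (n:ℝ)^2 := by positivity
        nlinarith
    calc C * (s:ℝ)^2 * Real.exp (-(c * (s:ℝ)^3 / (n:ℝ)^2))
        ≤ C * (y^2 * A n) * (Real.exp (4*c) * Real.exp (-((c/2) * y^3))) := by
          have := hA n
          gcongr
      _ = C * Real.exp (4*c) * (y^2 * Real.exp (-((c/2) * y^3))) * A n := by ring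
  have key := riemann a r A (fun y => y^2 * Real.exp (-y^3))
    (fun y => C * Real.exp (4*c) * (y^2 * Real.exp (-((c/2) * y^3)))) hr
    (Eventually.of_forall hA) ha hfin hg hh hdom x hx
  rw [T21b_integral] at key
  refine key.congr fun n => ?_
  rw [hrA]
  congr 1
  unfold tl
  have e1 : ∑ᶠ (k : ℕ) (_ : k ∈ {k : ℕ | ⌊x * r n⌋₊ ≤ k}), a n k =
      ∑ s ∈ Finset.Icc ⌊x * r n⌋₊ n, a n s := by
    apply finsum_mem_eq_sum_of_inter_support_eq
    ext k
    simp only [Set.mem_inter_iff, Set.mem_ofPred_eq, Function.mem_support, Finset.coe_Icc, Set.mem_Icc]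
    constructor
    · rintro ⟨h1, h2⟩
      refine ⟨⟨h1, ?_⟩, h2⟩
      by_contra hcon
      exact h2 (by simp only [hadef]; rw [if_neg hcon])
    · rintro ⟨⟨h1, _⟩, h2⟩
      exact ⟨h1, h2⟩
  rw [e1]
  refine Finset.sum_congr rfl fun s hs => ?_
  rw [Finset.mem_Icc] at hs
  simp only [hadef]
  rw [if_pos hs.2]

end Pool.Agent.H980R2.Cont
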