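import Pool.Agent.H980R2.Cont.T21c
import Pool.Agent.H980R2.Cont.T21b
import Pool.Agent.H980R2.Cont.T21
import Pool.Agent.H980R2.Cont.T15

/-! T22: the limit law of the formula.

`F_n(t) = Σ_{k ≤ t (2n+1)^{2/3}, k ≤ n} tl n k / tot n`.  With `r_n = (2n+1)^{2/3}`, `A_n = (2n+1)²`:
`tot n/(r_n A_n) → (1/3) ∫_0^∞ e^{-x³} dx = Γ(4/3)/3` and
`Σ_{k > t r_n} tl n k/(r_n A_n) → (1/3) ∫_t^∞ e^{-x³} dx` (`riemann` with `a_n = tl n`, `x = 0` and `x = t`: one term more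
or less is `O(A_n)`, negligible; the domination of `tl n ⌊y r_n⌋/(2n+1)²` from `tl_le`: an antitone bound like
`C exp(-c' (y-1)₊³)`), subtract.  `Real.integral_exp_neg_rpow`: `∫_0^∞ exp(-x^p) = Γ(1/p+1)`. -/

namespace Pool.Agent.H980R2.Cont

open Finset Filter Topology MeasureTheory Set

namespace T22

theorem tl_nonneg (n k : ℕ) : 0 ≤ tl n k :=
  Finset.sum_nonneg fun s hs => dl_nonneg n s (Finset.mem_Icc.1 hs).2

theorem tl_zero (n k : ℕ) (h : n < k) : tl n k = 0 := by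
  unfold tl
  rw [Finset.Icc_eq_empty (by omega)]
  exact Finset.sum_empty

theorem exp_int {b : ℝ} (hb : 0 < b) : IntegrableOn (fun y : ℝ => Real.exp (-(b * y^3))) (Ioi 0) := by
  have h := integrableOn_rpow_mul_exp_neg_mul_rpow (p := 3) (s := 0) (b := b) (by norm_num)
    (by norm_num) hb
  refine h.congr_fun (fun y hy => ?_) measurableSet_Ioi
  simp only [Real.rpow_zero, one_mul]
  congr 1
  rw [show (3:ℝ) = ((3:ℕ):ℝ) by norm_num, Real.rpow_natCast]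
  ring

theorem int_total : ∫ y in Ioi (0:ℝ), Real.exp (-y^3) / 3 = Real.Gamma (4/3) / 3 := by
  rw [integral_div]
  congr 1
  have h := integral_exp_neg_rpow (p := 3) (by norm_num)
  rw [show (1:ℝ)/3 + 1 = 4/3 by norm_num] at h
  rw [← h]
  refine setIntegral_congr_fun measurableSet_Ioi fun y hy => ?_
  show Real.exp (-y^3) = Real.exp (-y^(3:ℝ))
  rw [show (3:ℝ) = ((3:ℕ):ℝ) by norm_num, Real.rpow_natCast]

theorem rtend : Tendsto (fun n : ℕ => (2*(n:ℝ)+1)^((2:ℝ)/3)) atTop atTop := by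
  refine (tendsto_rpow_atTop (by norm_num : (0:ℝ) < 2/3)).comp ?_
  refine tendsto_atTop_add_const_right _ _ ?_
  exact tendsto_natCast_atTop_atTop.const_mul_atTop (by norm_num)

theorem r_one (n : ℕ) : 1 ≤ (2*(n:ℝ)+1)^((2:ℝ)/3) := by
  apply Real.one_le_rpow
  · have : (0:ℝ) ≤ n := Nat.cast_nonneg n
    linarith
  · norm_num

theorem r_cube (n : ℕ) : ((2*(n:ℝ)+1)^((2:ℝ)/3))^3 = (2*(n:ℝ)+1)^2 := by
  have h0 : (0:ℝ) ≤ 2*(n:ℝ)+1 := by positivity
  rw [← Real.rpow_natCast, ← Real.rpow_mul h0]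
  norm_num

theorem dom : ∃ h : ℝ → ℝ, IntegrableOn h (Ioi 0) ∧
    ∀ᶠ n : ℕ in atTop, ∀ y : ℝ, 0 < y →
      tl n ⌊y * (2*(n:ℝ)+1)^((2:ℝ)/3)⌋₊ / (2*(n:ℝ)+1)^2 ≤ h y := by
  obtain ⟨c, C, hc, hC, hle⟩ := tl_le
  refine ⟨fun y => C * Real.exp c * Real.exp (-(c/2 * y^3)), (exp_int (by positivity)).const_mul _,
    ?_⟩
  filter_upwards [eventually_ge_atTop 1] with n hn y hy
  have hn1 : (1:ℝ) ≤ n := by exact_mod_cast hn
  set r := (2*(n:ℝ)+1)^((2:ℝ)/3) with hr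
  have hr1 : 1 ≤ r := r_one n
  have hr3 : r^3 = (2*(n:ℝ)+1)^2 := r_cube n
  have hA : (0:ℝ) < (2*(n:ℝ)+1)^2 := by positivity
  have hnA : (n:ℝ)^2 ≤ (2*(n:ℝ)+1)^2 := by nlinarith
  set k := ⌊y * r⌋₊ with hk
  -- the exponent
  have hexp : c/2 * y^3 - c ≤ c * (k:ℝ)^3 / (n:ℝ)^2 := by
    rcases lt_or_ge (y * r) 1 with h | h
    · have hy1 : y < 1 := by nlinarith
      have hy3 : y^3 ≤ 1 := pow_le_one₀ hy.le hy1.le
      have : 0 ≤ c * (k:ℝ)^3 / (n:ℝ)^2 := by positivity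
      nlinarith
    · have h1 : y * r - 1 < (k:ℝ) := Nat.sub_one_lt_floor _
      have h1' : 1 ≤ (k:ℝ) := by
        have : 1 ≤ k := Nat.le_floor (by exact_mod_cast h)
        exact_mod_cast this
      have h2 : y * r / 2 ≤ (k:ℝ) := by linarith
      have h3 : (y * r / 2)^3 ≤ (k:ℝ)^3 := pow_le_pow_left₀ (by positivity) h2 3
      have h4 : (y * r / 2)^3 = y^3 * (2*(n:ℝ)+1)^2 / 8 := by rw [← hr3]; ring
      rw [h4] at h3
      have h5 : y^3 / 2 * (n:ℝ)^2 ≤ (k:ℝ)^3 := by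
        have : 4 * (n:ℝ)^2 ≤ (2*(n:ℝ)+1)^2 := by nlinarith
        have h6 : y^3 * (4 * (n:ℝ)^2) ≤ y^3 * (2*(n:ℝ)+1)^2 :=
          mul_le_mul_of_nonneg_left this (by positivity)
        linarith
      have h7 : c * (y^3/2) ≤ c * (k:ℝ)^3 / (n:ℝ)^2 := by
        rw [le_div_iff₀ (by positivity)]
        have := mul_le_mul_of_nonneg_left h5 hc.le
        linarith
      linarith
  have h8 := hle n k hn
  rw [div_le_iff₀ hA]
  refine h8.trans ?_
  have h9 : Real.exp (-(c * (k:ℝ)^3 / (n:ℝ)^2)) ≤ Real.exp c * Real.exp (-(c/2 * y^3)) := by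
    rw [← Real.exp_add]
    apply Real.exp_le_exp.2
    linarith
  calc C * (n:ℝ)^2 * Real.exp (-(c * (k:ℝ)^3 / (n:ℝ)^2))
      ≤ C * (2*(n:ℝ)+1)^2 * (Real.exp c * Real.exp (-(c/2 * y^3))) := by
        apply mul_le_mul (mul_le_mul_of_nonneg_left hnA hC.le) h9 (Real.exp_pos _).le
        positivity
    _ = C * Real.exp c * Real.exp (-(c/2 * y^3)) * (2*(n:ℝ)+1)^2 := by ring

theorem riem (x : ℝ) (hx : 0 ≤ x) :
    Tendsto (fun n : ℕ => (∑ᶠ k ∈ {k : ℕ | ⌊x * (2*(n:ℝ)+1)^((2:ℝ)/3)⌋₊ ≤ k}, tl n k) /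
      ((2*(n:ℝ)+1)^((2:ℝ)/3) * (2*(n:ℝ)+1)^2)) atTop
      (𝓝 (∫ y in Ioi x, Real.exp (-y^3) / 3)) := by
  obtain ⟨h, hint, hdom⟩ := dom
  refine riemann (fun n k => tl n k) (fun n => (2*(n:ℝ)+1)^((2:ℝ)/3)) (fun n => (2*(n:ℝ)+1)^2)
    (fun y => Real.exp (-y^3) / 3) h rtend ?_ tl_nonneg ?_ ?_ hint hdom x hx
  · exact Eventually.of_forall fun n => by positivity
  · intro n
    refine (Finset.finite_toSet (Finset.range (n+1))).subset ?_
    intro k hk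
    rw [Function.mem_support] at hk
    rw [Finset.mem_coe, Finset.mem_range]
    by_contra hlt
    exact hk (tl_zero n k (by omega))
  · intro y hy
    exact tl_tendsto y hy.le

theorem fsum (n m : ℕ) : ∑ᶠ k ∈ {k : ℕ | m ≤ k}, tl n k
    = ∑ k ∈ (Finset.range (n+1)).filter (fun k => m ≤ k), tl n k := by
  apply finsum_mem_eq_sum_of_subset
  · intro k hk
    rw [Finset.mem_coe, Finset.mem_filter, Finset.mem_range]
    refine ⟨?_, hk.1⟩
    by_contra hlt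
    exact hk.2 (tl_zero n k (by omega))
  · intro k hk
    rw [Finset.mem_coe, Finset.mem_filter] at hk
    exact hk.2

theorem split (n f : ℕ) : ∑ k ∈ (Finset.range (n+1)).filter (fun k => k ≤ f), tl n k
    = tot n - ∑ k ∈ (Finset.range (n+1)).filter (fun k => f ≤ k), tl n k + tl n f := by
  have h1 : ∑ k ∈ Finset.range (n+1), (if k = f then tl n k else 0) = tl n f := by
    by_cases h : f ∈ Finset.range (n+1)
    · rw [Finset.sum_ite_eq' _ f (fun k => tl n k), if_pos h]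
    · rw [Finset.sum_ite_eq' _ f (fun k => tl n k), if_neg h, tl_zero n f (by
        rw [Finset.mem_range] at h; omega)]
  rw [← h1]
  unfold tot
  rw [Finset.sum_filter, Finset.sum_filter, ← Finset.sum_sub_distrib, ← Finset.sum_add_distrib]
  refine Finset.sum_congr rfl fun k _ => ?_
  rcases lt_trichotomy k f with h | h | h
  · rw [if_pos h.le, if_neg (by omega), if_neg (by omega)]; ring
  · rw [if_pos h.le, if_pos h.ge, if_pos h]; ring
  · rw [if_neg (by omega), if_pos h.le, if_neg (by omega)]; ring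

theorem tot_eq (n : ℕ) : tot n = ∑ᶠ k ∈ {k : ℕ | 0 ≤ k}, tl n k := by
  rw [fsum]
  unfold tot
  refine Finset.sum_congr ?_ fun _ _ => rfl
  ext k
  simp

theorem riem2 (x : ℝ) (hx : 0 ≤ x) :
    Tendsto (fun n : ℕ => (∑ k ∈ (Finset.range (n+1)).filter
      (fun k => ⌊x * (2*(n:ℝ)+1)^((2:ℝ)/3)⌋₊ ≤ k), tl n k) /
      ((2*(n:ℝ)+1)^((2:ℝ)/3) * (2*(n:ℝ)+1)^2)) atTop
      (𝓝 (∫ y in Ioi x, Real.exp (-y^3) / 3)) := by
  refine (riem x hx).congr fun n => ?_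
  rw [fsum]

theorem riem0 :
    Tendsto (fun n : ℕ => tot n / ((2*(n:ℝ)+1)^((2:ℝ)/3) * (2*(n:ℝ)+1)^2)) atTop
      (𝓝 (Real.Gamma (4/3) / 3)) := by
  rw [← int_total]
  refine (riem 0 le_rfl).congr fun n => ?_
  rw [tot_eq]
  simp only [zero_mul, Nat.floor_zero]

theorem int_split (t : ℝ) (ht : 0 ≤ t) : (∫ y in Ioi (0:ℝ), Real.exp (-y^3) / 3)
    - (∫ y in Ioi t, Real.exp (-y^3) / 3) = (∫ x in (0:ℝ)..t, Real.exp (-x^3)) / 3 := by
  have hi : IntegrableOn (fun y : ℝ => Real.exp (-y^3) / 3) (Ioi 0) := by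
    have h := exp_int (b := 1) one_pos
    simp only [one_mul] at h
    exact h.div_const 3
  rw [intervalIntegral.integral_of_le ht, ← integral_div, ← Ioc_union_Ioi_eq_Ioi ht,
    setIntegral_union (Ioc_disjoint_Ioi le_rfl) measurableSet_Ioi
      (hi.mono_set Ioc_subset_Ioi_self) (hi.mono_set (Ioi_subset_Ioi ht))]
  ring

end T22

open T22 in
theorem formula_tendsto (t : ℝ) (ht : 0 ≤ t) :
    Tendsto (fun n : ℕ => (∑ k ∈ (Finset.range (n+1)).filter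
      (fun k : ℕ => (k : ℝ) ≤ t * (2*(n:ℝ)+1)^((2:ℝ)/3)), tl n k) / tot n) atTop
      (𝓝 ((∫ x in (0:ℝ)..t, Real.exp (-x^3)) / Real.Gamma (4/3))) := by
  have h0 := riem0
  have ht' := riem2 t ht
  have hG : 0 < Real.Gamma (4/3) := Real.Gamma_pos_of_pos (by norm_num)
  -- the single term
  have h1 : Tendsto (fun n : ℕ => tl n ⌊t * (2*(n:ℝ)+1)^((2:ℝ)/3)⌋₊ /
      ((2*(n:ℝ)+1)^((2:ℝ)/3) * (2*(n:ℝ)+1)^2)) atTop (𝓝 0) := by
    have h2 := (tl_tendsto t ht).mul rtend.inv_tendsto_atTop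
    rw [mul_zero] at h2
    refine h2.congr fun n => ?_
    simp only [Pi.inv_apply]
    rw [div_mul_eq_mul_div, div_eq_div_iff (by positivity) (by positivity)]
    have : (2*(n:ℝ)+1)^((2:ℝ)/3) ≠ 0 := by positivity
    field_simp
  have h2 := ((h0.sub ht').add h1).div h0 (by positivity)
  have e1 : (Real.Gamma (4/3) / 3 - (∫ y in Ioi t, Real.exp (-y^3) / 3) + 0) / (Real.Gamma (4/3) / 3)
      = (∫ x in (0:ℝ)..t, Real.exp (-x^3)) / Real.Gamma (4/3) := by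
    rw [← int_total, int_split t ht, int_total]
    field_simp
    ring
  rw [e1] at h2
  refine h2.congr' ?_
  filter_upwards [eventually_ge_atTop 1] with n hn
  have hr : (0:ℝ) < (2*(n:ℝ)+1)^((2:ℝ)/3) * (2*(n:ℝ)+1)^2 := by positivity
  have htot : tot n ≠ 0 := (tot_pos n hn).ne'
  have e2 : (Finset.range (n+1)).filter
      (fun k : ℕ => (k : ℝ) ≤ t * (2*(n:ℝ)+1)^((2:ℝ)/3))
      = (Finset.range (n+1)).filter (fun k => k ≤ ⌊t * (2*(n:ℝ)+1)^((2:ℝ)/3)⌋₊) := by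
    ext k
    rw [Finset.mem_filter, Finset.mem_filter, Nat.le_floor_iff (by positivity)]
  rw [e2, split]
  simp only [Pi.div_apply]
  field_simp

end Pool.Agent.H980R2.Cont
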