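import Pool.Agent.H980R2.Cont.T19
import Pool.Agent.H980R2.Cont.T22

/-! The exact law and the limit law of the number of contacts. -/

namespace Pool.Agent.H980R2.Cont

open Pool.Agent.H988R2.Perc Pool.Agent.H980R2.Cross Finset Filter Topology MeasureTheory

theorem main (n : ℕ) (hn : 1 ≤ n) (k : ℕ) (hk : k ≤ n) :
    perc.real {ω | (touch (2*n+1) ω).ncard = k} = tl n k / tot n := exact_law n hn k hk

theorem limit_law (t : ℝ) (ht : 0 ≤ t) :
    Tendsto (fun n : ℕ => perc.real {ω | (((touch (2*n+1) ω).ncard : ℕ) : ℝ) ≤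
      t * (2*(n:ℝ)+1)^((2:ℝ)/3)}) atTop
      (𝓝 ((∫ x in (0:ℝ)..t, Real.exp (-x^3)) / Real.Gamma (4/3))) := by
  refine (formula_tendsto t ht).congr' ?_
  filter_upwards [eventually_ge_atTop 1] with n hn
  rw [exact_cdf n hn _ (by positivity)]

end Pool.Agent.H980R2.Cont
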