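import Pool.Agent.H980R2.Cont.T19
import Pool.Agent.H980R2.Cont.T22

/-! Convergence of all moments of the number of contacts. -/

namespace Pool.Agent.H980R2.Cont

open Finset Filter Topology MeasureTheory Set
open Pool.Agent.H988R2.Perc Pool.Agent.H980R2.Cross

namespace Mom

theorem exp_int (m : ℕ) {b : ℝ} (hb : 0 < b) :
    IntegrableOn (fun y : ℝ => y^m * Real.exp (-(b * y^3))) (Ioi 0) := by
  have h := integrableOn_rpow_mul_exp_neg_mul_rpow (p := 3) (s := m) (b := b)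
    (by have : (0:ℝ) ≤ m := Nat.cast_nonneg m
        linarith)
    (by norm_num) hb
  refine h.congr_fun (fun y hy => ?_) measurableSet_Ioi
  simp only [Real.rpow_natCast]
  congr 2
  rw [show (3:ℝ) = ((3:ℕ):ℝ) by norm_num, Real.rpow_natCast]
  ring

theorem int_val (m : ℕ) : ∫ y in Ioi (0:ℝ), y^m * (Real.exp (-y^3) / 3) =
    Real.Gamma (((m:ℝ)+1)/3) / 9 := by
  have h := integral_rpow_mul_exp_neg_rpow (p := 3) (q := m) (by norm_num)
    (by have : (0:ℝ) ≤ m := Nat.cast_nonneg m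
        linarith)
  have h2 : ∫ y in Ioi (0:ℝ), y^m * (Real.exp (-y^3) / 3) =
      (∫ y in Ioi (0:ℝ), y^(m:ℝ) * Real.exp (-y^(3:ℝ))) / 3 := by
    rw [← integral_div]
    refine setIntegral_congr_fun measurableSet_Ioi fun y hy => ?_
    show y^m * (Real.exp (-y^3) / 3) = y^(m:ℝ) * Real.exp (-y^(3:ℝ)) / 3
    rw [show (3:ℝ) = ((3:ℕ):ℝ) by norm_num, Real.rpow_natCast, Real.rpow_natCast]
    ring
  rw [h2, h]
  ring

theorem dom (m : ℕ) : ∃ h : ℝ → ℝ, IntegrableOn h (Ioi 0) ∧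
    ∀ᶠ n : ℕ in atTop, ∀ y : ℝ, 0 < y →
      ((⌊y * (2*(n:ℝ)+1)^((2:ℝ)/3)⌋₊ : ℕ) : ℝ)^m * tl n ⌊y * (2*(n:ℝ)+1)^((2:ℝ)/3)⌋₊ /
        (((2*(n:ℝ)+1)^((2:ℝ)/3))^m * (2*(n:ℝ)+1)^2) ≤ h y := by
  obtain ⟨c, C, hc, hC, hle⟩ := tl_le
  refine ⟨fun y => C * Real.exp c * (y^m * Real.exp (-(c/2 * y^3))),
    (exp_int m (by positivity)).const_mul _, ?_⟩
  filter_upwards [eventually_ge_atTop 1] with n hn y hy
  have hn1 : (1:ℝ) ≤ n := by exact_mod_cast hn
  set r := (2*(n:ℝ)+1)^((2:ℝ)/3) with hr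
  have hr1 : 1 ≤ r := T22.r_one n
  have hr3 : r^3 = (2*(n:ℝ)+1)^2 := T22.r_cube n
  have hA : (0:ℝ) < (2*(n:ℝ)+1)^2 := by positivity
  have hnA : (n:ℝ)^2 ≤ (2*(n:ℝ)+1)^2 := by nlinarith
  set k := ⌊y * r⌋₊ with hk
  have hkr : (k:ℝ) ≤ y * r := Nat.floor_le (by positivity)
  -- the exponent
  have hexp : c/2 * y^3 - c ≤ c * (k:ℝ)^3 / (n:ℝ)^2 := by
    rcases lt_or_ge (y * r) 1 with h | h
    · have hy1 : y < 1 := by nlinarith
      have hy3 : y^3 ≤ 1 := pow_le_one₀ hy.le hy1.le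
      have : 0 ≤ c * (k:ℝ)^3 / (n:ℝ)^2 := by positivity
      nlinarith
    · have h1 : y * r - 1 < (k:ℝ) := Nat.sub_one_lt_floor _
      have h1' : 1 ≤ (k:ℝ) := by
        have : 1 ≤ k := Nat.le_floor (by exact_mod_cast h)
        exact_mod_cast this
      have h2 : y * r / 2 ≤ (k:ℝ) := by linarith
      have h3 : (y * r / 2)^3 ≤ (k:ℝ)^3 := pow_le_pow_left₀ (by positivity) h2 3
      have h4 : (y * r / 2)^3 = y^3 * (2*(n:ℝ)+1)^2 / 8 := by rw [← hr3]; ring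
      rw [h4] at h3
      have h5 : y^3 / 2 * (n:ℝ)^2 ≤ (k:ℝ)^3 := by
        have : 4 * (n:ℝ)^2 ≤ (2*(n:ℝ)+1)^2 := by nlinarith
        have h6 : y^3 * (4 * (n:ℝ)^2) ≤ y^3 * (2*(n:ℝ)+1)^2 :=
          mul_le_mul_of_nonneg_left this (by positivity)
        linarith
      have h7 : c * (y^3/2) ≤ c * (k:ℝ)^3 / (n:ℝ)^2 := by
        rw [le_div_iff₀ (by positivity)]
        have := mul_le_mul_of_nonneg_left h5 hc.le
        linarith
      linarith
  have h8 := hle n k hn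
  have hrm : 0 < r^m := by positivity
  have h9 : Real.exp (-(c * (k:ℝ)^3 / (n:ℝ)^2)) ≤ Real.exp c * Real.exp (-(c/2 * y^3)) := by
    rw [← Real.exp_add]
    apply Real.exp_le_exp.2
    linarith
  have h10 : tl n k ≤ C * (2*(n:ℝ)+1)^2 * (Real.exp c * Real.exp (-(c/2 * y^3))) := by
    refine h8.trans ?_
    apply mul_le_mul (mul_le_mul_of_nonneg_left hnA hC.le) h9 (Real.exp_pos _).le
    positivity
  have h11 : (k:ℝ)^m ≤ (y*r)^m := pow_le_pow_left₀ (Nat.cast_nonneg k) hkr m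
  rw [div_le_iff₀ (by positivity)]
  calc (k:ℝ)^m * tl n k
      ≤ (y*r)^m * (C * (2*(n:ℝ)+1)^2 * (Real.exp c * Real.exp (-(c/2 * y^3)))) :=
        mul_le_mul h11 h10 (T22.tl_nonneg n k) (by positivity)
    _ = C * Real.exp c * (y^m * Real.exp (-(c/2 * y^3))) * (r^m * (2*(n:ℝ)+1)^2) := by
        rw [mul_pow]; ring

theorem floor_div (y : ℝ) (hy : 0 < y) : Tendsto (fun n : ℕ =>
    ((⌊y * (2*(n:ℝ)+1)^((2:ℝ)/3)⌋₊ : ℕ) : ℝ) / (2*(n:ℝ)+1)^((2:ℝ)/3)) atTop (𝓝 y) :=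
  (tendsto_nat_floor_mul_div_atTop hy.le).comp T22.rtend

theorem riem (m : ℕ) :
    Tendsto (fun n : ℕ => (∑ k ∈ Finset.range (n+1), (k:ℝ)^m * tl n k) /
      ((2*(n:ℝ)+1)^((2:ℝ)/3) * (((2*(n:ℝ)+1)^((2:ℝ)/3))^m * (2*(n:ℝ)+1)^2))) atTop
      (𝓝 (Real.Gamma (((m:ℝ)+1)/3) / 9)) := by
  obtain ⟨h, hint, hdom⟩ := dom m
  have key := riemann (fun n k => (k:ℝ)^m * tl n k) (fun n => (2*(n:ℝ)+1)^((2:ℝ)/3))
    (fun n => ((2*(n:ℝ)+1)^((2:ℝ)/3))^m * (2*(n:ℝ)+1)^2)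
    (fun y => y^m * (Real.exp (-y^3) / 3)) h T22.rtend ?_ ?_ ?_ ?_ hint hdom 0 le_rfl
  · rw [int_val] at key
    refine key.congr fun n => ?_
    congr 1
    rw [zero_mul, Nat.floor_zero]
    rw [finsum_mem_eq_sum_of_subset (s := {k : ℕ | 0 ≤ k}) (t := Finset.range (n+1))]
    · intro k hk
      rw [Finset.mem_coe, Finset.mem_range]
      by_contra hlt
      apply hk.2
      show (k:ℝ)^m * tl n k = 0
      rw [T22.tl_zero n k (by omega), mul_zero]
    · intro k _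
      exact Nat.zero_le k
  · exact Eventually.of_forall fun n => by positivity
  · intro n k
    exact mul_nonneg (by positivity) (T22.tl_nonneg n k)
  · intro n
    refine (Finset.finite_toSet (Finset.range (n+1))).subset ?_
    intro k hk
    rw [Function.mem_support] at hk
    rw [Finset.mem_coe, Finset.mem_range]
    by_contra hlt
    apply hk
    show (k:ℝ)^m * tl n k = 0
    rw [T22.tl_zero n k (by omega), mul_zero]
  · intro y hy
    have h1 := (floor_div y hy).pow m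
    have h2 := h1.mul (tl_tendsto y hy.le)
    refine h2.congr fun n => ?_
    rw [div_pow, div_mul_div_comm]

theorem tot_pos : ∀ᶠ n : ℕ in atTop, 0 < tot n := by
  have h := T22.riem0
  have hpos : 0 < Real.Gamma (4/3) / 3 := div_pos (Real.Gamma_pos_of_pos (by norm_num)) (by norm_num)
  filter_upwards [h.eventually (lt_mem_nhds hpos)] with n hn
  have h2 : 0 < (2*(n:ℝ)+1)^((2:ℝ)/3) * (2*(n:ℝ)+1)^2 := by positivity
  exact (div_pos_iff_of_pos_right h2).1 hn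

/-- moments of the formula -/
theorem formula (m : ℕ) :
    Tendsto (fun n : ℕ => (∑ k ∈ Finset.range (n+1), ((k:ℝ) / (2*(n:ℝ)+1)^((2:ℝ)/3))^m *
      (tl n k / tot n))) atTop (𝓝 (Real.Gamma (((m:ℝ)+1)/3) / Real.Gamma (1/3))) := by
  have h1 := (riem m).div T22.riem0 (by
    have : 0 < Real.Gamma (4/3) := Real.Gamma_pos_of_pos (by norm_num)
    positivity)
  have hG : Real.Gamma (4/3) = 1/3 * Real.Gamma (1/3) := by
    have := Real.Gamma_add_one (s := 1/3) (by norm_num)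
    rw [← this]; norm_num
  have h2 : Real.Gamma (((m:ℝ)+1)/3) / 9 / (Real.Gamma (4/3) / 3) =
      Real.Gamma (((m:ℝ)+1)/3) / Real.Gamma (1/3) := by
    have h0 : Real.Gamma (1/3) ≠ 0 := (Real.Gamma_pos_of_pos (by norm_num)).ne'
    rw [hG]
    field_simp
    ring
  rw [h2] at h1
  refine h1.congr' ?_
  filter_upwards [tot_pos] with n hn
  have hr : (2*(n:ℝ)+1)^((2:ℝ)/3) ≠ 0 := by positivity
  have hn0 : (2*(n:ℝ)+1) ≠ 0 := by positivity
  have hs : ∑ k ∈ Finset.range (n+1), ((k:ℝ) / (2*(n:ℝ)+1)^((2:ℝ)/3))^m * (tl n k / tot n) =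
      (∑ k ∈ Finset.range (n+1), (k:ℝ)^m * tl n k) / (((2*(n:ℝ)+1)^((2:ℝ)/3))^m * tot n) := by
    rw [Finset.sum_div]
    refine Finset.sum_congr rfl fun k _ => ?_
    rw [div_pow, div_mul_div_comm]
  rw [hs]
  simp only [Pi.div_apply]
  field_simp

end Mom

/-- Convergence of the moments. -/
theorem moments (m : ℕ) :
    Tendsto (fun n : ℕ => ∫ ω, (((touch (2*n+1) ω).ncard : ℝ) / (2*(n:ℝ)+1)^((2:ℝ)/3))^m ∂perc)
      atTop (𝓝 (Real.Gamma (((m:ℝ)+1)/3) / Real.Gamma (1/3))) := by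
  refine (Mom.formula m).congr' ?_
  filter_upwards [eventually_ge_atTop 1] with n hn
  have hodd : Odd (2*n+1) := ⟨n, rfl⟩
  set f : ℕ → ℝ := fun k => ((k:ℝ) / (2*(n:ℝ)+1)^((2:ℝ)/3))^m with hf
  have h1 : ∀ ω : Conf, f ((touch (2*n+1) ω).ncard) = ∑ k ∈ Finset.range (n+1),
      Set.indicator {ω : Conf | (touch (2*n+1) ω).ncard = k} (fun _ => f k) ω := by
    intro ω
    rw [Finset.sum_eq_single (touch (2*n+1) ω).ncard]
    · rw [Set.indicator_of_mem]
      rfl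
    · intro k _ hk
      rw [Set.indicator_of_notMem]
      exact fun h => hk h.symm
    · intro h
      exact absurd (Finset.mem_range.2 (Nat.lt_succ_of_le (T19_ncard_le n ω))) h
  have h2 : ∫ ω, f ((touch (2*n+1) ω).ncard) ∂perc = ∑ k ∈ Finset.range (n+1), f k * (tl n k / tot n) := by
    simp_rw [h1]
    rw [integral_finset_sum]
    · refine Finset.sum_congr rfl fun k hk => ?_
      rw [Finset.mem_range] at hk
      rw [integral_indicator (measurable_touch (2*n+1) hodd k), setIntegral_const,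
        exact_law n hn k (by omega), smul_eq_mul, mul_comm]
    · intro k _
      exact (integrable_const _).indicator (measurable_touch (2*n+1) hodd k)
  exact h2.symm

end Pool.Agent.H980R2.Cont
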