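import Pool.Agent.H980R2.Cont.T01

/-! T02: the Temperley-Lieb generators on `oo` and `dd`.

`act i w = ins i (cap i w)`; use `oo_ins` etc. (T01) and the four cases of `cap`:
* `false::true` at `i` (`w = u ++ false::true::v`): `cap i w = u ++ v`; the only prefix lost is the one of length
  `i+1`, of height `ht u - 1`; so `oo (cap i w) = oo w` if it is not balanced, and if `bal w (i+1)` then
  `ret w = ret (u++v) + 1`, whence `oo (cap i w) = dd (i+1) w`, `oo w = 0`.
* `true::false`: `cap i w = u ++ v` with `w = ins i (u++v)`: `oo_ins`, and `dd (i+1) w = 0` (height of the prefix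
  of length `i+1` is `≥ 1`).
* `true::true`: `cap i w = u ++ flipR 0 v`, where `v = v1 ++ false :: v2`, `v1` Dyck, and the `false` becomes
  `true`; the heights of the prefixes of `cap i w`: as in `w` for the prefixes inside `u` and after the flipped
  letter; inside `v1` they are lowered by 2, so they can be zero only if `u` is balanced; `u ≠ []`, so in this
  case both words have at least two returns and both sides are 0 (`dd (i+1) w = 0` since the prefix of
  length `i+1` has height `≥ 1`).  If `u` is not balanced the returns correspond.
* `false::false`: mirror image.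
(A proof by induction on `Dyck w` with the commutation rules `act_ins_left/right` of `H988R2.Perc.T01` may be
easier: `w = ins j w'`, `act i (ins j w') = ins j (act i' w')` or `act i w = ins i w'`.) -/

namespace Pool.Agent.H980R2.Cont

open Pool.Agent.H988R2.Perc Pool.Agent.H980R2.Cross Finset

theorem T02flipR_spec (v : Word) : ∀ d : ℕ, (d : ℤ) + T01ht v < 0 →
    ∃ v1 v2 : Word, v = v1 ++ false :: v2 ∧ flipR d v = v1 ++ true :: v2 ∧
      (d : ℤ) + T01ht v1 = 0 ∧ ∀ k, 0 ≤ (d : ℤ) + T01ht (v1.take k) := by
  induction v with
  | nil => intro d h; simp at h; omega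
  | cons a v ih =>
    intro d h
    cases a with
    | true =>
      rw [T01ht_true] at h
      obtain ⟨v1, v2, h1, h2, h3, h4⟩ := ih (d+1) (by push_cast; omega)
      refine ⟨true :: v1, v2, by rw [h1]; rfl, by rw [flipR, h2]; rfl, ?_, ?_⟩
      · rw [T01ht_true]; push_cast at h3; omega
      · intro k
        cases k with
        | zero => simp
        | succ k =>
          have := h4 k
          rw [List.take_succ_cons, T01ht_true]
          push_cast at this
          omega
    | false =>
      rw [T01ht_false] at h
      cases d with
      | zero => exact ⟨[], v, rfl, by rw [flipR]; rfl, by simp, by simp⟩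
      | succ d =>
        obtain ⟨v1, v2, h1, h2, h3, h4⟩ := ih d (by push_cast at h; omega)
        refine ⟨false :: v1, v2, by rw [h1]; rfl, by rw [flipR, h2]; rfl, ?_, ?_⟩
        · rw [T01ht_false]; push_cast; omega
        · intro k
          cases k with
          | zero => simp; omega
          | succ k =>
            have := h4 k
            rw [List.take_succ_cons, T01ht_false]
            push_cast
            omega

theorem T02flipL_spec (v : Word) : ∀ d : ℕ, (d : ℤ) < T01ht v →
    ∃ x y : Word, v = x ++ true :: y ∧ flipL d v = x ++ false :: y ∧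
      (d : ℤ) - T01ht x = 0 ∧ ∀ k, 0 ≤ (d : ℤ) - T01ht (x.take k) := by
  induction v with
  | nil => intro d h; simp at h; omega
  | cons a v ih =>
    intro d h
    cases a with
    | false =>
      rw [T01ht_false] at h
      obtain ⟨v1, v2, h1, h2, h3, h4⟩ := ih (d+1) (by push_cast; omega)
      refine ⟨false :: v1, v2, by rw [h1]; rfl, by rw [flipL, h2]; rfl, ?_, ?_⟩
      · rw [T01ht_false]; push_cast at h3; omega
      · intro k
        cases k with
        | zero => simp
        | succ k =>
          have := h4 k
          rw [List.take_succ_cons, T01ht_false]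
          push_cast at this
          omega
    | true =>
      rw [T01ht_true] at h
      cases d with
      | zero => exact ⟨[], v, rfl, by rw [flipL]; rfl, by simp, by simp⟩
      | succ d =>
        obtain ⟨v1, v2, h1, h2, h3, h4⟩ := ih d (by push_cast at h; omega)
        refine ⟨true :: v1, v2, by rw [h1]; rfl, by rw [flipL, h2]; rfl, ?_, ?_⟩
        · rw [T01ht_true]; push_cast; omega
        · intro k
          cases k with
          | zero => simp; omega
          | succ k =>
            have := h4 k
            rw [List.take_succ_cons, T01ht_true]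
            push_cast
            omega

theorem oo_act_zero {w : Word} (hw : Dyck w) (h : 4 ≤ w.length) : oo (act 0 w) = 0 := by
  unfold act
  refine oo_ins_zero (dyck_cap hw (by omega)) ?_
  intro h0
  have := length_cap (i := 0) (w := w) (by omega)
  rw [h0, List.length_nil] at this
  omega

theorem oo_act_last {i : ℕ} {w : Word} (hw : Dyck w) (h : 4 ≤ w.length) (hi : i + 2 = w.length) :
    oo (act i w) = 0 := by
  unfold act
  have h1 := length_cap (i := i) (w := w) (by omega)
  have h2 : i = (cap i w).length := by omega
  have h3 : cap i w ≠ [] := by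
    intro h0
    rw [h0, List.length_nil] at h1
    omega
  have h4 := oo_ins_end (dyck_cap hw (by omega : i + 2 ≤ w.length)) h3
  rw [← h2] at h4
  exact h4

theorem T02_four {i : ℕ} {w : Word} (h : i + 2 ≤ w.length) :
    ∃ (u : Word) (a b : Bool) (v : Word), u.length = i ∧ w = u ++ a :: b :: v := by
  have hd : (w.drop i).length = (w.length - i - 2) + 2 := by
    rw [List.length_drop]; omega
  match hm : w.drop i, hd with
  | a :: b :: v0, _ =>
    refine ⟨w.take i, a, b, v0, ?_, ?_⟩
    · rw [List.length_take]; omega
    · rw [← hm, List.take_append_drop]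

theorem oo_act {i : ℕ} {w : Word} (hw : Dyck w) (h1 : 1 ≤ i) (h2 : i + 3 ≤ w.length) :
    oo (act i w) = oo w + dd (i+1) w := by
  have hlc := length_cap (i := i) (w := w) (by omega)
  have hdc := dyck_cap hw (by omega : i + 2 ≤ w.length)
  have hact : oo (act i w) = oo (cap i w) := by
    unfold act
    exact oo_ins hdc h1 (by omega)
  rw [hact]
  obtain ⟨u, a, b, v, hu, hwv⟩ := T02_four (i := i) (w := w) (by omega)
  have hvl : 1 ≤ v.length := by
    have := congrArg List.length hwv
    simp only [List.length_append, List.length_cons] at this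
    omega
  have hvne : v ≠ [] := by
    intro h; rw [h] at hvl; simp at hvl
  have hune : u ≠ [] := by
    intro h; rw [h] at hu; simp at hu; omega
  have hh0 : 0 ≤ T01ht u := by
    have := T01ht_nonneg hw i
    rw [hwv, ← hu, List.take_left] at this
    exact this
  have htake1 : w.take (i+1) = u ++ [a] := by
    rw [hwv, ← hu, List.take_length_add_append]
    rfl
  have htake2 : w.take (i+2) = u ++ [a, b] := by
    rw [hwv, ← hu, List.take_length_add_append]
    rfl
  have hbal := T01bal_iff w (i+1)
  rw [htake1, T01ht_append] at hbal
  have hh1 : 0 ≤ T01ht (u ++ [a]) := htake1 ▸ T01ht_nonneg hw (i+1)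
  have hh2 : 0 ≤ T01ht (u ++ [a, b]) := htake2 ▸ T01ht_nonneg hw (i+2)
  rw [T01ht_append] at hh1 hh2
  have htot := T01ht_dyck hw
  rw [hwv, T01ht_append] at htot
  have hretw : ret w = T01rr 0 u + T01rr (T01ht u) (a :: b :: v) := by
    rw [T01ret_eq, hwv, T01rr_append, zero_add]
  unfold oo dd
  cases a <;> cases b
  · -- FF
    simp only [T01ht_false, T01ht_nil] at hbal hh1 hh2 htot
    have hcap : cap i w = (flipL 0 u.reverse).reverse ++ v := by rw [hwv]; exact cap_ff u v hu
    obtain ⟨x, y, hx, hy, hx0, hxk⟩ := T02flipL_spec u.reverse 0 (by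
      rw [T01ht_reverse]; push_cast; omega)
    have hu' : u = y.reverse ++ true :: x.reverse := by
      have := congrArg List.reverse hx
      rw [List.reverse_reverse] at this
      rw [this]; simp
    have hcap' : cap i w = y.reverse ++ false :: (x.reverse ++ v) := by
      rw [hcap, hy]; simp
    have hpos : ∀ k, 0 ≤ T01ht (x.reverse.take k) := by
      intro k
      rw [List.take_reverse, T01ht_reverse]
      have e : T01ht x = T01ht (x.take (x.length - k)) + T01ht (x.drop (x.length - k)) := by
        rw [← T01ht_append, List.take_append_drop]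
      have := hxk (x.length - k)
      push_cast at this hx0
      omega
    have hxr : T01ht x.reverse = 0 := by rw [T01ht_reverse]; push_cast at hx0; omega
    have hhu : T01ht u = T01ht y.reverse + 1 := by
      rw [hu', T01ht_append, T01ht_true, hxr]; ring
    -- returns of w
    have r1 : T01rr 0 u = T01rr 0 y.reverse := by
      rw [hu', T01rr_append, T01rr, if_neg (by omega), T01rr_zero_of_pos x.reverse]
      · omega
      · intro k; have := hpos k; omega
    have r2 : T01rr (T01ht u) (false :: false :: v)
        = (if T01ht u - 1 - 1 = 0 then 1 else 0) + T01rr (T01ht u - 1 - 1) v := by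
      rw [T01rr, if_neg (by omega), zero_add, T01rr]
    have r3 : ret (cap i w) = T01rr 0 y.reverse + ((if T01ht u - 1 - 1 = 0 then 1 else 0)
        + (T01rr (T01ht u - 1 - 1) x.reverse + T01rr (T01ht u - 1 - 1) v)) := by
      rw [T01ret_eq, hcap', T01rr_append, T01rr, T01rr_append, hxr, add_zero]
      have : 0 + T01ht y.reverse - 1 = T01ht u - 1 - 1 := by omega
      rw [this]
    rw [hretw, r1, r2, r3]
    have hd : ¬ bal w (i+1) := fun h => by have := hbal.mp h; omega
    rw [if_neg (fun h : _ ∧ _ => hd h.2), add_zero]
    by_cases hz : T01ht u - 1 - 1 = 0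
    · have p1 : 1 ≤ T01rr (T01ht u - 1 - 1) v := T01rr_pos v hvne _ (by omega)
      rw [if_pos hz]
      rw [if_neg (by omega), if_neg (by omega)]
    · have : T01rr (T01ht u - 1 - 1) x.reverse = 0 := by
        apply T01rr_zero_of_pos
        intro k; have := hpos k; omega
      rw [this, zero_add]
  · -- FT
    simp only [T01ht_true, T01ht_false, T01ht_nil] at hbal hh1 hh2 htot
    have hcap : cap i w = u ++ v := by rw [hwv]; exact cap_ft u v hu
    have r2 : T01rr (T01ht u) (false :: true :: v)
        = (if T01ht u - 1 = 0 then 1 else 0) + T01rr (T01ht u) v := by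
      rw [T01rr, T01rr]
      have : T01ht u - 1 + 1 = T01ht u := by ring
      rw [this, if_neg (by omega : ¬ T01ht u = 0), zero_add]
    have r3 : ret (cap i w) = T01rr 0 u + T01rr (T01ht u) v := by
      rw [T01ret_eq, hcap, T01rr_append, zero_add]
    have hcpos : 1 ≤ ret (cap i w) := by
      refine ret_pos hdc ?_
      rw [hcap]; simp [hvne]
    by_cases hz : T01ht u - 1 = 0
    · have hb : bal w (i+1) := hbal.mpr (by omega)
      rw [hretw, r2, if_pos hz]
      rw [if_neg (by omega : ¬ (T01rr 0 u + (1 + T01rr (T01ht u) v) = 1)), zero_add]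
      by_cases hc : ret (cap i w) = 1
      · rw [if_pos hc, if_pos ⟨by omega, hb⟩]
      · rw [if_neg hc, if_neg (fun h : _ ∧ _ => hc (by have := h.1; omega))]
    · have hb : ¬ bal w (i+1) := fun h => hz (by have := hbal.mp h; omega)
      rw [hretw, r2, if_neg hz, zero_add, r3, if_neg (fun h : _ ∧ _ => hb h.2), add_zero]
  · -- TF
    simp only [T01ht_true, T01ht_false, T01ht_nil] at hbal hh1 hh2 htot
    have hcap : cap i w = u ++ v := by rw [hwv]; exact cap_tf u v hu
    have hb : ¬ bal w (i+1) := fun h => by have := hbal.mp h; omega
    rw [if_neg (fun h : _ ∧ _ => hb h.2), add_zero]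
    have hins : w = ins i (cap i w) := by
      rw [hcap, hwv, ins_app u v hu]
    have := oo_ins hdc h1 (by omega : i + 1 ≤ (cap i w).length)
    rw [← hins] at this
    unfold oo at this
    exact this.symm
  · -- TT
    simp only [T01ht_true, T01ht_nil] at hbal hh1 hh2 htot
    have hcap : cap i w = u ++ flipR 0 v := by rw [hwv]; exact cap_tt u v hu
    obtain ⟨v1, v2, hv, hfl, hv0, hvk⟩ := T02flipR_spec v 0 (by push_cast; omega)
    push_cast at hv0 hvk
    simp only [zero_add] at hv0 hvk
    have hb : ¬ bal w (i+1) := fun h => by have := hbal.mp h; omega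
    rw [if_neg (fun h : _ ∧ _ => hb h.2), add_zero]
    have r2 : T01rr (T01ht u) (true :: true :: v) = T01rr (T01ht u + 1) v2 := by
      rw [T01rr, if_neg (by omega), T01rr, if_neg (by omega), hv, T01rr_append, hv0, add_zero,
        T01rr_zero_of_pos v1, T01rr, if_neg (by omega)]
      · have : T01ht u + 1 + 1 - 1 = T01ht u + 1 := by ring
        rw [this]; omega
      · intro k; have := hvk k; omega
    have r3 : ret (cap i w) = T01rr 0 u + (T01rr (T01ht u) v1 + T01rr (T01ht u + 1) v2) := by
      rw [T01ret_eq, hcap, hfl, T01rr_append, T01rr_append, hv0, zero_add, add_zero, T01rr,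
        if_neg (by omega), zero_add]
    rw [hretw, r2, r3]
    have hv2t : T01ht u + 1 + T01ht v2 = 0 := by
      rw [hv, T01ht_append, T01ht_false] at htot
      omega
    by_cases hz : T01ht u = 0
    · have p1 : 1 ≤ T01rr 0 u := T01rr_pos u hune 0 (by omega)
      have p2 : 1 ≤ T01rr (T01ht u + 1) v2 := by
        refine T01rr_pos v2 ?_ _ hv2t
        intro h
        rw [h, T01ht_nil] at hv2t
        omega
      rw [if_neg (by omega), if_neg (by omega)]
    · have : T01rr (T01ht u) v1 = 0 := by
        apply T01rr_zero_of_pos
        intro k; have := hvk k; omega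
      rw [this, zero_add]

end Pool.Agent.H980R2.Cont
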