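import Pool.Agent.H980R2.Cont.T07

/-! T07b: specialisation of all pairs to `1`, and order of vanishing.

`D3_bigO`: fix `x' = 2` (`WW 2 (replicate n 1) ≠ 0`: `8 - 1/8`, `8 + 1/8 - 2`); then
`D3 x … x = WW x * D3 2 … x / WW 2`, and `b ↦ D3 2 (replicate n 1) 1 b` is continuous near `b = 1`
(`OO_pd`), hence bounded; `WW x = (x³ - x⁻³)(x³ + x⁻³ - 2)^n`, `x³ + x⁻³ - 2 = (x³-1)²/x³`, is
`O((x-1)^(2n+1))`. (helper640) -/

namespace Pool.Agent.H980R2.Cont

open Pool.Agent.H988R2.Perc Pool.Agent.H980R2.Cross Finset Polynomial Filter Topology Asymptotics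

theorem T07b_len (us : List ℂ) : (prs us).length = 2 * us.length := by
  unfold prs
  induction us with
  | nil => rfl
  | cons t us ih =>
    rw [List.flatMap_cons, List.length_append, ih]
    simp only [List.length_cons, List.length_nil]
    ring

theorem T07b_OO (x : ℂ) (us : List ℂ) (y : ℂ) :
    Continuous (fun b => OO (x :: 0 :: (prs us ++ [y, b]))) := by
  have hN : Even (2 * us.length + 4) := ⟨us.length + 2, by ring⟩
  obtain ⟨P, -, hP⟩ := (OO_pd _ hN).univ (x :: 0 :: (prs us ++ [y])) [] (by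
    simp only [List.length_cons, List.length_append, List.length_nil, T07b_len])
  have : (fun b => OO (x :: 0 :: (prs us ++ [y, b]))) = fun b => P.eval b := by
    funext b
    rw [← hP b]
    congr 1
    simp
  rw [this]
  exact P.continuous

theorem T07b_HH (x : ℂ) (us : List ℂ) (y : ℂ) : ContinuousAt (fun b => HH x us y b) 1 := by
  unfold HH
  have h1 : ContinuousAt (fun b : ℂ => b⁻¹) 1 := continuousAt_inv₀ one_ne_zero
  have h2 : ContinuousAt (fun b => OO (x :: 0 :: (prs us ++ [y, b]))) 1 :=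
    (T07b_OO x us y).continuousAt
  have h3 : ContinuousAt (fun b : ℂ => x + x⁻¹ - (b + b⁻¹)) 1 :=
    continuousAt_const.sub (continuousAt_id.add h1)
  exact ((continuousAt_const.mul h3).mul continuousAt_const).mul h2

theorem T07b_D3 (x : ℂ) (us : List ℂ) (y : ℂ) : ContinuousAt (fun b => D3 x us y b) 1 := by
  unfold D3
  exact ((T07b_HH x us y).add (T07b_HH (q * x) us y)).add (T07b_HH (q ^ 2 * x) us y)

theorem T07b_WW (n : ℕ) (x : ℂ) : WW x (List.replicate n 1) =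
    (x^3 - x⁻¹^3) * (x^3 + x⁻¹^3 - 2)^n := by
  unfold WW
  rw [List.map_replicate, List.prod_replicate]
  congr 2
  norm_num

theorem T07b_WW2 (n : ℕ) : WW 2 (List.replicate n 1) ≠ 0 := by
  rw [T07b_WW]
  refine mul_ne_zero ?_ (pow_ne_zero _ ?_) <;> norm_num

theorem D3_bigO (n : ℕ) :
    (fun x : ℂ => D3 x (List.replicate n 1) 1 x) =O[𝓝 1] (fun x : ℂ => (x - 1)^(2*n+1)) := by
  have hev : (fun x : ℂ => D3 x (List.replicate n 1) 1 x) =ᶠ[𝓝 1]
      (fun x : ℂ => (x - 1)^(2*n+1) * (((x^3+1) * (x^2+x+1) * (x⁻¹)^3 *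
        ((x^2+x+1)^2 * (x⁻¹)^3)^n) * D3 2 (List.replicate n 1) 1 x *
          (WW 2 (List.replicate n 1))⁻¹)) := by
    have h0 : ∀ᶠ x : ℂ in 𝓝 1, x ≠ 0 := isOpen_ne.mem_nhds one_ne_zero
    filter_upwards [h0] with x hx
    have h1 := D3_ratio_one n x hx x 2 hx (by norm_num)
    have h2 : WW x (List.replicate n 1) = (x - 1)^(2*n+1) * ((x^3+1) * (x^2+x+1) * (x⁻¹)^3 *
        ((x^2+x+1)^2 * (x⁻¹)^3)^n) := by
      rw [T07b_WW]
      have h3 : x^3 - x⁻¹^3 = (x - 1) * ((x^3+1) * (x^2+x+1) * (x⁻¹)^3) := by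
        field_simp
        ring
      have h4 : x^3 + x⁻¹^3 - 2 = (x-1)^2 * ((x^2+x+1)^2 * (x⁻¹)^3) := by
        field_simp
        ring
      rw [h3, h4, mul_pow, ← pow_mul, pow_succ]
      ring
    have h5 := T07b_WW2 n
    rw [h2] at h1
    rw [← mul_inv_cancel_right₀ h5 (D3 x (List.replicate n 1) 1 x), h1]
    ring
  refine (IsBigO.congr' ?_ hev.symm (EventuallyEq.refl _ _))
  have hk : ContinuousAt (fun x : ℂ => ((x^3+1) * (x^2+x+1) * (x⁻¹)^3 *
        ((x^2+x+1)^2 * (x⁻¹)^3)^n) * D3 2 (List.replicate n 1) 1 x *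
          (WW 2 (List.replicate n 1))⁻¹) 1 := by
    have h1 : ContinuousAt (fun b : ℂ => b⁻¹) 1 := continuousAt_inv₀ one_ne_zero
    have h2 : ContinuousAt (fun x : ℂ => x^3+1) 1 := by fun_prop
    have h3 : ContinuousAt (fun x : ℂ => x^2+x+1) 1 := by fun_prop
    exact ((((h2.mul h3).mul (h1.pow 3)).mul (((h3.pow 2).mul (h1.pow 3)).pow n)).mul
      (T07b_D3 2 _ 1)).mul continuousAt_const
  have h6 := (isBigO_refl (fun x : ℂ => (x - 1)^(2*n+1)) (𝓝 (1:ℂ))).mul
    (hk.tendsto.isBigO_one ℂ)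
  simpa only [mul_one] using h6

end Pool.Agent.H980R2.Cont
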