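import Pool.Agent.H980R2.Cont.T07
import Pool.Agent.H980R2.Cont.T09

/-! T10: order of vanishing of `GG n X₂ - GG n X₁`.

Notation `x₁ = q x`, `x₂ = q² x`, `X_i = x_i + x_i⁻¹`, `X = x + x⁻¹`, `c = x³ + x⁻³ = x_i³ + x_i⁻³`.
`us = replicate n 1`, `y = 1`, `b = x`: `HH x us 1 x = 0` (last factor).
`HH x₁ us 1 x`: `b = x = q² x₁`, so `OO_eval` applies (`x₁`); `q (1-q²x₁)(1-x₁)/(x₁-q²)² = (X₂+1)/(X₂-2)`.
`HH x₂ us 1 x = -HH x₂⁻¹ us 1 x = -x^(2n+2) HH x₂⁻¹ us 1 x⁻¹` (`HH_inv`, `HH_invb`) and `x⁻¹ = q² x₂⁻¹`: `OO_eval` with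
`x' = x₂⁻¹`, the argument is `(X₁+1)/(X₁-2)`.
`SS n ((Y+1)/(Y-2)) * ((Y+1)^(2n+2) (Y-2)^n) = GG n Y` and `(Y-2)(Y+1)² = c - 2` for `Y = X, X₁, X₂`.
Result (checked numerically), for `x ≠ 0`, `c ≠ 2`:
`D3 x us 1 x = -(q²-q) q^(2n+1) x^n (1+x+x²) (x₁-x₁⁻¹)(x₂-x₂⁻¹) ((X₁-2)(X₂-2))^(2n+1) (GG n X₂ - GG n X₁)/(c-2)^(n+1)`.
Use `X₁ - X = (q²-q)(x₂-x₂⁻¹)`, `X₂ - X = -(q²-q)(x₁-x₁⁻¹)`, `(1-x₁)(x₂-1) = -(1+x+x²)`, `x₁ - q² = q²(x₂-1)`,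
`X₂ - 2 = (x₂-1)²/x₂`.  The other factors do not vanish at `x = 1`; `c - 2 = (x³-1)²/x³ = O((x-1)²)`; conclude with
`D3_bigO`. -/

namespace Pool.Agent.H980R2.Cont

open Pool.Agent.H988R2.Perc Pool.Agent.H980R2.Cross Finset Filter Topology Asymptotics

namespace T10

/-- `GG` and `SS` -/
theorem GG_SS (n : ℕ) {Y : ℂ} (hY : Y - 2 ≠ 0) :
    GG n Y = (Y+1)^(2*n+2) * (Y-2)^n * SS n ((Y+1)/(Y-2)) := by
  unfold GG SS
  rw [mul_assoc, Finset.mul_sum (s := range (n+1)) (a := (Y-2)^n)]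
  congr 1
  refine Finset.sum_congr rfl fun j hj => ?_
  have hj' : j ≤ n := by rw [Finset.mem_range] at hj; omega
  have h1 : (Y-2)^n = (Y-2)^(n-j) * (Y-2)^j := by rw [← pow_add, Nat.sub_add_cancel hj']
  rw [h1, div_pow]
  field_simp

theorem SS_GG (n : ℕ) {Y D : ℂ} (hY : Y - 2 ≠ 0) (hD : (Y - 2) * (Y + 1)^2 = D) :
    SS n ((Y+1)/(Y-2)) * D^(n+1) = GG n Y * (Y - 2) := by
  rw [GG_SS n hY, ← hD, mul_pow, ← pow_mul, show 2 * (n+1) = 2*n+2 by ring, pow_succ (Y-2) n]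
  ring

theorem q_inv_x {x : ℂ} : (q * x)⁻¹ = q^2 * x⁻¹ := by
  rw [mul_inv]
  have : q⁻¹ = q^2 := by
    rw [inv_eq_iff_eq_inv, eq_comm, inv_eq_iff_eq_inv, eq_comm]
    apply inv_eq_of_mul_eq_one_left
    rw [← q_cube]; ring
  rw [this]

theorem q2_inv_x {x : ℂ} : (q^2 * x)⁻¹ = q * x⁻¹ := by
  rw [mul_inv]
  have : (q^2)⁻¹ = q := by
    apply inv_eq_of_mul_eq_one_left
    rw [← q_cube]; ring
  rw [this]

theorem H1 (n : ℕ) (x : ℂ) (hx : x ≠ 0) (h3 : x^3 ≠ 1) :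
    HH (q*x) (List.replicate n 1) 1 x * (x^3 + x⁻¹^3 - 2)^(n+1) =
      -(q^2 - q) * q^(2*n+1) * x^n * (1 + x + x^2) * (q*x - (q*x)⁻¹) * (q^2*x - (q^2*x)⁻¹) *
      ((q*x + (q*x)⁻¹ - 2) * (q^2*x + (q^2*x)⁻¹ - 2))^(2*n+1) *
      GG n (q^2*x + (q^2*x)⁻¹) := by
  have hq3 : q^3 = 1 := q_cube
  have hqs : q^2 + q + 1 = 0 := q_spec
  have hxq : x ≠ q := by
    rintro rfl; exact h3 q_cube
  have hxq2 : q * x ≠ q^2 := by
    intro h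
    apply hxq
    have : q * x = q * q := by rw [h]; ring
    exact mul_left_cancel₀ q_ne_zero this
  have hO := OO_eval n (q*x) (mul_ne_zero q_ne_zero hx) hxq2
  have e0 : q^2 * (q*x) = x := by
    have : q^2 * (q*x) = q^3 * x := by ring
    rw [this, hq3, one_mul]
  rw [show OO (q * x :: 0 :: (prs (List.replicate n 1) ++ [1, q ^ 2 * (q * x)])) =
    OO (q * x :: 0 :: (prs (List.replicate n 1) ++ [1, x])) by rw [e0]] at hO
  have e0' : q * (1 - q ^ 2 * (q * x)) * (1 - q * x) / (q * x - q ^ 2) ^ 2 =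
    q * (1 - x) * (1 - q * x) / (q * x - q ^ 2) ^ 2 := by rw [e0]
  rw [e0'] at hO
  rw [q_inv_x, q2_inv_x]
  unfold HH
  rw [hO, q_inv_x, List.map_replicate, List.prod_replicate, List.length_replicate]
  obtain ⟨y, hy⟩ : ∃ y, y = x⁻¹ := ⟨_, rfl⟩
  rw [← hy]
  have hxy : x * y = 1 := by rw [hy]; exact mul_inv_cancel₀ hx
  -- the numbers
  set A : ℂ := q*x + q^2*y - 2 with hA
  set B : ℂ := q^2*x + q*y - 2 with hB
  have hBx : x * B = (q*x - q^2)^2 := by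
    rw [hB]
    linear_combination q * hxy - (q - 2 * x) * hq3
  have hB1x : x * (B + 3) = q * (1 - x) * (1 - q*x) := by
    rw [hB]
    linear_combination q * hxy + (x) * hqs
  have hBD : B * (B + 3)^2 = x^3 + y^3 - 2 := by
    rw [hB]
    have : (q^2*x + q*y - 2) * ((q^2*x + q*y - 2) + 3)^2 =
        q^6*x^3 + q^3*y^3 - 2 + 3 * (q^2 * x + q * y) * (q^3 * (x*y) - 1) := by ring
    rw [this, hxy, show q^6 = q^3 * q^3 by ring, hq3]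
    ring
  have hxq' : q*x - q^2 ≠ 0 := sub_ne_zero.2 hxq2
  have hB0 : B ≠ 0 := by
    intro h
    rw [h, mul_zero] at hBx
    exact hxq' (pow_eq_zero_iff (by norm_num) |>.1 hBx.symm)
  have harg : q * (1 - x) * (1 - q*x) / (q*x - q^2)^2 = (B + 3) / B := by
    rw [← hBx, ← hB1x, mul_div_mul_left _ _ hx]
  have hYB : q^2*x + q*y = B + 2 := by rw [hB]; ring
  have hS := SS_GG n (Y := B + 2) (D := x^3 + y^3 - 2) (by simpa using hB0) (by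
    rw [← hBD]; ring)
  have e1 : B + 2 + 1 = B + 3 := by ring
  have e2 : B + 2 - 2 = B := by ring
  rw [e1, e2] at hS
  rw [harg, hYB]
  -- powers
  have p1 : (q*x - q^2)^(4*n+1) = x^(2*n) * B^(2*n) * (q*x - q^2) := by
    rw [show 4*n+1 = 2*(2*n)+1 by ring, pow_succ, pow_mul, ← hBx, mul_pow]
  have p2 : (q^2*y)^(n+1) * (x^(2*n) * (q*x)) = q^(2*n) * x^n := by
    have h1 : (q^2*y)^(n+1) * (x^(2*n) * (q*x)) =
        q^(2*n) * q^3 * ((x*y)^(n+1)) * x^n := by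
      rw [mul_pow, mul_pow, ← pow_mul]
      ring
    rw [h1, hq3, hxy, one_pow]
    ring
  have p3 : q^2 * (1 - q*x) * (q*x - q^2) = -q * (1 + x + x^2) := by
    linear_combination (x - q * x^2 - q + q^2 * x) * hq3 + x * hqs
  have p4 : q*x + q^2*y - (x + y) = (q^2 - q) * (q^2*x - q*y) := by
    linear_combination (x - q * x + y) * hq3
  have p5 : q*x + q^2*y - (1 + 1⁻¹) = A := by rw [hA, inv_one]; ring
  rw [p5, p1, p4]
  calc (q*x - q^2*y) * (A^2)^n * A * ((q^2 - q) * (q^2*x - q*y)) * (q^2*y)^(n+1) *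
        (q^2 * (q*x) * (1 - q*x) * (x^(2*n) * B^(2*n) * (q*x - q^2)) * SS n ((B+3)/B)) *
          (x^3 + y^3 - 2)^(n+1)
      = (q*x - q^2*y) * (A^(2*n) * A) * ((q^2 - q) * (q^2*x - q*y)) *
        ((q^2*y)^(n+1) * (x^(2*n) * (q*x))) * (q^2 * (1 - q*x) * (q*x - q^2)) * B^(2*n) *
          (SS n ((B+3)/B) * (x^3 + y^3 - 2)^(n+1)) := by rw [← pow_mul]; ring
    _ = _ := by
        rw [p2, p3, hS, mul_pow]
        ring

end T10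

open T10 in
theorem D3_value (n : ℕ) (x : ℂ) (hx : x ≠ 0) (h3 : x^3 ≠ 1) :
    D3 x (List.replicate n 1) 1 x =
      -(q^2 - q) * q^(2*n+1) * x^n * (1 + x + x^2) * (q*x - (q*x)⁻¹) * (q^2*x - (q^2*x)⁻¹) *
      ((q*x + (q*x)⁻¹ - 2) * (q^2*x + (q^2*x)⁻¹ - 2))^(2*n+1) *
      (GG n (q^2*x + (q^2*x)⁻¹) - GG n (q*x + (q*x)⁻¹)) / (x^3 + x⁻¹^3 - 2)^(n+1) := by
  have hx' : x⁻¹ ≠ 0 := inv_ne_zero hx
  have h3' : x⁻¹^3 ≠ 1 := by
    rw [inv_pow]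
    intro h
    exact h3 (inv_eq_one.1 h)
  have hc : x^3 + x⁻¹^3 - 2 ≠ 0 := by
    have h1 : x^3 * (x^3 + x⁻¹^3 - 2) = (x^3 - 1)^2 := by
      have : x^3 * x⁻¹^3 = 1 := by rw [← mul_pow, mul_inv_cancel₀ hx, one_pow]
      linear_combination this
    intro h
    rw [h, mul_zero] at h1
    have := (pow_eq_zero_iff (by norm_num)).1 h1.symm
    exact h3 (sub_eq_zero.1 this)
  rw [eq_div_iff (pow_ne_zero _ hc)]
  unfold D3
  -- the three terms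
  have t0 : HH x (List.replicate n 1) 1 x = 0 := by
    unfold HH
    rw [sub_self (x + x⁻¹)]
    ring
  have t1 := H1 n x hx h3
  have t2 := H1 n x⁻¹ hx' h3'
  have t3 : HH (q^2*x) (List.replicate n 1) 1 x =
      -(x^(2*n+2) * HH (q * x⁻¹) (List.replicate n 1) 1 x⁻¹) := by
    have h1 := HH_inv (q^2*x) (mul_ne_zero (pow_ne_zero 2 q_ne_zero) hx) (List.replicate n 1) 1 x
    rw [q2_inv_x] at h1
    have h2 := HH_invb (q * x⁻¹) (List.replicate n 1) 1 x hx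
    rw [List.length_replicate] at h2
    rw [← h2, h1, neg_neg]
  rw [inv_inv] at t2
  rw [q_inv_x, q2_inv_x] at t1 ⊢
  have e1 : (q * x⁻¹)⁻¹ = q^2 * x := by rw [q_inv_x, inv_inv]
  have e2 : (q^2 * x⁻¹)⁻¹ = q * x := by rw [q2_inv_x, inv_inv]
  rw [e1, e2] at t2
  have e3 : q^2 * x⁻¹ + q * x = q * x + q^2 * x⁻¹ := by ring
  have e4 : q * x⁻¹ + q^2 * x = q^2 * x + q * x⁻¹ := by ring
  rw [e3, e4] at t2
  have e5 : x⁻¹^3 + x^3 - 2 = x^3 + x⁻¹^3 - 2 := by ring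
  rw [e5] at t2
  rw [t0, t3]
  have hpw : x^(2*n+2) * (x⁻¹^n * (1 + x⁻¹ + x⁻¹^2)) = x^n * (1 + x + x^2) := by
    have h1 : x^n * x⁻¹^n = 1 := by rw [← mul_pow, mul_inv_cancel₀ hx, one_pow]
    have h2 : x * x⁻¹ = 1 := mul_inv_cancel₀ hx
    calc x^(2*n+2) * (x⁻¹^n * (1 + x⁻¹ + x⁻¹^2))
        = (x^n * x⁻¹^n) * x^n * (x^2 + x * (x * x⁻¹) + (x * x⁻¹)^2) := by ring
      _ = x^n * (1 + x + x^2) := by rw [h1, h2]; ring
  generalize x⁻¹ = y at *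
  linear_combination t1 - x^(2*n+2) * t2 +
    (-(-(q^2 - q) * q^(2*n+1) * (q*y - q^2*x) * (q^2*y - q*x) *
      ((q^2*x + q*y - 2) * (q*x + q^2*y - 2))^(2*n+1) * GG n (q*x + q^2*y))) * hpw

end Pool.Agent.H980R2.Cont
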