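import Pool.Agent.H980R2.Cont.T10
import Pool.Agent.H980R2.Cont.T07b

/-! T10b: order of vanishing of `GG n X₂ - GG n X₁`.

Notation `x₁ = q x`, `x₂ = q² x`, `X_i = x_i + x_i⁻¹`, `X = x + x⁻¹`, `c = x³ + x⁻³ = x_i³ + x_i⁻³`.
`us = replicate n 1`, `y = 1`, `b = x`: `HH x us 1 x = 0` (last factor).
`HH x₁ us 1 x`: `b = x = q² x₁`, so `OO_eval` applies (`x₁`); `q (1-q²x₁)(1-x₁)/(x₁-q²)² = (X₂+1)/(X₂-2)`.
`HH x₂ us 1 x = -HH x₂⁻¹ us 1 x = -x^(2n+2) HH x₂⁻¹ us 1 x⁻¹` (`HH_inv`, `HH_invb`) and `x⁻¹ = q² x₂⁻¹`: `OO_eval` with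
`x' = x₂⁻¹`, the argument is `(X₁+1)/(X₁-2)`.
`SS n ((Y+1)/(Y-2)) * ((Y+1)^(2n+2) (Y-2)^n) = GG n Y` and `(Y-2)(Y+1)² = c - 2` for `Y = X, X₁, X₂`.
Result (checked numerically), for `x ≠ 0`, `c ≠ 2`:
`D3 x us 1 x = -(q²-q) q^(2n+1) x^n (1+x+x²) (x₁-x₁⁻¹)(x₂-x₂⁻¹) ((X₁-2)(X₂-2))^(2n+1) (GG n X₂ - GG n X₁)/(c-2)^(n+1)`.
Use `X₁ - X = (q²-q)(x₂-x₂⁻¹)`, `X₂ - X = -(q²-q)(x₁-x₁⁻¹)`, `(1-x₁)(x₂-1) = -(1+x+x²)`, `x₁ - q² = q²(x₂-1)`,
`X₂ - 2 = (x₂-1)²/x₂`.  The other factors do not vanish at `x = 1`; `c - 2 = (x³-1)²/x³ = O((x-1)²)`; conclude with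
`D3_bigO`. -/

namespace Pool.Agent.H980R2.Cont

open Pool.Agent.H988R2.Perc Pool.Agent.H980R2.Cross Finset Filter Topology Asymptotics

/-- the factor which does not vanish at `x = 1` -/
noncomputable def T10b_A (n : ℕ) (x : ℂ) : ℂ :=
  -(q^2 - q) * q^(2*n+1) * x^n * (1 + x + x^2) * (q*x - (q*x)⁻¹) * (q^2*x - (q^2*x)⁻¹) *
      ((q*x + (q*x)⁻¹ - 2) * (q^2*x + (q^2*x)⁻¹ - 2))^(2*n+1)

theorem T10b_qinv : q⁻¹ = q^2 := by
  have h : q * q^2 = 1 := by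
    rw [← pow_succ', q_cube]
  exact inv_eq_of_mul_eq_one_right h

theorem T10b_q2inv : (q^2)⁻¹ = q := by
  have h : q^2 * q = 1 := by
    rw [← pow_succ, q_cube]
  exact inv_eq_of_mul_eq_one_right h

theorem T10b_A_one (n : ℕ) : T10b_A n 1 ≠ 0 := by
  unfold T10b_A
  have hs := q_spec
  have h1 : q^2 - q ≠ 0 := by
    intro h
    have h2 : q * (q - 1) = 0 := by linear_combination h
    rcases mul_eq_zero.1 h2 with h3 | h3
    · exact q_ne_zero h3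
    · exact q_ne_one (sub_eq_zero.1 h3)
  rw [mul_one, mul_one, T10b_qinv, T10b_q2inv]
  have h4 : q + q^2 - 2 = -3 := by linear_combination hs
  have h5 : q^2 + q - 2 = -3 := by linear_combination hs
  have h6 : q - q^2 ≠ 0 := by
    intro h
    exact h1 (by linear_combination -h)
  rw [h4, h5, one_pow, one_pow]
  refine mul_ne_zero (mul_ne_zero (mul_ne_zero (mul_ne_zero (mul_ne_zero (mul_ne_zero
    (neg_ne_zero.2 h1) (pow_ne_zero _ q_ne_zero)) (by norm_num)) (by norm_num)) h6) h1) ?_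
  exact pow_ne_zero _ (by norm_num)

theorem T10b_A_cont (n : ℕ) : ContinuousAt (T10b_A n) 1 := by
  have h1 : ContinuousAt (fun x : ℂ => (q * x)⁻¹) 1 :=
    (continuousAt_const.mul continuousAt_id).inv₀ (by simpa using q_ne_zero)
  have h2 : ContinuousAt (fun x : ℂ => (q^2 * x)⁻¹) 1 :=
    (continuousAt_const.mul continuousAt_id).inv₀ (by simpa using q_ne_zero)
  have h3 : ContinuousAt (fun x : ℂ => q * x) 1 := continuousAt_const.mul continuousAt_id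
  have h4 : ContinuousAt (fun x : ℂ => q^2 * x) 1 := continuousAt_const.mul continuousAt_id
  unfold T10b_A
  refine ((((ContinuousAt.mul ?_ ?_).mul ?_).mul (h3.sub h1)).mul (h4.sub h2)).mul
    ((((h3.add h1).sub continuousAt_const).mul ((h4.add h2).sub continuousAt_const)).pow _)
  · exact continuousAt_const
  · exact continuousAt_id.pow _
  · exact (continuousAt_const.add continuousAt_id).add (continuousAt_id.pow _)

theorem GG_bigO (n : ℕ) :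
    (fun x : ℂ => GG n (q^2*x + (q^2*x)⁻¹) - GG n (q*x + (q*x)⁻¹)) =O[𝓝[≠] 1]
      (fun x : ℂ => (x - 1)^(4*n+3)) := by
  -- the continuous cofactor
  have hC : ContinuousAt (fun x : ℂ => ((1 + x + x^2)^2 / x^3)^(n+1) / T10b_A n x) 1 := by
    refine ContinuousAt.div (ContinuousAt.pow (ContinuousAt.div ?_ ?_ ?_) _) (T10b_A_cont n)
      (T10b_A_one n)
    · exact ((continuousAt_const.add continuousAt_id).add (continuousAt_id.pow _)).pow _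
    · exact continuousAt_id.pow _
    · norm_num
  have hC1 : (fun x : ℂ => ((1 + x + x^2)^2 / x^3)^(n+1) / T10b_A n x) =O[𝓝[≠] 1]
      (fun _ => (1 : ℂ)) := (hC.tendsto.isBigO_one ℂ).mono nhdsWithin_le_nhds
  have hD := (D3_bigO n).mono (nhdsWithin_le_nhds (s := {1}ᶜ))
  have hP : (fun x : ℂ => (x - 1)^(2*n+2)) =O[𝓝[≠] 1] (fun x : ℂ => (x - 1)^(2*n+2)) :=
    isBigO_refl _ _
  have hprod := (hD.mul hP).mul hC1
  have e1 : (fun x : ℂ => (x - 1)^(2*n+1) * (x - 1)^(2*n+2) * 1) =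
      fun x : ℂ => (x - 1)^(4*n+3) := by
    funext x
    rw [mul_one, ← pow_add]
    congr 1
    ring
  rw [e1] at hprod
  refine hprod.congr' ?_ EventuallyEq.rfl
  have hA : ∀ᶠ x in 𝓝[≠] (1:ℂ), T10b_A n x ≠ 0 :=
    nhdsWithin_le_nhds ((T10b_A_cont n).eventually_ne (T10b_A_one n))
  have h0 : ∀ᶠ x in 𝓝[≠] (1:ℂ), x ≠ 0 :=
    nhdsWithin_le_nhds (continuousAt_id.eventually_ne one_ne_zero)
  have h3 : ∀ᶠ x in 𝓝[≠] (1:ℂ), 1 + x + x^2 ≠ 0 := by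
    apply nhdsWithin_le_nhds
    have hc : ContinuousAt (fun x : ℂ => 1 + x + x^2) 1 :=
      (continuousAt_const.add continuousAt_id).add (continuousAt_id.pow _)
    exact hc.eventually_ne (by norm_num)
  have hne : ∀ᶠ x in 𝓝[≠] (1:ℂ), x ≠ 1 := eventually_mem_nhdsWithin
  filter_upwards [hA, h0, h3, hne] with x hx hx0 hx3 hx1
  have hx4 : x^3 ≠ 1 := by
    intro h
    have : (x - 1) * (1 + x + x^2) = 0 := by linear_combination h
    rcases mul_eq_zero.1 this with h5 | h5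
    · exact hx1 (sub_eq_zero.1 h5)
    · exact hx3 h5
  have hval := D3_value n x hx0 hx4
  have hc : x^3 + x⁻¹^3 - 2 = (x - 1)^2 * ((1 + x + x^2)^2 / x^3) := by
    field_simp
    ring
  have hcne : x^3 + x⁻¹^3 - 2 ≠ 0 := by
    rw [hc]
    exact mul_ne_zero (pow_ne_zero _ (sub_ne_zero.2 hx1))
      (div_ne_zero (pow_ne_zero _ hx3) (pow_ne_zero _ hx0))
  have hval2 : D3 x (List.replicate n 1) 1 x = T10b_A n x *
      (GG n (q^2*x + (q^2*x)⁻¹) - GG n (q*x + (q*x)⁻¹)) / (x^3 + x⁻¹^3 - 2)^(n+1) := hval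
  rw [hval2, hc]
  have hcn : ((x - 1)^2 * ((1 + x + x^2)^2 / x^3))^(n+1) ≠ 0 := by
    rw [← hc]
    exact pow_ne_zero _ hcne
  have e2 : (x - 1)^(2*n+2) * ((1 + x + x^2)^2 / x^3)^(n+1) =
      ((x - 1)^2 * ((1 + x + x^2)^2 / x^3))^(n+1) := by
    rw [mul_pow, ← pow_mul]
    congr 2
  set G := GG n (q^2*x + (q^2*x)⁻¹) - GG n (q*x + (q*x)⁻¹)
  set A := T10b_A n x
  set E := ((x - 1)^2 * ((1 + x + x^2)^2 / x^3))^(n+1)
  calc A * G / E * (x - 1)^(2*n+2) * (((1 + x + x^2)^2 / x^3)^(n+1) / A)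
      = A * G / E * ((x - 1)^(2*n+2) * ((1 + x + x^2)^2 / x^3)^(n+1)) / A := by ring
    _ = A * G / E * E / A := by rw [e2]
    _ = G := by
        rw [div_mul_cancel₀ _ hcn, mul_div_cancel_left₀ _ hx]

end Pool.Agent.H980R2.Cont
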