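import Pool.Agent.H980R2.Cont.Defs
import Pool.Agent.H980R2.Cross.T11

/-! T11a: the recurrence for lacunary sequences with many vanishing moments.

Put `w_l = (l-3-(3n+1))(l-3-(3n+2)) c_{l-3} - (l+3n+1)(l+3n+2) c_l`.  `w_l = 0` unless `3 ∤ l` and
`-3n+1 ≤ l ≤ 3n+2` (the factors vanish for `l-3 = 3n+1, 3n+2` and `l = -(3n+1), -(3n+2)`, and `c` is supported by
the non-multiples of 3 in `[-(3n+2), 3n+2]`): `4n+2` values of `l`.  For `r ≤ 4n+1`:
`Σ_l w_l l^r = Σ_l c_l [ (l-(3n+1))(l-(3n+2)) (l+3)^r - (l+3n+1)(l+3n+2) l^r ]` and the bracket is a polynomial in `l`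
of degree `≤ r+1 ≤ 4n+2` (the terms of degree `r+2` cancel), so the moments of `w` of order `≤ 4n+1` vanish;
Vandermonde: `w = 0`.  (Compare `H980R2.Cross.T11-T14`: `Good`, `Lam`, and the Vandermonde lemma there.) -/

namespace Pool.Agent.H980R2.Cont

open Pool.Agent.H988R2.Perc Finset

theorem lac_rec (n : ℕ) (c : ℤ → ℂ) (hs : ∀ l : ℤ, (3 ∣ l ∨ 3*(n:ℤ)+2 < |l|) → c l = 0)
    (hm : ∀ r < 4*n+3, ∑ l ∈ Icc (-(3*(n:ℤ)+2)) (3*(n:ℤ)+2), c l * (l:ℂ)^r = 0) (l : ℤ) :
    ((l:ℂ) - 3 - (3*n+1)) * ((l:ℂ) - 3 - (3*n+2)) * c (l-3) =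
      ((l:ℂ) + 3*n+1) * ((l:ℂ) + 3*n+2) * c l := by
  by_cases h0 : ∃ l, c l ≠ 0
  · have e1 : mu (2*n+1) = 3*n+2 := by unfold mu; omega
    have e2 : mu (2*n) = 3*n+1 := by unfold mu; omega
    have hsupp : ∀ l : ℤ, l ∉ Cross.Lam (2*n+1) → c l = 0 := by
      intro l hl
      apply hs
      rw [Cross.T11_mem_Lam, e1] at hl
      by_cases h3 : (3:ℤ) ∣ l
      · exact Or.inl h3
      · right
        by_contra hcon
        apply hl
        rw [not_lt, abs_le] at hcon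
        push_cast
        exact ⟨hcon, h3⟩
    have hg : Cross.Good (2*n+1) c := by
      refine ⟨hsupp, fun r hr => ?_, h0⟩
      rw [← hm r (by omega)]
      apply Cross.T11_sum_eq
      · intro l hl; rw [hsupp l hl, zero_mul]
      · intro l hl
        rw [Finset.mem_Icc] at hl
        rw [hs l, zero_mul]
        right
        by_contra hcon
        exact hl (abs_le.1 (not_lt.1 hcon))
    have h1 := Cross.good_ode hg l
    rw [e1, e2] at h1
    push_cast at h1
    linear_combination -h1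
  · push Not at h0
    rw [h0, h0, mul_zero, mul_zero]

end Pool.Agent.H980R2.Cont
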