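import Pool.Agent.H980R2.Cont.Defs
import Pool.Agent.H980R2.Cont.T11a

/-! T11: the lacunary differential equation.

`G` a polynomial, `deg G ≤ 3n+2`.  `G(x + x⁻¹) = Σ_{|l| ≤ 3n+2} g_l x^l`, so with `X_i = q^i x + (q^i x)⁻¹`,
`f(x) := G(X₂) - G(X₁) = Σ c_l x^l`, `c_l = g_l (q^(2l) - q^l)`, which is `0` if `3 ∣ l`.
With `D = x d/dx`: `D f = Σ l c_l x^l = (x₂-x₂⁻¹) G'(X₂) - (x₁-x₁⁻¹) G'(X₁)` and
`D² f = Σ l² c_l x^l = ((X₂²-4) G''(X₂) + X₂ G'(X₂)) - ((X₁²-4) G''(X₁) + X₁ G'(X₁))`.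
`f = O((x-1)^(4n+3))` near `1` gives `(x-1)^(4n+3) ∣ x^(3n+2) f(x)`, i.e. the moments `Σ c_l l^r`, `r ≤ 4n+2`, vanish.
Put `w_l = (l-3-(3n+1))(l-3-(3n+2)) c_{l-3} - (l+3n+1)(l+3n+2) c_l`, the coefficients of
`W = (x³-1) D²f - (6n+3)(x³+1) Df + (3n+1)(3n+2)(x³-1) f`.
`w_l = 0` unless `3 ∤ l` and `-3n+1 ≤ l ≤ 3n+2`: `4n+2` values of `l`; `W = O((x-1)^(4n+2))`, so the moments of `w` of
order `r ≤ 4n+1` vanish; Vandermonde (`4n+2` distinct nodes `l`): `w = 0` (this is `lac_rec`, T11a).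
(Compare the lacunary lemmas `Good`, `Lam` in `H980R2.Cross.T11-T14`.)

`Mop n G Y` below is `(Y+1)` times the operator of the equation in the variable `Y`; T12 uses it. -/

namespace Pool.Agent.H980R2.Cont

open Pool.Agent.H988R2.Perc Finset Filter Topology Asymptotics Polynomial

namespace T11x

/-- the operator `X d/dX - a` -/
noncomputable def D (a : ℕ) (Q : ℂ[X]) : ℂ[X] :=
  Polynomial.X * derivative Q - C (a : ℂ) * Q

theorem coeff_D (a : ℕ) (Q : ℂ[X]) (i : ℕ) : (D a Q).coeff i = ((i : ℂ) - a) * Q.coeff i := by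
  unfold D
  rw [coeff_sub, coeff_C_mul]
  cases i with
  | zero => simp
  | succ i =>
    rw [coeff_X_mul, coeff_derivative]
    push_cast
    ring

theorem coeff_iter (a j : ℕ) (Q : ℂ[X]) (i : ℕ) :
    ((D a)^[j] Q).coeff i = ((i : ℂ) - a)^j * Q.coeff i := by
  induction j generalizing Q with
  | zero => simp
  | succ j ih =>
    rw [Function.iterate_succ_apply, ih, coeff_D]
    ring

theorem dvd_D (a m : ℕ) (Q : ℂ[X]) (h : (Polynomial.X - C (1:ℂ))^(m+1) ∣ Q) :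
    (Polynomial.X - C (1:ℂ))^m ∣ D a Q := by
  obtain ⟨R, rfl⟩ := h
  refine ⟨Polynomial.X * (C ((m:ℂ)+1) * R + (Polynomial.X - C 1) * derivative R) -
    C (a:ℂ) * ((Polynomial.X - C 1) * R), ?_⟩
  unfold D
  rw [derivative_mul, derivative_X_sub_C_pow]
  simp only [Nat.add_sub_cancel, Nat.cast_add, Nat.cast_one, pow_succ, map_add, map_one,
    Polynomial.C_eq_natCast]
  ring

theorem dvd_iter (a : ℕ) (j m : ℕ) (Q : ℂ[X]) (h : (Polynomial.X - C (1:ℂ))^(m+j) ∣ Q) :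
    (Polynomial.X - C (1:ℂ))^m ∣ (D a)^[j] Q := by
  induction j generalizing Q with
  | zero => simpa using h
  | succ j ih =>
    rw [Function.iterate_succ_apply]
    exact ih _ (dvd_D a _ _ h)

/-- the sequence of the coefficients -/
noncomputable def cs (a : ℕ) (H : ℂ[X]) (l : ℤ) : ℂ :=
  if 0 ≤ l + a then H.coeff (l + a).toNat else 0

theorem cs_sub (a : ℕ) (H : ℂ[X]) (i : ℕ) : cs a H ((i:ℤ) - a) = H.coeff i := by
  unfold cs
  rw [if_pos (by omega)]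
  congr 1
  omega

/-- moments of the coefficients -/
theorem sum_cs (N : ℕ) (H : ℂ[X]) (hd : ∀ j, 2 * N < j → H.coeff j = 0) (r : ℕ) :
    ∑ l ∈ Finset.Icc (-(N : ℤ)) (N : ℤ), cs N H l * (l : ℂ)^r = ((D N)^[r] H).eval 1 := by
  have hdeg : ((D N)^[r] H).natDegree < 2 * N + 1 := by
    rw [Nat.lt_succ_iff, natDegree_le_iff_coeff_eq_zero]
    intro i hi
    rw [coeff_iter, hd i hi, mul_zero]
  rw [eval_eq_sum_range' hdeg]
  symm
  apply Finset.sum_bij (fun (i : ℕ) _ => (i:ℤ) - N)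
  · intro i hi
    rw [Finset.mem_range] at hi
    rw [Finset.mem_Icc]
    omega
  · intro i _ i' _ h
    omega
  · intro l hl'
    rw [Finset.mem_Icc] at hl'
    refine ⟨(l + N).toNat, ?_, ?_⟩
    · rw [Finset.mem_range]; omega
    · omega
  · intro i _
    rw [cs_sub, coeff_iter, one_pow, mul_one]
    push_cast
    ring

/-- the operator on a polynomial of the form `x^N u(x)` -/
theorem eval_D (N : ℕ) (Q : ℂ[X]) (u : ℂ → ℂ) (hQ : ∀ x : ℂ, x ≠ 0 → Q.eval x = x^N * u x)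
    (x u' : ℂ) (hx : x ≠ 0) (hu : HasDerivAt u u' x) : (D N Q).eval x = x^N * (x * u') := by
  have h1 : HasDerivAt (fun y : ℂ => y^N * u y) ((N : ℂ) * x^(N-1) * u x + x^N * u') x :=
    (hasDerivAt_pow N x).mul hu
  have h2 : (fun y : ℂ => Q.eval y) =ᶠ[𝓝 x] fun y => y^N * u y := by
    filter_upwards [isOpen_ne.mem_nhds hx] with y hy
    exact hQ y hy
  have h3 := (Q.hasDerivAt x).unique (h1.congr_of_eventuallyEq h2)
  unfold D
  rw [eval_sub, eval_mul, eval_X, eval_mul, eval_C, h3, hQ x hx]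
  have h4 : x * ((N : ℂ) * x^(N-1)) = N * x^N := by
    cases N with
    | zero => simp
    | succ k =>
      simp only [Nat.add_sub_cancel]
      ring
  linear_combination u x * h4

theorem D_comp (N : ℕ) (Q : ℂ[X]) (a : ℂ) :
    D N (Q.comp (C a * Polynomial.X)) = (D N Q).comp (C a * Polynomial.X) := by
  ext i
  rw [coeff_D, comp_C_mul_X_coeff, comp_C_mul_X_coeff, coeff_D]
  ring

theorem D_sub (N : ℕ) (P Q : ℂ[X]) : D N (P - Q) = D N P - D N Q := by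
  unfold D
  rw [derivative_sub]
  ring

theorem D_C_mul (N : ℕ) (a : ℂ) (Q : ℂ[X]) : D N (C a * Q) = C a * D N Q := by
  ext i
  rw [coeff_D, coeff_C_mul, coeff_C_mul, coeff_D]
  ring

/-- the polynomial `x^N G(x + 1/x)` -/
noncomputable def PG (N : ℕ) (G : ℂ[X]) : ℂ[X] :=
  ∑ k ∈ range (N+1), C (G.coeff k) * ((Polynomial.X^2 + 1)^k * Polynomial.X^(N-k))

theorem PG_eval (N : ℕ) (G : ℂ[X]) (hG : G.natDegree ≤ N) (x : ℂ) (hx : x ≠ 0) :
    (PG N G).eval x = x^N * G.eval (x + x⁻¹) := by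
  rw [eval_eq_sum_range' (Nat.lt_succ_of_le hG), PG, Polynomial.eval_finsetSum, Finset.mul_sum]
  refine Finset.sum_congr rfl fun k hk => ?_
  have hk' : k ≤ N := Nat.lt_succ_iff.mp (mem_range.mp hk)
  simp only [eval_mul, eval_C, eval_pow, eval_add, eval_X, eval_one]
  have h1 : x^2 + 1 = x * (x + x⁻¹) := by field_simp
  have h2 : x^N = x^k * x^(N-k) := by rw [← pow_add, Nat.add_sub_cancel' hk']
  rw [h1, h2, mul_pow]
  ring

theorem PG_coeff (N : ℕ) (G : ℂ[X]) (j : ℕ) (hj : 2 * N < j) : (PG N G).coeff j = 0 := by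
  apply coeff_eq_zero_of_natDegree_lt
  refine lt_of_le_of_lt (Polynomial.natDegree_sum_le_of_forall_le _ _ (n := 2 * N) ?_) hj
  intro k hk
  have hk' : k ≤ N := Nat.lt_succ_iff.mp (mem_range.mp hk)
  refine (natDegree_C_mul_le _ _).trans ?_
  refine (natDegree_mul_le).trans ?_
  have h1 : ((Polynomial.X^2 + 1 : ℂ[X])^k).natDegree ≤ k * 2 := by
    refine natDegree_pow_le.trans (Nat.mul_le_mul_left _ ?_)
    compute_degree
  have h2 : ((Polynomial.X : ℂ[X])^(N-k)).natDegree ≤ N - k := natDegree_X_pow_le _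
  omega

theorem has1 (G : ℂ[X]) (x : ℂ) (hx : x ≠ 0) :
    HasDerivAt (fun y : ℂ => G.eval (y + y⁻¹)) (G.derivative.eval (x + x⁻¹) * (1 - (x^2)⁻¹)) x := by
  have h1 : HasDerivAt (fun y : ℂ => y + y⁻¹) (1 + -(x^2)⁻¹) x :=
    (hasDerivAt_id x).add (hasDerivAt_inv hx)
  have h2 := (G.hasDerivAt (x + x⁻¹)).comp x h1
  rw [← sub_eq_add_neg] at h2
  exact h2

theorem PG_D (N : ℕ) (G : ℂ[X]) (hG : G.natDegree ≤ N) (x : ℂ) (hx : x ≠ 0) :
    (D N (PG N G)).eval x = x^N * ((x - x⁻¹) * G.derivative.eval (x + x⁻¹)) := by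
  rw [eval_D N _ _ (fun y hy => PG_eval N G hG y hy) x _ hx (has1 G x hx)]
  field_simp

theorem PG_D2 (N : ℕ) (G : ℂ[X]) (hG : G.natDegree ≤ N) (x : ℂ) (hx : x ≠ 0) :
    (D N (D N (PG N G))).eval x = x^N * (((x + x⁻¹)^2 - 4) *
      G.derivative.derivative.eval (x + x⁻¹) + (x + x⁻¹) * G.derivative.eval (x + x⁻¹)) := by
  have h1 : HasDerivAt (fun y : ℂ => y - y⁻¹) (1 - -(x^2)⁻¹) x :=
    (hasDerivAt_id x).sub (hasDerivAt_inv hx)
  have h2 := h1.mul (has1 G.derivative x hx)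
  rw [eval_D N _ _ (fun y hy => PG_D N G hG y hy) x _ hx h2]
  have h3 : x * x⁻¹ = 1 := mul_inv_cancel₀ hx
  field_simp
  ring

/-- order of vanishing and divisibility -/
theorem dvd_of_bigO (m : ℕ) (H : ℂ[X])
    (h : (fun x : ℂ => H.eval x) =O[𝓝[≠] 1] (fun x : ℂ => (x - 1)^m)) :
    (Polynomial.X - C (1:ℂ))^m ∣ H := by
  induction m generalizing H with
  | zero => simp
  | succ m ih =>
    have h0 : Tendsto (fun x : ℂ => (x - 1)^(m+1)) (𝓝[≠] 1) (𝓝 0) := by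
      have : Continuous fun x : ℂ => (x - 1)^(m+1) := by fun_prop
      have h1 := this.tendsto 1
      simp only [sub_self, ne_eq, Nat.add_eq_zero_iff, one_ne_zero, and_false, not_false_eq_true,
        zero_pow] at h1
      exact h1.mono_left nhdsWithin_le_nhds
    have h1 : Tendsto (fun x : ℂ => H.eval x) (𝓝[≠] 1) (𝓝 0) := h.trans_tendsto h0
    have h2 : Tendsto (fun x : ℂ => H.eval x) (𝓝[≠] 1) (𝓝 (H.eval 1)) :=
      (H.continuous.tendsto 1).mono_left nhdsWithin_le_nhds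
    have h3 : H.eval 1 = 0 := tendsto_nhds_unique h2 h1
    obtain ⟨R, rfl⟩ := dvd_iff_isRoot.mpr h3
    rw [pow_succ']
    refine mul_dvd_mul_left _ (ih R ?_)
    obtain ⟨c, hc⟩ := h.bound
    refine IsBigO.of_bound c ?_
    filter_upwards [hc, self_mem_nhdsWithin] with x hx hne
    have hne' : 0 < ‖x - 1‖ := norm_pos_iff.mpr (sub_ne_zero.mpr hne)
    rw [eval_mul, eval_sub, eval_X, eval_C, norm_mul, pow_succ', norm_mul] at hx
    have : ‖x - 1‖ * ‖R.eval x‖ ≤ ‖x - 1‖ * (c * ‖(x - 1)^m‖) := by linarith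
    exact le_of_mul_le_mul_left this hne'

end T11x

open T11x

theorem lac_ode (n : ℕ) (G : ℂ[X]) (hG : G.natDegree ≤ 3*n+2)
    (hO : (fun x : ℂ => G.eval (q^2*x + (q^2*x)⁻¹) - G.eval (q*x + (q*x)⁻¹)) =O[𝓝[≠] 1]
      (fun x : ℂ => (x - 1)^(4*n+3))) (x x1 x2 X1 X2 : ℂ) (hx : x ≠ 0) (h1 : x1 = q*x)
    (h2 : x2 = q^2*x) (hX1 : X1 = x1 + x1⁻¹) (hX2 : X2 = x2 + x2⁻¹) :
    (x^3 - 1) * (((X2^2 - 4) * G.derivative.derivative.eval X2 + X2 * G.derivative.eval X2) -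
        ((X1^2 - 4) * G.derivative.derivative.eval X1 + X1 * G.derivative.eval X1)) -
      (6*n+3) * (x^3 + 1) * ((x2 - x2⁻¹) * G.derivative.eval X2 -
        (x1 - x1⁻¹) * G.derivative.eval X1) +
      (3*n+1) * (3*n+2) * (x^3 - 1) * (G.eval X2 - G.eval X1) = 0 := by
  have hq3 : q^3 = 1 := q_cube
  have hq0 : q ≠ 0 := q_ne_zero
  set N : ℕ := 3*n+2 with hN
  set P : ℂ[X] := PG N G with hP
  set H : ℂ[X] := C (q^N) * P.comp (C (q^2) * Polynomial.X) -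
    C (q^(2*N)) * P.comp (C q * Polynomial.X) with hH
  have hqa : q^N * (q^2)^N = 1 := by
    rw [← pow_mul, ← pow_add, show N + 2 * N = 3 * N by ring, pow_mul, hq3, one_pow]
  have hqb : q^(2*N) * q^N = 1 := by
    rw [← pow_add, show 2 * N + N = 3 * N by ring, pow_mul, hq3, one_pow]
  -- evaluation
  have evH : ∀ y : ℂ, y ≠ 0 → H.eval y = y^N * (G.eval (q^2*y + (q^2*y)⁻¹) -
      G.eval (q*y + (q*y)⁻¹)) := by
    intro y hy
    rw [hH, eval_sub, eval_mul, eval_mul, eval_C, eval_C, eval_comp, eval_comp, eval_mul, eval_C,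
      eval_X, eval_mul, eval_C, eval_X, PG_eval N G hG _ (mul_ne_zero (pow_ne_zero 2 hq0) hy),
      PG_eval N G hG _ (mul_ne_zero hq0 hy), mul_pow, mul_pow]
    linear_combination (y^N * G.eval (q^2*y + (q^2*y)⁻¹)) * hqa -
      (y^N * G.eval (q*y + (q*y)⁻¹)) * hqb
  have evH1 : ∀ y : ℂ, y ≠ 0 → (D N H).eval y = y^N * ((q^2*y - (q^2*y)⁻¹) *
      G.derivative.eval (q^2*y + (q^2*y)⁻¹) -
      (q*y - (q*y)⁻¹) * G.derivative.eval (q*y + (q*y)⁻¹)) := by
    intro y hy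
    rw [hH, D_sub, D_C_mul, D_C_mul, D_comp, D_comp, eval_sub, eval_mul, eval_mul, eval_C, eval_C,
      eval_comp, eval_comp, eval_mul, eval_C, eval_X, eval_mul, eval_C, eval_X,
      PG_D N G hG _ (mul_ne_zero (pow_ne_zero 2 hq0) hy),
      PG_D N G hG _ (mul_ne_zero hq0 hy), mul_pow, mul_pow]
    linear_combination (y^N * ((q^2*y - (q^2*y)⁻¹) *
      G.derivative.eval (q^2*y + (q^2*y)⁻¹))) * hqa -
      (y^N * ((q*y - (q*y)⁻¹) * G.derivative.eval (q*y + (q*y)⁻¹))) * hqb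
  have evH2 : ∀ y : ℂ, y ≠ 0 → (D N (D N H)).eval y = y^N * ((((q^2*y + (q^2*y)⁻¹)^2 - 4) *
      G.derivative.derivative.eval (q^2*y + (q^2*y)⁻¹) + (q^2*y + (q^2*y)⁻¹) *
        G.derivative.eval (q^2*y + (q^2*y)⁻¹)) -
      (((q*y + (q*y)⁻¹)^2 - 4) * G.derivative.derivative.eval (q*y + (q*y)⁻¹) +
        (q*y + (q*y)⁻¹) * G.derivative.eval (q*y + (q*y)⁻¹))) := by
    intro y hy
    rw [hH, D_sub, D_C_mul, D_C_mul, D_comp, D_comp, D_sub, D_C_mul, D_C_mul, D_comp, D_comp,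
      eval_sub, eval_mul, eval_mul, eval_C, eval_C,
      eval_comp, eval_comp, eval_mul, eval_C, eval_X, eval_mul, eval_C, eval_X,
      PG_D2 N G hG _ (mul_ne_zero (pow_ne_zero 2 hq0) hy),
      PG_D2 N G hG _ (mul_ne_zero hq0 hy), mul_pow, mul_pow]
    linear_combination (y^N * (((q^2*y + (q^2*y)⁻¹)^2 - 4) *
      G.derivative.derivative.eval (q^2*y + (q^2*y)⁻¹) + (q^2*y + (q^2*y)⁻¹) *
        G.derivative.eval (q^2*y + (q^2*y)⁻¹))) * hqa -
      (y^N * (((q*y + (q*y)⁻¹)^2 - 4) * G.derivative.derivative.eval (q*y + (q*y)⁻¹) +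
        (q*y + (q*y)⁻¹) * G.derivative.eval (q*y + (q*y)⁻¹))) * hqb
  -- coefficients
  have hcoef : ∀ j, H.coeff j = P.coeff j * (q^(N + 2*j) - q^(2*N+j)) := by
    intro j
    rw [hH, coeff_sub, coeff_C_mul, coeff_C_mul, comp_C_mul_X_coeff, comp_C_mul_X_coeff, ← pow_mul]
    rw [pow_add, pow_add]
    ring
  have hsup : ∀ l : ℤ, (3 ∣ l ∨ 3*(n:ℤ)+2 < |l|) → cs N H l = 0 := by
    intro l hl
    unfold cs
    split_ifs with h0
    · obtain ⟨j, hj⟩ : ∃ j : ℕ, (j : ℤ) = l + N := ⟨(l + N).toNat, Int.toNat_of_nonneg h0⟩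
      rw [← hj, Int.toNat_natCast, hcoef]
      rcases hl with hl | hl
      · obtain ⟨k, hk⟩ := hl
        have e1 : q^(N + 2*j) = q^(2*N+j) := by
          rcases le_total j N with hle | hle
          · obtain ⟨s, hs⟩ : ∃ s : ℕ, N = j + 3 * s := ⟨(N - j) / 3, by omega⟩
            have : 2 * N + j = (N + 2 * j) + 3 * s := by omega
            rw [this, pow_add q (N + 2 * j), pow_mul, hq3, one_pow, mul_one]
          · obtain ⟨s, hs⟩ : ∃ s : ℕ, j = N + 3 * s := ⟨(j - N) / 3, by omega⟩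
            have : N + 2 * j = (2 * N + j) + 3 * s := by omega
            rw [this, pow_add q (2 * N + j), pow_mul, hq3, one_pow, mul_one]
        rw [e1, sub_self, mul_zero]
      · rw [hP, PG_coeff N G j (by
          have h3 : ((3*n+2 : ℕ) : ℤ) = 3*(n:ℤ)+2 := by push_cast; ring
          rcases abs_cases l with ⟨h4, h5⟩ | ⟨h4, h5⟩ <;> omega), zero_mul]
    · rfl
  -- divisibility
  have hdvd : (Polynomial.X - C (1:ℂ))^(4*n+3) ∣ H := by
    apply dvd_of_bigO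
    have hb : (fun y : ℂ => y^N) =O[𝓝[≠] 1] (fun _ => (1 : ℂ)) := by
      have : Tendsto (fun y : ℂ => y^N) (𝓝[≠] 1) (𝓝 (1^N)) :=
        ((continuous_pow N).tendsto 1).mono_left nhdsWithin_le_nhds
      exact this.isBigO_one ℂ
    have h3 := hb.mul hO
    simp only [one_mul] at h3
    refine IsBigO.congr' h3 ?_ EventuallyEq.rfl
    have h0 : ∀ᶠ y : ℂ in 𝓝[≠] 1, y ≠ 0 :=
      nhdsWithin_le_nhds (isOpen_ne.mem_nhds one_ne_zero)
    filter_upwards [h0] with y hy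
    exact (evH y hy).symm
  have hmom : ∀ r < 4*n+3, ∑ l ∈ Icc (-(3*(n:ℤ)+2)) (3*(n:ℤ)+2), cs N H l * (l:ℂ)^r = 0 := by
    intro r hr
    have e1 := sum_cs N H (fun j hj => by rw [hcoef, hP, PG_coeff N G j hj, zero_mul]) r
    have e2 : ((N : ℕ) : ℤ) = 3*(n:ℤ)+2 := by rw [hN]; push_cast; ring
    rw [e2] at e1
    rw [e1]
    obtain ⟨R, hR⟩ := dvd_iter N r (4*n+3-r) H (by rwa [Nat.sub_add_cancel hr.le])
    rw [hR, eval_mul, eval_pow, eval_sub, eval_X, eval_C, sub_self, zero_pow (by omega), zero_mul]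
  have hrec := lac_rec n (cs N H) hsup hmom
  -- polynomial identity
  have hid : Polynomial.X^3 * (D N (D N H) - C (6*(n:ℂ)+3) * D N H +
      C ((3*(n:ℂ)+1)*(3*n+2)) * H) = D N (D N H) + C (6*(n:ℂ)+3) * D N H +
      C ((3*(n:ℂ)+1)*(3*n+2)) * H := by
    ext j
    have hNc : (N : ℂ) = 3*n+2 := by rw [hN]; push_cast; ring
    have hr := hrec ((j:ℤ) - N)
    rw [cs_sub] at hr
    push_cast at hr
    rw [hNc] at hr
    rw [coeff_X_pow_mul']
    simp only [coeff_add, coeff_sub, coeff_C_mul, coeff_D]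
    rw [hNc]
    split_ifs with h3
    · obtain ⟨i, rfl⟩ : ∃ i, j = i + 3 := ⟨j - 3, by omega⟩
      have e1 : (((i+3 : ℕ) : ℤ) - N - 3) = (i:ℤ) - N := by push_cast; ring
      rw [e1, cs_sub] at hr
      simp only [Nat.add_sub_cancel]
      push_cast at hr ⊢
      linear_combination hr
    · have e1 : cs N H ((j:ℤ) - N - 3) = 0 := by
        unfold cs
        rw [if_neg (by omega)]
      rw [e1, mul_zero] at hr
      linear_combination hr
  have hev := congrArg (fun Q => Polynomial.eval x Q) hid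
  simp only [eval_mul, eval_add, eval_sub, eval_pow, eval_X, eval_C] at hev
  rw [evH x hx, evH1 x hx, evH2 x hx, ← h1, ← h2, ← hX1, ← hX2] at hev
  have hxN : x^N ≠ 0 := pow_ne_zero _ hx
  apply mul_left_cancel₀ hxN
  rw [mul_zero]
  linear_combination hev

end Pool.Agent.H980R2.Cont
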