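import Pool.Agent.H980R2.Cont.T11

/-! T12: from the differential equation to a polynomial identity.

`G = (X+1)^(2n+2) B`, `deg B ≤ n`.  Let
`N = (X+1)((X²-4) G'' + X G' + (3n+1)(3n+2) G) - (6n+3)(X+2)(X-1) G'`.
As `(x³+1)(x_i - x_i⁻¹)(X_i+1) = (x³-1)(X_i+2)(X_i-1)` (`x_i³ = x³`), `lac_ode` says
`N(X₂)/(X₂+1) = N(X₁)/(X₁+1)` for all `x ≠ 0` with `x³ ≠ 1` and `X_i ≠ -1`.
`(X+1)^(2n+1)` divides `G'`, `(X+1)^(2n)` divides `G''`, so `N = (X+1)^(2n+1) N₁`; let `M = (X+1)^(2n) N₁`,
`deg M ≤ 3n+2`; `M(X₂) = M(X₁)` for all `x ≠ 0` with `x³ ≠ 1`.  Then `M = m₀ ((X+1)²(X-2))^n` by induction on `n`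
(`sym_const`): the triples over `x³ = 1` are `-1,-1,2`, so `M(2) = M(-1) = 0` by continuity. -/

namespace Pool.Agent.H980R2.Cont

open Pool.Agent.H988R2.Perc Finset Filter Topology Asymptotics Polynomial

/-- invariance under the rotation by `q` -/
def T12Sym (M : ℂ[X]) : Prop :=
  ∀ x : ℂ, x ≠ 0 → x^3 ≠ 1 → M.eval (q*x + (q*x)⁻¹) = M.eval (q^2*x + (q^2*x)⁻¹)

theorem T12_inv1 (x : ℂ) : (q*x)⁻¹ = q^2 * x⁻¹ := by
  rw [mul_inv]
  congr 1
  rw [inv_eq_iff_eq_inv]
  exact eq_inv_of_mul_eq_one_left (by have := q_cube; linear_combination this)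

theorem T12_inv2 (x : ℂ) : (q^2*x)⁻¹ = q * x⁻¹ := by
  rw [mul_inv]
  congr 1
  rw [inv_eq_iff_eq_inv]
  exact eq_inv_of_mul_eq_one_left (by have := q_cube; linear_combination this)

theorem T12_q_sub : q - q^2 ≠ 0 := by
  intro h
  have h1 : q * (1 - q) = 0 := by linear_combination h
  rcases mul_eq_zero.1 h1 with h2 | h2
  · exact q_ne_zero h2
  · exact q_ne_one (sub_eq_zero.1 h2).symm

theorem T12_cube (x : ℂ) (h : x^3 = 1) : x = 1 ∨ x = q ∨ x = q^2 := by
  have h1 : (x - 1) * ((x - q) * (x - q^2)) = 0 := by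
    linear_combination h + (- (x^2 : ℂ) + x) * q_spec + (x - 1) * q_cube
  rcases mul_eq_zero.1 h1 with h2 | h2
  · exact Or.inl (sub_eq_zero.1 h2)
  · rcases mul_eq_zero.1 h2 with h3 | h3
    · exact Or.inr (Or.inl (sub_eq_zero.1 h3))
    · exact Or.inr (Or.inr (sub_eq_zero.1 h3))

theorem T12_ev : ∀ᶠ x in 𝓝[≠] q, x ≠ 0 ∧ x^3 ≠ 1 := by
  have hfin : ({0, 1, q^2} : Set ℂ).Finite := by simp
  have hq : q ∉ ({0, 1, q^2} : Set ℂ) := by
    simp only [Set.mem_insert_iff, Set.mem_singleton_iff, not_or]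
    refine ⟨q_ne_zero, q_ne_one, fun h => T12_q_sub (by rw [← h, sub_self])⟩
  have h1 : ∀ᶠ x in 𝓝 q, x ∈ ({0, 1, q^2} : Set ℂ)ᶜ :=
    hfin.isClosed.isOpen_compl.mem_nhds hq
  filter_upwards [h1.filter_mono nhdsWithin_le_nhds, self_mem_nhdsWithin] with x hx hxq
  simp only [Set.mem_compl_iff, Set.mem_insert_iff, Set.mem_singleton_iff, not_or] at hx
  refine ⟨hx.1, fun h => ?_⟩
  rcases T12_cube x h with h2 | h2 | h2
  · exact hx.2.1 h2
  · exact hxq h2
  · exact hx.2.2 h2

theorem T12_special (M : ℂ[X]) (hs : T12Sym M) : M.eval (-1) = M.eval 2 := by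
  have h1 : Tendsto (fun x : ℂ => M.eval (q*x + (q*x)⁻¹) - M.eval (q^2*x + (q^2*x)⁻¹)) (𝓝[≠] q)
      (𝓝 (M.eval (q*q + (q*q)⁻¹) - M.eval (q^2*q + (q^2*q)⁻¹))) := by
    have hc1 : ContinuousAt (fun x : ℂ => q*x + (q*x)⁻¹) q :=
      (continuousAt_const.mul continuousAt_id).add
        ((continuousAt_const.mul continuousAt_id).inv₀ (mul_ne_zero q_ne_zero q_ne_zero))
    have hc2 : ContinuousAt (fun x : ℂ => q^2*x + (q^2*x)⁻¹) q :=
      (continuousAt_const.mul continuousAt_id).add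
        ((continuousAt_const.mul continuousAt_id).inv₀
          (mul_ne_zero (pow_ne_zero _ q_ne_zero) q_ne_zero))
    have hc3 : ContinuousAt (fun x : ℂ => M.eval (q*x + (q*x)⁻¹)) q :=
      ContinuousAt.comp (f := fun x : ℂ => q*x + (q*x)⁻¹) (g := fun y => M.eval y)
        M.continuous.continuousAt hc1
    have hc4 : ContinuousAt (fun x : ℂ => M.eval (q^2*x + (q^2*x)⁻¹)) q :=
      ContinuousAt.comp (f := fun x : ℂ => q^2*x + (q^2*x)⁻¹) (g := fun y => M.eval y)
        M.continuous.continuousAt hc2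
    exact ((hc3.sub hc4).tendsto).mono_left nhdsWithin_le_nhds
  have h2 : Tendsto (fun x : ℂ => M.eval (q*x + (q*x)⁻¹) - M.eval (q^2*x + (q^2*x)⁻¹)) (𝓝[≠] q)
      (𝓝 0) := by
    refine tendsto_const_nhds.congr' ?_
    filter_upwards [T12_ev] with x hx
    rw [hs x hx.1 hx.2, sub_self]
  have h3 := sub_eq_zero.1 (tendsto_nhds_unique h1 h2)
  have e1 : q*q + (q*q)⁻¹ = -1 := by
    rw [T12_inv1]
    have : q⁻¹ = q^2 := by
      rw [inv_eq_iff_eq_inv]
      exact eq_inv_of_mul_eq_one_left (by have := q_cube; linear_combination this)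
    rw [this]
    linear_combination q_spec + q * q_cube
  have e2 : q^2*q + (q^2*q)⁻¹ = 2 := by
    rw [← pow_succ, show 2+1 = 3 from rfl, q_cube]; norm_num
  rw [e1, e2] at h3
  exact h3

theorem T12_P (x : ℂ) (hx : x ≠ 0) {y : ℂ} (hy : y^3 = x^3) :
    (y + y⁻¹ - 2) * (y + y⁻¹ + 1)^2 = (x^3 - 1)^2 / x^3 := by
  have hy0 : y ≠ 0 := by
    intro h; rw [h] at hy; exact hx (by simpa using hy.symm)
  rw [← hy]
  field_simp
  ring

theorem T12_sym_const (n : ℕ) : ∀ (N1 : ℂ[X]), N1.natDegree ≤ n + 2 →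
    T12Sym ((Polynomial.X + 1)^(2*n) * N1) →
    ∃ m₀ : ℂ, (Polynomial.X + 1)^(2*n) * N1 = C m₀ * ((Polynomial.X - 2) * (Polynomial.X + 1)^2)^n := by
  induction n with
  | zero =>
    intro N1 hd hs
    simp only [mul_zero, pow_zero, one_mul, mul_one] at hs ⊢
    obtain ⟨a, b, c, hN⟩ : ∃ a b c : ℂ, N1 = C a * Polynomial.X^2 + C b * Polynomial.X + C c :=
      ⟨_, _, _, eq_quadratic_of_degree_le_two (natDegree_le_iff_degree_le.1 hd)⟩
    have key : ∀ x : ℂ, x ≠ 0 → x^3 ≠ 1 → x^2 ≠ 1 → b = a * (x + x⁻¹) := by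
      intro x hx h3 h2
      have h := hs x hx h3
      rw [T12_inv1, T12_inv2, hN] at h
      simp only [eval_add, eval_mul, eval_C, eval_pow, eval_X] at h
      have h4 : (q - q^2) * ((x - x⁻¹) * (b - a * (x + x⁻¹))) = 0 := by
        have hq := q_spec
        linear_combination h - a * (q - q^2) * (x^2 - (x⁻¹)^2) * q_spec
      rcases mul_eq_zero.1 h4 with h5 | h5
      · exact absurd h5 T12_q_sub
      · rcases mul_eq_zero.1 h5 with h6 | h6
        · exfalso
          apply h2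
          have : x = x⁻¹ := sub_eq_zero.1 h6
          calc x^2 = x * x := by ring
            _ = x * x⁻¹ := by rw [← this]
            _ = 1 := mul_inv_cancel₀ hx
        · exact sub_eq_zero.1 h6
    have k1 := key Complex.I Complex.I_ne_zero
      (by
        intro h
        have : Complex.I ^ 3 = -Complex.I := by
          rw [pow_succ, Complex.I_sq]; ring
        rw [this] at h
        have := congrArg Complex.re h
        simp at this) (by rw [Complex.I_sq]; norm_num)
    have k2 := key 2 (by norm_num) (by norm_num) (by norm_num)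
    rw [Complex.inv_I, add_neg_cancel, mul_zero] at k1
    rw [k1] at k2
    have ha : a = 0 := by
      rcases mul_eq_zero.1 k2.symm with h | h
      · exact h
      · exfalso; revert h; norm_num
    refine ⟨c, ?_⟩
    rw [hN, ha, k1]
    simp
  | succ n ih =>
    intro N1 hd hs
    have h0 := T12_special _ hs
    have h1 : N1.eval 2 = 0 := by
      simp only [eval_mul, eval_pow, eval_add, eval_X, eval_one] at h0
      rw [neg_add_cancel, zero_pow (by omega), zero_mul] at h0
      rcases mul_eq_zero.1 h0.symm with h | h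
      · exfalso
        have : ((2:ℂ) + 1) ^ (2 * (n+1)) ≠ 0 := pow_ne_zero _ (by norm_num)
        exact this h
      · exact h
    obtain ⟨N2, hN2⟩ := dvd_iff_isRoot.2 (show IsRoot N1 2 from h1)
    have hC2 : (C 2 : ℂ[X]) = 2 := rfl
    rw [hC2] at hN2
    have hd2 : N2.natDegree ≤ n + 2 := by
      by_cases hz : N2 = 0
      · rw [hz]; simp
      · have h2 : ((Polynomial.X - 2 : ℂ[X])).natDegree = 1 := by
          rw [← hC2]; exact natDegree_X_sub_C 2
        have h3 : ((Polynomial.X - 2 : ℂ[X])) ≠ 0 := by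
          rw [← hC2]; exact X_sub_C_ne_zero 2
        rw [hN2, natDegree_mul h3 hz, h2] at hd
        omega
    have hfac : (Polynomial.X + 1)^(2*(n+1)) * N1 =
        ((Polynomial.X - 2) * (Polynomial.X + 1)^2) * ((Polynomial.X + 1)^(2*n) * N2) := by
      rw [hN2]; ring
    obtain ⟨m₀, hm⟩ := ih N2 hd2 (by
      intro x hx hx3
      have h2 := hs x hx hx3
      rw [hfac, eval_mul, eval_mul (p := (Polynomial.X - 2) * (Polynomial.X + 1)^2)] at h2
      have e1 : eval (q*x + (q*x)⁻¹) ((Polynomial.X - 2) * (Polynomial.X + 1)^2 : ℂ[X]) =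
          (x^3 - 1)^2 / x^3 := by
        rw [← T12_P x hx (y := q*x) (by rw [mul_pow, q_cube, one_mul]), ← hC2]
        simp
      have e2 : eval (q^2*x + (q^2*x)⁻¹) ((Polynomial.X - 2) * (Polynomial.X + 1)^2 : ℂ[X]) =
          (x^3 - 1)^2 / x^3 := by
        rw [← T12_P x hx (y := q^2*x) (by
          rw [mul_pow, ← pow_mul, mul_comm 2 3, pow_mul, q_cube, one_pow, one_mul]), ← hC2]
        simp
      rw [e1, e2] at h2
      exact mul_left_cancel₀ (div_ne_zero (pow_ne_zero _ (sub_ne_zero.2 hx3)) (pow_ne_zero _ hx)) h2)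
    refine ⟨m₀, ?_⟩
    rw [hfac, hm]
    ring

theorem M_identity (n : ℕ) (B : ℂ[X]) (hB : B.natDegree ≤ n) (G : ℂ[X])
    (hG : G = (Polynomial.X + 1)^(2*n+2) * B)
    (hO : (fun x : ℂ => G.eval (q^2*x + (q^2*x)⁻¹) - G.eval (q*x + (q*x)⁻¹)) =O[𝓝[≠] 1]
      (fun x : ℂ => (x - 1)^(4*n+3))) :
    ∃ m₀ : ℂ, (Polynomial.X + 1) * ((Polynomial.X^2 - 4) * G.derivative.derivative + Polynomial.X * G.derivative +
        C ((3*n+1) * (3*n+2) : ℂ) * G) - C (6*n+3 : ℂ) * (Polynomial.X + 2) * (Polynomial.X - 1) * G.derivative =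
      C m₀ * (Polynomial.X + 1) * ((Polynomial.X - 2) * (Polynomial.X + 1)^2)^n := by
  have hX1 : ((Polynomial.X + 1 : ℂ[X])).natDegree = 1 := by
    have : (Polynomial.X + 1 : ℂ[X]) = Polynomial.X + C 1 := by simp
    rw [this]; exact natDegree_X_add_C 1
  have hGd : G.natDegree ≤ 3*n+2 := by
    rw [hG]
    refine natDegree_mul_le.trans ?_
    have := natDegree_pow_le (p := (Polynomial.X + 1 : ℂ[X])) (n := 2*n+2)
    rw [hX1] at this
    omega
  obtain ⟨B1, hB1, hB1d⟩ : ∃ B1 : ℂ[X], G.derivative = (Polynomial.X + 1)^(2*n+1) * B1 ∧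
      B1.natDegree ≤ n := by
    refine ⟨C (2*n+2 : ℂ) * B + (Polynomial.X + 1) * B.derivative, ?_, ?_⟩
    · rw [hG, derivative_mul, derivative_pow]
      simp only [derivative_add, derivative_X, derivative_one, add_zero, mul_one]
      rw [show 2*n+2-1 = 2*n+1 by omega]
      push_cast
      simp only [map_add, map_mul, map_ofNat, map_natCast]
      ring
    · refine (natDegree_add_le _ _).trans (max_le ?_ ?_)
      · refine natDegree_mul_le.trans ?_
        rw [natDegree_C, zero_add]; exact hB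
      · by_cases hz : B.natDegree = 0
        · rw [eq_C_of_natDegree_eq_zero hz]; simp
        · refine natDegree_mul_le.trans ?_
          rw [hX1]
          have := natDegree_derivative_lt hz
          omega
  obtain ⟨B2, hB2, hB2d⟩ : ∃ B2 : ℂ[X], G.derivative.derivative = (Polynomial.X + 1)^(2*n) * B2 ∧
      B2.natDegree ≤ n := by
    refine ⟨C (2*n+1 : ℂ) * B1 + (Polynomial.X + 1) * B1.derivative, ?_, ?_⟩
    · rw [hB1, derivative_mul, derivative_pow]
      simp only [derivative_add, derivative_X, derivative_one, add_zero, mul_one]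
      rw [show 2*n+1-1 = 2*n by omega]
      push_cast
      simp only [map_add, map_mul, map_ofNat, map_natCast, map_one]
      ring
    · refine (natDegree_add_le _ _).trans (max_le ?_ ?_)
      · refine natDegree_mul_le.trans ?_
        rw [natDegree_C, zero_add]; exact hB1d
      · by_cases hz : B1.natDegree = 0
        · rw [eq_C_of_natDegree_eq_zero hz]; simp
        · refine natDegree_mul_le.trans ?_
          rw [hX1]
          have := natDegree_derivative_lt hz
          omega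
  set N1 : ℂ[X] := (Polynomial.X^2 - 4) * B2 + Polynomial.X * (Polynomial.X + 1) * B1 +
    C ((3*n+1) * (3*n+2) : ℂ) * (Polynomial.X + 1)^2 * B -
    C (6*n+3 : ℂ) * (Polynomial.X + 2) * (Polynomial.X - 1) * B1 with hN1
  have hM : (Polynomial.X + 1) * ((Polynomial.X^2 - 4) * G.derivative.derivative + Polynomial.X * G.derivative +
        C ((3*n+1) * (3*n+2) : ℂ) * G) - C (6*n+3 : ℂ) * (Polynomial.X + 2) * (Polynomial.X - 1) * G.derivative =
      (Polynomial.X + 1) * ((Polynomial.X + 1)^(2*n) * N1) := by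
    rw [hB2, hB1, hG, hN1]; ring
  have hN1d : N1.natDegree ≤ n + 2 := by
    have hx2 : ((Polynomial.X^2 - 4 : ℂ[X])).natDegree ≤ 2 := by
      have : (Polynomial.X^2 - 4 : ℂ[X]) = Polynomial.X^2 - C 4 := rfl
      rw [this]; compute_degree
    have hxx : ((Polynomial.X * (Polynomial.X + 1) : ℂ[X])).natDegree ≤ 2 := by
      compute_degree
    have hx1 : ((C ((3*n+1) * (3*n+2) : ℂ) * (Polynomial.X + 1)^2 : ℂ[X])).natDegree ≤ 2 := by
      compute_degree
    have hx3 : ((C (6*n+3 : ℂ) * (Polynomial.X + 2) * (Polynomial.X - 1) : ℂ[X])).natDegree ≤ 2 := by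
      compute_degree
    rw [hN1]
    refine (natDegree_sub_le _ _).trans (max_le ((natDegree_add_le _ _).trans (max_le
      ((natDegree_add_le _ _).trans (max_le ?_ ?_)) ?_)) ?_)
    · refine natDegree_mul_le.trans ?_; omega
    · refine natDegree_mul_le.trans ?_; omega
    · refine natDegree_mul_le.trans ?_; omega
    · refine natDegree_mul_le.trans ?_; omega
  have hsym : T12Sym ((Polynomial.X + 1)^(2*n) * N1) := by
    intro x hx hx3
    have hode := lac_ode n G hGd hO x (q*x) (q^2*x) _ _ hx rfl rfl rfl rfl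
    have hx1 : q * x ≠ 0 := mul_ne_zero q_ne_zero hx
    have hx2 : q^2 * x ≠ 0 := mul_ne_zero (pow_ne_zero _ q_ne_zero) hx
    have hc1 : (q*x)^3 = x^3 := by rw [mul_pow, q_cube, one_mul]
    have hc2 : (q^2*x)^3 = x^3 := by
      rw [mul_pow, ← pow_mul, mul_comm 2 3, pow_mul, q_cube, one_pow, one_mul]
    have main : ∀ y : ℂ, y ≠ 0 → y^3 = x^3 →
        (y + y⁻¹ + 1 ≠ 0) ∧ (x^3+1) * (y - y⁻¹) * (y + y⁻¹ + 1) =
          (x^3 - 1) * (y + y⁻¹ + 2) * (y + y⁻¹ - 1) := by
      intro y hy hyx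
      constructor
      · intro h
        apply hx3
        have h1 : y^2 + y + 1 = 0 := by
          have : (y + y⁻¹ + 1) * y = 0 := by rw [h, zero_mul]
          field_simp at this
          linear_combination this
        rw [← hyx]
        linear_combination (y - 1) * h1
      · rw [← hyx]
        field_simp
        ring
    have hev : ∀ y : ℂ, y ≠ 0 → y^3 = x^3 → ∀ Y : ℂ, Y = y + y⁻¹ →
        (x^3 - 1) * ((Polynomial.X + 1)^(2*n) * N1 : ℂ[X]).eval Y =
        (x^3 - 1) * ((Y^2 - 4) * G.derivative.derivative.eval Y + Y * G.derivative.eval Y) -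
          (6*n+3) * (x^3+1) * ((y - y⁻¹) * G.derivative.eval Y) +
          (3*n+1) * (3*n+2) * (x^3-1) * G.eval Y := by
      intro y hy hyx Y hY
      obtain ⟨hne, hid⟩ := main y hy hyx
      rw [← hY] at hne hid
      have hE := congrArg (fun p : ℂ[X] => p.eval Y) hM
      have hC2 : (C 2 : ℂ[X]) = 2 := rfl
      have hC4 : (C 4 : ℂ[X]) = 4 := rfl
      rw [← hC2, ← hC4] at hE
      simp only [eval_mul, eval_add, eval_sub, eval_X, eval_pow, eval_C, eval_one] at hE
      rw [eval_mul, eval_pow, eval_add, eval_X, eval_one]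
      refine mul_left_cancel₀ hne ?_
      linear_combination (x^3 - 1) * (-hE) + (6*n+3) * G.derivative.eval Y * hid
    have h1 := hev (q*x) hx1 hc1 _ rfl
    have h2 := hev (q^2*x) hx2 hc2 _ rfl
    refine mul_left_cancel₀ (sub_ne_zero.2 hx3) ?_
    rw [h1, h2]
    linear_combination -hode
  obtain ⟨m₀, hm⟩ := T12_sym_const n N1 hN1d hsym
  refine ⟨m₀, ?_⟩
  rw [hM, hm]
  ring

end Pool.Agent.H980R2.Cont
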