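import Pool.Agent.H980R2.Cont.Defs

/-! T13: the law from the polynomial identity.

`G = (X+1)^(2n+2) Σ_{j≤n} Q_j (X+1)^j (X-2)^(n-j)`.  For `t ≠ 0, 1` put `Y = (2t+1)/(t-1)`, so `Y+1 = 3t/(t-1)`,
`Y-2 = 3/(t-1)`, `Y+2 = (4t-1)/(t-1)`, `Y-1 = (t+2)/(t-1)`, `dY/dt = -3/(t-1)²`.  With `A(t) = Σ Q_j t^j`:
`G(Y) = (3/(t-1))^(3n+2) t^(2n+2) A(t)`.  With `α(t) = (t-1) A(t)`, `K = (n+1)(2n+1)` the identity becomes (checked
by computer algebra for `n ≤ 6`)
`t²(4t-1)(t-1)² α'' + 2t(t-1)(t²-5t+1) α' + (6t² - 2K(t-1)³) α = (m₀/3)(t-1)³`, `m₀ = 6 K Q_0`.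
[Derivation: write `G(Y) = (c-2)^(n+1) a(Y)`, `c-2 = (Y-2)(Y+1)²`, `a(Y) = A(t)/(Y-2) = α(t)/3`; then the left side
of the identity divided by `(Y+1)(c-2)^(n+1)` is
`(Y²-4)a'' + Y a' + 3 (Y+2)(Y-1)/(Y+1) a' + (2 - 18K/(c-2)) a`, and the right side is `m₀/(c-2)`,
`c - 2 = 27 t²/(t-1)³`; change the variable: `a' = -(t-1)²/3 a_t`, `a'' = (t-1)^4/9 a_tt + 2(t-1)³/9 a_t`.]
Coefficients: `α = Σ α_m t^m`, `α_0 = -Q_0`, `α_m = Q_{m-1} - Q_m`; the coefficient of `t^k` is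
`2(2(k-3)²-(k-3)-K) α_{k-3} + (-9(k-2)²-3(k-2)+6+6K) α_{k-2} + 6((k-1)²+(k-1)-K) α_{k-1} + (2K-k²-k) α_k`
(terms with negative index are 0).  `k=0`: `2K α_0 = -m₀/3`.  `k = 1`: `α_1 = 0`.  `k = 2`: `(2K-6) α_2 = -6 α_0`.
`k = 3`: `(2K-12) α_3 = (6K-36) α_2`, i.e. `α_3 = 3 α_2` if `n ≥ 2`.  `k ≥ 4`: the four term recurrence, in which
`2K - k² - k = (2n+1-k)(2n+2+k) ≠ 0` for `k ≤ n+1` determines `α_k`.  The numbers `α_{s+1} = C dl n s` satisfy it:
`dl n (s+1)/dl n s = ((s+2)/s) · 2(2n+2s+3)(n-s)/((2n-s-1)(2n+s+4))`; i.e. with `α_m = m(m-1) h_m`,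
`h_{m+1} (2n-m)(2n+m+3) = 2 (2n+2m+1)(n+1-m) h_m`, and the four term relation becomes a polynomial identity
(multiply by the denominators; `field_simp; ring`). -/

namespace Pool.Agent.H980R2.Cont

open Pool.Agent.H988R2.Perc Finset Polynomial

namespace T13

theorem pw1 (c Y : ℂ) (a : ℕ) :
    (Y + c) * eval Y (derivative ((Polynomial.X + C c)^a)) = a * (Y + c)^a := by
  rcases a with _ | a
  · simp
  · rw [derivative_X_add_C_pow]
    simp
    ring

theorem pw2 (c Y : ℂ) (a : ℕ) :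
    (Y + c)^2 * eval Y (derivative (derivative ((Polynomial.X + C c)^a))) =
      a * (a - 1) * (Y + c)^a := by
  rcases a with _ | _ | a
  · simp
  · simp
  · rw [derivative_X_add_C_pow]
    simp only [derivative_mul, derivative_X_add_C_pow]
    simp
    ring

theorem g1 (Y : ℂ) (hu : Y + 1 ≠ 0) (hv : Y + (-2) ≠ 0) (a b : ℕ) :
    eval Y (derivative ((Polynomial.X + C (1:ℂ))^a * (Polynomial.X + C (-2:ℂ))^b)) =
      (a / (Y + 1) + b / (Y + (-2))) * ((Y + 1)^a * (Y + (-2))^b) := by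
  have h1 := pw1 1 Y a
  have h2 := pw1 (-2) Y b
  have h1' : eval Y (derivative ((Polynomial.X + C (1:ℂ))^a)) = a * (Y + 1)^a / (Y + 1) := by
    rw [eq_div_iff hu, mul_comm]; exact h1
  have h2' : eval Y (derivative ((Polynomial.X + C (-2:ℂ))^b)) = b * (Y + (-2))^b / (Y + (-2)) := by
    rw [eq_div_iff hv, mul_comm]; exact h2
  rw [derivative_mul, eval_add, eval_mul, eval_mul, h1', h2']
  simp only [eval_pow, eval_add, eval_X, eval_C]
  ring

theorem g2 (Y : ℂ) (hu : Y + 1 ≠ 0) (hv : Y + (-2) ≠ 0) (a b : ℕ) :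
    eval Y (derivative (derivative ((Polynomial.X + C (1:ℂ))^a * (Polynomial.X + C (-2:ℂ))^b))) =
      (a * (a - 1) / (Y + 1)^2 + 2 * a * b / ((Y + 1) * (Y + (-2))) +
        b * (b - 1) / (Y + (-2))^2) * ((Y + 1)^a * (Y + (-2))^b) := by
  have h1 := pw1 1 Y a
  have h2 := pw1 (-2) Y b
  have h3 := pw2 1 Y a
  have h4 := pw2 (-2) Y b
  have h1' : eval Y (derivative ((Polynomial.X + C (1:ℂ))^a)) = a * (Y + 1)^a / (Y + 1) := by
    rw [eq_div_iff hu, mul_comm]; exact h1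
  have h2' : eval Y (derivative ((Polynomial.X + C (-2:ℂ))^b)) = b * (Y + (-2))^b / (Y + (-2)) := by
    rw [eq_div_iff hv, mul_comm]; exact h2
  have h3' : eval Y (derivative (derivative ((Polynomial.X + C (1:ℂ))^a))) =
      a * (a - 1) * (Y + 1)^a / (Y + 1)^2 := by
    rw [eq_div_iff (pow_ne_zero _ hu), mul_comm]; exact h3
  have h4' : eval Y (derivative (derivative ((Polynomial.X + C (-2:ℂ))^b))) =
      b * (b - 1) * (Y + (-2))^b / (Y + (-2))^2 := by
    rw [eq_div_iff (pow_ne_zero _ hv), mul_comm]; exact h4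
  rw [derivative_mul, derivative_add, derivative_mul, derivative_mul]
  simp only [eval_add, eval_mul]
  rw [h1', h2', h3', h4']
  simp only [eval_pow, eval_add, eval_X, eval_C]
  field_simp
  ring

/-- the bracket of the first operator -/
theorem key (n j : ℕ) (t : ℂ) (ht0 : t ≠ 0) (ht1 : t - 1 ≠ 0) :
    let u : ℂ := 3 * t / (t - 1)
    let v : ℂ := 3 / (t - 1)
    let Y : ℂ := (2 * t + 1) / (t - 1)
    let a : ℂ := 2 * n + 2 + j
    let b : ℂ := n - j
    let c1 : ℂ := a / u + b / v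
    let c2 : ℂ := a * (a - 1) / u^2 + 2 * a * b / (u * v) + b * (b - 1) / v^2
    u * (u * ((Y^2 - 4) * c2 + Y * c1 + (3*n+1) * (3*n+2)) -
        (6*n+3) * (Y + 2) * (Y - 1) * c1) * (t-1)^3 =
      3 * ((4*t-1) * (t-1)^2 * (2*j*t + (t-1)*j*(j-1)) +
        2 * (t-1) * (t^2-5*t+1) * (t + j*(t-1)) +
        (6*t^2 - 2*((n+1)*(2*n+1))*(t-1)^3) * (t-1)) := by
  intro u v Y a b c1 c2
  simp only [u, v, Y, a, b, c1, c2]
  field_simp
  ring

/-- the bracket of the second operator -/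
noncomputable def BB (n : ℕ) (t : ℂ) (j : ℕ) : ℂ :=
  (4*t-1) * (t-1)^2 * (2*j*t + (t-1)*j*(j-1)) +
        2 * (t-1) * (t^2-5*t+1) * (t + j*(t-1)) +
        (6*t^2 - 2*((n+1)*(2*n+1))*(t-1)^3) * (t-1)

theorem al1 (t : ℂ) (ht0 : t ≠ 0) (j : ℕ) :
    eval t (derivative ((Polynomial.X - 1) * Polynomial.X^j : ℂ[X])) =
      t^j + (t - 1) * (j * t^j / t) := by
  have h1 := pw1 0 t j
  rw [C_0, add_zero, add_zero] at h1
  have h1' : eval t (derivative (Polynomial.X^j : ℂ[X])) = j * t^j / t := by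
    rw [eq_div_iff ht0, mul_comm]; exact h1
  rw [derivative_mul, eval_add, eval_mul, eval_mul, h1']
  simp

theorem al2 (t : ℂ) (ht0 : t ≠ 0) (j : ℕ) :
    eval t (derivative (derivative ((Polynomial.X - 1) * Polynomial.X^j : ℂ[X]))) =
      2 * (j * t^j / t) + (t - 1) * (j * (j - 1) * t^j / t^2) := by
  have h1 := pw1 0 t j
  have h2 := pw2 0 t j
  rw [C_0, add_zero, add_zero] at h1 h2
  have h1' : eval t (derivative (Polynomial.X^j : ℂ[X])) = j * t^j / t := by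
    rw [eq_div_iff ht0, mul_comm]; exact h1
  have h2' : eval t (derivative (derivative (Polynomial.X^j : ℂ[X]))) =
      j * (j - 1) * t^j / t^2 := by
    rw [eq_div_iff (pow_ne_zero _ ht0), mul_comm]; exact h2
  rw [derivative_mul, derivative_add, derivative_mul, derivative_mul]
  simp only [eval_add, eval_mul]
  rw [h1', h2']
  simp
  ring

end T13

open T13 in
theorem alpha_ode (n : ℕ) (Qf : ℕ → ℂ) (m₀ : ℂ) (G α : ℂ[X])
    (hG : G = (Polynomial.X + 1)^(2*n+2) * ∑ j ∈ range (n+1), C (Qf j) * (Polynomial.X + 1)^j * (Polynomial.X - 2)^(n-j))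
    (hα : α = (Polynomial.X - 1) * ∑ j ∈ range (n+1), C (Qf j) * Polynomial.X^j)
    (h : (Polynomial.X + 1) * ((Polynomial.X^2 - 4) * G.derivative.derivative + Polynomial.X * G.derivative +
        C ((3*n+1) * (3*n+2) : ℂ) * G) - C (6*n+3 : ℂ) * (Polynomial.X + 2) * (Polynomial.X - 1) * G.derivative =
      C m₀ * (Polynomial.X + 1) * ((Polynomial.X - 2) * (Polynomial.X + 1)^2)^n) :
    Polynomial.X^2 * (4 * Polynomial.X - 1) * (Polynomial.X - 1)^2 * α.derivative.derivative +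
      2 * Polynomial.X * (Polynomial.X - 1) * (Polynomial.X^2 - 5 * Polynomial.X + 1) * α.derivative +
      (6 * Polynomial.X^2 - C (2 * ((n+1) * (2*n+1)) : ℂ) * (Polynomial.X - 1)^3) * α =
      C (m₀ / 3) * (Polynomial.X - 1)^3 := by
  set Gj : ℕ → ℂ[X] := fun j => (Polynomial.X + C (1:ℂ))^(2*n+2+j) *
    (Polynomial.X + C (-2:ℂ))^(n-j) with hGj
  have hG' : G = ∑ j ∈ range (n+1), C (Qf j) * Gj j := by
    rw [hG, Finset.mul_sum]
    refine Finset.sum_congr rfl fun j _ => ?_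
    have e1 : (Polynomial.X - 2 : ℂ[X]) = Polynomial.X + C (-2) := by
      rw [C_neg, sub_eq_add_neg]; rfl
    rw [hGj, e1, C_1]
    ring
  have hα' : α = ∑ j ∈ range (n+1), C (Qf j) * ((Polynomial.X - 1) * Polynomial.X^j) := by
    rw [hα, Finset.mul_sum]
    refine Finset.sum_congr rfl fun j _ => ?_
    ring
  refine Polynomial.eq_of_infinite_eval_eq _ _ ?_
  refine Set.Infinite.mono ?_ (Set.toFinite ({0, 1} : Set ℂ)).infinite_compl
  intro t ht
  have ht0 : t ≠ 0 := fun h => ht (by simp [h])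
  have ht1 : t - 1 ≠ 0 := fun h => ht (by simp [sub_eq_zero.1 h])
  show eval t _ = eval t _
  set Y : ℂ := (2 * t + 1) / (t - 1) with hY
  have hu : Y + 1 = 3 * t / (t - 1) := by rw [hY]; field_simp; ring
  have hv : Y + (-2) = 3 / (t - 1) := by rw [hY]; field_simp; ring
  have hu0 : Y + 1 ≠ 0 := by rw [hu]; exact div_ne_zero (mul_ne_zero three_ne_zero ht0) ht1
  have hv0 : Y + (-2) ≠ 0 := by rw [hv]; exact div_ne_zero three_ne_zero ht1
  have htuv : t * (Y + (-2)) = Y + 1 := by rw [hu, hv]; field_simp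
  set W : ℂ := (Y + 1)^(2*n+1) * (Y + (-2))^n with hW
  have hW0 : W ≠ 0 := mul_ne_zero (pow_ne_zero _ hu0) (pow_ne_zero _ hv0)
  have hpow : ∀ j ∈ range (n+1), (Y + 1)^(2*n+2+j) * (Y + (-2))^(n-j) = W * (Y + 1) * t^j := by
    intro j hj
    have hjn : j ≤ n := Nat.lt_succ_iff.1 (Finset.mem_range.1 hj)
    have e1 : (Y + (-2))^n = (Y + (-2))^(n-j) * (Y + (-2))^j := by
      rw [← pow_add, Nat.sub_add_cancel hjn]
    have e2 : (Y + (-2))^j * t^j = (Y + 1)^j := by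
      rw [← mul_pow, mul_comm, htuv]
    rw [hW, e1]
    calc (Y + 1)^(2*n+2+j) * (Y + (-2))^(n-j)
        = (Y + 1)^(2*n+1) * (Y + (-2))^(n-j) * (Y + 1) * (Y + 1)^j := by ring
      _ = (Y + 1)^(2*n+1) * (Y + (-2))^(n-j) * (Y + 1) * ((Y + (-2))^j * t^j) := by rw [e2]
      _ = _ := by ring
  set c1 : ℕ → ℂ := fun j => (2 * n + 2 + j) / (Y + 1) + (n - j) / (Y + (-2)) with hc1
  set c2 : ℕ → ℂ := fun j => (2 * n + 2 + j) * ((2 * n + 2 + j) - 1) / (Y + 1)^2 +
    2 * (2 * n + 2 + j) * (n - j) / ((Y + 1) * (Y + (-2))) +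
    (n - j) * ((n - j) - 1) / (Y + (-2))^2 with hc2
  have E0 : eval Y G = ∑ j ∈ range (n+1), Qf j * (W * (Y + 1) * t^j) := by
    rw [hG', eval_finsetSum]
    refine Finset.sum_congr rfl fun j hj => ?_
    rw [eval_mul, eval_C, hGj]
    simp only [eval_mul, eval_pow, eval_add, eval_X, eval_C]
    rw [hpow j hj]
  have E1 : eval Y (derivative G) = ∑ j ∈ range (n+1), Qf j * (c1 j * (W * (Y + 1) * t^j)) := by
    rw [hG', derivative_sum, eval_finsetSum]
    refine Finset.sum_congr rfl fun j hj => ?_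
    have hjn : j ≤ n := Nat.lt_succ_iff.1 (Finset.mem_range.1 hj)
    rw [derivative_C_mul, eval_mul, eval_C, hGj]
    simp only
    rw [g1 Y hu0 hv0, hpow j hj, hc1]
    push_cast [Nat.cast_sub hjn]
    ring
  have E2 : eval Y (derivative (derivative G)) =
      ∑ j ∈ range (n+1), Qf j * (c2 j * (W * (Y + 1) * t^j)) := by
    rw [hG', derivative_sum, derivative_sum, eval_finsetSum]
    refine Finset.sum_congr rfl fun j hj => ?_
    have hjn : j ≤ n := Nat.lt_succ_iff.1 (Finset.mem_range.1 hj)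
    rw [derivative_C_mul, derivative_C_mul, eval_mul, eval_C, hGj]
    simp only
    rw [g2 Y hu0 hv0, hpow j hj, hc2]
    push_cast [Nat.cast_sub hjn]
    ring
  have hh := congrArg (eval Y) h
  simp only [eval_add, eval_mul, eval_sub, eval_pow, eval_X, eval_C, eval_one, eval_ofNat] at hh
  rw [E0, E1, E2] at hh
  have L1 : (Y + 1) * ((Y^2 - 4) * ∑ j ∈ range (n+1), Qf j * (c2 j * (W * (Y + 1) * t^j)) +
        Y * ∑ j ∈ range (n+1), Qf j * (c1 j * (W * (Y + 1) * t^j)) +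
        (3*n+1) * (3*n+2) * ∑ j ∈ range (n+1), Qf j * (W * (Y + 1) * t^j)) -
      (6*n+3) * (Y + 2) * (Y - 1) * ∑ j ∈ range (n+1), Qf j * (c1 j * (W * (Y + 1) * t^j)) =
      W * ∑ j ∈ range (n+1), Qf j * t^j * ((Y + 1) * ((Y + 1) * ((Y^2 - 4) * c2 j + Y * c1 j +
        (3*n+1) * (3*n+2)) - (6*n+3) * (Y + 2) * (Y - 1) * c1 j)) := by
    simp only [Finset.mul_sum, ← Finset.sum_add_distrib, ← Finset.sum_sub_distrib]
    refine Finset.sum_congr rfl fun j _ => ?_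
    ring
  rw [L1] at hh
  have R1 : m₀ * (Y + 1) * ((Y - 2) * (Y + 1)^2)^n = W * m₀ := by
    rw [hW]
    have : Y - 2 = Y + (-2) := by ring
    rw [this, mul_pow, ← pow_mul]
    ring
  rw [R1] at hh
  have hh2 := mul_left_cancel₀ hW0 hh
  have L2 : (∑ j ∈ range (n+1), Qf j * t^j * ((Y + 1) * ((Y + 1) * ((Y^2 - 4) * c2 j + Y * c1 j +
        (3*n+1) * (3*n+2)) - (6*n+3) * (Y + 2) * (Y - 1) * c1 j))) * (t-1)^3 =
      3 * ∑ j ∈ range (n+1), Qf j * t^j * BB n t j := by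
    rw [Finset.sum_mul, Finset.mul_sum]
    refine Finset.sum_congr rfl fun j _ => ?_
    have := key n j t ht0 ht1
    simp only at this
    rw [← hY, ← hu, ← hv] at this
    rw [mul_assoc]
    rw [hc1, hc2, BB]
    simp only
    rw [this]
    ring
  have hα0 : eval t α = ∑ j ∈ range (n+1), Qf j * ((t - 1) * t^j) := by
    rw [hα', eval_finsetSum]
    refine Finset.sum_congr rfl fun j _ => ?_
    simp
  have hα1 : eval t (derivative α) =
      ∑ j ∈ range (n+1), Qf j * (t^j + (t - 1) * (j * t^j / t)) := by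
    rw [hα', derivative_sum, eval_finsetSum]
    refine Finset.sum_congr rfl fun j _ => ?_
    rw [derivative_C_mul, eval_mul, eval_C, al1 t ht0]
  have hα2 : eval t (derivative (derivative α)) =
      ∑ j ∈ range (n+1), Qf j * (2 * (j * t^j / t) + (t - 1) * (j * (j - 1) * t^j / t^2)) := by
    rw [hα', derivative_sum, derivative_sum, eval_finsetSum]
    refine Finset.sum_congr rfl fun j _ => ?_
    rw [derivative_C_mul, derivative_C_mul, eval_mul, eval_C, al2 t ht0]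
  simp only [eval_add, eval_mul, eval_sub, eval_pow, eval_X, eval_C, eval_one, eval_ofNat]
  rw [hα0, hα1, hα2]
  have L3 : t^2 * (4*t-1) * (t-1)^2 * (∑ j ∈ range (n+1), Qf j *
        (2 * (j * t^j / t) + (t - 1) * (j * (j - 1) * t^j / t^2))) +
      2*t*(t-1)*(t^2-5*t+1) * (∑ j ∈ range (n+1), Qf j * (t^j + (t - 1) * (j * t^j / t))) +
      (6*t^2 - 2*((n+1)*(2*n+1))*(t-1)^3) * (∑ j ∈ range (n+1), Qf j * ((t - 1) * t^j)) =
      ∑ j ∈ range (n+1), Qf j * t^j * BB n t j := by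
    simp only [Finset.mul_sum, ← Finset.sum_add_distrib]
    refine Finset.sum_congr rfl fun j _ => ?_
    rw [BB]
    field_simp
  rw [L3]
  rw [hh2] at L2
  linear_combination (-1/3) * L2

end Pool.Agent.H980R2.Cont
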