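import Pool.Agent.H980R2.Cont.T13

/-! T13b: the law from the polynomial identity.

`G = (X+1)^(2n+2) Σ_{j≤n} Q_j (X+1)^j (X-2)^(n-j)`.  For `t ≠ 0, 1` put `Y = (2t+1)/(t-1)`, so `Y+1 = 3t/(t-1)`,
`Y-2 = 3/(t-1)`, `Y+2 = (4t-1)/(t-1)`, `Y-1 = (t+2)/(t-1)`, `dY/dt = -3/(t-1)²`.  With `A(t) = Σ Q_j t^j`:
`G(Y) = (3/(t-1))^(3n+2) t^(2n+2) A(t)`.  With `α(t) = (t-1) A(t)`, `K = (n+1)(2n+1)` the identity becomes (checked
by computer algebra for `n ≤ 6`)
`t²(4t-1)(t-1)² α'' + 2t(t-1)(t²-5t+1) α' + (6t² - 2K(t-1)³) α = (m₀/3)(t-1)³`, `m₀ = 6 K Q_0`.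
[Derivation: write `G(Y) = (c-2)^(n+1) a(Y)`, `c-2 = (Y-2)(Y+1)²`, `a(Y) = A(t)/(Y-2) = α(t)/3`; then the left side
of the identity divided by `(Y+1)(c-2)^(n+1)` is
`(Y²-4)a'' + Y a' + 3 (Y+2)(Y-1)/(Y+1) a' + (2 - 18K/(c-2)) a`, and the right side is `m₀/(c-2)`,
`c - 2 = 27 t²/(t-1)³`; change the variable: `a' = -(t-1)²/3 a_t`, `a'' = (t-1)^4/9 a_tt + 2(t-1)³/9 a_t`.]
Coefficients: `α = Σ α_m t^m`, `α_0 = -Q_0`, `α_m = Q_{m-1} - Q_m`; the coefficient of `t^k` is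
`2(2(k-3)²-(k-3)-K) α_{k-3} + (-9(k-2)²-3(k-2)+6+6K) α_{k-2} + 6((k-1)²+(k-1)-K) α_{k-1} + (2K-k²-k) α_k`
(terms with negative index are 0).  `k=0`: `2K α_0 = -m₀/3`.  `k = 1`: `α_1 = 0`.  `k = 2`: `(2K-6) α_2 = -6 α_0`.
`k = 3`: `(2K-12) α_3 = (6K-36) α_2`, i.e. `α_3 = 3 α_2` if `n ≥ 2`.  `k ≥ 4`: the four term recurrence, in which
`2K - k² - k = (2n+1-k)(2n+2+k) ≠ 0` for `k ≤ n+1` determines `α_k`.  The numbers `α_{s+1} = C dl n s` satisfy it:
`dl n (s+1)/dl n s = ((s+2)/s) · 2(2n+2s+3)(n-s)/((2n-s-1)(2n+s+4))`; i.e. with `α_m = m(m-1) h_m`,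
`h_{m+1} (2n-m)(2n+m+3) = 2 (2n+2m+1)(n+1-m) h_m`, and the four term relation becomes a polynomial identity
(multiply by the denominators; `field_simp; ring`). -/

namespace Pool.Agent.H980R2.Cont

section T13b_aux

open Finset Polynomial


theorem T13b_A1 (α : ℂ[X]) (k : ℕ) : (X * α.derivative).coeff k = k * α.coeff k := by
  cases k with
  | zero => simp
  | succ k => rw [coeff_X_mul, coeff_derivative]; push_cast; ring

theorem T13b_A2 (α : ℂ[X]) (k : ℕ) :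
    (X ^ 2 * α.derivative.derivative).coeff k = k * (k - 1) * α.coeff k := by
  rcases k with _ | _ | k
  · simp
  · rw [coeff_X_pow_mul']; simp
  · rw [coeff_X_pow_mul, coeff_derivative, coeff_derivative]; push_cast; ring

theorem T13b_rec (κ m₀ : ℂ) (α : ℂ[X])
    (h : Polynomial.X^2 * (4 * Polynomial.X - 1) * (Polynomial.X - 1)^2 * α.derivative.derivative +
      2 * Polynomial.X * (Polynomial.X - 1) * (Polynomial.X^2 - 5 * Polynomial.X + 1) * α.derivative +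
      (6 * Polynomial.X^2 - C κ * (Polynomial.X - 1)^3) * α =
      C (m₀ / 3) * (Polynomial.X - 1)^3) :
    (κ * α.coeff 0 = -(m₀ / 3)) ∧
    (-(3 * κ) * α.coeff 0 + (κ - 2) * α.coeff 1 = m₀) ∧
    ((6 + 3 * κ) * α.coeff 0 + (12 - 3 * κ) * α.coeff 1 + (κ - 6) * α.coeff 2 = -m₀) ∧
    (∀ j : ℕ, (2 * (2 * (j:ℂ)^2 - j) - κ) * α.coeff j +
      (-9 * ((j:ℂ)+1)^2 - 3 * (j+1) + 6 + 3 * κ) * α.coeff (j+1) +
      (6 * (((j:ℂ)+2)^2 + (j+2)) - 3 * κ) * α.coeff (j+2) +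
      (κ - ((j:ℂ)+3)^2 - (j+3)) * α.coeff (j+3) = if j = 0 then m₀ / 3 else 0) := by
  set A2 := X ^ 2 * α.derivative.derivative with hA2
  set A1 := X * α.derivative with hA1
  have e1 : C (m₀ / 3) * (X - 1 : ℂ[X]) ^ 3 = C (m₀ / 3) * X ^ 3 - C m₀ * X ^ 2 + C m₀ * X
      - C (m₀ / 3) := by
    have : C m₀ = 3 * C (m₀ / 3) := by
      have : (3 : ℂ[X]) = C 3 := (map_ofNat C 3).symm
      rw [this, ← C_mul]
      congr 1
      ring
    rw [this]
    ring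
  have h' : 4 * (X ^ 3 * A2) - 9 * (X ^ 2 * A2) + 6 * (X ^ 1 * A2) - A2 +
      (2 * (X ^ 3 * A1) - 12 * (X ^ 2 * A1) + 12 * (X ^ 1 * A1) - 2 * A1) +
      (6 * (X ^ 2 * α) - C κ * (X ^ 3 * α) + 3 * (C κ * (X ^ 2 * α)) - 3 * (C κ * (X ^ 1 * α))
        + C κ * α) = C (m₀ / 3) * X ^ 3 - C m₀ * X ^ 2 + C m₀ * X ^ 1 - C (m₀ / 3) := by
    rw [pow_one, ← e1, ← h, hA1, hA2]
    ring
  have a1 : ∀ k : ℕ, A1.coeff k = k * α.coeff k := T13b_A1 α
  have a2 : ∀ k : ℕ, A2.coeff k = k * (k - 1) * α.coeff k := T13b_A2 α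
  clear_value A1 A2
  clear hA1 hA2 h e1
  have hc : ∀ k, _ := fun k => congrArg (fun p => Polynomial.coeff p k) h'
  refine ⟨?_, ?_, ?_, ?_⟩
  · have := hc 0
    simp only [coeff_add, coeff_sub, coeff_ofNat_mul, coeff_C_mul, coeff_X_pow_mul', coeff_X_pow,
      a1, a2, coeff_C] at this
    norm_num at this
    linear_combination this
  · have := hc 1
    simp only [coeff_add, coeff_sub, coeff_ofNat_mul, coeff_C_mul, coeff_X_pow_mul', coeff_X_pow,
      a1, a2, coeff_C] at this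
    norm_num at this
    linear_combination this
  · have := hc 2
    simp only [coeff_add, coeff_sub, coeff_ofNat_mul, coeff_C_mul, coeff_X_pow_mul', coeff_X_pow,
      a1, a2, coeff_C] at this
    norm_num at this
    linear_combination this
  · intro j
    have := hc (j + 3)
    have b3 : ∀ p : ℂ[X], (X ^ 3 * p).coeff (j + 3) = p.coeff j := fun p => coeff_X_pow_mul p 3 j
    have b2 : ∀ p : ℂ[X], (X ^ 2 * p).coeff (j + 3) = p.coeff (j + 1) :=
      fun p => coeff_X_pow_mul p 2 (j + 1)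
    have b1 : ∀ p : ℂ[X], (X ^ 1 * p).coeff (j + 3) = p.coeff (j + 2) :=
      fun p => coeff_X_pow_mul p 1 (j + 2)
    simp only [coeff_add, coeff_sub, coeff_ofNat_mul, coeff_C_mul, b3, b2, b1, coeff_X_pow,
      a1, a2, coeff_C] at this
    push_cast at this
    rcases Nat.eq_zero_or_pos j with hj | hj
    · subst hj
      norm_num at this ⊢
      linear_combination this
    · have hj0 : j ≠ 0 := by omega
      simp only [hj0, if_false] at this ⊢
      linear_combination this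

/-- the ratio of consecutive weights -/
noncomputable def T13b_φ (n i : ℕ) : ℂ :=
  (2 * (2*(n:ℂ) + 2*i + 3) * ((n:ℂ) - i)) / ((2*(n:ℂ) - i - 1) * (2*n + i + 4))

/-- the product -/
noncomputable def T13b_P (n s : ℕ) : ℂ := ∏ i ∈ Icc 1 (s-1), T13b_φ n i

theorem T13b_P1 (n : ℕ) : T13b_P n 1 = 1 := by simp [T13b_P]

theorem T13b_Ps (n s : ℕ) (hs : 1 ≤ s) : T13b_P n (s + 1) = T13b_P n s * T13b_φ n s := by
  unfold T13b_P
  obtain ⟨t, rfl⟩ : ∃ t, s = t + 1 := ⟨s - 1, by omega⟩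
  rw [Nat.add_sub_cancel, Nat.add_sub_cancel, Finset.prod_Icc_succ_top (by omega)]

theorem T13b_dl (n s : ℕ) : (dl n s : ℂ) = s * (s + 1) * T13b_P n s := by
  unfold dl T13b_P T13b_φ
  push_cast
  rfl

/-- the four term relation, rational form -/
theorem T13b_rat (x y p : ℂ) (c1 : x + 2 * y + 5 ≠ 0) (c2 : 3 * x + 2 * y + 10 ≠ 0)
    (c3 : x + 2 * y + 4 ≠ 0) (c4 : 3 * x + 2 * y + 11 ≠ 0)
    (c5 : x + 2 * y + 3 ≠ 0) (c6 : 3 * x + 2 * y + 12 ≠ 0) (κ : ℂ)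
    (hκ : κ = 2 * ((x + 3 + y) + 1) * (2 * (x + 3 + y) + 1)) :
    (2 * (2 * (x+1)^2 - (x+1)) - κ) * (x * (x + 1) * p) +
      (-9 * (x+2)^2 - 3 * (x+2) + 6 + 3 * κ)
        * ((x + 1) * (x + 2) * (p * ((2 * (4 * x + 2 * y + 9) * (y + 3)) /
      ((x + 2 * y + 5) * (3 * x + 2 * y + 10))))) +
      (6 * ((x+3)^2 + (x+3)) - 3 * κ)
        * ((x + 2) * (x + 3) * (p * ((2 * (4 * x + 2 * y + 9) * (y + 3)) /
      ((x + 2 * y + 5) * (3 * x + 2 * y + 10))) * ((2 * (4 * x + 2 * y + 11) * (y + 2)) /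
      ((x + 2 * y + 4) * (3 * x + 2 * y + 11))))) +
      (κ - (x+4)^2 - (x+4))
        * ((x + 3) * (x + 4) * (p * ((2 * (4 * x + 2 * y + 9) * (y + 3)) /
      ((x + 2 * y + 5) * (3 * x + 2 * y + 10))) * ((2 * (4 * x + 2 * y + 11) * (y + 2)) /
      ((x + 2 * y + 4) * (3 * x + 2 * y + 11))) * ((2 * (4 * x + 2 * y + 13) * (y + 1)) /
      ((x + 2 * y + 3) * (3 * x + 2 * y + 12))))) = 0 := by
  have g1 : (x + 2 * y + 5) * (3 * x + 2 * y + 10) ≠ 0 := mul_ne_zero c1 c2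
  have g2 : (x + 2 * y + 4) * (3 * x + 2 * y + 11) ≠ 0 := mul_ne_zero c3 c4
  have g3 : (x + 2 * y + 3) * (3 * x + 2 * y + 12) ≠ 0 := mul_ne_zero c5 c6
  have h1 : (2 * (4 * x + 2 * y + 9) * (y + 3)) / ((x + 2 * y + 5) * (3 * x + 2 * y + 10))
      * ((x + 2 * y + 5) * (3 * x + 2 * y + 10)) = 2 * (4 * x + 2 * y + 9) * (y + 3) :=
    div_mul_cancel₀ _ g1
  have h2 : (2 * (4 * x + 2 * y + 11) * (y + 2)) / ((x + 2 * y + 4) * (3 * x + 2 * y + 11))
      * ((x + 2 * y + 4) * (3 * x + 2 * y + 11)) = 2 * (4 * x + 2 * y + 11) * (y + 2) :=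
    div_mul_cancel₀ _ g2
  have h3 : (2 * (4 * x + 2 * y + 13) * (y + 1)) / ((x + 2 * y + 3) * (3 * x + 2 * y + 12))
      * ((x + 2 * y + 3) * (3 * x + 2 * y + 12)) = 2 * (4 * x + 2 * y + 13) * (y + 1) :=
    div_mul_cancel₀ _ g3
  generalize (2 * (4 * x + 2 * y + 9) * (y + 3)) / ((x + 2 * y + 5) * (3 * x + 2 * y + 10)) = r1
    at h1 ⊢
  generalize (2 * (4 * x + 2 * y + 11) * (y + 2)) / ((x + 2 * y + 4) * (3 * x + 2 * y + 11)) = r2
    at h2 ⊢
  generalize (2 * (4 * x + 2 * y + 13) * (y + 1)) / ((x + 2 * y + 3) * (3 * x + 2 * y + 12)) = r3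
    at h3 ⊢
  apply mul_left_cancel₀ (mul_ne_zero g1 g2)
  rw [mul_zero, hκ]
  linear_combination ((-9 * (x+2)^2 - 3 * (x+2) + 6 + 3 *
      (2 * ((x + 3 + y) + 1) * (2 * (x + 3 + y) + 1))) * ((x + 1) * (x + 2) * p) *
      ((x + 2 * y + 4) * (3 * x + 2 * y + 11)) +
      (6 * ((x+3)^2 + (x+3)) - 3 * (2 * ((x + 3 + y) + 1) * (2 * (x + 3 + y) + 1))) *
      ((x + 2) * (x + 3) * p) * (r2 * ((x + 2 * y + 4) * (3 * x + 2 * y + 11))) +
      (x + 3) * (x + 4) * p * (r2 * ((x + 2 * y + 4) * (3 * x + 2 * y + 11))) *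
      (r3 * ((x + 2 * y + 3) * (3 * x + 2 * y + 12)))) * h1 +
    ((6 * ((x+3)^2 + (x+3)) - 3 * (2 * ((x + 3 + y) + 1) * (2 * (x + 3 + y) + 1))) *
      ((x + 2) * (x + 3) * p) * (2 * (4 * x + 2 * y + 9) * (y + 3)) +
      (x + 3) * (x + 4) * p * (2 * (4 * x + 2 * y + 9) * (y + 3)) *
      (r3 * ((x + 2 * y + 3) * (3 * x + 2 * y + 12)))) * h2 +
    ((x + 3) * (x + 4) * p * (2 * (4 * x + 2 * y + 9) * (y + 3)) *
      (2 * (4 * x + 2 * y + 11) * (y + 2))) * h3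

/-- the four term relation -/
theorem T13b_four (j m : ℕ) (p κ : ℂ)
    (hκ : κ = 2 * ((((j + 3 + m : ℕ):ℂ) + 1) * (2 * ((j + 3 + m : ℕ):ℂ) + 1))) :
    (2 * (2 * ((j:ℂ)+1)^2 - (j+1)) - κ) * (j * (j + 1) * p) +
      (-9 * ((j:ℂ)+2)^2 - 3 * (j+2) + 6 + 3 * κ) *
        ((j + 1) * (j + 2) * (p * T13b_φ (j + 3 + m) j)) +
      (6 * (((j:ℂ)+3)^2 + (j+3)) - 3 * κ) *
        ((j + 2) * (j + 3) * (p * T13b_φ (j + 3 + m) j * T13b_φ (j + 3 + m) (j + 1))) +
      (κ - ((j:ℂ)+4)^2 - (j+4)) *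
        ((j + 3) * (j + 4) * (p * T13b_φ (j + 3 + m) j * T13b_φ (j + 3 + m) (j + 1)
          * T13b_φ (j + 3 + m) (j + 2))) = 0 := by
  have c1 : ((j + 2 * m + 5 : ℕ) : ℂ) ≠ 0 := Nat.cast_ne_zero.2 (by omega)
  have c2 : ((3 * j + 2 * m + 10 : ℕ) : ℂ) ≠ 0 := Nat.cast_ne_zero.2 (by omega)
  have c3 : ((j + 2 * m + 4 : ℕ) : ℂ) ≠ 0 := Nat.cast_ne_zero.2 (by omega)
  have c4 : ((3 * j + 2 * m + 11 : ℕ) : ℂ) ≠ 0 := Nat.cast_ne_zero.2 (by omega)
  have c5 : ((j + 2 * m + 3 : ℕ) : ℂ) ≠ 0 := Nat.cast_ne_zero.2 (by omega)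
  have c6 : ((3 * j + 2 * m + 12 : ℕ) : ℂ) ≠ 0 := Nat.cast_ne_zero.2 (by omega)
  push_cast at c1 c2 c3 c4 c5 c6
  have f1 : T13b_φ (j + 3 + m) j = (2 * (4 * (j:ℂ) + 2 * m + 9) * (m + 3)) /
      (((j:ℂ) + 2 * m + 5) * (3 * j + 2 * m + 10)) := by
    unfold T13b_φ
    push_cast
    congr 1 <;> ring
  have f2 : T13b_φ (j + 3 + m) (j + 1) = (2 * (4 * (j:ℂ) + 2 * m + 11) * (m + 2)) /
      (((j:ℂ) + 2 * m + 4) * (3 * j + 2 * m + 11)) := by
    unfold T13b_φ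
    push_cast
    congr 1 <;> ring
  have f3 : T13b_φ (j + 3 + m) (j + 2) = (2 * (4 * (j:ℂ) + 2 * m + 13) * (m + 1)) /
      (((j:ℂ) + 2 * m + 3) * (3 * j + 2 * m + 12)) := by
    unfold T13b_φ
    push_cast
    congr 1 <;> ring
  rw [f1, f2, f3]
  apply T13b_rat (j : ℂ) (m : ℂ) p c1 c2 c3 c4 c5 c6 κ
  rw [hκ]
  push_cast
  ring


theorem T13b_φ_ne (n j : ℕ) (hj : j + 1 ≤ n) : T13b_φ n j ≠ 0 := by
  obtain ⟨m, rfl⟩ : ∃ m, n = j + 1 + m := ⟨n - (j + 1), by omega⟩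
  unfold T13b_φ
  have c1 : ((j + 2 * m + 1 : ℕ) : ℂ) ≠ 0 := Nat.cast_ne_zero.2 (by omega)
  have c2 : ((3 * j + 2 * m + 6 : ℕ) : ℂ) ≠ 0 := Nat.cast_ne_zero.2 (by omega)
  have c3 : ((4 * j + 2 * m + 5 : ℕ) : ℂ) ≠ 0 := Nat.cast_ne_zero.2 (by omega)
  have c4 : ((m + 1 : ℕ) : ℂ) ≠ 0 := Nat.cast_ne_zero.2 (by omega)
  push_cast at c1 c2 c3 c4 ⊢
  apply div_ne_zero
  · apply mul_ne_zero
    · apply mul_ne_zero (by norm_num)
      convert c3 using 1
      ring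
    · convert c4 using 1
      ring
  · apply mul_ne_zero
    · convert c1 using 1
      ring
    · convert c2 using 1
      ring

theorem T13b_main (n : ℕ) (hn : 1 ≤ n) (m₀ : ℂ) (α : ℂ[X])
    (h : Polynomial.X^2 * (4 * Polynomial.X - 1) * (Polynomial.X - 1)^2 * α.derivative.derivative +
      2 * Polynomial.X * (Polynomial.X - 1) * (Polynomial.X^2 - 5 * Polynomial.X + 1) * α.derivative +
      (6 * Polynomial.X^2 - C (2 * ((n+1) * (2*n+1)) : ℂ) * (Polynomial.X - 1)^3) * α =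
      C (m₀ / 3) * (Polynomial.X - 1)^3) :
    ∀ s, s ≤ n → α.coeff (s + 1) = α.coeff 2 / 2 * (dl n s : ℂ) := by
  set κ : ℂ := 2 * ((n+1) * (2*n+1)) with hκ
  obtain ⟨e0, e1, -, e3⟩ := T13b_rec κ m₀ α h
  set c := α.coeff 2 / 2 with hc
  have hα1 : α.coeff 1 = 0 := by
    have h1 : (κ - 2) * α.coeff 1 = 0 := by linear_combination e1 + 3 * e0
    have h2 : κ - 2 ≠ 0 := by
      have : ((2 * (n * (2 * n + 3)) : ℕ) : ℂ) ≠ 0 := by
        apply Nat.cast_ne_zero.2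
        have : 0 < n * (2 * n + 3) := Nat.mul_pos (by omega) (by omega)
        omega
      rw [hκ]
      intro h0
      apply this
      push_cast
      linear_combination h0
    exact (mul_eq_zero.1 h1).resolve_left h2
  intro s
  induction s using Nat.strong_induction_on with
  | _ s ih =>
    intro hs
    rw [T13b_dl]
    rcases s with _ | _ | _ | j
    · simp [hα1]
    · rw [show 0 + 1 = 1 from rfl, T13b_P1, hc]; push_cast; ring
    · rw [show 0 + 1 + 1 = 1 + 1 from rfl, T13b_Ps n 1 le_rfl, T13b_P1]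
      have h3 := e3 0
      rw [if_pos rfl] at h3
      have h4 : (κ - 12) * (α.coeff 3 - 3 * α.coeff 2) = 0 := by
        simp only [zero_add, Nat.cast_zero, hα1] at h3
        linear_combination h3 + e0
      have h5 : κ - 12 ≠ 0 := by
        obtain ⟨m, rfl⟩ : ∃ m, n = m + 2 := ⟨n - 2, by omega⟩
        have : ((4 * m ^ 2 + 22 * m + 18 : ℕ) : ℂ) ≠ 0 := Nat.cast_ne_zero.2 (by omega)
        rw [hκ]
        intro h0
        apply this
        push_cast at h0 ⊢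
        linear_combination h0
      have h6 := (mul_eq_zero.1 h4).resolve_left h5
      have h7 : T13b_φ n 1 = 1 := by
        obtain ⟨m, rfl⟩ : ∃ m, n = m + 2 := ⟨n - 2, by omega⟩
        unfold T13b_φ
        have c1 : ((2 * m + 2 : ℕ) : ℂ) ≠ 0 := Nat.cast_ne_zero.2 (by omega)
        have c2 : ((2 * m + 9 : ℕ) : ℂ) ≠ 0 := Nat.cast_ne_zero.2 (by omega)
        push_cast at c1 c2 ⊢
        rw [div_eq_one_iff_eq]
        · ring
        · apply mul_ne_zero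
          · convert c1 using 1
            ring
          · convert c2 using 1
            ring
      rw [h7, hc]
      push_cast
      linear_combination h6
    · obtain ⟨m, hm⟩ : ∃ m, n = j + 3 + m := ⟨n - (j + 3), by omega⟩
      have hφ := T13b_φ_ne n j (by omega)
      have i0 := ih j (by omega) (by omega)
      have i1 := ih (j + 1) (by omega) (by omega)
      have i2 := ih (j + 2) (by omega) (by omega)
      rw [T13b_dl] at i0 i1 i2
      rw [T13b_Ps n (j + 1) (by omega)] at i2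
      set p := c * T13b_P n (j + 1) / T13b_φ n j with hp
      have hpφ : c * T13b_P n (j + 1) = p * T13b_φ n j := by
        rw [hp, div_mul_cancel₀ _ hφ]
      have i0' : α.coeff (j + 1) = j * (j + 1) * p := by
        rcases Nat.eq_zero_or_pos j with hj | hj
        · rw [i0, hj]; simp
        · rw [i0]
          have : c * T13b_P n j = p := by
            have h1 : (c * T13b_P n j) * T13b_φ n j = p * T13b_φ n j := by
              rw [← hpφ, T13b_Ps n j hj]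
              ring
            exact mul_right_cancel₀ hφ h1
          linear_combination (j * (j + 1)) * this
      have i1' : α.coeff (j + 2) = (j + 1) * (j + 2) * (p * T13b_φ n j) := by
        rw [← hpφ]
        push_cast at i1
        rw [show j + 1 + 1 = j + 2 from rfl] at i1
        linear_combination i1
      have i2' : α.coeff (j + 3) = (j + 2) * (j + 3) * (p * T13b_φ n j * T13b_φ n (j + 1)) := by
        rw [← hpφ]
        push_cast at i2
        rw [show j + 2 + 1 = j + 3 from rfl] at i2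
        linear_combination i2
      have hfour := T13b_four j m p κ (by rw [hκ, ← hm])
      rw [← hm] at hfour
      have h3 := e3 (j + 1)
      rw [if_neg (by omega)] at h3
      rw [show j + 1 + 1 = j + 2 from rfl, show j + 1 + 2 = j + 3 from rfl,
        show j + 1 + 3 = j + 4 from rfl, i0', i1', i2'] at h3
      push_cast at h3
      have h4 : (κ - ((j:ℂ)+4)^2 - (j+4)) * (α.coeff (j + 4) - (j + 3) * (j + 4) *
          (p * T13b_φ n j * T13b_φ n (j + 1) * T13b_φ n (j + 2))) = 0 := by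
        linear_combination h3 - hfour
      have h5 : κ - ((j:ℂ)+4)^2 - (j+4) ≠ 0 := by
        have c5 : ((j + 2 * m + 3 : ℕ) : ℂ) ≠ 0 := Nat.cast_ne_zero.2 (by omega)
        have c6 : ((3 * j + 2 * m + 12 : ℕ) : ℂ) ≠ 0 := Nat.cast_ne_zero.2 (by omega)
        have c7 := mul_ne_zero c5 c6
        intro h0
        apply c7
        rw [hκ, hm] at h0
        push_cast at h0 ⊢
        linear_combination h0
      have h6 := (mul_eq_zero.1 h4).resolve_left h5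
      rw [show j + 1 + 1 + 1 + 1 = j + 4 from rfl, show j + 1 + 1 + 1 = j + 2 + 1 from rfl,
        T13b_Ps n (j + 2) (by omega), show j + 2 = j + 1 + 1 from rfl,
        T13b_Ps n (j + 1) (by omega)]
      rw [show j + 1 + 1 = j + 2 from rfl]
      push_cast
      linear_combination h6 - ((j + 3) * (j + 4) * T13b_φ n (j + 1) * T13b_φ n (j + 2)) * hpφ

end T13b_aux

open Pool.Agent.H988R2.Perc Finset Polynomial

theorem law_of_alpha (n : ℕ) (hn : 1 ≤ n) (Qf : ℕ → ℂ) (hQ : Qf (n+1) = 0) (m₀ : ℂ) (α : ℂ[X])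
    (hα : α = (Polynomial.X - 1) * ∑ j ∈ range (n+1), C (Qf j) * Polynomial.X^j)
    (h : Polynomial.X^2 * (4 * Polynomial.X - 1) * (Polynomial.X - 1)^2 * α.derivative.derivative +
      2 * Polynomial.X * (Polynomial.X - 1) * (Polynomial.X^2 - 5 * Polynomial.X + 1) * α.derivative +
      (6 * Polynomial.X^2 - C (2 * ((n+1) * (2*n+1)) : ℂ) * (Polynomial.X - 1)^3) * α =
      C (m₀ / 3) * (Polynomial.X - 1)^3) :
    ∃ c : ℂ, ∀ s ≤ n, Qf s - Qf (s+1) = c * (dl n s : ℂ) := by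
  refine ⟨α.coeff 2 / 2, fun s hs => ?_⟩
  rw [← T13b_main n hn m₀ α h s hs, hα]
  have hS : ∀ k, k ≤ n + 1 → (∑ j ∈ range (n+1), C (Qf j) * (Polynomial.X : ℂ[X])^j).coeff k = Qf k := by
    intro k hk
    rw [Polynomial.finsetSum_coeff]
    simp only [Polynomial.coeff_C_mul, Polynomial.coeff_X_pow]
    rcases Nat.lt_or_ge k (n + 1) with hk1 | hk1
    · rw [Finset.sum_eq_single k]
      · simp
      · intro b _ hb
        rw [if_neg (Ne.symm hb), mul_zero]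
      · intro hk2
        exact absurd (Finset.mem_range.2 hk1) hk2
    · have : k = n + 1 := by omega
      rw [this, hQ]
      apply Finset.sum_eq_zero
      intro b hb
      rw [if_neg, mul_zero]
      have := Finset.mem_range.1 hb
      omega
  rw [sub_mul, one_mul, Polynomial.coeff_sub, Polynomial.coeff_X_mul, hS s (by omega),
    hS (s + 1) (by omega)]

theorem law_of_identity (n : ℕ) (hn : 1 ≤ n) (Qf : ℕ → ℂ) (hQ : Qf (n+1) = 0) (m₀ : ℂ) (G : ℂ[X])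
    (hG : G = (Polynomial.X + 1)^(2*n+2) * ∑ j ∈ range (n+1), C (Qf j) * (Polynomial.X + 1)^j * (Polynomial.X - 2)^(n-j))
    (h : (Polynomial.X + 1) * ((Polynomial.X^2 - 4) * G.derivative.derivative + Polynomial.X * G.derivative +
        C ((3*n+1) * (3*n+2) : ℂ) * G) - C (6*n+3 : ℂ) * (Polynomial.X + 2) * (Polynomial.X - 1) * G.derivative =
      C m₀ * (Polynomial.X + 1) * ((Polynomial.X - 2) * (Polynomial.X + 1)^2)^n) :
    ∃ c : ℂ, ∀ s ≤ n, Qf s - Qf (s+1) = c * (dl n s : ℂ) :=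
  law_of_alpha n hn Qf hQ m₀ _ rfl (alpha_ode n Qf m₀ G _ hG rfl h)

end Pool.Agent.H980R2.Cont
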