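import Pool.Agent.H980R2.Cont.T10b
import Pool.Agent.H980R2.Cont.T10
import Pool.Agent.H980R2.Cont.T12
import Pool.Agent.H980R2.Cont.T13b

/-! T14: the law of the outermost arcs.

`Q n (n+1) = 0` (`ret w ≤ n+1` for Dyck words of length `2n+2`, T01 `ret_le`; `zn n` has length `2n+2`).
T10, T12 (`B = Σ C (Q n j) (X+1)^j (X-2)^(n-j)`), T13 give `Q n s - Q n (s+1) = c dl n s`, hence
`Q n k = c Σ_{s=k}^n dl n s = c tl n k` (`k ≤ n`); sum over `k`: `Σ_{k ≤ n} Q n k = Z (zn n)` (`lin_one`, `1 ≤ ret w ≤ n+1`)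
so `Z (zn n) = c tot n`.  `Z (zn n) ≠ 0` and `tot n > 0` are in T15. -/

namespace Pool.Agent.H980R2.Cont

open Pool.Agent.H988R2.Perc Pool.Agent.H980R2.Cross Finset

theorem T14_length_zn (n : ℕ) : (zn n).length = 2 * n + 2 := by
  simp [zn]

theorem sum_Q (n : ℕ) : ∑ j ∈ range (n+1), Q n j = Z (zn n) := by
  rw [← lin_one]
  unfold Q lin
  rw [Finset.sum_comm]
  refine Finset.sum_congr rfl fun w hw => ?_
  obtain ⟨hl, hd⟩ := mem_LP.1 hw
  rw [T14_length_zn] at hl
  rw [← Finset.sum_mul]
  congr 1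
  have h1 : 1 ≤ ret w := ret_pos hd (by rintro rfl; simp at hl)
  have h2 : 2 * ret w ≤ 2 * n + 2 := hl ▸ ret_le hd
  rw [Finset.sum_eq_single (ret w - 1)]
  · exact if_pos (by omega)
  · intro b _ hb
    exact if_neg (by omega)
  · intro h
    exact absurd (Finset.mem_range.2 (by omega)) h

theorem T14_Q_top (n : ℕ) : Q n (n+1) = 0 := by
  unfold Q
  rw [lin_congr (G := fun _ => 0), lin_zero]
  intro w hw hl
  rw [T14_length_zn] at hl
  have h2 : 2 * ret w ≤ 2 * n + 2 := hl ▸ ret_le hw
  rw [if_neg (by omega)]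

open Polynomial in
theorem T14_law (n : ℕ) (hn : 1 ≤ n) :
    ∃ c : ℂ, ∀ s ≤ n, Q n s - Q n (s+1) = c * (dl n s : ℂ) := by
  set B : ℂ[X] := ∑ j ∈ range (n+1), C (Q n j) * (Polynomial.X + 1)^j * (Polynomial.X - 2)^(n-j)
    with hBdef
  have hB : B.natDegree ≤ n := by
    rw [hBdef]
    refine Polynomial.natDegree_sum_le_of_forall_le _ _ fun j hj => ?_
    have hj' : j ≤ n := by
      have := Finset.mem_range.1 hj
      omega
    have e1 : ((Polynomial.X + 1 : ℂ[X])^j).natDegree ≤ j := by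
      refine (Polynomial.natDegree_pow_le).trans ?_
      have : (Polynomial.X + 1 : ℂ[X]).natDegree ≤ 1 := by
        have := Polynomial.natDegree_X_add_C (1 : ℂ)
        rw [map_one] at this
        exact this.le
      nlinarith
    have e2 : ((Polynomial.X - 2 : ℂ[X])^(n-j)).natDegree ≤ n - j := by
      refine (Polynomial.natDegree_pow_le).trans ?_
      have : (Polynomial.X - 2 : ℂ[X]).natDegree ≤ 1 := by
        have := Polynomial.natDegree_X_sub_C (2 : ℂ)
        have e : (C (2 : ℂ) : ℂ[X]) = 2 := map_ofNat C 2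
        rw [e] at this
        exact this.le
      nlinarith
    calc (C (Q n j) * (Polynomial.X + 1)^j * (Polynomial.X - 2)^(n-j)).natDegree
        ≤ (C (Q n j) * (Polynomial.X + 1)^j).natDegree +
          ((Polynomial.X - 2 : ℂ[X])^(n-j)).natDegree := Polynomial.natDegree_mul_le
      _ ≤ j + (n - j) := by
          refine add_le_add ?_ e2
          exact (Polynomial.natDegree_C_mul_le _ _).trans e1
      _ = n := by omega
  set G : ℂ[X] := (Polynomial.X + 1)^(2*n+2) * B with hG
  have hev : ∀ y : ℂ, G.eval y = GG n y := by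
    intro y
    rw [hG, hBdef, GG]
    simp [Polynomial.eval_finsetSum]
  obtain ⟨m₀, hm⟩ := M_identity n B hB G hG (by simpa only [hev] using GG_bigO n)
  exact law_of_identity n hn (Q n) (T14_Q_top n) m₀ G hG hm

theorem Q_tail (n : ℕ) (hn : 1 ≤ n) :
    ∃ c : ℂ, (∀ k ≤ n, Q n k = c * (tl n k : ℂ)) ∧ Z (zn n) = c * (tot n : ℂ) := by
  obtain ⟨c, hc⟩ := T14_law n hn
  have main : ∀ d k, k + d = n + 1 → Q n k = c * (tl n k : ℂ) := by
    intro d
    induction d with
    | zero =>
      intro k hk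
      have : k = n + 1 := by omega
      subst this
      rw [T14_Q_top]
      simp [tl]
    | succ d ih =>
      intro k hk
      have h1 := hc k (by omega)
      have h2 := ih (k+1) (by omega)
      have h3 : tl n k = dl n k + tl n (k+1) := by
        unfold tl
        rw [← Finset.add_sum_Ioc_eq_sum_Icc (by omega : k ≤ n)]
        congr 1
        refine Finset.sum_congr ?_ fun _ _ => rfl
        ext i
        simp only [Finset.mem_Ioc, Finset.mem_Icc]
        omega
      rw [h3]
      push_cast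
      rw [mul_add, ← h2, ← h1]
      ring
  have hQ : ∀ k ≤ n, Q n k = c * (tl n k : ℂ) := fun k hk => main (n + 1 - k) k (by omega)
  refine ⟨c, hQ, ?_⟩
  rw [← sum_Q]
  unfold tot
  push_cast
  rw [Finset.mul_sum]
  refine Finset.sum_congr rfl fun k hk => hQ k ?_
  have := Finset.mem_range.1 hk
  omega

end Pool.Agent.H980R2.Cont
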