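import Pool.Agent.H980R2.Cont.Defs
import Pool.Agent.H988R2.Perc.T21
import Pool.Agent.H988R2.Perc.T14

/-! T16: the shift of states and the generators.

`St.act i` joins the faces `i`, `i+2` and isolates `i+1`; only odd faces matter (for even `i` it only isolates the
odd face `i+1`: `St.odd`).  `sh_phi`: for a Dyck word `w` of length `2m` and even `b ≤ 2m`, the odd face `b+1` of
`ext w` is joined to the face `2m+1` iff the prefix of length `b` of `w` is balanced; induction on `Dyck w`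
(`ins i w`: `ext (ins i w) = ins (i+1) (ext w)`, `Phi_ins`: `Phi (n+1) (ins i w) = St.ins i (Phi n w)`, see
`H988R2.Perc.T14`; `ret`/`bal` of `ins`: heights). -/

namespace Pool.Agent.H980R2.Cont

open Pool.Agent.H988R2.Perc Pool.Agent.H980R2.Cross Finset

namespace T16

theorem sh_left (R : St) (a x : ℕ) (ha : a % 2 = 1) : (sh R).rel a x ↔ R.rel (a+2) (x+2) := by
  constructor
  · rintro (h | ⟨_, _, h⟩)
    · subst h; exact R.eqv.refl _
    · exact h
  · intro h
    rcases R.odd _ _ h with h1 | ⟨h1, h2⟩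
    · left; omega
    · right; exact ⟨ha, by omega, h⟩

theorem sh_right (R : St) (a x : ℕ) (hx : x % 2 = 1) : (sh R).rel a x ↔ R.rel (a+2) (x+2) := by
  constructor
  · rintro (h | ⟨_, _, h⟩)
    · subst h; exact R.eqv.refl _
    · exact h
  · intro h
    rcases R.odd _ _ h with h1 | ⟨h1, h2⟩
    · left; omega
    · right; exact ⟨by omega, hx, h⟩

theorem st_ext {R R' : St} (h : ∀ a b, a % 2 = 1 → b % 2 = 1 → (R.rel a b ↔ R'.rel a b)) :
    R = R' := by
  apply St.ext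
  funext a b
  apply propext
  constructor
  · intro hr
    rcases R.odd _ _ hr with h1 | ⟨h1, h2⟩
    · subst h1; exact R'.eqv.refl _
    · exact (h a b h1 h2).1 hr
  · intro hr
    rcases R'.odd _ _ hr with h1 | ⟨h1, h2⟩
    · subst h1; exact R.eqv.refl _
    · exact (h a b h1 h2).2 hr

end T16

open T16

theorem sh_act (i : ℕ) (R : St) : sh (St.act (i+2) R) = St.act i (sh R) := by
  apply st_ext
  intro a b ha hb
  rw [sh_left _ _ _ ha]
  show (a + 2 = b + 2 ∨ ((a+2) % 2 = 1 ∧ (b+2) % 2 = 1 ∧ a+2 ≠ i+2+1 ∧ b+2 ≠ i+2+1 ∧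
    (R.rel (a+2) (b+2) ∨ (R.rel (a+2) (i+2) ∧ R.rel (i+2+2) (b+2)) ∨
      (R.rel (a+2) (i+2+2) ∧ R.rel (i+2) (b+2))))) ↔
    (a = b ∨ (a % 2 = 1 ∧ b % 2 = 1 ∧ a ≠ i+1 ∧ b ≠ i+1 ∧
    ((sh R).rel a b ∨ ((sh R).rel a i ∧ (sh R).rel (i+2) b) ∨
      ((sh R).rel a (i+2) ∧ (sh R).rel i b))))
  rw [sh_left R a b ha, sh_left R a i ha, sh_left R a (i+2) ha, sh_right R (i+2) b hb,
    sh_right R i b hb]
  constructor
  · rintro (h | ⟨_, _, h3, h4, h5⟩)
    · left; omega
    · right; exact ⟨ha, hb, by omega, by omega, h5⟩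
  · rintro (h | ⟨_, _, h3, h4, h5⟩)
    · left; omega
    · right; exact ⟨by omega, by omega, by omega, by omega, h5⟩

theorem sh_ins (R : St) : sh (St.ins 2 R) = St.ins 0 (sh R) := by
  apply st_ext
  intro a b ha hb
  rw [sh_left _ _ _ ha]
  show (a + 2 = b + 2 ∨ ((a+2) % 2 = 1 ∧ (b+2) % 2 = 1 ∧ a+2 ≠ 2+1 ∧ b+2 ≠ 2+1 ∧
    R.rel (St.low 2 (a+2)) (St.low 2 (b+2)))) ↔
    (a = b ∨ (a % 2 = 1 ∧ b % 2 = 1 ∧ a ≠ 0+1 ∧ b ≠ 0+1 ∧
    (sh R).rel (St.low 0 a) (St.low 0 b)))
  have e1 : St.low 2 (a+2) = a := by unfold St.low; rw [if_neg (by omega)]; omega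
  have e2 : St.low 2 (b+2) = b := by unfold St.low; rw [if_neg (by omega)]; omega
  have e3 : St.low 0 a = a - 2 := by unfold St.low; rw [if_neg (by omega)]
  have e4 : St.low 0 b = b - 2 := by unfold St.low; rw [if_neg (by omega)]
  rw [e1, e2, e3, e4]
  constructor
  · rintro (h | ⟨_, _, h3, h4, h5⟩)
    · left; omega
    · right
      refine ⟨ha, hb, by omega, by omega, ?_⟩
      rw [sh_left R _ _ (by omega), show a - 2 + 2 = a by omega, show b - 2 + 2 = b by omega]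
      exact h5
  · rintro (h | ⟨_, _, h3, h4, h5⟩)
    · left; omega
    · right
      rw [sh_left R _ _ (by omega), show a - 2 + 2 = a by omega, show b - 2 + 2 = b by omega] at h5
      exact ⟨by omega, by omega, by omega, by omega, h5⟩

theorem sh_cap (R : St) : sh (St.cap 2 R) = St.cap 0 (sh R) := by
  apply st_ext
  intro a b ha hb
  rw [sh_left _ _ _ ha]
  show (St.act 2 R).rel (St.up 2 (a+2)) (St.up 2 (b+2)) ↔
    (St.act 0 (sh R)).rel (St.up 0 a) (St.up 0 b)
  have e1 : St.up 2 (a+2) = a + 2 + 2 := by unfold St.up; rw [if_neg (by omega)]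
  have e2 : St.up 2 (b+2) = b + 2 + 2 := by unfold St.up; rw [if_neg (by omega)]
  have e3 : St.up 0 a = a + 2 := by unfold St.up; rw [if_neg (by omega)]
  have e4 : St.up 0 b = b + 2 := by unfold St.up; rw [if_neg (by omega)]
  rw [e1, e2, e3, e4, ← sh_act 0 R, sh_left _ _ _ (by omega)]

end Pool.Agent.H980R2.Cont
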