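import Pool.Agent.H980R2.Cont.T16

/-! T16b: the shift of states and the generators.

`St.act i` joins the faces `i`, `i+2` and isolates `i+1`; only odd faces matter (for even `i` it only isolates the
odd face `i+1`: `St.odd`).  `sh_phi`: for a Dyck word `w` of length `2m` and even `b ≤ 2m`, the odd face `b+1` of
`ext w` is joined to the face `2m+1` iff the prefix of length `b` of `w` is balanced; induction on `Dyck w`
(`ins i w`: `ext (ins i w) = ins (i+1) (ext w)`, `Phi_ins`: `Phi (n+1) (ins i w) = St.ins i (Phi n w)`, see
`H988R2.Perc.T14`; `ret`/`bal` of `ins`: heights). -/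

namespace Pool.Agent.H980R2.Cont

open Pool.Agent.H988R2.Perc Pool.Agent.H980R2.Cross Finset

namespace T16b

theorem ext_ins (i : ℕ) (w : Word) (hi : i ≤ w.length) : ext (ins i w) = ins (i+1) (ext w) := by
  unfold Cross.ext ins
  rw [List.take_succ_cons, List.drop_succ_cons, List.take_append_of_le_length hi,
    List.drop_append_of_le_length hi]
  simp

theorem dyck_ext {w : Word} (hw : Dyck w) : Dyck (ext w) := by
  induction hw with
  | nil => exact Dyck.ins 0 [] (by simp) Dyck.nil
  | ins i w hi _ ih =>
    rw [ext_ins i w hi]
    exact Dyck.ins (i+1) (ext w) (by simp [Cross.ext]; omega) ih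

theorem bal_ins_le {i b : ℕ} {w : Word} (hi : i ≤ w.length) (hb : b ≤ i) :
    bal (ins i w) b ↔ bal w b := by
  unfold bal ins
  rw [List.take_append_of_le_length (by simp; omega), List.take_take, min_eq_left hb]

theorem bal_ins_succ {i : ℕ} {w : Word} (hw : Dyck w) (hi : i ≤ w.length) :
    ¬ bal (ins i w) (i+1) := by
  unfold bal ins
  have h1 : (w.take i).length = i := by simp [hi]
  have h2 : i + 1 = (w.take i).length + 1 := by omega
  have h3 := dyck_prefix hw i
  rw [h2, List.take_length_add_append, List.take_succ_cons]
  simp only [List.take_zero, List.count_append, List.count_cons, List.count_nil]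
  simp only [beq_self_eq_true, if_true]
  simp
  omega

theorem bal_ins_ge {i b : ℕ} {w : Word} (hi : i ≤ w.length) (hb : i + 2 ≤ b) :
    bal (ins i w) b ↔ bal w (b - 2) := by
  unfold bal ins
  have h1 : (w.take i).length = i := by simp [hi]
  obtain ⟨k, rfl⟩ : ∃ k, b = i + (k + 2) := ⟨b - 2 - i, by omega⟩
  have h2 : i + (k + 2) = (w.take i).length + (k + 2) := by omega
  have h3 : w.take (i + k) = w.take i ++ (w.drop i).take k := by rw [List.take_add]
  have h4 : i + (k + 2) - 2 = i + k := by omega
  rw [h4, h3, h2, List.take_length_add_append]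
  simp only [List.take_succ_cons, List.count_append, List.count_cons]
  simp
  omega

theorem bal_full {w : Word} (hw : Dyck w) : bal w w.length := by
  unfold bal
  rw [List.take_length]
  exact dyck_count hw

theorem bal_even {w : Word} {b : ℕ} (hb : b ≤ w.length) (h : bal w b) : b % 2 = 0 := by
  unfold bal at h
  have h1 : (w.take b).length = b := by simp [hb]
  have h2 : (w.take b).count true + (w.take b).count false = (w.take b).length := by
    have := List.count_true_add_count_false (w.take b)
    exact this
  omega

end T16b

open T16b in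
theorem sh_phi (w : Word) (m : ℕ) (hw : Dyck w) (hl : w.length = 2*m) (b : ℕ) (hb : b % 2 = 0)
    (hb2 : b ≤ 2*m) : (Phi (m+1) (ext w)).rel (b+1) (2*m+1) ↔ bal w b := by
  induction hw generalizing m b with
  | nil =>
    have hm : m = 0 := by simp at hl; omega
    subst hm
    have hb0 : b = 0 := by omega
    subst hb0
    exact ⟨fun _ => by simp [bal], fun _ => (Phi (0+1) (ext [])).eqv.refl _⟩
  | ins i w hi hw ih =>
    rw [length_ins] at hl
    obtain ⟨k, rfl⟩ : ∃ k, m = k + 1 := ⟨m - 1, by omega⟩
    have hl' : w.length = 2 * k := by omega
    have hle : (ext w).length = 2 * (k+1) := by simp [Cross.ext]; omega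
    rw [ext_ins i w hi, Phi_ins (dyck_ext hw) hle (by omega), St.ins_rel]
    have hlow : St.low (i+1) (2*(k+1)+1) = 2*k+1 := by
      unfold St.low
      rw [if_neg (by omega)]
      omega
    rw [hlow]
    by_cases hb3 : b = 2*(k+1)
    · subst hb3
      constructor
      · intro _
        have h := bal_full (Dyck.ins i w hi hw)
        rw [length_ins] at h
        have e : 2 * (k+1) = w.length + 2 := by omega
        rw [e]; exact h
      · intro _
        exact Or.inl rfl
    · rcases Nat.lt_trichotomy b (i+1) with h | h | h
      · rw [bal_ins_le hi (by omega)]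
        have e : St.low (i+1) (b+1) = b+1 := by
          unfold St.low
          rw [if_pos (by omega)]
        rw [e, ih k hl' b hb (by omega)]
        constructor
        · rintro (h1 | ⟨_, _, _, _, h1⟩)
          · omega
          · exact h1
        · intro h1
          exact Or.inr ⟨by omega, by omega, by omega, by omega, h1⟩
      · subst h
        constructor
        · rintro (h1 | ⟨_, _, h1, _, _⟩)
          · omega
          · exact absurd rfl h1
        · intro h1
          exact absurd h1 (bal_ins_succ hw hi)
      · rw [bal_ins_ge hi (by omega)]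
        have e : St.low (i+1) (b+1) = (b-2)+1 := by
          unfold St.low
          rw [if_neg (by omega)]
          omega
        rw [e, ih k hl' (b-2) (by omega) (by omega)]
        constructor
        · rintro (h1 | ⟨_, _, _, _, h1⟩)
          · omega
          · exact h1
        · intro h1
          exact Or.inr ⟨by omega, by omega, by omega, by omega, h1⟩

open T16b in
theorem cnt_sh (L : ℕ) (hL : Odd L) (w : Word) (hw : Dyck w) (hl : w.length = L+1) :
    cnt L (sh (Phi ((L+1)/2+1) (ext w))) = ret w - 1 := by
  classical
  obtain ⟨k, rfl⟩ := hL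
  have e1 : (2 * k + 1 + 1) / 2 = k + 1 := by omega
  rw [e1]
  have hl2 : w.length = 2 * (k+1) := by omega
  have key : ∀ a, a < 2*k+1 → ((a % 2 = 1 ∧ (sh (Phi (k+1+1) (ext w))).rel a (2*k+1)) ↔ bal w (a+1)) := by
    intro a ha
    constructor
    · rintro ⟨h1, h2⟩
      rcases h2 with h2 | ⟨_, _, h3⟩
      · omega
      · have := (sh_phi w (k+1) hw hl2 (a+1) (by omega) (by omega)).1 (by
          have e : 2 * (k+1) + 1 = 2 * k + 1 + 2 := by omega
          rw [e]; exact h3)
        exact this
    · intro h
      have h1 := bal_even (b := a+1) (by omega) h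
      refine ⟨by omega, Or.inr ⟨by omega, by omega, ?_⟩⟩
      have := (sh_phi w (k+1) hw hl2 (a+1) (by omega) (by omega)).2 h
      have e : 2 * (k+1) + 1 = 2 * k + 1 + 2 := by omega
      rw [e] at this
      exact this
  have h1 : cnt (2*k+1) (sh (Phi (k+1+1) (ext w))) = ((range (2*k+1)).filter (fun a => bal w (a+1))).card := by
    unfold cnt
    congr 1
    apply Finset.filter_congr
    intro a ha
    exact key a (Finset.mem_range.1 ha)
  have h2 : ret w = ((range (2*k+1)).filter (fun a => bal w (a+1))).card + 1 := by
    unfold ret
    rw [hl, List.range_succ, List.filter_append, List.length_append]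
    have h3 : bal w (2*k+1+1) := by
      have := bal_full hw
      rw [hl] at this
      exact this
    have h4 : (List.filter (fun k => decide (bal w (k+1))) [2*k+1]).length = 1 := by
      simp [h3]
    rw [h4]
    congr 1
  rw [h1, h2]
  rfl

end Pool.Agent.H980R2.Cont
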