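import Pool.Agent.H980R2.Cont.T16
import Pool.Agent.H980R2.Cont.T15
import Pool.Agent.H988R2.Perc.T20
import Pool.Agent.H988R2.Perc.T24
import Pool.Agent.H980R2.Cross.T18
import Pool.Agent.H980R2.Cross.T22

/-! T17: stationarity of `vL L` (`L` odd) and the limit law.

`vL_fix` is the analogue of `stationary` (`H988R2.Perc.T20`) with the letter `0` in front, for `PsiX`
(`PsiX_exch, PsiX_inv1, PsiX_invN, PsiX_right, PsiX_left` in `H980R2.Cross.T18`; `PsiX_rec`:
`PsiX (u ++ x::(q²x)::v) = fac x (u++v) • mapDomain (St.ins (u.length+1)) (PsiX (u++v))`, prove it like `Psi_rec`, using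
`ext (ins i w) = ins (i+1) (ext w)`).
Steps (`x = -q²`, `q² x = -q`, `l = replicate L 1`, everything under `mapDomain sh`, using T16):
1. `fac x (0::l) • mapDomain (St.ins 2) (PsiX (0::l)) = PsiX (0::(-q²)::(-q)::l)`, `fac ≠ 0`.
2. `fwd L`: `PsiX (0::(-q²)::(l ++ [-q]))` (`PsiX_right`, prefix length `2, 3, …`: tile `i` of `fwd` is the tile `i+2`).
3. `PsiX_invN`: `= (-q)^(L+1) PsiX (0::(-q²)::(l ++ [-q²]))`.
4. `bwd L`: `PsiX (0::(-q²)::(-q²)::l)` (`PsiX_left`).
5. inversion of the second letter if the first is `0`: `PsiX (0::x::v) = x^(v.length) • PsiX (0::x⁻¹::v)`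
   (from `PsiX_exch` with `y = 0`: `PsiX (0::x::v) = -q PsiX (x::0::v) - q² mapDomain (act 1) (PsiX (x::0::v))`, for
   `x ≠ 0`, and `PsiX_inv1`): `= (-q²)^(L+1) PsiX (0::(-q)::(-q²)::l)`; total factor `(q³)^(L+1) = 1`.
6. `PsiX_exch` (`x = -q`, `y = -q²`): `PsiX (0::(-q²)::(-q)::l) = mapDomain (act 2) (PsiX (0::(-q)::(-q²)::l))`; as
   `cap 2 ∘ act 2 = cap 2`, `cap 2` of the vector of step 5 is `fac • mapDomain (cap 2 ∘ ins 2) (PsiX (0::l))`, and
   `cap 2 (ins 2 R) = R` for the states in question.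
`Jk_law`: `conv_abs` (`H980R2.Cross.T22`) with `T = Tvec L`, `Dob` and `gT` from `H988R2.Perc.T24` (`dob_Tvec`, `gT_bot`,
`BdV.Tvec`), `s0 = St.bot`, `J = Jk L k`; support of `vL L`: `PsiX_supp`.  `Jk L k (vL L) = Q n k` (`L = 2n+1`) by
`cnt_sh` (T16) and `1 ≤ ret w`; `mass (vL L) = Z (0 :: replicate L 1)` (`mass_PsiX`). -/

namespace Pool.Agent.H980R2.Cont

open Pool.Agent.H988R2.Perc Pool.Agent.H980R2.Cross Finset Filter Topology

namespace T17

theorem PsiX_rec (u v : List ℂ) (x : ℂ) (h : Even (u.length + v.length)) :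
    PsiX (u ++ x :: (q^2 * x) :: v) =
      fac x (u ++ v) • Finsupp.mapDomain (St.ins (u.length + 1)) (PsiX (u ++ v)) := by
  obtain ⟨m, hm⟩ := h.exists_two_nsmul
  rw [smul_eq_mul] at hm
  have hl1 : (u ++ x :: (q^2 * x) :: v).length = 2 * (m+1) := by simp; omega
  have hl2 : (u ++ v).length = 2 * m := by simp; omega
  rw [PsiX_eq hl1, PsiX_eq hl2, Finsupp.mapDomain_finsetSum, Finset.smul_sum]
  have h1 : ∀ w ∈ LP (2*(m+1)),
      Finsupp.single (Phi (m+1+1) (ext w)) (Fw w (u ++ x :: (q^2 * x) :: v)) =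
      ∑ w' ∈ LP (2*m), (if ins u.length w' = w then
        fac x (u ++ v) • Finsupp.single (Phi (m+1+1) (ext w)) (Fw w' (u ++ v)) else 0) := by
    intro w hw
    rw [Fw_rec hw u v x (by omega), Finset.mul_sum, Finsupp.single_finsetSum]
    refine Finset.sum_congr rfl fun w' _ => ?_
    split_ifs
    · rw [Finsupp.smul_single, smul_eq_mul]
    · rw [mul_zero, Finsupp.single_zero]
  rw [Finset.sum_congr rfl h1, Finset.sum_comm]
  refine Finset.sum_congr rfl fun w' hw' => ?_
  have hw1 := mem_LP.1 hw'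
  have hmem : ins u.length w' ∈ LP (2*(m+1)) :=
    mem_LP.2 ⟨by rw [length_ins, hw1.1]; ring, (dyck_ins_iff (by omega)).2 hw1.2⟩
  have hl3 : (ext w').length = 2 * (m + 1) := by rw [length_ext, hw1.1]; ring
  rw [Finset.sum_ite_eq, if_pos hmem, Finsupp.mapDomain_single, ext_ins (by omega),
    Phi_ins (ext_dyck hw1.2) hl3 (by omega)]

/-- inversion of the second letter if the first one is `0` -/
theorem PsiX_inv2 (x : ℂ) (v : List ℂ) (hx : x ≠ 0) (h : Even v.length) :
    PsiX (0 :: x :: v) = x^(v.length) • PsiX (0 :: x⁻¹ :: v) := by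
  classical
  set e : (St →₀ ℂ) → (St →₀ ℂ) := Finsupp.mapDomain (St.act 1) with he
  have hsmul : ∀ (c : ℂ) f, e (c • f) = c • e f := fun c f => Finsupp.mapDomain_smul c f
  have hq3 := q_cube
  have hexch : ∀ x : ℂ, x ≠ 0 → PsiX (0 :: x :: v) =
      (-q) • PsiX (x :: 0 :: v) + (-q^2) • e (PsiX (x :: 0 :: v)) := by
    intro x hx
    have h1 := PsiX_exch [] v x 0 (by simpa using h)
    simp only [List.nil_append, List.length_nil, zero_add] at h1
    have h2 : (q * x) • PsiX (0 :: x :: v) = (q * x) • ((-q) • PsiX (x :: 0 :: v) +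
        (-q^2) • e (PsiX (x :: 0 :: v))) := by
      have h3 : (q * x - q^2 * 0) = q * x := by ring
      rw [h3] at h1
      rw [h1, smul_add, smul_smul, smul_smul]
      congr 2
      · ring
      · linear_combination x * hq3
    have h4 : q * x ≠ 0 := mul_ne_zero q_ne_zero hx
    exact smul_right_injective _ h4 h2
  have hfirst := PsiX_inv1 x (0 :: v) hx (by simp only [List.length_cons]; exact Even.add_one h)
  have hlen : ((0:ℂ) :: v).length - 1 = v.length := by simp
  rw [hlen] at hfirst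
  rw [hexch x hx, hexch x⁻¹ (inv_ne_zero hx), hfirst, hsmul, smul_comm (-q), smul_comm (-q^2),
    ← smul_add]

theorem S_tile (i : ℕ) (f : St →₀ ℂ) :
    Finsupp.mapDomain sh (tile (i+2) f) = tile i (Finsupp.mapDomain sh f) := by
  unfold tile
  rw [T20.mapDomain_lin, Finsupp.mapDomain_add, ← Finsupp.mapDomain_comp, ← Finsupp.mapDomain_comp]
  congr 3
  funext R
  exact sh_act i R

theorem S_fwd (L : ℕ) (f : St →₀ ℂ) :
    Finsupp.mapDomain sh (fwV 3 L f) = fwd L (Finsupp.mapDomain sh f) := by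
  induction L with
  | zero => rfl
  | succ L ih =>
    simp only [fwd, fwV]
    rw [← ih]
    exact S_tile (L+1) _

theorem S_bwd (L : ℕ) (f : St →₀ ℂ) :
    Finsupp.mapDomain sh (bwV 3 L f) = bwd L (Finsupp.mapDomain sh f) := by
  induction L generalizing f with
  | zero => rfl
  | succ L ih =>
    simp only [bwd, bwV]
    rw [ih]
    congr 1
    exact S_tile (L+1) _

theorem S_ins (f : St →₀ ℂ) :
    Finsupp.mapDomain (St.ins 0) (Finsupp.mapDomain sh f) =
      Finsupp.mapDomain sh (Finsupp.mapDomain (St.ins 2) f) := by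
  rw [← Finsupp.mapDomain_comp, ← Finsupp.mapDomain_comp]
  congr 1
  funext R
  exact (sh_ins R).symm

theorem S_cap (f : St →₀ ℂ) :
    Finsupp.mapDomain (St.cap 0) (Finsupp.mapDomain sh f) =
      Finsupp.mapDomain sh (Finsupp.mapDomain (St.cap 2) f) := by
  rw [← Finsupp.mapDomain_comp, ← Finsupp.mapDomain_comp]
  congr 1
  funext R
  exact (sh_cap R).symm

theorem fwV_eq (L : ℕ) (hL : Odd L) (k : ℕ) (hk : k ≤ L) :
    PsiX (0 :: (-q^2) :: List.replicate k 1 ++ (-q) :: (List.replicate (L-k) 1)) =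
      fwV 3 k (PsiX (0 :: (-q^2) :: (-q) :: (List.replicate L 1))) := by
  induction k with
  | zero => simp [fwV]
  | succ k ih =>
    have ih' := ih (by omega)
    simp only [fwV]
    rw [← ih']
    obtain ⟨m, hm⟩ : ∃ m, L - k = m + 1 := ⟨L - k - 1, by omega⟩
    have hm' : L - (k+1) = m := by omega
    rw [hm, hm']
    have hu : (0 :: (-q^2) :: List.replicate k (1:ℂ)).length + 1 = k + 3 := by simp
    have key := PsiX_right (0 :: (-q^2) :: List.replicate k (1:ℂ)) (List.replicate m 1) (by
      simp only [List.length_cons, List.length_replicate]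
      obtain ⟨t, ht⟩ := hL
      exact ⟨t + 1, by omega⟩)
    rw [hu] at key
    have e1 : 0 :: (-q^2) :: List.replicate (k+1) (1:ℂ) ++ (-q) :: (List.replicate m 1)
        = (0 :: (-q^2) :: List.replicate k (1:ℂ)) ++ 1 :: (-q) :: (List.replicate m 1) := by
      rw [List.replicate_succ']; simp
    have e2 : 0 :: (-q^2) :: List.replicate k (1:ℂ) ++ (-q) :: (List.replicate (m+1) 1)
        = (0 :: (-q^2) :: List.replicate k (1:ℂ)) ++ (-q) :: 1 :: (List.replicate m 1) := by
      rw [List.replicate_succ]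
    rw [e1, e2]
    exact key

theorem bwV_eq (L : ℕ) (hL : Odd L) (k : ℕ) (hk : k ≤ L) :
    bwV 3 k (PsiX (0 :: (-q^2) :: List.replicate k 1 ++ (-q^2) :: (List.replicate (L-k) 1))) =
      PsiX (0 :: (-q^2) :: (-q^2) :: (List.replicate L 1)) := by
  induction k with
  | zero => simp [bwV]
  | succ k ih =>
    have ih' := ih (by omega)
    simp only [bwV]
    rw [← ih']
    obtain ⟨m, hm⟩ : ∃ m, L - k = m + 1 := ⟨L - k - 1, by omega⟩
    have hm' : L - (k+1) = m := by omega
    rw [hm, hm']
    have hu : (0 :: (-q^2) :: List.replicate k (1:ℂ)).length + 1 = k + 3 := by simp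
    have key := PsiX_left (0 :: (-q^2) :: List.replicate k (1:ℂ)) (List.replicate m 1) (by
      simp only [List.length_cons, List.length_replicate]
      obtain ⟨t, ht⟩ := hL
      exact ⟨t + 1, by omega⟩)
    rw [hu] at key
    have e1 : 0 :: (-q^2) :: List.replicate (k+1) (1:ℂ) ++ (-q^2) :: (List.replicate m 1)
        = (0 :: (-q^2) :: List.replicate k (1:ℂ)) ++ 1 :: (-q^2) :: (List.replicate m 1) := by
      rw [List.replicate_succ']; simp
    have e2 : 0 :: (-q^2) :: List.replicate k (1:ℂ) ++ (-q^2) :: (List.replicate (m+1) 1)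
        = (0 :: (-q^2) :: List.replicate k (1:ℂ)) ++ (-q^2) :: 1 :: (List.replicate m 1) := by
      rw [List.replicate_succ]
    rw [e1, e2]
    rw [key]

theorem fac_ne (L : ℕ) : fac (-q^2) (0 :: List.replicate L 1) ≠ 0 := by
  unfold fac
  rw [List.map_cons, List.prod_cons, List.map_replicate, List.prod_replicate]
  have h4 := T20.q4
  have hq := q_ne_zero
  apply mul_ne_zero
  · have : (-q^2 - q^2 * 0) * (-q^2 * 0 - q^2) = q := by
      linear_combination h4
    rw [this]
    exact hq
  · apply pow_ne_zero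
    have : (-q^2 - q^2 * 1) * (-q^2 * 1 - q^2) = 4 * q := by
      linear_combination 4 * h4
    rw [this]
    exact mul_ne_zero (by norm_num) hq

end T17

open T17 T20 in
theorem vL_fix (L : ℕ) (hL : Odd L) : Tvec L (vL L) = vL L := by
  have hLe : Even (L + 1) := hL.add_one
  set l0 : List ℂ := List.replicate L 1 with hl0
  set v0 := PsiX (0 :: l0) with hv0
  have hlen : l0.length = L := by simp [hl0]
  have h4 := q4
  have h3 := q_cube
  have hqs := q_spec
  have hq := q_ne_zero
  -- recursion at the start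
  have hrec : PsiX (0 :: (-q^2) :: (-q) :: l0) =
      fac (-q^2) (0 :: l0) • Finsupp.mapDomain (St.ins 2) v0 := by
    have := PsiX_rec [0] l0 (-q^2) (by
      rw [hlen, List.length_singleton, add_comm]; exact hLe)
    have e : q^2 * (-q^2) = -q := by linear_combination -h4
    rw [e] at this
    exact this
  -- forward
  have hf := fwV_eq L hL L le_rfl
  rw [Nat.sub_self] at hf
  simp only [List.replicate_zero] at hf
  -- inversion of the last variable
  have hinv : PsiX (0 :: (-q^2) :: List.replicate L 1 ++ [(-q)]) =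
      (-q)^(L+1) • PsiX (0 :: (-q^2) :: List.replicate L 1 ++ [(-q^2)]) := by
    have := PsiX_invN (-q) (0 :: (-q^2) :: List.replicate L 1) (neg_ne_zero.mpr hq)
      (by
        simp only [List.length_cons, List.length_replicate]
        exact hLe.add_one)
    have e : (-q)⁻¹ = -q^2 := by
      rw [inv_eq_iff_eq_inv]
      have : (-q^2) ≠ 0 := neg_ne_zero.mpr (pow_ne_zero _ hq)
      apply mul_right_cancel₀ this
      rw [inv_mul_cancel₀ this]
      linear_combination h3
    have e5 : (0 :: (-q^2) :: List.replicate L (1:ℂ)).length - 1 = L + 1 := by simp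
    rw [e, e5] at this
    exact this
  have hb := bwV_eq L hL L le_rfl
  rw [Nat.sub_self] at hb
  simp only [List.replicate_zero] at hb
  -- inversion of the second variable
  have hinv1 : PsiX (0 :: (-q^2) :: (-q^2) :: l0) =
      (-q^2)^(L+1) • PsiX (0 :: (-q) :: (-q^2) :: l0) := by
    have := PsiX_inv2 (-q^2) ((-q^2) :: l0) (neg_ne_zero.mpr (pow_ne_zero _ hq))
      (by simp only [List.length_cons, hlen]; exact hLe)
    have e : (-q^2)⁻¹ = -q := by
      rw [inv_eq_iff_eq_inv]
      have : (-q) ≠ 0 := neg_ne_zero.mpr hq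
      apply mul_right_cancel₀ this
      rw [inv_mul_cancel₀ this]
      linear_combination h3
    have e5 : ((-q^2) :: l0).length = L + 1 := by simp only [List.length_cons, hlen]
    rw [e, e5] at this
    exact this
  -- exchange
  have hexch : PsiX (0 :: (-q^2) :: (-q) :: l0) =
      Finsupp.mapDomain (St.act 2) (PsiX (0 :: (-q) :: (-q^2) :: l0)) := by
    have := PsiX_exch [0] l0 (-q) (-q^2) (by
      rw [hlen, List.length_singleton, add_comm]; exact hLe)
    have e1 : q * (-q) - q^2 * (-q^2) = -q^2 + q := by linear_combination h4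
    have e2 : q * (-q^2) - q^2 * (-q) = 0 := by ring
    have e3 : (-q^2) - (-q) = -q^2 + q := by ring
    rw [e1, e2, e3, zero_smul, zero_add] at this
    have hne : -q^2 + q ≠ 0 := by
      intro h
      have h1 : q * (1 - q) = 0 := by linear_combination h
      rcases mul_eq_zero.mp h1 with h2 | h2
      · exact hq h2
      · exact q_ne_one (by linear_combination -h2)
    have h5 := congrArg (fun f => (-q^2 + q)⁻¹ • f) this
    simp only [smul_smul, inv_mul_cancel₀ hne, one_smul] at h5
    exact h5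
  -- cancel ins 2
  have hact : ∀ g : St →₀ ℂ, Finsupp.mapDomain (St.act 2) g =
      Finsupp.mapDomain (St.ins 2) (Finsupp.mapDomain (St.cap 2) g) := by
    intro g
    rw [← Finsupp.mapDomain_comp]
    congr 1
    funext R
    exact St.act_eq 2 R
  have hcap : Finsupp.mapDomain (St.cap 2) (PsiX (0 :: (-q) :: (-q^2) :: l0)) =
      fac (-q^2) (0 :: l0) • v0 := by
    apply Finsupp.mapDomain_injective (St.ins_inj 2)
    rw [← hact, ← hexch, hrec, mapDomain_lin]
  -- conclusion
  have hmain : fac (-q^2) (0 :: l0) • Tvec L (vL L) = fac (-q^2) (0 :: l0) • vL L := by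
    rw [← Tvec_smul]
    have e0 : vL L = Finsupp.mapDomain sh v0 := rfl
    rw [e0, ← mapDomain_lin]
    unfold Tvec
    rw [S_ins, ← S_fwd, ← S_bwd, S_cap, mapDomain_lin (St.ins 2), ← hrec, ← hf]
    have e1 : 0 :: (-q^2) :: List.replicate L (1:ℂ) ++ (-q) :: [] =
      0 :: (-q^2) :: List.replicate L 1 ++ [(-q)] := rfl
    rw [e1, hinv, bwV_smul, hb, hinv1, smul_smul, mapDomain_lin (St.cap 2), hcap]
    have e3 : (-q)^(L+1) * (-q^2)^(L+1) = 1 := by
      rw [← mul_pow]
      have : -q * -q^2 = 1 := by linear_combination h3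
      rw [this, one_pow]
    rw [e3, one_smul]
  have hne : fac (-q^2) (0 :: l0) ≠ 0 := fac_ne L
  have h5 := congrArg (fun f => (fac (-q^2) (0 :: l0))⁻¹ • f) hmain
  simp only [smul_smul, inv_mul_cancel₀ hne, one_smul] at h5
  exact h5

end Pool.Agent.H980R2.Cont
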