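import Pool.Agent.H980R2.Cont.T17
import Pool.Agent.H980R2.Cont.T16b

/-! T17b: the limit law of the chain. -/

namespace Pool.Agent.H980R2.Cont

open Pool.Agent.H988R2.Perc Pool.Agent.H980R2.Cross Finset Filter Topology

namespace T17b

open Pool.Agent.H988R2.Perc.T24

theorem Jk_add (L k : ℕ) (f g : St →₀ ℂ) : Jk L k (f + g) = Jk L k f + Jk L k g := by
  classical
  unfold Jk
  exact Finsupp.sum_add_index' (fun _ => by split_ifs <;> rfl)
    (fun _ _ _ => by split_ifs <;> simp)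

theorem Jk_smul (L k : ℕ) (c : ℂ) (f : St →₀ ℂ) : Jk L k (c • f) = c * Jk L k f := by
  classical
  unfold Jk
  rw [Finsupp.sum_smul_index' (fun _ => by split_ifs <;> rfl), Finsupp.mul_sum]
  refine Finsupp.sum_congr fun R _ => ?_
  split_ifs
  · rfl
  · rw [mul_zero]

theorem Jk_zero (L k : ℕ) : Jk L k 0 = 0 := by
  unfold Jk
  exact Finsupp.sum_zero_index

theorem Jk_single (L k : ℕ) (R : St) (c : ℂ) :
    Jk L k (Finsupp.single R c) = if cnt L R = k then c else 0 := by
  unfold Jk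
  rw [Finsupp.sum_single_index (by split_ifs <;> rfl)]

theorem Jk_sum {ι : Type*} (L k : ℕ) (s : Finset ι) (f : ι → St →₀ ℂ) :
    Jk L k (∑ i ∈ s, f i) = ∑ i ∈ s, Jk L k (f i) := by
  classical
  induction s using Finset.induction_on with
  | empty => simp [Jk_zero]
  | insert a s ha ih => rw [Finset.sum_insert ha, Finset.sum_insert ha, Jk_add, ih]

theorem Jk_le (L k : ℕ) (f : St →₀ ℂ) : ‖Jk L k f‖ ≤ nrm f := by
  unfold Jk nrm
  rw [Finsupp.sum, Finsupp.sum]
  refine (norm_sum_le _ _).trans (Finset.sum_le_sum fun R _ => ?_)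
  split_ifs
  · exact le_rfl
  · rw [norm_zero]; exact norm_nonneg _

theorem ret_pos {w : Word} (hw : Dyck w) (hl : 0 < w.length) : 1 ≤ ret w := by
  unfold ret
  rw [Nat.one_le_iff_ne_zero, Ne, List.length_eq_zero_iff]
  intro h
  have hmem : w.length - 1 ∈ (List.range w.length).filter (fun k => bal w (k+1)) := by
    rw [List.mem_filter]
    refine ⟨List.mem_range.2 (by omega), ?_⟩
    have e : w.length - 1 + 1 = w.length := by omega
    rw [decide_eq_true_eq, e]
    unfold bal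
    rw [List.take_length]
    exact dyck_count hw
  rw [h] at hmem
  simp at hmem

theorem vL_supp {L : ℕ} (hL : Odd L) : T22.Cl (Bd (L+1)) (vL L) := by
  unfold vL
  have h1 : T22.Cl (fun R => ∀ a b, R.rel a b → a = b ∨ (a < L + 3 ∧ b < L + 3))
      (PsiX (0 :: List.replicate L 1)) := by
    intro R hR a b hab
    have hev : Even ((0:ℂ) :: List.replicate L (1:ℂ)).length := by
      have : ((0:ℂ) :: List.replicate L (1:ℂ)).length = L + 1 := by simp
      rw [this]
      exact hL.add_one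
    have h := (PsiX_supp _ hev R hR).2 a b hab
    simpa using h
  refine h1.map ?_
  rintro R hR a b (h | ⟨-, -, h⟩)
  · exact Or.inl h
  · rcases hR _ _ h with h2 | h2
    · left; omega
    · right; omega

theorem mass_vL (L : ℕ) : mass (vL L) = Z (0 :: List.replicate L 1) := by
  unfold vL
  rw [T24.mass_mapDomain, mass_PsiX]

theorem Jk_vL (n k : ℕ) : Jk (2*n+1) k (vL (2*n+1)) = Q n k := by
  have hlen : ((0:ℂ) :: List.replicate (2*n+1) (1:ℂ)).length = 2*(n+1) := by simp; omega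
  have hzn : (zn n).length = 2*(n+1) := hlen
  unfold vL Q lin
  rw [PsiX_eq hlen, Finsupp.mapDomain_finsetSum, Jk_sum, hzn]
  refine Finset.sum_congr rfl fun w hw => ?_
  have hw1 := mem_LP.1 hw
  rw [Finsupp.mapDomain_single, Jk_single]
  have hodd : Odd (2*n+1) := ⟨n, rfl⟩
  have hc := cnt_sh (2*n+1) hodd w hw1.2 (by rw [hw1.1]; ring)
  have e : (2*n+1+1)/2+1 = n+1+1 := by omega
  rw [e] at hc
  rw [hc]
  have hr := ret_pos hw1.2 (by rw [hw1.1]; omega)
  show (if ret w - 1 = k then Fw w (zn n) else 0) = (if ret w = k + 1 then (1:ℂ) else 0) * Fw w (zn n)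
  by_cases h : ret w = k + 1
  · rw [if_pos h, if_pos (by omega), one_mul]
  · rw [if_neg h, if_neg (by omega), zero_mul]

end T17b

open Pool.Agent.H988R2.Perc.T24 in
theorem Jk_law (n k : ℕ) :
    Tendsto (fun M => Jk (2*n+1) k (law (2*n+1) M)) atTop (𝓝 (Q n k / Z (zn n))) := by
  have hodd : Odd (2*n+1) := ⟨n, rfl⟩
  have hε : (0:ℝ) < (1/2)^(2*n+1) * (1/2)^(2*n+1) := by positivity
  have hm : mass (vL (2*n+1)) = Z (zn n) := T17b.mass_vL _
  have h := T22.conv_abs (dob_Tvec (2*n+1)) hε (C := Bd (2*n+1+1))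
    (fun f hf => BdV.Tvec hf) (R0 := St.bot) (fun R hR => gT_bot hodd hR)
    (vL_fix _ hodd) (T17b.vL_supp hodd) (by rw [hm]; exact Z_zn_ne n) (s0 := St.bot)
    (fun a b h => Or.inl h) (J := Jk (2*n+1) k) (T17b.Jk_add _ _) (T17b.Jk_smul _ _) (K := 1)
    zero_le_one (fun f => by rw [one_mul]; exact T17b.Jk_le _ _ f)
  rw [hm, T17b.Jk_vL] at h
  exact h

end Pool.Agent.H980R2.Cont
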