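import Pool.Agent.H980R2.Cont.Defs
import Pool.Agent.H988R2.Perc.T22
import Pool.Agent.H988R2.Perc.T23

/-! T18: percolation.

`perc_cnt`: the bits `oPast ω M k i` (`k < 2M`, `1 ≤ i ≤ L`) are independent fair bits (`T23`: `X_past`, `law_eq`,
`edgeOf_inj`; compare `perc_cell`, `perc_win`), and `law_eq` writes `law L M` as the average over the subsets `t` of
`SS L M` of the point masses at `X L (actBit (bits t)) M`. -/

namespace Pool.Agent.H980R2.Cont

open Pool.Agent.H988R2.Perc Pool.Agent.H980R2.Cross Finset Filter Topology MeasureTheory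

open Classical in
theorem T18_Jk (L k : ℕ) (f : St →₀ ℂ) : Jk L k f =
    Finsupp.linearCombination ℂ (fun R => if cnt L R = k then (1:ℂ) else 0) f := by
  unfold Jk
  rw [Finsupp.linearCombination_apply]
  apply Finsupp.sum_congr
  intro x _
  rw [smul_eq_mul]
  split_ifs <;> simp

open Classical in
/-- the good cells -/
noncomputable def T18_good (L k M : ℕ) : Finset (Finset (ℕ × ℕ) × Finset (ℕ × ℕ)) :=
  ((T23.SS L M).powerset.filter (fun t => cnt L (X L (actBit (T23.bits t)) M) = k)) ×ˢ
    (T23.SS L M).powerset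

theorem T18_mem {L k M : ℕ} {p : Finset (ℕ × ℕ) × Finset (ℕ × ℕ)} : p ∈ T18_good L k M ↔
    (p.1 ⊆ T23.SS L M ∧ cnt L (X L (actBit (T23.bits p.1)) M) = k) ∧ p.2 ⊆ T23.SS L M := by
  classical
  unfold T18_good
  rw [Finset.mem_product, Finset.mem_filter, Finset.mem_powerset, Finset.mem_powerset]

theorem perc_cnt (L k M : ℕ) :
    ((perc.real {ω | cnt L (X L (actBit (oPast ω M)) M) = k} : ℝ) : ℂ) = Jk L k (law L M) := by
  classical
  have hset : {ω | cnt L (X L (actBit (oPast ω M)) M) = k} =
      ⋃ p ∈ T18_good L k M, T23.cell L M p := by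
    ext ω
    simp only [Set.mem_ofPred_eq, Set.mem_iUnion, exists_prop]
    rw [T23.X_past]
    constructor
    · intro h
      refine ⟨(T23.tP L M ω, T23.tF L M ω), ?_, rfl, rfl⟩
      rw [T18_mem]
      exact ⟨⟨filter_subset _ _, h⟩, filter_subset _ _⟩
    · rintro ⟨⟨p1, p2⟩, hp, h1, h2⟩
      simp only at h1 h2
      subst h1 h2
      rw [T18_mem] at hp
      exact hp.1.2
  rw [hset, measureReal_biUnion_finset]
  · have h1 : ∀ p ∈ T18_good L k M, perc.real (T23.cell L M p) = (1/2 : ℝ)^(2 * (2*M*L)) := by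
      intro p hp
      rw [T18_mem] at hp
      rw [measureReal_def, T23.perc_cell L M p hp.1.1 hp.2]
      simp
    rw [Finset.sum_congr rfl h1, Finset.sum_const, nsmul_eq_mul, T18_good, Finset.card_product,
      Finset.card_powerset, T18_Jk, T23.law_eq, map_smul, map_sum]
    simp only [Finsupp.linearCombination_single, smul_eq_mul, one_mul]
    rw [Finset.sum_boole]
    have hc : (T23.SS L M).card = 2 * M * L := by
      unfold T23.SS
      rw [card_product, card_range, Nat.card_Icc, Nat.add_sub_cancel]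
    rw [hc]
    push_cast
    rw [two_mul (2 * M * L), pow_add]
    have h2 : (2:ℂ) ^ (2 * M * L) * (1 / 2) ^ (2 * M * L) = 1 := by
      rw [← mul_pow]
      norm_num
    linear_combination ((((T23.SS L M).powerset.filter
      (fun t => cnt L (X L (actBit (T23.bits t)) M) = k)).card : ℂ) * (1 / 2) ^ (2 * M * L)) * h2
  · intro p _ p' _ hne
    rw [Function.onFun, Set.disjoint_left]
    rintro ω ⟨h1, h2⟩ ⟨h3, h4⟩
    exact hne (Prod.ext (h1.symm.trans h3) (h2.symm.trans h4))
  · intro p hp
    rw [T18_mem] at hp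
    exact T23.measurableSet_cell L M p hp.1.1 hp.2

end Pool.Agent.H980R2.Cont
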