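import Pool.Agent.H980R2.Cont.T18

/-! T18b: percolation.

`perc_cnt`: the bits `oPast ω M k i` (`k < 2M`, `1 ≤ i ≤ L`) are independent fair bits (`T23`: `X_past`, `law_eq`,
`edgeOf_inj`; compare `perc_cell`, `perc_win`), and `law_eq` writes `law L M` as the average over the subsets `t` of
`SS L M` of the point masses at `X L (actBit (bits t)) M`.
`touch_iff`: `T22.past_iff` with `b = L`: `(X …).rel a L` iff `(a,0)` is joined to `(L,0)` in the window
`-2M ≤ r < 0` with the column `L` wired, i.e. joined to some vertex of the column `L` by open edges of the window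
(the wiring is only used at the end: cut an `EqvGen` path at its first visit of the column `L`); the coordinates
are `(column, time) = (u - v, u + v - 1)` (`T22.toZ`), times `≤ 0` are `u + v ≤ 1`; compare `iUnion_win`, `win_mono`.
The vertices of the flat end are `((a+1)/2, (1-a)/2)`, `a` odd, `0 ≤ a < L`.
`cnt` is nondecreasing in `M`, bounded by `L`, and for every `ω` eventually equal to `(touch L ω).ncard` (a path is
finite); so the indicators of `cnt = k` converge pointwise to that of `ncard = k`; dominated convergence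
(measurability: `cnt` depends on finitely many bits; the limit set is measurable as a pointwise limit). -/

namespace Pool.Agent.H980R2.Cont

open Pool.Agent.H988R2.Perc Pool.Agent.H980R2.Cross Finset Filter Topology MeasureTheory

/-- the vertex of the flat end in the column `a` -/
def T18b.pt (a : ℕ) : ℤ × ℤ := T22.toZ ((a : ℤ), 0)

/-- coordinates (column, time) of a vertex -/
def T18b.ct (x : ℤ × ℤ) : ℤ × ℤ := (x.1 - x.2, x.1 + x.2 - 1)

theorem T18b.ct_pt (a : ℕ) (ha : a % 2 = 1) : T18b.ct (T18b.pt a) = ((a : ℤ), 0) := by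
  unfold T18b.ct T18b.pt T22.toZ
  apply Prod.ext <;> dsimp only <;> omega

theorem T18b.toZ_sum (p : ℤ × ℤ) (h : (p.1 + p.2) % 2 = 1) :
    (T22.toZ p).1 + (T22.toZ p).2 = p.2 + 1 := by
  unfold T22.toZ; dsimp only; omega

/-- an open edge of the half-infinite strip belongs to a large past window -/
theorem T18b.open_part (L : ℕ) (ω : Conf) (x y : ℤ × ℤ) (h : OpenAdj ω x y)
    (hx : InStrip L x) (hy : InStrip L y) (M : ℕ)
    (hM : |x.1 + x.2| + |y.1 + y.2| + 1 ≤ (M : ℤ)) :
    Relation.EqvGen (T22.EP L (-(2 * (M : ℤ))) 0 ω) (T18b.ct x) (T18b.ct y) := by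
  have hb1 := abs_le.mp (le_refl |x.1 + x.2|)
  have hb2 := abs_le.mp (le_refl |y.1 + y.2|)
  have key : ∀ a b : ℤ × ℤ, GAdj L M ω a b → b.2 ≤ 0 → T22.EP L (-(2 * (M : ℤ))) 0 ω a b := by
    intro a b hab hb
    rcases (T22.gadj_iff L M ω a b).1 hab with h1 | h1
    · exact Or.inl h1
    · obtain ⟨f1, f2, f3, f4, f5, f6, f7, f8, f9⟩ := T22.gpart_facts h1
      omega
  obtain ⟨hx0, hx1, hx2⟩ := hx
  obtain ⟨hy0, hy1, hy2⟩ := hy
  unfold T18b.ct
  obtain ⟨x1, x2⟩ := x
  obtain ⟨y1, y2⟩ := y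
  dsimp only at *
  rcases h with ⟨e, h⟩ | ⟨e, h⟩ | ⟨e, h⟩ | ⟨e, h⟩
  · simp only [Prod.mk.injEq] at e
    obtain ⟨rfl, rfl⟩ := e
    exact Relation.EqvGen.rel _ _ (key _ _ (T22.gadj_h L M ω _ _ h (by omega) (by omega) (by omega)
      (by omega)) (by dsimp only; omega))
  · simp only [Prod.mk.injEq] at e
    obtain ⟨rfl, rfl⟩ := e
    exact Relation.EqvGen.symm _ _ (Relation.EqvGen.rel _ _ (key _ _ (T22.gadj_h L M ω _ _ h
      (by omega) (by omega) (by omega) (by omega)) (by dsimp only; omega)))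
  · simp only [Prod.mk.injEq] at e
    obtain ⟨rfl, rfl⟩ := e
    exact Relation.EqvGen.rel _ _ (key _ _ (T22.gadj_v L M ω _ _ h (by omega) (by omega) (by omega)
      (by omega)) (by dsimp only; omega))
  · simp only [Prod.mk.injEq] at e
    obtain ⟨rfl, rfl⟩ := e
    exact Relation.EqvGen.symm _ _ (Relation.EqvGen.rel _ _ (key _ _ (T22.gadj_v L M ω _ _ h
      (by omega) (by omega) (by omega) (by omega)) (by dsimp only; omega)))

theorem T18b.ep_mono (L : ℕ) (ω : Conf) {M M' : ℕ} (h : M ≤ M') (a b : ℤ × ℤ)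
    (hab : T22.EP L (-(2 * (M : ℤ))) 0 ω a b) : T22.EP L (-(2 * (M' : ℤ))) 0 ω a b := by
  rcases hab with ⟨i, r, h1, h2, h3, h4, h5, h6⟩ | hab
  · exact Or.inl ⟨i, r, h1, h2, by omega, h4, h5, h6⟩
  · exact Or.inr hab

theorem T18b.joined_part (L : ℕ) (ω : Conf) (x y : ℤ × ℤ) (h : Joined L ω x y) :
    ∃ M₀ : ℕ, ∀ M, M₀ ≤ M →
      Relation.EqvGen (T22.EP L (-(2 * (M : ℤ))) 0 ω) (T18b.ct x) (T18b.ct y) := by
  unfold Joined at h
  induction h with
  | refl => exact ⟨0, fun M _ => Relation.EqvGen.refl _⟩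
  | tail _ hs ih =>
    rename_i y z _
    obtain ⟨M₁, h1⟩ := ih
    obtain ⟨ho, s1, s2⟩ := hs
    refine ⟨M₁ + (|y.1 + y.2| + |z.1 + z.2| + 1).toNat, fun M hM => ?_⟩
    refine Relation.EqvGen.trans _ _ _ (h1 M (by omega)) (T18b.open_part L ω y z ho s1 s2 M ?_)
    have := Int.self_le_toNat (|y.1 + y.2| + |z.1 + z.2| + 1)
    omega

/-- the flat vertex `a` touches if it is related to `L` in some window -/
theorem T18b.touch_of_rel (L : ℕ) (hL : Odd L) (ω : Conf) (M a : ℕ) (ha : a % 2 = 1) (haL : a < L)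
    (h : (X L (actBit (oPast ω M)) M).rel a L) : T18b.pt a ∈ touch L ω := by
  have hL1 : L % 2 = 1 := Nat.odd_iff.mp hL
  rw [T22.past_iff L hL M ω a L ha hL1 haL.le le_rfl] at h
  by_contra hc
  have hc' : ∀ y : ℤ × ℤ, y.1 - y.2 = (L : ℤ) → ¬ Joined L ω (T18b.pt a) y := by
    intro y hy hj
    apply hc
    refine ⟨?_, ?_, ?_, y, hy, hj⟩
    · have := T18b.toZ_sum ((a : ℤ), 0) (by dsimp only; omega)
      simpa [T18b.pt] using this
    · have := T22.toZ_diff ((a : ℤ), 0) (by dsimp only; omega)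
      unfold T18b.pt
      rw [this]; dsimp only; omega
    · have := T22.toZ_diff ((a : ℤ), 0) (by dsimp only; omega)
      unfold T18b.pt
      rw [this]; dsimp only; omega
  let P : ℤ × ℤ → Prop := fun p => (p.1 + p.2) % 2 = 1 ∧ Joined L ω (T18b.pt a) (T22.toZ p)
  have wired : ∀ p : ℤ × ℤ, p.1 = L → ¬ P p := by
    rintro p hp ⟨h1, h2⟩
    exact hc' (T22.toZ p) (by rw [T22.toZ_diff p h1, hp]) h2
  have key : P ((a : ℤ), 0) ↔ P ((L : ℤ), 0) := by
    refine T22.eqvGen_iff P ?_ h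
    rintro p p' (h1 | ⟨h1, h2⟩)
    · obtain ⟨f1, f2, f3, f4, f5, f6, f7, f8, f9⟩ := T22.gpart_facts h1
      have ho := T22.gadj_open ((T22.gadj_iff L M ω p p').2 (Or.inl h1))
      have d1 := T22.toZ_diff p f4
      have d2 := T22.toZ_diff p' f5
      have e1 := T18b.toZ_sum p f4
      have e2 := T18b.toZ_sum p' f5
      have s1 : InStrip L (T22.toZ p) := ⟨by omega, by omega, by omega⟩
      have s2 : InStrip L (T22.toZ p') := ⟨by omega, by omega, by omega⟩
      constructor
      · rintro ⟨_, h3⟩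
        exact ⟨f5, Relation.ReflTransGen.tail h3 ⟨ho, s1, s2⟩⟩
      · rintro ⟨_, h3⟩
        exact ⟨f4, Relation.ReflTransGen.tail h3 ⟨T22.openAdj_symm ho, s2, s1⟩⟩
    · exact ⟨fun h => absurd h (wired p h1), fun h => absurd h (wired p' h2)⟩
  have hP1 : P ((a : ℤ), 0) := ⟨by dsimp only; omega, Relation.ReflTransGen.refl⟩
  exact wired _ rfl (key.1 hP1)

/-- a touching flat vertex is related to `L` in all large windows -/
theorem T18b.rel_of_touch (L : ℕ) (hL : Odd L) (ω : Conf) (a : ℕ) (ha : a % 2 = 1) (haL : a < L)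
    (h : T18b.pt a ∈ touch L ω) : ∃ M₀ : ℕ, ∀ M, M₀ ≤ M →
      (X L (actBit (oPast ω M)) M).rel a L := by
  have hL1 : L % 2 = 1 := Nat.odd_iff.mp hL
  obtain ⟨_, _, _, y, hy, hj⟩ := h
  obtain ⟨M₀, h0⟩ := T18b.joined_part L ω _ _ hj
  refine ⟨M₀, fun M hM => ?_⟩
  rw [T22.past_iff L hL M ω a L ha hL1 haL.le le_rfl]
  have h1 := h0 M hM
  rw [T18b.ct_pt a ha] at h1
  refine Relation.EqvGen.trans _ _ _ h1 (Relation.EqvGen.rel _ _ (Or.inr ⟨?_, rfl⟩))
  unfold T18b.ct
  dsimp only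
  omega

open Classical in
/-- the columns of the touching flat vertices -/
noncomputable def T18b.A (L : ℕ) (ω : Conf) : Finset ℕ :=
  (range L).filter (fun a => a % 2 = 1 ∧ T18b.pt a ∈ touch L ω)

theorem T18b.mem_A (L : ℕ) (ω : Conf) (a : ℕ) :
    a ∈ T18b.A L ω ↔ a < L ∧ a % 2 = 1 ∧ T18b.pt a ∈ touch L ω := by
  classical
  unfold T18b.A
  simp only [Finset.mem_filter, Finset.mem_range]

theorem T18b.touch_eq (L : ℕ) (ω : Conf) : touch L ω = T18b.pt '' (T18b.A L ω : Set ℕ) := by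
  ext x
  constructor
  · intro hx
    obtain ⟨h1, h2, h3, _⟩ := id hx
    have e : T18b.pt (x.1 - x.2).toNat = x := by
      unfold T18b.pt T22.toZ
      apply Prod.ext <;> dsimp only <;> omega
    refine ⟨(x.1 - x.2).toNat, ?_, e⟩
    rw [Finset.mem_coe, T18b.mem_A]
    refine ⟨by omega, by omega, ?_⟩
    rw [e]; exact hx
  · rintro ⟨a, ha, rfl⟩
    rw [Finset.mem_coe, T18b.mem_A] at ha
    exact ha.2.2

theorem T18b.ncard_eq (L : ℕ) (ω : Conf) : (touch L ω).ncard = (T18b.A L ω).card := by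
  rw [T18b.touch_eq, Set.InjOn.ncard_image, Set.ncard_coe_finset]
  intro a ha b hb hab
  rw [Finset.mem_coe, T18b.mem_A] at ha hb
  have h1 := T18b.ct_pt a ha.2.1
  have h2 := T18b.ct_pt b hb.2.1
  have hab' : T18b.pt a = T18b.pt b := hab
  rw [hab', h2] at h1
  have := congrArg Prod.fst h1
  dsimp only at this
  omega

theorem touch_finite (L : ℕ) (ω : Conf) : (touch L ω).Finite := by
  rw [T18b.touch_eq]
  exact (Finset.finite_toSet _).image _

theorem touch_eventually (L : ℕ) (hL : Odd L) (ω : Conf) :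
    ∀ᶠ M in atTop, cnt L (X L (actBit (oPast ω M)) M) = (touch L ω).ncard := by
  have h1 : ∀ᶠ M : ℕ in atTop, ∀ a ∈ range L, a % 2 = 1 →
      ((X L (actBit (oPast ω M)) M).rel a L ↔ T18b.pt a ∈ touch L ω) := by
    rw [Filter.eventually_all_finset]
    intro a ha
    rw [Finset.mem_range] at ha
    by_cases h : a % 2 = 1
    · by_cases ht : T18b.pt a ∈ touch L ω
      · obtain ⟨M₀, h0⟩ := T18b.rel_of_touch L hL ω a h ha ht
        filter_upwards [eventually_ge_atTop M₀] with M hM _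
        exact ⟨fun _ => ht, fun _ => h0 M hM⟩
      · refine Filter.Eventually.of_forall fun M _ => ?_
        exact ⟨fun hr => T18b.touch_of_rel L hL ω M a h ha hr, fun hr => absurd hr ht⟩
    · exact Filter.Eventually.of_forall fun M h' => absurd h' h
  filter_upwards [h1] with M hM
  rw [T18b.ncard_eq]
  unfold cnt
  apply congrArg Finset.card
  ext a
  rw [T18b.mem_A]
  simp only [Finset.mem_filter]
  constructor
  · rintro ⟨h2, h3, h4⟩
    exact ⟨Finset.mem_range.1 h2, h3, (hM a h2 h3).1 h4⟩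
  · rintro ⟨h2, h3, h4⟩
    exact ⟨Finset.mem_range.2 h2, h3, (hM a (Finset.mem_range.2 h2) h3).2 h4⟩

/-- at most `n` vertices for `L = 2n+1` -/
theorem touch_le (n : ℕ) (ω : Conf) : (touch (2*n+1) ω).ncard ≤ n := by
  rw [T18b.ncard_eq]
  have h : (T18b.A (2*n+1) ω).card ≤ (range n).card := by
    apply Finset.card_le_card_of_injOn (fun a => a / 2)
    · intro a ha
      rw [Finset.mem_coe, T18b.mem_A] at ha
      rw [Finset.mem_coe, Finset.mem_range]
      obtain ⟨h1, h2, _⟩ := ha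
      show a / 2 < n
      omega
    · intro a ha b hb hab
      rw [Finset.mem_coe, T18b.mem_A] at ha hb
      have h1 := ha.2.1
      have h2 := hb.2.1
      have hab' : a / 2 = b / 2 := hab
      omega
  rwa [Finset.card_range] at h

end Pool.Agent.H980R2.Cont
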