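import Pool.Agent.H980R2.Cont.T18
import Pool.Agent.H980R2.Cont.T18b

/-! T18c: percolation, the limit `M → ∞` of the counts.

`cnt` is for every `ω` eventually equal to `(touch L ω).ncard`; so the indicators of `cnt = k` converge pointwise to
that of `ncard = k`; dominated convergence (measurability: `cnt` depends on finitely many bits; the limit set is
measurable as a pointwise limit). -/

namespace Pool.Agent.H980R2.Cont

open Pool.Agent.H988R2.Perc Pool.Agent.H980R2.Cross Finset Filter Topology MeasureTheory

namespace T18c

open T23 in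
theorem measurableSet_tP (L M : ℕ) (t : Finset (ℕ × ℕ)) : MeasurableSet {ω : Conf | tP L M ω = t} := by
  by_cases ht : t ⊆ T23.SS L M
  · have h : {ω : Conf | tP L M ω = t} =
        ⋂ j ∈ T23.SS L M, {ω : Conf | ω (eP M j) = decide (j ∈ t)} := by
      ext ω
      simp only [Set.mem_ofPred_eq, Set.mem_iInter]
      constructor
      · intro h j hj
        subst h
        simp only [tP, mem_filter, hj, true_and]
        cases ω (eP M j) <;> simp
      · intro h
        ext j
        simp only [tP, mem_filter]
        constructor
        · rintro ⟨hj, h1⟩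
          rw [h j hj] at h1
          exact of_decide_eq_true h1
        · intro hj
          refine ⟨ht hj, ?_⟩
          rw [h j (ht hj)]
          exact decide_eq_true hj
    rw [h]
    refine Finset.measurableSet_biInter _ (fun j _ => ?_)
    exact (measurable_pi_apply (eP M j)) (measurableSet_singleton _)
  · have h : {ω : Conf | tP L M ω = t} = ∅ := by
      ext ω
      simp only [Set.mem_ofPred_eq, Set.mem_empty_iff_false, iff_false]
      intro h
      exact ht (h ▸ filter_subset _ _)
    rw [h]
    exact MeasurableSet.empty

open T23 in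
open Classical in
theorem measurableSet_cnt (L M k : ℕ) :
    MeasurableSet {ω : Conf | cnt L (X L (actBit (oPast ω M)) M) = k} := by
  have h : {ω : Conf | cnt L (X L (actBit (oPast ω M)) M) = k} =
      ⋃ t ∈ (T23.SS L M).powerset.filter (fun t => cnt L (X L (actBit (bits t)) M) = k),
        {ω : Conf | tP L M ω = t} := by
    ext ω
    simp only [Set.mem_ofPred_eq, Set.mem_iUnion, mem_filter, mem_powerset, exists_prop]
    rw [X_past]
    constructor
    · intro h
      exact ⟨tP L M ω, ⟨filter_subset _ _, h⟩, rfl⟩
    · rintro ⟨t, ⟨_, h⟩, rfl⟩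
      exact h
  rw [h]
  exact Finset.measurableSet_biUnion _ (fun t _ => measurableSet_tP L M t)

end T18c

theorem measurable_touch (L : ℕ) (hL : Odd L) (k : ℕ) :
    MeasurableSet {ω : Conf | (touch L ω).ncard = k} := by
  have h : {ω : Conf | (touch L ω).ncard = k} =
      ⋃ M0 : ℕ, ⋂ M : ℕ, ⋂ _ : M0 ≤ M, {ω : Conf | cnt L (X L (actBit (oPast ω M)) M) = k} := by
    ext ω
    simp only [Set.mem_ofPred_eq, Set.mem_iUnion, Set.mem_iInter]
    obtain ⟨M1, h1⟩ := eventually_atTop.mp (touch_eventually L hL ω)
    constructor
    · intro h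
      exact ⟨M1, fun M hM => (h1 M hM).trans h⟩
    · rintro ⟨M0, h0⟩
      rw [← h1 (max M0 M1) (le_max_right _ _)]
      exact h0 _ (le_max_left _ _)
  rw [h]
  exact MeasurableSet.iUnion (fun M0 => MeasurableSet.iInter (fun M => MeasurableSet.iInter
    (fun _ => T18c.measurableSet_cnt L M k)))

theorem perc_touch (L : ℕ) (hL : Odd L) (k : ℕ) :
    Tendsto (fun M => perc.real {ω | cnt L (X L (actBit (oPast ω M)) M) = k}) atTop
      (𝓝 (perc.real {ω | (touch L ω).ncard = k})) := by
  have h := tendsto_measure_of_tendsto_indicator_of_isFiniteMeasure (μ := perc) (L := atTop)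
    (As := fun M => {ω | cnt L (X L (actBit (oPast ω M)) M) = k})
    (A := {ω | (touch L ω).ncard = k}) (fun M => T18c.measurableSet_cnt L M k)
    (fun ω => by
      filter_upwards [touch_eventually L hL ω] with M hM
      simp only [hM])
  exact (ENNReal.tendsto_toReal (measure_ne_top _ _)).comp h

end Pool.Agent.H980R2.Cont
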