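import Pool.Agent.H980R2.Cont.T18c
import Pool.Agent.H980R2.Cont.T17b
import Pool.Agent.H980R2.Cont.T14
import Pool.Agent.H980R2.Cont.T17
import Pool.Agent.H980R2.Cont.T18

/-! T19: the exact law.  T14, T15, T17, T18: `perc.real {…= k} → ` both sides; `Q n k / Z (zn n) = tl n k / tot n`. -/

namespace Pool.Agent.H980R2.Cont

open Pool.Agent.H988R2.Perc Pool.Agent.H980R2.Cross Finset Filter Topology MeasureTheory

theorem exact_law (n : ℕ) (hn : 1 ≤ n) (k : ℕ) (hk : k ≤ n) :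
    perc.real {ω | (touch (2*n+1) ω).ncard = k} = tl n k / tot n := by
  have hodd : Odd (2*n+1) := ⟨n, rfl⟩
  have h1 := perc_touch (2*n+1) hodd k
  have h2 : Tendsto (fun M => ((perc.real
      {ω | cnt (2*n+1) (X (2*n+1) (actBit (oPast ω M)) M) = k} : ℝ) : ℂ)) atTop
      (𝓝 ((perc.real {ω | (touch (2*n+1) ω).ncard = k} : ℝ) : ℂ)) :=
    (Complex.continuous_ofReal.tendsto _).comp h1
  have h3 : Tendsto (fun M => ((perc.real
      {ω | cnt (2*n+1) (X (2*n+1) (actBit (oPast ω M)) M) = k} : ℝ) : ℂ)) atTop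
      (𝓝 (Q n k / Z (zn n))) := by
    simp only [perc_cnt]
    exact Jk_law n k
  have h4 := tendsto_nhds_unique h2 h3
  obtain ⟨c, hc1, hc2⟩ := Q_tail n hn
  have hZ := Z_zn_ne n
  have hc : c ≠ 0 := by
    rintro rfl
    rw [zero_mul] at hc2
    exact hZ hc2
  have h5 : Q n k / Z (zn n) = ((tl n k / tot n : ℝ) : ℂ) := by
    rw [hc1 k hk, hc2, mul_div_mul_left _ _ hc]
    push_cast
    rfl
  rw [h5] at h4
  exact_mod_cast h4

/-- the flat end has `n` vertices -/
theorem T19_ncard_le (n : ℕ) (ω : Conf) : (touch (2*n+1) ω).ncard ≤ n := by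
  have hsub : touch (2*n+1) ω ⊆ ((range n).image (fun j : ℕ => ((j : ℤ) + 1, -(j : ℤ))) :
      Finset (ℤ × ℤ)) := by
    rintro ⟨a, b⟩ ⟨h1, h2, h3, _⟩
    simp only at h1 h2 h3
    push_cast at h3
    rw [Finset.mem_coe, Finset.mem_image]
    refine ⟨(-b).toNat, ?_, ?_⟩
    · rw [mem_range]
      omega
    · refine Prod.ext ?_ ?_ <;> simp only <;> omega
  refine (Set.ncard_le_ncard hsub (Finset.finite_toSet _)).trans ?_
  rw [Set.ncard_coe_finset]
  exact card_image_le.trans (card_range n).le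

/-- distribution function -/
theorem exact_cdf (n : ℕ) (hn : 1 ≤ n) (m : ℝ) (hm : 0 ≤ m) :
    perc.real {ω | (((touch (2*n+1) ω).ncard : ℕ) : ℝ) ≤ m} =
      (∑ k ∈ (range (n+1)).filter (fun k : ℕ => (k : ℝ) ≤ m), tl n k) / tot n := by
  have hodd : Odd (2*n+1) := ⟨n, rfl⟩
  have h1 : {ω : Conf | (((touch (2*n+1) ω).ncard : ℕ) : ℝ) ≤ m} =
      ⋃ k ∈ (range (n+1)).filter (fun k : ℕ => (k : ℝ) ≤ m),
        {ω : Conf | (touch (2*n+1) ω).ncard = k} := by
    ext ω
    simp only [Set.mem_setOf_eq, Set.mem_iUnion, mem_filter, mem_range, exists_prop]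
    constructor
    · intro h
      exact ⟨_, ⟨Nat.lt_succ_of_le (T19_ncard_le n ω), h⟩, rfl⟩
    · rintro ⟨k, ⟨_, h⟩, rfl⟩
      exact h
  rw [h1, measureReal_biUnion_finset ?_ (fun k _ => measurable_touch (2*n+1) hodd k), sum_div]
  · refine sum_congr rfl fun k hk => ?_
    rw [mem_filter, mem_range] at hk
    exact exact_law n hn k (by omega)
  · intro i _ j _ hij
    rw [Function.onFun, Set.disjoint_left]
    intro ω h h'
    simp only [Set.mem_setOf_eq] at h h'
    exact hij (h.symm.trans h')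

end Pool.Agent.H980R2.Cont
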