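import Pool.Agent.H980R2.Cont.Defs

/-! T20: asymptotics of `dl`.

The factor `φ_n(i) = 2(2n+2i+3)(n-i)/((2n-i-1)(2n+i+4)) = 1 - (3i+4)(i-1)/(4n²+6n-i²-5i-4)`, so for `1 ≤ i ≤ n`,
`n ≥ 2`: `0 ≤ φ_n(i) ≤ 1 - (3i+4)(i-1)/(4n²+6n) ≤ exp(-(3i+4)(i-1)/(4n²+6n))` [denominator positive and `≤ 4n²+6n`].
Sum: `Σ_{i<s} (3i+4)(i-1) = Σ (3i²+i-4) ≥ c s³ - C`, so `dl n s ≤ s(s+1) exp(-c s³/n² + C)` (`dl_le`). -/

namespace Pool.Agent.H980R2.Cont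

open Finset Filter Topology

theorem T20_sum (k : ℕ) : ∑ i ∈ Icc 1 k, 3 * (i : ℝ) * ((i : ℝ) - 1) = ((k : ℝ) + 1) * k * (k - 1) := by
  induction k with
  | zero => simp
  | succ k ih =>
    rw [Finset.sum_Icc_succ_top (by omega), ih]
    push_cast
    ring

theorem T20_factor (n i : ℕ) (hi : 1 ≤ i) (hin : i < n) :
    0 ≤ (2 * (2*(n:ℝ) + 2*i + 3) * ((n:ℝ) - i)) / ((2*(n:ℝ) - i - 1) * (2*n + i + 4)) ∧
    (2 * (2*(n:ℝ) + 2*i + 3) * ((n:ℝ) - i)) / ((2*(n:ℝ) - i - 1) * (2*n + i + 4)) ≤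
      Real.exp (-(3 * (i : ℝ) * ((i : ℝ) - 1) / (10 * (n:ℝ) ^ 2))) := by
  have hi' : (1 : ℝ) ≤ i := by exact_mod_cast hi
  have hin' : (i : ℝ) + 1 ≤ n := by exact_mod_cast hin
  have hn1 : (1 : ℝ) ≤ n := by linarith
  have hD1 : 0 < 2*(n:ℝ) - i - 1 := by linarith
  have hD2 : 0 < 2*(n:ℝ) + i + 4 := by linarith
  have hD : 0 < (2*(n:ℝ) - i - 1) * (2*n + i + 4) := mul_pos hD1 hD2
  refine ⟨by apply div_nonneg _ hD.le; apply mul_nonneg; positivity; linarith, ?_⟩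
  have h1 : (2 * (2*(n:ℝ) + 2*i + 3) * ((n:ℝ) - i)) / ((2*(n:ℝ) - i - 1) * (2*n + i + 4)) ≤
      1 - 3 * (i : ℝ) * ((i : ℝ) - 1) / (10 * (n:ℝ) ^ 2) := by
    rw [div_le_iff₀ hD]
    have h2 : 0 ≤ 3 * (i : ℝ) * ((i : ℝ) - 1) := by
      apply mul_nonneg; positivity; linarith
    have h3 : (2*(n:ℝ) - i - 1) * (2*n + i + 4) ≤ 10 * (n:ℝ) ^ 2 := by nlinarith
    have h4 : 3 * (i : ℝ) * ((i : ℝ) - 1) / (10 * (n:ℝ) ^ 2) * ((2*(n:ℝ) - i - 1) * (2*n + i + 4)) ≤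
        3 * (i : ℝ) * ((i : ℝ) - 1) := by
      rw [div_mul_eq_mul_div, div_le_iff₀ (by positivity)]
      exact mul_le_mul_of_nonneg_left h3 h2
    have h5 : (2*(n:ℝ) - i - 1) * (2*n + i + 4) - 2 * (2*(n:ℝ) + 2*i + 3) * ((n:ℝ) - i) =
      3 * (i : ℝ) * ((i : ℝ) - 1) + 4 * ((i : ℝ) - 1) := by ring
    rw [sub_mul, one_mul]
    linarith
  refine h1.trans ?_
  have := Real.add_one_le_exp (-(3 * (i : ℝ) * ((i : ℝ) - 1) / (10 * (n:ℝ) ^ 2)))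
  linarith

theorem dl_le : ∃ c C : ℝ, 0 < c ∧ 0 < C ∧ ∀ n s : ℕ, 1 ≤ n → s ≤ n →
    dl n s ≤ C * (s:ℝ)^2 * Real.exp (-(c * (s:ℝ)^3 / (n:ℝ)^2)) := by
  refine ⟨1 / 10, 2 * Real.exp (3 / 10), by norm_num, by positivity, ?_⟩
  intro n s hn hs
  rcases Nat.eq_zero_or_pos s with rfl | hs0
  · simp [dl]
  obtain ⟨k, rfl⟩ : ∃ k, s = k + 1 := ⟨s - 1, by omega⟩
  have hn' : (0 : ℝ) < n := by exact_mod_cast hn
  have hprod : ∏ i ∈ Icc 1 k,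
      (2 * (2*(n:ℝ) + 2*i + 3) * ((n:ℝ) - i)) / ((2*(n:ℝ) - i - 1) * (2*n + i + 4)) ≤
      Real.exp (-((((k : ℝ) + 1) * k * (k - 1)) / (10 * (n:ℝ) ^ 2))) := by
    rw [← T20_sum, Finset.sum_div, ← Finset.sum_neg_distrib, Real.exp_sum]
    apply Finset.prod_le_prod
    · intro i hi
      rw [Finset.mem_Icc] at hi
      exact (T20_factor n i hi.1 (by omega)).1
    · intro i hi
      rw [Finset.mem_Icc] at hi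
      exact (T20_factor n i hi.1 (by omega)).2
  have hk : (k : ℝ) + 1 ≤ n := by exact_mod_cast hs
  have hk0 : (0 : ℝ) ≤ k := Nat.cast_nonneg k
  unfold dl
  rw [Nat.add_sub_cancel]
  push_cast
  have h1 : ((k : ℝ) + 1) * ((k : ℝ) + 1 + 1) ≤ 2 * ((k : ℝ) + 1) ^ 2 := by nlinarith
  have h2 : Real.exp (-((((k : ℝ) + 1) * k * (k - 1)) / (10 * (n:ℝ) ^ 2))) ≤
      Real.exp (3 / 10) * Real.exp (-(1 / 10 * ((k : ℝ) + 1) ^ 3 / (n:ℝ) ^ 2)) := by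
    rw [← Real.exp_add]
    apply Real.exp_le_exp.mpr
    have e : -((((k : ℝ) + 1) * k * (k - 1)) / (10 * (n:ℝ) ^ 2)) =
        -(1 / 10 * ((k : ℝ) + 1) ^ 3 / (n:ℝ) ^ 2) + (3 * ((k:ℝ) + 1) ^ 2 - 2 * ((k : ℝ) + 1)) / (10 * (n : ℝ) ^ 2) := by
      field_simp
      ring
    rw [e]
    have h3 : (3 * ((k:ℝ) + 1) ^ 2 - 2 * ((k : ℝ) + 1)) / (10 * (n : ℝ) ^ 2) ≤ 3 / 10 := by
      rw [div_le_iff₀ (by positivity)]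
      have : ((k : ℝ) + 1) ^ 2 ≤ (n : ℝ) ^ 2 := pow_le_pow_left₀ (by positivity) hk 2
      nlinarith
    linarith
  calc ((k : ℝ) + 1) * ((k : ℝ) + 1 + 1) * ∏ i ∈ Icc 1 k,
      (2 * (2*(n:ℝ) + 2*i + 3) * ((n:ℝ) - i)) / ((2*(n:ℝ) - i - 1) * (2*n + i + 4))
      ≤ ((k : ℝ) + 1) * ((k : ℝ) + 1 + 1) * Real.exp (-((((k : ℝ) + 1) * k * (k - 1)) / (10 * (n:ℝ) ^ 2))) :=
        mul_le_mul_of_nonneg_left hprod (by positivity)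
    _ ≤ (2 * ((k : ℝ) + 1) ^ 2) * (Real.exp (3 / 10) * Real.exp (-(1 / 10 * ((k : ℝ) + 1) ^ 3 / (n:ℝ) ^ 2))) :=
        mul_le_mul h1 h2 (Real.exp_pos _).le (by positivity)
    _ = 2 * Real.exp (3 / 10) * ((k : ℝ) + 1) ^ 2 * Real.exp (-(1 / 10 * ((k : ℝ) + 1) ^ 3 / (n:ℝ) ^ 2)) := by ring

end Pool.Agent.H980R2.Cont
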