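import Pool.Agent.H980R2.Cont.T20

/-! T21c: a Riemann sum lemma and the tails.

`riemann`: `r_n → ∞`, `a_n(k) ≥ 0`; `Σ_{k ≥ ⌈..⌉} a_n(k)/(r_n A_n) = ∫ a_n(⌊y r_n⌋)/A_n dy` over `y ≥ ⌊x r_n⌋/r_n`
(the integrand is constant on `[k/r_n, (k+1)/r_n)`), dominated convergence on `(x, ∞)`; the part of the integral
between `⌊x r_n⌋/r_n` and `x` tends to 0 by the bound `h`.
`tl_tendsto`: `a_n = dl n` (zero for `s > n`), `r_n = (2n+1)^{2/3}`, `A_n = (2n+1)^{4/3}`, `g(y) = y² e^{-y³}`,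
`∫_x^∞ y² e^{-y³} dy = e^{-x³}/3`; domination by `dl_le`.
`tl_le`: `tl n k ≤ C (2n+1)² exp(-c k³/n²)`.
(helper680) -/

namespace Pool.Agent.H980R2.Cont

open Finset Filter Topology MeasureTheory Set

/-- `s² e^{-c s³/n²}` is bounded by a telescoping difference -/
theorem tl_aux (c : ℝ) (hc : 0 < c) (n s : ℕ) (hn : 1 ≤ n) (hs : s ≤ n) :
    (s:ℝ)^2 * Real.exp (-(c * (s:ℝ)^3 / (n:ℝ)^2)) ≤ ((1 + 3 * c) / (3 * c)) * (n:ℝ)^2 *
      (Real.exp (-(c * (s:ℝ)^3 / (n:ℝ)^2)) - Real.exp (-(c * ((s+1:ℕ):ℝ)^3 / (n:ℝ)^2))) := by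
  have hn0 : (0:ℝ) < n := by exact_mod_cast hn
  have hn2 : (0:ℝ) < (n:ℝ)^2 := by positivity
  have hsn : (s:ℝ) ≤ n := by exact_mod_cast hs
  have hs0 : (0:ℝ) ≤ s := Nat.cast_nonneg s
  set x : ℝ := 3 * c * (s:ℝ)^2 / (n:ℝ)^2 with hx
  have hx0 : 0 ≤ x := by positivity
  have hx1 : x ≤ 3 * c := by
    rw [hx, div_le_iff₀ hn2]
    have : (s:ℝ)^2 ≤ (n:ℝ)^2 := pow_le_pow_left₀ hs0 hsn 2
    nlinarith
  have h1 : Real.exp (-(c * ((s+1:ℕ):ℝ)^3 / (n:ℝ)^2)) ≤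
      Real.exp (-(c * (s:ℝ)^3 / (n:ℝ)^2)) * Real.exp (-x) := by
    rw [← Real.exp_add]
    apply Real.exp_le_exp.2
    have h2 : c * ((s:ℝ)^3) / (n:ℝ)^2 + x ≤ c * ((s+1:ℕ):ℝ)^3 / (n:ℝ)^2 := by
      rw [hx, ← add_div]
      apply div_le_div_of_nonneg_right _ hn2.le
      push_cast
      nlinarith [mul_nonneg hc.le hs0]
    linarith
  have h3 : Real.exp (-x) ≤ 1 / (1 + x) := by
    rw [Real.exp_neg, ← one_div]
    apply one_div_le_one_div_of_le (by linarith)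
    linarith [Real.add_one_le_exp x]
  have h4 : x / (1 + 3 * c) ≤ 1 - Real.exp (-x) := by
    have h5 : x / (1 + 3 * c) ≤ x / (1 + x) := by
      apply div_le_div_of_nonneg_left hx0 (by linarith) (by linarith)
    have h6 : x / (1 + x) = 1 - 1 / (1 + x) := by
      field_simp
      ring
    linarith
  have hE : 0 < Real.exp (-(c * (s:ℝ)^3 / (n:ℝ)^2)) := Real.exp_pos _
  set E := Real.exp (-(c * (s:ℝ)^3 / (n:ℝ)^2)) with hEdef
  have h7 : E * (x / (1 + 3 * c)) ≤ E - Real.exp (-(c * ((s+1:ℕ):ℝ)^3 / (n:ℝ)^2)) := by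
    have := mul_le_mul_of_nonneg_left h4 hE.le
    nlinarith
  have h8 : (s:ℝ)^2 * E = ((1 + 3 * c) / (3 * c)) * (n:ℝ)^2 * (E * (x / (1 + 3 * c))) := by
    rw [hx]
    field_simp
  rw [h8]
  exact mul_le_mul_of_nonneg_left h7 (by positivity)

theorem tl_le : ∃ c C : ℝ, 0 < c ∧ 0 < C ∧ ∀ n k : ℕ, 1 ≤ n →
    tl n k ≤ C * (n:ℝ)^2 * Real.exp (-(c * (k:ℝ)^3 / (n:ℝ)^2)) := by
  obtain ⟨c, C, hc, hC, h⟩ := dl_le
  refine ⟨c, C * ((1 + 3 * c) / (3 * c)), hc, by positivity, fun n k hn => ?_⟩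
  set f : ℕ → ℝ := fun s => Real.exp (-(c * (s:ℝ)^3 / (n:ℝ)^2)) with hf
  have hn0 : (0:ℝ) < n := by exact_mod_cast hn
  rcases le_or_gt k (n+1) with hk | hk
  · have e1 : tl n k ≤ ∑ s ∈ Finset.Ico k (n+1),
        C * ((1 + 3 * c) / (3 * c)) * (n:ℝ)^2 * (f s - f (s+1)) := by
      unfold tl
      have e0 : Finset.Icc k n = Finset.Ico k (n+1) := by
        ext a
        rw [Finset.mem_Icc, Finset.mem_Ico]
        omega
      rw [e0]
      refine Finset.sum_le_sum fun s hs => ?_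
      rw [Finset.mem_Ico] at hs
      have hsn : s ≤ n := by omega
      refine (h n s hn hsn).trans ?_
      have := mul_le_mul_of_nonneg_left (tl_aux c hc n s hn hsn) hC.le
      calc C * (s:ℝ)^2 * Real.exp (-(c * (s:ℝ)^3 / (n:ℝ)^2))
          = C * ((s:ℝ)^2 * Real.exp (-(c * (s:ℝ)^3 / (n:ℝ)^2))) := by ring
        _ ≤ _ := this
        _ = _ := by
            rw [hf]
            ring
    have e2 : ∑ s ∈ Finset.Ico k (n+1),
        C * ((1 + 3 * c) / (3 * c)) * (n:ℝ)^2 * (f s - f (s+1)) =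
        C * ((1 + 3 * c) / (3 * c)) * (n:ℝ)^2 * (f k - f (n+1)) := by
      rw [← Finset.mul_sum, Finset.sum_Ico_eq_sum_range]
      have e3 := Finset.sum_range_sub' (fun i => f (k + i)) (n + 1 - k)
      have e4 : k + (n + 1 - k) = n + 1 := by omega
      simp only [add_zero, e4] at e3
      rw [← e3]
      rfl
    rw [e2] at e1
    refine e1.trans ?_
    apply mul_le_mul_of_nonneg_left _ (by positivity)
    have : 0 < f (n+1) := Real.exp_pos _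
    linarith
  · have e1 : tl n k = 0 := by
      unfold tl
      rw [Finset.Icc_eq_empty (by omega), Finset.sum_empty]
    rw [e1]
    positivity

end Pool.Agent.H980R2.Cont
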